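import Pool.Agent.Work.MP_ae1ff6_sh.InterfaceG

/-!
# Block ARX: arcs of the circle (helper4)
-/

open Topology Filter Set
open scoped ComplexConjugate

set_option autoImplicit false

namespace Pool.SH

open Pool.CG Pool.AR

theorem p_ARX (h1 : Stmt_ARL) : Stmt_ARX := by
  obtain ⟨rot, asym, tot, -⟩ := q_CYO
  refine ⟨?_, ?_, ?_⟩
  · intro p q z hpq
    by_cases hzp : z = p
    · exact Or.inl (Or.inl hzp)
    · by_cases hzq : z = q
      · exact Or.inl (Or.inr (Or.inl hzq))
      · rcases tot p z q (Ne.symm hzp) hzq hpq with h | h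
        · exact Or.inl (Or.inr (Or.inr h))
        · exact Or.inr (Or.inr (Or.inr (rot _ _ _ h)))
  · intro p q z hz hz'
    rcases hz with h | h | h
    · exact Or.inl h
    · exact Or.inr h
    · rcases hz' with h' | h' | h'
      · exact Or.inr h'
      · exact Or.inl h'
      · exact absurd (rot _ _ _ (rot _ _ _ h')) (asym _ _ _ h).1
  · intro p q r s hpq hrs hp hq
    obtain ⟨θ, inj, hmin, -, -, harc⟩ := h1 r
    have hlt : θ r < θ s := lt_of_le_of_ne (hmin s) (fun h => hrs (inj h))
    have hp1 : θ p ≤ θ s := (((harc r s p hlt).1).1 hp).2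
    have hq1 : θ q ≤ θ s := (((harc r s q hlt).1).1 hq).2
    have key : ∀ y, θ y ≤ θ s → y ∈ Arc r s := fun y hy =>
      ((harc r s y hlt).1).2 ⟨hmin y, hy⟩
    rcases lt_trichotomy (θ p) (θ q) with h | h | h
    · left
      intro y hy
      exact key y ((((harc p q y h).1).1 hy).2.trans hq1)
    · exact absurd (inj h) hpq
    · right
      intro y hy
      exact key y ((((harc q p y h).1).1 hy).2.trans hp1)

end Pool.SH
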