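import Pool.Agent.Work.MP_ae1ff6_sh.InterfaceG

/-!
# Realization of big mapping classes: block CNT

Connectedness of the tree of pieces.
-/

open Topology Filter Set
open scoped ComplexConjugate

set_option autoImplicit false

namespace Pool.SH

open Pool.CG Pool.AR

theorem p_CNT (h1 : Stmt_PC1) : Stmt_CNT := by
  intro ℱ L hP Φ P₀ hP₀ h0 hstep
  have key : ∀ n : ℕ, ∀ P ∈ ℱ, dS L P P₀ = n → Φ P := by
    intro n
    induction n using Nat.strong_induction_on with
    | _ n ih =>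
      intro P hPm hn
      by_cases hne : P = P₀
      · rw [hne]
        exact h0
      obtain ⟨p, q, hpq, hp, hq, hPA, hPB⟩ := hP.sep P hPm P₀ hP₀ hne
      have hqp := hP.symm p q hpq
      obtain ⟨P', hP'm, hq', hp', hP'A⟩ := hP.side q p hqp
      have hlt := (h1 ℱ L hP).2.2.1 P hPm P' hP'm P₀ hP₀ p q hpq ⟨hp, hq, hPA⟩ ⟨hq', hp', hP'A⟩ hPB
      have hΦ : Φ P' := ih _ (by rw [← hn]; exact hlt) P' hP'm rfl
      exact hstep P' hP'm P hPm q p hqp ⟨hq', hp', hP'A⟩ ⟨hp, hq, hPA⟩ hΦ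
  intro P hPm
  exact key _ P hPm rfl

end Pool.SH
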