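import Pool.Agent.Work.MP_ae1ff6_sh.InterfaceG

/-! # Block DV1: existence of the developing map -/

open Topology Filter Set
open scoped ComplexConjugate

set_option autoImplicit false

namespace Pool.SH

open Pool.CG Pool.AR

theorem DV1_at {p q v : Circle} (h : Ccw p v q) : At ({p, q, v} : Set Circle) p q := by
  refine ⟨by simp, by simp, ?_⟩
  intro y hy
  simp only [Set.mem_insert_iff, Set.mem_singleton_iff] at hy
  rcases hy with rfl | rfl | rfl
  · exact Or.inl rfl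
  · exact Or.inr (Or.inl rfl)
  · exact Or.inr (Or.inr h)

theorem DV1_third {p q v w : Circle} (h : Ccw p v q)
    (e : ({p, q, v} : Set Circle) = {p, q, w}) : v = w := by
  obtain ⟨-, h1, h2, -⟩ := q_CYO.2.1 p v q h
  have hv : v ∈ ({p, q, w} : Set Circle) := by
    rw [← e]
    simp
  simp only [Set.mem_insert_iff, Set.mem_singleton_iff] at hv
  rcases hv with hv | hv | hv
  · exact absurd hv.symm h1
  · exact absurd hv h2
  · exact hv

theorem p_DV1 (h1 : Stmt_PC1) (h2 : Stmt_GLV) (h3 : Stmt_TRV) : Stmt_DV1 := by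
  intro ℱ L hP hT z hz
  have key : ∀ p q : Circle, ∃ v : Circle, (p, q) ∈ L →
      Ccw p v q ∧ ({p, q, v} : Set Circle) ∈ ℱ := by
    intro p q
    by_cases hL : (p, q) ∈ L
    · obtain ⟨P, hPF, hp, hq, hs⟩ := hP.side p q hL
      obtain ⟨v, hv, e⟩ := h3 ℱ hT P hPF p q (hP.ne p q hL) ⟨hp, hq, hs⟩
      exact ⟨v, fun _ => ⟨hv, e ▸ hPF⟩⟩
    · exact ⟨p, fun h => absurd h hL⟩
  choose v hv using key
  have hb := (h1 ℱ L hP).2.1
  have uniq : ∀ p q v' : Circle, (p, q) ∈ L → Ccw p v' q → ({p, q, v'} : Set Circle) ∈ ℱ →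
      v' = v p q := by
    intro p q v' hL hc hF
    obtain ⟨h4, h5⟩ := hv p q hL
    exact DV1_third hc (hb _ hF _ h5 p q hL (DV1_at hc) (DV1_at h4))
  obtain ⟨m, d, -, -, hcy, hX⟩ := h2 ℱ L hP (fun _ x => x) v (fun p q => Real.exp (z p q))
    (fun P _ a _ b _ c _ h => h)
    (fun p q _ => ⟨by simp only [hz p q], Real.exp_pos _⟩)
    (by
      intro P hPF p q hL hA
      obtain ⟨h4, h5⟩ := hv p q hL
      have e := hb P hPF _ h5 p q hL hA (DV1_at h4)
      obtain ⟨-, h6, h7, -⟩ := q_CYO.2.1 p (v p q) q h4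
      refine ⟨?_, h6.symm, h7⟩
      rw [e]
      simp)
  refine ⟨d, hcy, ?_⟩
  intro p q v' w hL hv' hw hF hF'
  have e1 := uniq p q v' hL hv' hF
  have e2 := uniq q p w (hP.symm p q hL) hw (by rw [Set.insert_comm]; exact hF')
  rw [e1, e2]
  exact hX p q hL

end Pool.SH
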