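import Pool.Agent.Work.MP_ae1ff6_sh.InterfaceG

open Topology Filter Set
open scoped ComplexConjugate

set_option autoImplicit false

namespace Pool.SH

open Pool.CG Pool.AR

theorem GEX_fix (τ τ' : H) (x : Circle) (h : τ x = τ' x) : (τ⁻¹ * τ') x = x := by
  have h1 : (τ⁻¹ * τ') x = τ.symm (τ' x) := rfl
  rw [h1, ← h]
  exact τ.symm_apply_apply x

theorem p_GEX (hMBG : Stmt_MBG) (_hMXI : Stmt_MXI) (hTR3 : Stmt_TR3) (hRAT : Stmt_RAT) :
    Stmt_GEX := by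
  refine ⟨?_, ?_⟩
  · intro p q w p' q' v hc hc' t ht
    obtain ⟨_, n1, n2, n3⟩ := q_CYO.2.1 _ _ _ hc'
    have d1 : 0 < dist v p' := dist_pos.2 n1.symm
    have d2 : 0 < dist v q' := dist_pos.2 n2
    obtain ⟨y, hy, hρ⟩ := hRAT.1 q' p' n3.symm (t * dist v q' / dist v p') (by positivity)
    obtain ⟨_, n4, n5, n6⟩ := q_CYO.2.1 _ _ _ hy
    have d3 : 0 < dist y p' := dist_pos.2 n5
    obtain ⟨g, hg, g1, g2, g3⟩ := hTR3 q w p q' y p' hc hy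
    refine ⟨g, hg, g3, g1, ?_⟩
    rw [g2]
    unfold X
    rw [hρ]
    field_simp
  · intro τ τ' p q v w hτ hτ' hc hv1 hv2 e1 e2 hX
    have c1 : Ccw (τ q) (τ w) (τ p) := q_MOR.1 τ hτ _ _ _ hc
    have c2 : Ccw (τ' q) (τ' w) (τ' p) := q_MOR.1 τ' hτ' _ _ _ hc
    rw [← e1, ← e2] at c2
    obtain ⟨_, m1, m2, m3⟩ := q_CYO.2.1 _ _ _ c1
    obtain ⟨_, m4, m5, _⟩ := q_CYO.2.1 _ _ _ c2
    have d1 : 0 < dist v (τ p) := dist_pos.2 hv1
    have d2 : 0 < dist v (τ q) := dist_pos.2 hv2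
    have d3 : 0 < dist (τ w) (τ p) := dist_pos.2 m2
    have d4 : 0 < dist (τ' w) (τ p) := dist_pos.2 m5
    unfold X at hX
    rw [div_eq_div_iff (by positivity) (by positivity)] at hX
    have key : dist (τ w) (τ q) * dist (τ' w) (τ p) = dist (τ' w) (τ q) * dist (τ w) (τ p) := by
      have hpos : 0 < dist v (τ p) * dist v (τ q) := by positivity
      refine mul_left_cancel₀ hpos.ne' ?_
      linear_combination hX
    have hw : τ w = τ' w := hRAT.2 _ _ _ _ c1 c2 key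
    obtain ⟨_, n1, n2, n3⟩ := q_CYO.2.1 _ _ _ hc
    have h1 : τ⁻¹ * τ' = 1 := Pool.GC.mb3 _ (hMBG.2.1 _ _ (hMBG.2.2 _ hτ) hτ') q w p n1 n2 n3
      (GEX_fix τ τ' q e2) (GEX_fix τ τ' w hw) (GEX_fix τ τ' p e1)
    exact (inv_mul_eq_one.1 h1)

end Pool.SH
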