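import Pool.Agent.Work.MP_ae1ff6_sh.InterfaceG

/-! # Block GLV: the glueing theorem with prescribed shears -/

open Topology Filter Set
open scoped ComplexConjugate

set_option autoImplicit false

namespace Pool.SH

open Pool.CG Pool.AR

theorem GLV_X (p q v w : Circle) : X q p w v = X p q v w := by
  unfold X
  ring

theorem GLV_inv {g : H} (hg : IsMob g) : IsMob g⁻¹ := by
  obtain ⟨α, β, h⟩ := (Pool.GC.mb1.1 g).1 hg
  exact (Pool.GC.mb1.1 _).2 ⟨_, _, Pool.GC.mb2.2.1 g α β h⟩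

theorem p_GLV (h1 : Stmt_PC1) (h2 : Stmt_MXI) (h3 : Stmt_GEX) (h4 : Stmt_GLX) : Stmt_GLV := by
  classical
  intro ℱ L hL δ v t hδ ht hv
  obtain ⟨-, huni, -⟩ := h1 ℱ L hL
  have hsym := hL.symm
  have hside : ∀ p q, (p, q) ∈ L → ∃ P, P ∈ ℱ ∧ At P p q := by
    intro p q hpq
    obtain ⟨P, hP, a, b, c⟩ := hL.side p q hpq
    exact ⟨P, hP, a, b, c⟩
  choose! pc hpcF hpcA using hside
  have hpc : ∀ P ∈ ℱ, ∀ p q, (p, q) ∈ L → At P p q → P = pc p q := fun P hP p q hpq hA =>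
    huni P hP _ (hpcF p q hpq) p q hpq hA (hpcA p q hpq)
  have hcc : ∀ p q, (p, q) ∈ L → Ccw p (v p q) q := by
    intro p q hpq
    obtain ⟨a, b, c⟩ := hv _ (hpcF p q hpq) p q hpq (hpcA p q hpq)
    rcases (hpcA p q hpq).2.2 a with h | h | h
    · exact absurd h b
    · exact absurd h c
    · exact h
  have hcd : ∀ p q, (p, q) ∈ L → Ccw (δ (pc p q) p) (δ (pc p q) (v p q)) (δ (pc p q) q) := by
    intro p q hpq
    have hA := hpcA p q hpq
    exact hδ _ (hpcF p q hpq) p hA.1 _ (hv _ (hpcF p q hpq) p q hpq hA).1 q hA.2.1 (hcc p q hpq)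
  have hex : ∀ p q, (p, q) ∈ L → ∃ τ : H, IsMob τ ∧ τ (δ (pc q p) p) = δ (pc p q) p ∧
      τ (δ (pc q p) q) = δ (pc p q) q ∧
      X (δ (pc p q) p) (δ (pc p q) q) (δ (pc p q) (v p q)) (τ (δ (pc q p) (v q p))) = t p q := by
    intro p q hpq
    exact h3.1 _ _ _ _ _ _ (hcd q p (hsym p q hpq)) (hcd p q hpq) (t p q) (ht p q hpq).2
  choose! τ hτm hτp hτq hτX using hex
  have hinv : ∀ p q, (p, q) ∈ L → τ q p = (τ p q)⁻¹ := by
    intro p q hpq
    have hqp := hsym p q hpq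
    have hm := hτm p q hpq
    have e1 : (τ p q)⁻¹ (δ (pc p q) p) = δ (pc q p) p := by
      rw [← hτp p q hpq]; exact (τ p q).symm_apply_apply _
    have e2 : (τ p q)⁻¹ (δ (pc p q) q) = δ (pc q p) q := by
      rw [← hτq p q hpq]; exact (τ p q).symm_apply_apply _
    have hn := q_CYO.2.1 _ _ _ (hcd q p hqp)
    have e3 : τ p q ((τ p q)⁻¹ (δ (pc p q) (v p q))) = δ (pc p q) (v p q) :=
      (τ p q).apply_symm_apply _
    have e4 := (h2 (τ p q) hm).1 (δ (pc q p) q) (δ (pc q p) p) (δ (pc q p) (v q p))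
      ((τ p q)⁻¹ (δ (pc p q) (v p q)))
    rw [e3, hτq p q hpq, hτp p q hpq, GLV_X, hτX p q hpq] at e4
    have e5 := hτX q p hqp
    refine h3.2 (τ q p) (τ p q)⁻¹ (δ (pc p q) q) (δ (pc p q) p) (δ (pc q p) (v q p))
      (δ (pc p q) (v p q)) (hτm q p hqp) (GLV_inv hm) (hcd p q hpq) ?_ ?_ ?_ ?_ ?_
    · rw [hτp q p hqp]; exact hn.2.1.symm
    · rw [hτq q p hqp]; exact hn.2.2.1
    · rw [hτp q p hqp, e2]
    · rw [hτq q p hqp, e1]
    · rw [hτp q p hqp, hτq q p hqp, e5, ← e4]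
      exact (ht p q hpq).1.symm
  obtain ⟨m, d, hm, hd, hmt, hcy⟩ := h4 ℱ L hL δ τ hδ (fun p q hpq => ⟨hτm p q hpq, hinv p q hpq⟩)
    (by
      intro P hP P' hP' p q hpq hA hA'
      have hqp := hsym p q hpq
      rw [hpc P hP p q hpq hA, hpc P' hP' q p hqp hA']
      exact ⟨hτp p q hpq, hτq p q hpq⟩)
  refine ⟨m, d, hm, hd, hcy, ?_⟩
  intro p q hpq
  have hqp := hsym p q hpq
  have hP := hpcF p q hpq
  have hP' := hpcF q p hqp
  have hA := hpcA p q hpq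
  have hA' := hpcA q p hqp
  rw [hd _ hP p hA.1, hd _ hP q hA.2.1, hd _ hP _ (hv _ hP p q hpq hA).1,
    hd _ hP' _ (hv _ hP' q p hqp hA').1, hmt _ hP _ hP' p q hpq hA hA']
  have e6 := (h2 (m (pc p q)) (hm _ hP)).1 (δ (pc p q) p) (δ (pc p q) q) (δ (pc p q) (v p q))
    (τ p q (δ (pc q p) (v q p)))
  rw [hτX p q hpq] at e6
  exact e6

end Pool.SH
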