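import Pool.Agent.Work.MP_ae1ff6_sh.InterfaceG

/-!
# Block GM1: the Möbius maps of the pieces
-/

open Topology Filter Set
open scoped ComplexConjugate

set_option autoImplicit false

namespace Pool.SH

open Pool.CG Pool.AR

theorem GM1_one : IsMob (1 : H) := (Pool.GC.mb1.1 1).2 ⟨1, 0, Pool.GC.mb2.2.2⟩

theorem GM1_mul {g g' : H} (hg : IsMob g) (hg' : IsMob g') : IsMob (g * g') := by
  obtain ⟨α, β, h⟩ := (Pool.GC.mb1.1 g).1 hg
  obtain ⟨α', β', h'⟩ := (Pool.GC.mb1.1 g').1 hg'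
  exact (Pool.GC.mb1.1 (g * g')).2 ⟨_, _, Pool.GC.mb2.1 g g' α β α' β' h h'⟩

open Classical in
/-- the recursion -/
noncomputable def GM1_mm (ℱ : Set (Set Circle)) (P₀ : Set Circle) (τ : Circle → Circle → H)
    (e : Set Circle → Circle × Circle) (par : Set Circle → Set Circle) :
    ℕ → Set Circle → H
  | 0, _ => 1
  | k + 1, P => if P ∈ ℱ ∧ P ≠ P₀ then GM1_mm ℱ P₀ τ e par k (par P) * τ (e P).2 (e P).1 else 1

theorem p_GM1 (h1 : Stmt_PC1) (h2 : Stmt_PC2) : Stmt_GM1 := by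
  intro ℱ L hP τ hτ
  rcases ℱ.eq_empty_or_nonempty with h0 | ⟨P₀, hP₀⟩
  · subst h0
    exact ⟨fun _ => 1, fun P hP => absurd hP (Set.notMem_empty P),
      fun P hP => absurd hP (Set.notMem_empty P)⟩
  obtain ⟨pa, pb, pc, pd, pe, pf⟩ := h1 ℱ L hP
  obtain ⟨qa, -⟩ := h2 ℱ L hP
  have key : ∀ P : Set Circle, ∃ x : (Circle × Circle) × Set Circle, P ∈ ℱ → P ≠ P₀ →
      (x.1.1, x.1.2) ∈ L ∧ At P x.1.1 x.1.2 ∧ P₀ ⊆ Arc x.1.2 x.1.1 ∧ x.2 ∈ ℱ ∧
        At x.2 x.1.2 x.1.1 := by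
    intro P
    by_cases hc : P ∈ ℱ ∧ P ≠ P₀
    · obtain ⟨p, q, hpq, hp, hq, hs, hs'⟩ := hP.sep P hc.1 P₀ hP₀ hc.2
      obtain ⟨P', hP', hq', hp', hsub⟩ := hP.side q p (hP.symm p q hpq)
      exact ⟨((p, q), P'), fun _ _ => ⟨hpq, ⟨hp, hq, hs⟩, hs', hP', ⟨hq', hp', hsub⟩⟩⟩
    · exact ⟨((1, 1), P), fun ha hb => absurd ⟨ha, hb⟩ hc⟩
  choose F hF using key
  let e : Set Circle → Circle × Circle := fun P => (F P).1
  let par : Set Circle → Set Circle := fun P => (F P).2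
  have hE : ∀ P ∈ ℱ, P ≠ P₀ → ((e P).1, (e P).2) ∈ L ∧ At P (e P).1 (e P).2 ∧
      P₀ ⊆ Arc (e P).2 (e P).1 ∧ par P ∈ ℱ ∧ At (par P) (e P).2 (e P).1 :=
    fun P ha hb => hF P ha hb
  let mm := GM1_mm ℱ P₀ τ e par
  have mm0 : ∀ P, mm 0 P = 1 := fun P => rfl
  have mmS : ∀ k P, P ∈ ℱ → P ≠ P₀ → mm (k + 1) P = mm k (par P) * τ (e P).2 (e P).1 := by
    intro k P ha hb
    exact if_pos ⟨ha, hb⟩
  have mm1 : ∀ k P, ¬ (P ∈ ℱ ∧ P ≠ P₀) → mm (k + 1) P = 1 := by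
    intro k P hc
    exact if_neg hc
  have hmob : ∀ k P, IsMob (mm k P) := by
    intro k
    induction k with
    | zero => intro P; rw [mm0]; exact GM1_one
    | succ k ih =>
      intro P
      by_cases hc : P ∈ ℱ ∧ P ≠ P₀
      · rw [mmS k P hc.1 hc.2]
        refine GM1_mul (ih _) ?_
        exact (hτ _ _ (hP.symm _ _ (hE P hc.1 hc.2).1)).1
      · rw [mm1 k P hc]; exact GM1_one
  have hlt : ∀ P ∈ ℱ, P ≠ P₀ → dS L (par P) P₀ < dS L P P₀ := by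
    intro P ha hb
    obtain ⟨e1, e2, e3, e4, e5⟩ := hE P ha hb
    exact pc P ha (par P) e4 P₀ hP₀ _ _ e1 e2 e5 e3
  have hA : ∀ k P, P ∈ ℱ → dS L P P₀ ≤ k → mm k P = mm (k + 1) P := by
    intro k
    induction k with
    | zero =>
      intro P ha hd
      by_cases hb : P = P₀
      · rw [mm0, mm1 0 P (fun hc => hc.2 hb)]
      · have := hlt P ha hb
        omega
    | succ k ih =>
      intro P ha hd
      by_cases hb : P = P₀
      · rw [mm1 k P (fun hc => hc.2 hb), mm1 (k + 1) P (fun hc => hc.2 hb)]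
      · rw [mmS k P ha hb, mmS (k + 1) P ha hb]
        have h3 := hlt P ha hb
        rw [ih (par P) (hE P ha hb).2.2.2.1 (by omega)]
  have hB : ∀ P ∈ ℱ, ∀ n, dS L P P₀ ≤ n → mm n P = mm (dS L P P₀) P := by
    intro P ha n hn
    induction n, hn using Nat.le_induction with
    | base => rfl
    | succ n hn ih => rw [← hA n P ha hn, ih]
  let m : Set Circle → H := fun P => mm (dS L P P₀) P
  have hm : ∀ P ∈ ℱ, P ≠ P₀ → m P = m (par P) * τ (e P).2 (e P).1 := by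
    intro P ha hb
    have h3 := hlt P ha hb
    change mm (dS L P P₀) P = mm (dS L (par P) P₀) (par P) * _
    rw [hA _ P ha le_rfl, mmS _ P ha hb, hB (par P) (hE P ha hb).2.2.2.1 _ h3.le]
  refine ⟨m, fun P _ => hmob _ P, ?_⟩
  intro P ha P' ha' p q hpq hA1 hA2
  rcases hP.unl P₀ hP₀ p q hpq with hs | hs
  · -- `P₀ ⊆ Arc p q`
    have hne : P' ≠ P₀ := by
      rintro rfl
      exact pa P' ha' p q hs hA2.2.2
    obtain ⟨e1, e2, e3, e4, e5⟩ := hE P' ha' hne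
    obtain ⟨u1, u2⟩ := qa P' ha' P₀ hP₀ q p _ _ (hP.symm p q hpq) e1 hA2 e2 hs e3
    rw [← u1, ← u2] at e5
    have hpar : par P' = P := pb (par P') e4 P ha p q hpq e5 hA1
    have h4 := hm P' ha' hne
    rw [hpar, ← u1, ← u2] at h4
    exact h4
  · -- `P₀ ⊆ Arc q p`
    have hne : P ≠ P₀ := by
      rintro rfl
      exact pa P ha p q hA1.2.2 hs
    obtain ⟨e1, e2, e3, e4, e5⟩ := hE P ha hne
    obtain ⟨u1, u2⟩ := qa P ha P₀ hP₀ p q _ _ hpq e1 hA1 e2 hs e3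
    rw [← u1, ← u2] at e5
    have hpar : par P = P' := pb (par P) e4 P' ha' q p (hP.symm p q hpq) e5 hA2
    have h4 := hm P ha hne
    rw [hpar, ← u1, ← u2] at h4
    rw [h4, (hτ p q hpq).2, mul_assoc, inv_mul_cancel, mul_one]

end Pool.SH
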