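import Pool.Agent.Work.MP_ae1ff6_sh.InterfaceG

/-! # Block GM2: compatible maps of the pieces -/

open Topology Filter Set
open scoped ComplexConjugate

set_option autoImplicit false

namespace Pool.SH

open Pool.CG Pool.AR

theorem p_GM2 (h1 : Stmt_ARX) (h2 : Stmt_PC1) : Stmt_GM2 := by
  classical
  intro ℱ L hP ε hε
  obtain ⟨_, h12, _⟩ := h1
  obtain ⟨_, _, h23, _⟩ := h2 ℱ L hP
  have claim : ∀ Q ∈ ℱ, ∀ x ∈ Q, ∀ n : ℕ, ∀ P ∈ ℱ, dS L P Q = n → x ∈ P → ε P x = ε Q x := by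
    intro Q hQ x hxQ n
    induction n using Nat.strong_induction_on with
    | _ n ih =>
      intro P hPF hd hxP
      by_cases hPQ : P = Q
      · rw [hPQ]
      · obtain ⟨p, q, hL, hp, hq, hPa, hQa⟩ := hP.sep P hPF Q hQ hPQ
        obtain ⟨P', hP', hp', hq', hPa'⟩ := hP.side q p (hP.symm p q hL)
        have hAt : At P p q := ⟨hp, hq, hPa⟩
        have hAt' : At P' q p := ⟨hp', hq', hPa'⟩
        have hlt := h23 P hPF P' hP' Q hQ p q hL hAt hAt' hQa
        have hε' := hε P hPF P' hP' p q hL hAt hAt'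
        have hx : x = p ∨ x = q := h12 p q x (hPa hxP) (hQa hxQ)
        rcases hx with rfl | rfl
        · rw [hε'.1]
          exact ih _ (by omega) P' hP' rfl hq'
        · rw [hε'.2]
          exact ih _ (by omega) P' hP' rfl hp'
  refine ⟨fun x => if h : ∃ P ∈ ℱ, x ∈ P then ε h.choose x else x, ?_⟩
  intro P hPF x hx
  have h : ∃ P ∈ ℱ, x ∈ P := ⟨P, hPF, hx⟩
  show (if h : ∃ P ∈ ℱ, x ∈ P then ε h.choose x else x) = ε P x
  rw [dif_pos h]
  exact claim P hPF x hx _ h.choose h.choose_spec.1 rfl h.choose_spec.2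

end Pool.SH
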