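import Pool.Agent.Work.MP_ae1ff6_sh.InterfaceG

open Topology Filter Set
open scoped ComplexConjugate

set_option autoImplicit false

namespace Pool.SH

open Pool.CG Pool.AR

theorem GM3_mono {d : Circle → Circle} {V W : Set Circle} (h : CyOn d W) (hVW : V ⊆ W) :
    CyOn d V :=
  fun a ha b hb c hc hh => h a (hVW ha) b (hVW hb) c (hVW hc) hh

theorem GM3_four {d : Circle → Circle} {y z p q : Circle} (h1 : CyOn d {y, z, p})
    (h2 : CyOn d {y, z, q}) (h3 : CyOn d {y, p, q}) (h4 : CyOn d {z, p, q}) :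
    CyOn d {y, z, p, q} := by
  intro a ha b hb c hc hh
  obtain ⟨-, n1, n2, n3⟩ := q_CYO.2.1 a b c hh
  rcases ha with rfl | rfl | rfl | rfl <;> rcases hb with rfl | rfl | rfl | rfl <;>
    first
    | exact absurd rfl n1
    | (rcases hc with rfl | rfl | rfl | rfl <;>
        first
        | exact absurd rfl n2
        | exact absurd rfl n3
        | (refine h1 _ ?_ _ ?_ _ ?_ hh <;> (simp; done))
        | (refine h2 _ ?_ _ ?_ _ ?_ hh <;> (simp; done))
        | (refine h3 _ ?_ _ ?_ _ ?_ hh <;> (simp; done))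
        | (refine h4 _ ?_ _ ?_ _ ?_ hh <;> (simp; done)))

theorem GM3_step (h1 : Stmt_PC1) (h3 : Stmt_TWO) (ℱ : Set (Set Circle))
    (L : Set (Circle × Circle)) (hP : Pieces ℱ L) (d : Circle → Circle)
    (hd : ∀ P ∈ ℱ, CyOn d P) (P Q R : Set Circle) (hPF : P ∈ ℱ) (hQF : Q ∈ ℱ) (hRF : R ∈ ℱ)
    (x y z : Circle) (hx : x ∈ P) (hy : y ∈ Q) (hz : z ∈ R)
    (ih : ∀ P' ∈ ℱ, ∀ Q' ∈ ℱ, ∀ R' ∈ ℱ, ∀ x' ∈ P', ∀ y' ∈ Q', ∀ z' ∈ R',
      dS L P' Q' + dS L Q' R' + dS L R' P' < dS L P Q + dS L Q R + dS L R P →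
      CyOn d {x', y', z'})
    (hI : Iso L P Q R) : CyOn d {x, y, z} := by
  obtain ⟨-, -, hc, hs, ht, h0⟩ := h1 ℱ L hP
  obtain ⟨p, q, hpq, hA, hQ, hR⟩ := hI
  have hqp := hP.symm p q hpq
  obtain ⟨P', hP'F, hq', hp', hP'⟩ := hP.side q p hqp
  have hA' : At P' q p := ⟨hq', hp', hP'⟩
  have e1 : dS L P' Q < dS L P Q := hc P hPF P' hP'F Q hQF p q hpq hA hA' hQ
  have e2 : dS L P' R < dS L P R := hc P hPF P' hP'F R hRF p q hpq hA hA' hR
  have s1 := hs R hRF P' hP'F
  have s2 := hs Q hQF P' hP'F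
  have s3 := hs P hPF R hRF
  have s4 := hs R hRF Q hQF
  have t1 := ht P hPF R hRF Q hQF
  have t2 := ht P hPF Q hQF R hRF
  have z1 := h0 P' hP'F
  have hV1 : CyOn d {y, z, p, q} := by
    apply GM3_four
    · exact ih Q hQF R hRF P' hP'F y hy z hz p hp' (by omega)
    · exact ih Q hQF R hRF P' hP'F y hy z hz q hq' (by omega)
    · exact ih Q hQF P' hP'F P' hP'F y hy p hp' q hq' (by omega)
    · exact ih R hRF P' hP'F P' hP'F z hz p hp' q hq' (by omega)
  have hV2 : CyOn d {x, p, q} := by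
    refine GM3_mono (hd P hPF) ?_
    rintro w (rfl | rfl | rfl)
    · exact hx
    · exact hA.1
    · exact hA.2.1
  have hU : CyOn d ({y, z, p, q} ∪ {x, p, q}) := by
    refine h3 d p q {y, z, p, q} {x, p, q} (hP.ne p q hpq) (by simp) (by simp) (by simp)
      (by simp) ?_ ?_ hV1 hV2
    · rintro w (rfl | rfl | rfl | rfl)
      · exact hQ hy
      · exact hR hz
      · exact Or.inr (Or.inl rfl)
      · exact Or.inl rfl
    · rintro w (rfl | rfl | rfl)
      · exact hA.2.2 hx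
      · exact Or.inl rfl
      · exact Or.inr (Or.inl rfl)
  refine GM3_mono hU ?_
  rintro w (rfl | rfl | rfl)
  · exact Or.inr (by simp)
  · exact Or.inl (by simp)
  · exact Or.inl (by simp)

theorem p_GM3 (h1 : Stmt_PC1) (h2 : Stmt_PC2) (h3 : Stmt_TWO) : Stmt_GM3 := by
  intro ℱ L hP d hd
  have main : ∀ M : ℕ, ∀ P ∈ ℱ, ∀ Q ∈ ℱ, ∀ R ∈ ℱ, ∀ x ∈ P, ∀ y ∈ Q, ∀ z ∈ R,
      dS L P Q + dS L Q R + dS L R P = M → CyOn d {x, y, z} := by
    intro M
    induction M using Nat.strong_induction_on with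
    | _ M IH =>
      intro P hPF Q hQF R hRF x hx y hy z hz hM
      have ih : ∀ P' ∈ ℱ, ∀ Q' ∈ ℱ, ∀ R' ∈ ℱ, ∀ x' ∈ P', ∀ y' ∈ Q', ∀ z' ∈ R',
          dS L P' Q' + dS L Q' R' + dS L R' P' < M → CyOn d {x', y', z'} :=
        fun P' a1 Q' a2 R' a3 x' b1 y' b2 z' b3 hlt => IH _ hlt P' a1 Q' a2 R' a3 x' b1 y' b2 z' b3 rfl
      by_cases hE : P = Q ∧ Q = R
      · obtain ⟨rfl, rfl⟩ := hE
        refine GM3_mono (hd P hPF) ?_
        rintro w (rfl | rfl | rfl)
        · exact hx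
        · exact hy
        · exact hz
      · rcases (h2 ℱ L hP).2 P hPF Q hQF R hRF hE with hI | hI | hI
        · exact GM3_step h1 h3 ℱ L hP d hd P Q R hPF hQF hRF x y z hx hy hz
            (by rw [hM]; exact ih) hI
        · have := GM3_step h1 h3 ℱ L hP d hd Q R P hQF hRF hPF y z x hy hz hx
            (by
              have : dS L Q R + dS L R P + dS L P Q = M := by omega
              rw [this]; exact ih) hI
          refine GM3_mono this ?_
          rintro w (rfl | rfl | rfl) <;> simp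
        · have := GM3_step h1 h3 ℱ L hP d hd R P Q hRF hPF hQF z x y hz hx hy
            (by
              have : dS L R P + dS L P Q + dS L Q R = M := by omega
              rw [this]; exact ih) hI
          refine GM3_mono this ?_
          rintro w (rfl | rfl | rfl) <;> simp
  rintro a ⟨P, hPF, ha⟩ b ⟨Q, hQF, hb⟩ c ⟨R, hRF, hc⟩ hh
  exact main _ P hPF Q hQF R hRF a ha b hb c hc rfl a (by simp) b (by simp) c (by simp) hh

end Pool.SH
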