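import Pool.Agent.Work.MP_ae1ff6_sh.InterfaceG

/-!
# GUN: uniqueness in the glueing theorem
-/

open Topology Filter Set
open scoped ComplexConjugate

set_option autoImplicit false

namespace Pool.SH

open Pool.CG Pool.AR

theorem p_GUN (h1 : Stmt_CNT) (h2 : Stmt_MXI) (h3 : Stmt_GEX) : Stmt_GUN := by
  intro ℱ L hL hne d d' hd hmob hX
  obtain ⟨P₀, hP₀⟩ := hne
  obtain ⟨n, hn, hn0⟩ := hmob P₀ hP₀
  refine ⟨n, hn, ?_⟩
  have key : ∀ P ∈ ℱ, ∀ x ∈ P, d' x = n (d x) := by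
    refine h1 ℱ L hL (fun P => ∀ x ∈ P, d' x = n (d x)) P₀ hP₀ hn0 ?_
    intro P hP P' hP' p q hpq hAt hAt' hPhi
    obtain ⟨n', hn', hn0'⟩ := hmob P' hP'
    obtain ⟨v, hv, w, hw, hvp, hvq, hwp, hwq, hXe⟩ := hX P hP P' hP' p q hpq hAt hAt'
    have hp : n (d p) = n' (d p) := by rw [← hPhi p hAt.1, ← hn0' p hAt'.2.1]
    have hq : n (d q) = n' (d q) := by rw [← hPhi q hAt.2.1, ← hn0' q hAt'.1]
    have c1 : Ccw q w p := by
      rcases hAt'.2.2 hw with h | h | h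
      · exact absurd h hwq
      · exact absurd h hwp
      · exact h
    have c2 : Ccw p v q := by
      rcases hAt.2.2 hv with h | h | h
      · exact absurd h hvp
      · exact absurd h hvq
      · exact h
    have mP : ∀ x ∈ P, x ∈ ⋃₀ ℱ := fun x hx => Set.mem_sUnion.2 ⟨P, hP, hx⟩
    have mP' : ∀ x ∈ P', x ∈ ⋃₀ ℱ := fun x hx => Set.mem_sUnion.2 ⟨P', hP', hx⟩
    have e1 : Ccw (d q) (d w) (d p) :=
      hd q (mP' q hAt'.1) w (mP' w hw) p (mP' p hAt'.2.1) c1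
    have e2 : Ccw (d p) (d v) (d q) :=
      hd p (mP p hAt.1) v (mP v hv) q (mP q hAt.2.1) c2
    obtain ⟨-, k1, k2, -⟩ := q_CYO.2.1 _ _ _ e2
    have hh : n = n' := by
      refine h3.2 n n' (d p) (d q) (n (d v)) (d w) hn hn' e1 ?_ ?_ hp hq ?_
      · intro h
        exact k1 (n.injective h).symm
      · intro h
        exact k2 (n.injective h)
      · rw [(h2 n hn).1 (d p) (d q) (d v) (d w), hXe, hPhi p hAt.1, hPhi q hAt.2.1,
          hPhi v hv, hn0' w hw]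
    intro x hx
    rw [hh]
    exact hn0' x hx
  intro x hx
  obtain ⟨P, hP, hxP⟩ := Set.mem_sUnion.1 hx
  exact key P hP x hxP

end Pool.SH
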