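import Pool.Agent.Work.MP_ae1ff6_sh.InterfaceG

open Topology Filter Set
open scoped ComplexConjugate

set_option autoImplicit false

namespace Pool.SH

open Pool.CG Pool.AR

theorem p_MBG : Stmt_MBG := by
  have h1 := Pool.GC.mb1
  have h2 := Pool.GC.mb2
  refine ⟨?_, ?_, ?_⟩
  · exact (h1.1 _).2 ⟨1, 0, h2.2.2⟩
  · intro g g' hg hg'
    obtain ⟨α, β, h⟩ := (h1.1 _).1 hg
    obtain ⟨α', β', h'⟩ := (h1.1 _).1 hg'
    exact (h1.1 _).2 ⟨_, _, h2.1 g g' α β α' β' h h'⟩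
  · intro g hg
    obtain ⟨α, β, h⟩ := (h1.1 _).1 hg
    exact (h1.1 _).2 ⟨_, _, h2.2.1 g α β h⟩

end Pool.SH
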