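import Pool.Agent.Work.MP_ae1ff6_sh.InterfaceG

/-!
# Block MXI: invariance of the cross ratio
-/

open Topology Filter Set
open scoped ComplexConjugate

set_option autoImplicit false

namespace Pool.SH

open Pool.CG Pool.AR

theorem MXI_dist {g : H} (hg : IsMob g) : ∃ D : Circle → ℝ, (∀ z, 0 < D z) ∧
    ∀ z w : Circle, dist (g z) (g w) = dist z w / (D z * D w) := by
  obtain ⟨α, β, hP⟩ := (Pool.GC.mb1.1 g).1 hg
  obtain ⟨h1, h2, -⟩ := Pool.GC.mb1.2 g α β hP
  refine ⟨fun z => ‖conj β * (z : ℂ) + conj α‖, fun z => norm_pos_iff.2 (h1 z), fun z w => ?_⟩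
  have hz : 0 < ‖conj β * (z : ℂ) + conj α‖ := norm_pos_iff.2 (h1 z)
  have hw : 0 < ‖conj β * (w : ℂ) + conj α‖ := norm_pos_iff.2 (h1 w)
  rw [eq_div_iff (mul_pos hz hw).ne']
  exact h2 z w

theorem p_MXI : Stmt_MXI := by
  intro g hg
  obtain ⟨D, hD, h⟩ := MXI_dist hg
  constructor
  · intro p q v w
    have hp := (hD p).ne'
    have hq := (hD q).ne'
    have hv := (hD v).ne'
    have hw := (hD w).ne'
    unfold X
    rw [h v p, h w q, h v q, h w p]
    have e1 : dist v p / (D v * D p) * (dist w q / (D w * D q)) =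
        dist v p * dist w q / (D v * D p * D w * D q) := by
      field_simp
    have e2 : dist v q / (D v * D q) * (dist w p / (D w * D p)) =
        dist v q * dist w p / (D v * D p * D w * D q) := by
      field_simp
    rw [e1, e2, div_div_div_cancel_right₀]
    positivity
  · intro p q
    refine ⟨D q / D p, div_pos (hD q) (hD p), fun y => ?_⟩
    have hp := (hD p).ne'
    have hq := (hD q).ne'
    have hy := (hD y).ne'
    rw [h y p, h y q]
    by_cases e : dist y q = 0
    · rw [e]
      simp
    · field_simp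

end Pool.SH
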