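import Pool.Agent.Work.MP_ae1ff6_sh.InterfaceG

/-!
Block PC1 (pieces), typed by helper76.
-/

open Topology Filter Set
open scoped ComplexConjugate

set_option autoImplicit false

namespace Pool.SH

open Pool.CG Pool.AR

theorem p_PC1 (hARX : Stmt_ARX) : Stmt_PC1 := by
  intro F L hF
  obtain ⟨-, hX2, -⟩ := hARX
  have hA : ∀ P ∈ F, ∀ p q, P ⊆ Arc p q → ¬ P ⊆ Arc q p := by
    intro P hP p q h1 h2
    obtain ⟨a, ha, b, hb, c, hc, habc⟩ := hF.three P hP
    obtain ⟨-, hab, hbc, hac⟩ := q_CYO.2.1 a b c habc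
    rcases hX2 p q a (h1 ha) (h2 ha) with ha' | ha' <;>
      rcases hX2 p q b (h1 hb) (h2 hb) with hb' | hb' <;>
      rcases hX2 p q c (h1 hc) (h2 hc) with hc' | hc'
    · exact hab (ha'.trans hb'.symm)
    · exact hab (ha'.trans hb'.symm)
    · exact hac (ha'.trans hc'.symm)
    · exact hbc (hb'.trans hc'.symm)
    · exact hbc (hb'.trans hc'.symm)
    · exact hac (ha'.trans hc'.symm)
    · exact hab (ha'.trans hb'.symm)
    · exact hab (ha'.trans hb'.symm)
  have hfin : ∀ P ∈ F, ∀ Q ∈ F, (Sp L P Q).Finite := fun P hP Q hQ => hF.fin P hP Q hQ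
  have hpair : ∀ p q r s : Circle, p ≠ q → (p = r ∨ p = s) → (q = r ∨ q = s) →
      (p = r ∧ q = s) ∨ (p = s ∧ q = r) := by
    intro p q r s hpq h1 h2
    rcases h1 with h1 | h1 <;> rcases h2 with h2 | h2
    · exact absurd (h1.trans h2.symm) hpq
    · exact Or.inl ⟨h1, h2⟩
    · exact Or.inr ⟨h1, h2⟩
    · exact absurd (h1.trans h2.symm) hpq
  refine ⟨hA, ?_, ?_, ?_, ?_, ?_⟩
  · intro P hP P' hP' p q hpq hAt hAt'
    by_contra hne
    obtain ⟨r, s, hrs, -, -, h1, h2⟩ := hF.sep P hP P' hP' hne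
    obtain ⟨hp, hq, hPpq⟩ := hAt
    obtain ⟨hp', hq', hPpq'⟩ := hAt'
    rcases hpair p q r s (hF.ne p q hpq) (hX2 r s p (h1 hp) (h2 hp')) (hX2 r s q (h1 hq) (h2 hq'))
      with ⟨h3, h4⟩ | ⟨h3, h4⟩
    · subst h3 h4
      exact hA P' hP' p q hPpq' h2
    · subst h3 h4
      exact hA P hP p q hPpq h1
  · intro P hP P' hP' Q hQ p q hpq hAt hAt' hQpq
    obtain ⟨hp, hq, hPpq⟩ := hAt
    obtain ⟨hq', hp', hPqp'⟩ := hAt'
    unfold dS
    apply Set.ncard_lt_ncard _ (hfin P hP Q hQ)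
    constructor
    · rintro ⟨r, s⟩ ⟨hrs, h1, h2⟩
      simp only at h1 h2
      refine ⟨hrs, ?_, h2⟩
      rcases hF.unl P hP r s hrs with h3 | h3
      · exact h3
      · exfalso
        rcases hpair p q r s (hF.ne p q hpq) (hX2 r s p (h1 hp') (h3 hp))
          (hX2 r s q (h1 hq') (h3 hq)) with ⟨h4, h5⟩ | ⟨h4, h5⟩
        · subst h4 h5
          exact hA P' hP' p q h1 hPqp'
        · subst h4 h5
          exact hA Q hQ p q h2 hQpq
    · intro hsub
      have h1 : (p, q) ∈ Sp L P Q := ⟨hpq, hPpq, hQpq⟩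
      have h2 := hsub h1
      exact hA P' hP' p q h2.2.1 hPqp'
  · intro P _ Q _
    unfold dS
    have h1 : Sp L Q P = Prod.swap '' Sp L P Q := by
      ext ⟨r, s⟩
      constructor
      · rintro ⟨h1, h2, h3⟩
        exact ⟨(s, r), ⟨hF.symm r s h1, h3, h2⟩, rfl⟩
      · rintro ⟨⟨a, b⟩, ⟨h1, h2, h3⟩, h4⟩
        simp only [Prod.swap_prod_mk, Prod.mk.injEq] at h4
        obtain ⟨h4, h5⟩ := h4
        subst h4 h5
        exact ⟨hF.symm _ _ h1, h3, h2⟩
    rw [h1, Set.ncard_image_of_injective _ Prod.swap_injective]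
  · intro P hP Q hQ R hR
    unfold dS
    have h1 : Sp L P R ⊆ Sp L P Q ∪ Sp L Q R := by
      rintro ⟨r, s⟩ ⟨h1, h2, h3⟩
      rcases hF.unl Q hQ r s h1 with h4 | h4
      · exact Or.inr ⟨h1, h4, h3⟩
      · exact Or.inl ⟨h1, h2, h4⟩
    exact (Set.ncard_le_ncard h1 ((hfin P hP Q hQ).union (hfin Q hQ R hR))).trans
      (Set.ncard_union_le _ _)
  · intro P hP
    unfold dS
    have h1 : Sp L P P = ∅ := by
      ext ⟨r, s⟩
      constructor
      · rintro ⟨-, h2, h3⟩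
        exact absurd h3 (hA P hP r s h2)
      · intro h
        exact absurd h (Set.notMem_empty _)
    rw [h1, Set.ncard_empty]

end Pool.SH
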