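import Pool.Agent.Work.MP_ae1ff6_sh.InterfaceG

set_option autoImplicit false

/-!
# Block PC2: unique separating line of a piece, isolated piece of three
-/

open Topology Filter Set
open scoped ComplexConjugate

namespace Pool.SH

open Pool.CG Pool.AR

/-- a point of `Arc q p` different from the ends -/
lemma PC2_mem {p q z : Circle} (h : z ∈ Arc q p) (hp : z ≠ p) (hq : z ≠ q) : Ccw q z p := by
  rcases h with h | h | h
  · exact absurd h hq
  · exact absurd h hp
  · exact h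

theorem p_PC2 (h1 : Stmt_ARL) (h2 : Stmt_ARX) (h3 : Stmt_PC1) : Stmt_PC2 := by
  intro F L hF
  obtain ⟨hX1, hX2, hX3⟩ := h2
  obtain ⟨hA, -⟩ := h3 F L hF
  refine ⟨?_, ?_⟩
  · intro P _ Q hQ p q r s hpq hrs hP1 hP2 hQ1 hQ2
    obtain ⟨hp, hq, hPpq⟩ := hP1
    obtain ⟨hr, hs, hPrs⟩ := hP2
    -- a point of `Q` different from `p` and `q`
    obtain ⟨z, hz, hzp, hzq⟩ : ∃ z ∈ Q, z ≠ p ∧ z ≠ q := by
      by_contra hcon
      push Not at hcon
      -- then `Q ⊆ {p, q} ⊆ Arc p q`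
      have hsub : Q ⊆ Arc p q := by
        intro w hw
        by_cases hwp : w = p
        · exact Or.inl hwp
        · exact Or.inr (Or.inl (hcon w hw hwp))
      exact hA Q hQ p q hsub hQ1
    have hzr : z ≠ r := by
      rintro rfl
      rcases hX2 p q z (hPpq hr) (hQ1 hz) with h | h
      · exact hzp h
      · exact hzq h
    have hzs : z ≠ s := by
      rintro rfl
      rcases hX2 p q z (hPpq hs) (hQ1 hz) with h | h
      · exact hzp h
      · exact hzq h
    have c1 : Ccw q z p := PC2_mem (hQ1 hz) hzp hzq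
    have c2 : Ccw s z r := PC2_mem (hQ2 hz) hzr hzs
    obtain ⟨θ, hinj, -, -, hcc, harc⟩ := h1 z
    have l1 : θ p < θ q := (hcc p q (Ne.symm hzp) (Ne.symm hzq)).1 c1
    have l2 : θ r < θ s := (hcc r s (Ne.symm hzr) (Ne.symm hzs)).1 c2
    have a1 := (harc p q r l1).1.1 (hPpq hr)
    have a2 := (harc p q s l1).1.1 (hPpq hs)
    have a3 := (harc r s p l2).1.1 (hPrs hp)
    have a4 := (harc r s q l2).1.1 (hPrs hq)
    exact ⟨hinj (le_antisymm a1.1 a3.1), hinj (le_antisymm a4.2 a2.2)⟩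
  · intro P hP Q hQ R hR hne
    by_cases hPQ : P = Q
    · subst hPQ
      have hRP : R ≠ P := fun h => hne ⟨rfl, h.symm⟩
      obtain ⟨p, q, hpq, hp, hq, hRs, hPs⟩ := hF.sep R hR P hP hRP
      exact Or.inr (Or.inr ⟨p, q, hpq, ⟨hp, hq, hRs⟩, hPs, hPs⟩)
    · obtain ⟨p, q, hpq, hp, hq, hPs, hQs⟩ := hF.sep P hP Q hQ hPQ
      rcases hF.unl R hR p q hpq with hR1 | hR1
      · obtain ⟨r, s, hrs, hr, hs, hQs2, hPs2⟩ := hF.sep Q hQ P hP (Ne.symm hPQ)
        rcases hF.unl R hR r s hrs with hR2 | hR2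
        · exfalso
          rcases hX3 r s q p (hF.ne r s hrs) (Ne.symm (hF.ne p q hpq)) (hQs hr) (hQs hs) with h | h
          · exact hA R hR p q hR1 (hR2.trans h)
          · exact hA P hP p q hPs (hPs2.trans h)
        · exact Or.inr (Or.inl ⟨r, s, hrs, ⟨hr, hs, hQs2⟩, hR2, hPs2⟩)
      · exact Or.inl ⟨p, q, hpq, ⟨hp, hq, hPs⟩, hQs, hR1⟩

end Pool.SH
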