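import Pool.Agent.Work.MP_ae1ff6_sh.InterfaceG

/-!
# MP_ae1ff6_gt, block PI1: existence of the boundary map (compactness)
-/

open Topology Filter Set
open scoped ComplexConjugate

set_option autoImplicit false

namespace Pool.SH

open Pool.CG Pool.AR

theorem PI1_closed (a b : Circle) : IsClosed {z : Circle | ¬ Ccw a z b} := by
  have h : {z : Circle | ¬ Ccw a z b} = {z : Circle | area a z b ≤ 0} := by
    ext z
    simp only [Set.mem_setOf_eq, Ccw, not_lt]
  rw [h]
  refine isClosed_le ?_ continuous_const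
  unfold area
  fun_prop

theorem PI1_fin (h1 : Stmt_ARL) (V : Set Circle) (d : Circle → Circle) (hd : CyOn d V)
    (y : Circle) (S : Finset (Circle × Circle))
    (hS : ∀ s ∈ S, s.1 ∈ V ∧ s.2 ∈ V ∧ Ccw (d s.2) y (d s.1)) :
    ∃ z : Circle, ∀ s ∈ S, ¬ Ccw s.1 z s.2 := by
  classical
  obtain ⟨cA, cB, cC, cD⟩ := q_CYO
  set F : Finset Circle := S.image Prod.fst ∪ S.image Prod.snd with hF
  have hF1 : ∀ s ∈ S, s.1 ∈ F := fun s hs =>
    Finset.mem_union_left _ (Finset.mem_image_of_mem Prod.fst hs)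
  have hF2 : ∀ s ∈ S, s.2 ∈ F := fun s hs =>
    Finset.mem_union_right _ (Finset.mem_image_of_mem Prod.snd hs)
  have hFV : ∀ x ∈ F, x ∈ V := by
    intro x hx
    rcases Finset.mem_union.1 hx with hx | hx
    · obtain ⟨s, hs, rfl⟩ := Finset.mem_image.1 hx
      exact (hS s hs).1
    · obtain ⟨s, hs, rfl⟩ := Finset.mem_image.1 hx
      exact (hS s hs).2.1
  rcases F.eq_empty_or_nonempty with he | hne
  · refine ⟨1, fun s hs => ?_⟩
    have := hF1 s hs
    rw [he] at this
    exact absurd this (Finset.notMem_empty _)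
  · by_cases hy : ∃ x ∈ F, d x = y
    · obtain ⟨x, hx, hxy⟩ := hy
      refine ⟨x, fun s hs hc => ?_⟩
      have h2 : Ccw (d s.1) (d x) (d s.2) := hd _ (hS s hs).1 _ (hFV x hx) _ (hS s hs).2.1 hc
      have h3 := (hS s hs).2.2
      rw [hxy] at h2
      -- `Ccw (d a) y (d b)` and `Ccw (d b) y (d a)`
      have h4 := cA _ _ _ h3
      -- `Ccw y (d a) (d b)`
      have h5 := cA _ _ _ h4
      -- `Ccw (d a) (d b) y`
      exact (cB _ _ _ h2).1 h5
    · push_neg at hy
      obtain ⟨θ, hinj, hmin, hccw, hzz, -⟩ := h1 y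
      obtain ⟨x, hx, hmax⟩ := Finset.exists_max_image F (fun x => θ (d x)) hne
      refine ⟨x, fun s hs hc => ?_⟩
      have h2 : Ccw (d s.1) (d x) (d s.2) := hd _ (hS s hs).1 _ (hFV x hx) _ (hS s hs).2.1 hc
      have h3 := (hS s hs).2.2
      have ha : d s.1 ≠ y := hy _ (hF1 s hs)
      have hb : d s.2 ≠ y := hy _ (hF2 s hs)
      have h4 : θ (d s.1) < θ (d s.2) := (hzz _ _ ha hb).1 h3
      have h5 : θ (d s.2) ≤ θ (d x) := hmax _ (hF2 s hs)
      rcases (hccw _ _ _).1 h2 with h | h | h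
      · linarith [h.2]
      · linarith [h.1]
      · linarith [h.1]

theorem p_PI1 (h1 : Stmt_ARL) : Stmt_PI1 := by
  classical
  intro V d hd y
  -- the index type: pairs with the forbidden condition
  let ι := {s : Circle × Circle // s.1 ∈ V ∧ s.2 ∈ V ∧ Ccw (d s.2) y (d s.1)}
  have hne : ((Set.univ : Set Circle) ∩ ⋂ i : ι, {z : Circle | ¬ Ccw i.1.1 z i.1.2}).Nonempty := by
    refine isCompact_univ.inter_iInter_nonempty _ (fun i => PI1_closed _ _) (fun u => ?_)
    obtain ⟨z, hz⟩ := PI1_fin h1 V d hd y (u.image Subtype.val) (by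
      intro s hs
      obtain ⟨i, -, rfl⟩ := Finset.mem_image.1 hs
      exact i.2)
    refine ⟨z, Set.mem_univ _, ?_⟩
    simp only [Set.mem_iInter, Set.mem_setOf_eq]
    intro i hi
    exact hz _ (Finset.mem_image_of_mem _ hi)
  obtain ⟨z, -, hz⟩ := hne
  refine ⟨z, fun a ha b hb hc hc' => ?_⟩
  have := Set.mem_iInter.1 hz ⟨(a, b), ha, hb, hc'⟩
  exact this hc

end Pool.SH
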