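import Pool.Agent.Work.MP_ae1ff6_sh.InterfaceG

/-! # Block PI2 -/

open Topology Filter Set
open scoped ComplexConjugate

set_option autoImplicit false

namespace Pool.SH

open Pool.CG Pool.AR

theorem p_PI2 (hARL : Stmt_ARL) : Stmt_PI2 := by
  intro V d hV hd y z z' h1 h2
  by_contra hne
  obtain ⟨s, t, hst, hts, hz, hz'⟩ := q_ANG.2.2.1 z z' hne
  have hA := q_ANG.1
  have rot := q_CYO.1
  have ex : ∀ x w : ℝ, x < w → w < x + 2 * Real.pi →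
      ∃ β, x < β ∧ β < w ∧ Circle.exp β ∈ V := by
    intro x w h3 h4
    have h5 := (Pool.GC.arc x w h3 h4).1
    have h6 : (Circle.exp '' Ioo x w).Nonempty :=
      ⟨_, (x + w) / 2, ⟨by linarith, by linarith⟩, rfl⟩
    obtain ⟨v, ⟨β, hβ, rfl⟩, hv⟩ := hV.inter_open_nonempty _ h5 h6
    exact ⟨β, hβ.1, hβ.2, hv⟩
  have hpi := Real.pi_pos
  obtain ⟨β₁, p1, p2, vb1⟩ := ex s ((s + t) / 2) (by linarith) (by linarith)
  obtain ⟨α₂, p3, p4, va2⟩ := ex ((s + t) / 2) t (by linarith) (by linarith)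
  obtain ⟨β₂, p5, p6, vb2⟩ := ex t ((t + s + 2 * Real.pi) / 2) (by linarith) (by linarith)
  obtain ⟨α₁, p7, p8, va1⟩ := ex ((t + s + 2 * Real.pi) / 2) (s + 2 * Real.pi) (by linarith)
    (by linarith)
  have c1 : Ccw (Circle.exp α₁) z (Circle.exp β₁) := by
    rw [hz]
    exact rot _ _ _ (rot _ _ _ (hA s β₁ α₁ p1 (by linarith) p8))
  have c2 : Ccw (Circle.exp α₂) z' (Circle.exp β₂) := by
    rw [hz']
    exact hA α₂ t β₂ p4 p5 (by linarith)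
  have n1 := h1 _ va1 _ vb1 c1
  have n2 := h2 _ va2 _ vb2 c2
  have o1 := hd _ vb1 _ va2 _ vb2 (hA β₁ α₂ β₂ (by linarith) (by linarith) (by linarith))
  have o2 := hd _ va2 _ vb2 _ va1 (hA α₂ β₂ α₁ (by linarith) (by linarith) (by linarith))
  have o3 := hd _ vb1 _ vb2 _ va1 (hA β₁ β₂ α₁ (by linarith) (by linarith) (by linarith))
  have o4 := hd _ vb1 _ va2 _ va1 (hA β₁ α₂ α₁ (by linarith) (by linarith) (by linarith))
  obtain ⟨B1, hB1⟩ : ∃ B, B = d (Circle.exp β₁) := ⟨_, rfl⟩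
  obtain ⟨A2, hA2⟩ : ∃ B, B = d (Circle.exp α₂) := ⟨_, rfl⟩
  obtain ⟨B2, hB2⟩ : ∃ B, B = d (Circle.exp β₂) := ⟨_, rfl⟩
  obtain ⟨A1, hA1⟩ : ∃ B, B = d (Circle.exp α₁) := ⟨_, rfl⟩
  rw [← hB1, ← hA1] at n1
  rw [← hB2, ← hA2] at n2
  rw [← hB1, ← hA2, ← hB2] at o1
  rw [← hA2, ← hB2, ← hA1] at o2
  rw [← hB1, ← hB2, ← hA1] at o3
  rw [← hB1, ← hA2, ← hA1] at o4
  have y1 : B1 ≠ y := fun h => n2 (by rw [← h]; exact rot _ _ _ (rot _ _ _ o1))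
  have y2 : A1 ≠ y := fun h => n2 (by rw [← h]; exact rot _ _ _ o2)
  have y3 : A2 ≠ y := fun h => n1 (by rw [← h]; exact o4)
  have y4 : B2 ≠ y := fun h => n1 (by rw [← h]; exact o3)
  obtain ⟨θ, -, -, hθ, hq, -⟩ := hARL y
  rw [hq A1 B1 y2 y1, not_lt] at n1
  rw [hq A2 B2 y3 y4, not_lt] at n2
  rw [hθ] at o1 o2 o3
  rcases o1 with o1 | o1 | o1
  · linarith [o1.2]
  · linarith [o1.1]
  · rcases o3 with o3 | o3 | o3
    · linarith [o3.1, o1.1]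
    · linarith [o3.2]
    · linarith [o3.1]

end Pool.SH
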