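import Pool.Agent.Work.MP_ae1ff6_sh.InterfaceG

/-!
# Realization of big mapping classes (MP_ae1ff6_gt): block PI3 (continuity of the boundary map)
-/

open Topology Filter Set
open scoped ComplexConjugate

set_option autoImplicit false

namespace Pool.SH

open Pool.CG Pool.AR

theorem PI3_closed (V : Set Circle) (d : Circle → Circle) :
    IsClosed {p : Circle × Circle | Rel V d p.1 p.2} := by
  have h0 : {p : Circle × Circle | Rel V d p.1 p.2} = ⋂ a ∈ V, ⋂ b ∈ V,
      ({p : Circle × Circle | area a p.2 b ≤ 0} ∪ {p | area (d b) p.1 (d a) ≤ 0}) := by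
    ext p
    simp only [mem_setOf_eq, mem_iInter, mem_union, Rel, Ccw, not_lt]
    constructor
    · intro h a ha b hb
      by_cases h1 : 0 < area a p.2 b
      · right; exact h a ha b hb h1
      · left; exact not_lt.1 h1
    · intro h a ha b hb h1
      rcases h a ha b hb with h2 | h2
      · exact absurd h1 (not_lt.2 h2)
      · exact h2
  rw [h0]
  refine isClosed_iInter fun a => isClosed_iInter fun _ => isClosed_iInter fun b =>
    isClosed_iInter fun _ => ?_
  refine IsClosed.union ?_ ?_
  · refine isClosed_le ?_ continuous_const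
    unfold area
    fun_prop
  · refine isClosed_le ?_ continuous_const
    unfold area
    fun_prop

theorem p_PI3 (h1 : Stmt_PI2) : Stmt_PI3 := by
  intro V d π hV hd hR
  have hU := h1 V d hV hd
  have hx : ∀ x ∈ V, π (d x) = x := by
    intro x hx
    refine hU (d x) (π (d x)) x (hR _) ?_
    intro a ha b hb hab hba
    have h2 := hd a ha x hx b hb hab
    have h3 := q_CYO.1 _ _ _ h2
    have h4 := q_CYO.1 _ _ _ h3
    exact (q_CYO.2.1 _ _ _ h4).1 hba
  have hc : Continuous π := by
    refine continuous_iff_isClosed.2 ?_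
    intro C hC
    have h2 : π ⁻¹' C =
        Prod.fst '' ({p : Circle × Circle | Rel V d p.1 p.2} ∩ (Prod.snd ⁻¹' C)) := by
      ext y
      simp only [mem_preimage, mem_image, mem_inter_iff, mem_setOf_eq]
      constructor
      · intro h
        exact ⟨(y, π y), ⟨hR y, h⟩, rfl⟩
      · rintro ⟨⟨y', z⟩, ⟨h3, h4⟩, h5⟩
        simp only at h5 h3 h4
        subst h5
        rw [hU y' (π y') z (hR _) h3]
        exact h4
    rw [h2]
    exact isClosedMap_fst_of_compactSpace _
      ((PI3_closed V d).inter (hC.preimage continuous_snd))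
  refine ⟨hc, ?_, hx⟩
  have h3 : IsClosed (range π) := (isCompact_range hc).isClosed
  have h4 : V ⊆ range π := fun x hx' => ⟨d x, hx x hx'⟩
  have h5 : range π = univ := by
    have h6 := h3.closure_subset_iff.2 h4
    rw [hV.closure_eq] at h6
    exact univ_subset_iff.1 h6
  exact range_eq_univ.1 h5

end Pool.SH
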