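import Pool.Agent.Work.MP_ae1ff6_sh.InterfaceG

/-!
Block PIC: the realization.
-/

open Topology Filter Set
open scoped ComplexConjugate

set_option autoImplicit false

namespace Pool.SH

open Pool.CG Pool.AR

theorem PIC_three (V : Set Circle) (hV : Dense V) :
    ∃ a ∈ V, ∃ b ∈ V, ∃ c ∈ V, Ccw a b c := by
  have hpi := Real.pi_gt_three
  have key : ∀ s t : ℝ, s < t → t < s + 2 * Real.pi →
      ∃ x ∈ V, ∃ r, s < r ∧ r < t ∧ Circle.exp r = x := by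
    intro s t hst hts
    have hne : (Circle.exp '' Ioo s t).Nonempty :=
      ⟨_, mem_image_of_mem _ (⟨by linarith, by linarith⟩ : (s + t) / 2 ∈ Ioo s t)⟩
    obtain ⟨x, hx, r, hr, hrx⟩ := hV.exists_mem_open (Pool.GC.arc s t hst hts).1 hne
    exact ⟨x, hx, r, hr.1, hr.2, hrx⟩
  obtain ⟨a, ha, α, ha1, ha2, rfl⟩ := key 0 1 (by norm_num) (by linarith)
  obtain ⟨b, hb, β, hb1, hb2, rfl⟩ := key 1 2 (by norm_num) (by linarith)
  obtain ⟨c, hc, γ, hc1, hc2, rfl⟩ := key 2 3 (by norm_num) (by linarith)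
  exact ⟨_, ha, _, hb, _, hc, q_ANG.1 α β γ (by linarith) (by linarith) (by linarith)⟩

theorem p_PIC (h1 : Stmt_MBG) (h2 : Stmt_PI1) (h3 : Stmt_PI2) (h4 : Stmt_PI3) : Stmt_PIC := by
  intro G V d hOri hV hG hd hm
  have hm' : ∀ g : G, ∃ m : H, IsMob m ∧ ∀ x ∈ V, d ((g : H) x) = m (d x) :=
    fun g => hm g g.2
  choose m hmM hmd using hm'
  obtain ⟨a, ha, b, hb, c, hc, habc⟩ := PIC_three V hV
  have hdabc : Ccw (d a) (d b) (d c) := hd a ha b hb c hc habc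
  obtain ⟨-, hab, hbc, hac⟩ := q_CYO.2.1 _ _ _ hdabc
  have huniq : ∀ n n' : H, IsMob n → IsMob n' → (∀ x ∈ V, n (d x) = n' (d x)) → n = n' := by
    intro n n' hn hn' h
    have hk : IsMob (n⁻¹ * n') := h1.2.1 _ _ (h1.2.2 _ hn) hn'
    have hfix : ∀ x ∈ V, (n⁻¹ * n') (d x) = d x := by
      intro x hx
      show n.symm (n' (d x)) = d x
      rw [← h x hx]
      exact n.symm_apply_apply _
    have h5 := Pool.GC.mb3 _ hk (d a) (d b) (d c) hab hbc hac (hfix a ha) (hfix b hb) (hfix c hc)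
    exact (inv_mul_eq_one.1 h5)
  have hmul : ∀ g g' : G, m (g * g') = m g * m g' := by
    intro g g'
    apply huniq _ _ (hmM _) (h1.2.1 _ _ (hmM g) (hmM g'))
    intro x hx
    rw [← hmd (g * g') x hx]
    show d ((g : H) ((g' : H) x)) = m g (m g' (d x))
    rw [← hmd g' x hx, ← hmd g _ (hG _ g'.2 x hx)]
  choose π hπ using h2 V d hd
  obtain ⟨hπc, hπs, -⟩ := h4 V d π hV hd hπ
  refine ⟨MonoidHom.mk' m hmul, π, hmM, hπc, hπs, ?_⟩
  intro g y
  apply h3 V d hV hd (m g y) _ _ (hπ _)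
  intro u hu v hv huv hcon
  have hOg : Ori ((g : H)⁻¹) := hOri _ (G.inv_mem g.2)
  have h5 := hOg _ _ _ huv
  have h6 : Ori ((m g)⁻¹) := q_MOR.1 _ (h1.2.2 _ (hmM g))
  have h7 := h6 _ _ _ hcon
  have h8 : (g : H)⁻¹ ((g : H) (π y)) = π y := (g : H).symm_apply_apply _
  have h9 : (m g)⁻¹ (m g y) = y := (m g).symm_apply_apply _
  have h10 : ∀ x ∈ V, (m g)⁻¹ (d x) = d ((g : H)⁻¹ x) := by
    intro x hx
    have h11 : (g : H)⁻¹ x ∈ V := hG _ (G.inv_mem g.2) x hx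
    have h12 := hmd g _ h11
    have h13 : (g : H) ((g : H)⁻¹ x) = x := (g : H).apply_symm_apply _
    rw [h13] at h12
    rw [h12]
    exact (m g).symm_apply_apply _
  rw [h8] at h5
  rw [h9, h10 v hv, h10 u hu] at h7
  exact hπ y _ (hG _ (G.inv_mem g.2) u hu) _ (hG _ (G.inv_mem g.2) v hv) h5 h7

end Pool.SH
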