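import Pool.Agent.Work.MP_ae1ff6_sh.InterfaceG

/-! # Block RAT (helper25): the ratio of the distances from the ends of an arc -/

open Topology Filter Set
open scoped ComplexConjugate

set_option autoImplicit false

namespace Pool.SH

open Pool.CG Pool.AR

theorem RAT_dist (r s : ℝ) (h1 : s ≤ r) (h2 : r ≤ s + 2 * Real.pi) :
    dist (Circle.exp r) (Circle.exp s) = 2 * Real.sin ((r - s) / 2) := by
  have h3 : dist (Circle.exp r) (Circle.exp s) =
      ‖Complex.exp (Complex.I * ((r - s : ℝ) : ℂ)) - 1‖ := by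
    have h4 : dist (Circle.exp r) (Circle.exp s) = ‖((Circle.exp r : Circle) : ℂ) - (Circle.exp s : Circle)‖ := by
      rw [← Complex.dist_eq]
      rfl
    have h5 : ((Circle.exp r : Circle) : ℂ) - (Circle.exp s : Circle) =
        ((Circle.exp s : Circle) : ℂ) * (Complex.exp (Complex.I * ((r - s : ℝ) : ℂ)) - 1) := by
      rw [Circle.coe_exp, Circle.coe_exp, mul_sub, mul_one, ← Complex.exp_add]
      congr 2
      push_cast
      ring
    rw [h4, h5, norm_mul, Circle.norm_coe, one_mul]
  rw [h3, Complex.norm_exp_I_mul_ofReal_sub_one, Real.norm_eq_abs, abs_of_nonneg]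
  have h6 : 0 ≤ Real.sin ((r - s) / 2) :=
    Real.sin_nonneg_of_nonneg_of_le_pi (by linarith) (by linarith)
  linarith

theorem p_RAT : Stmt_RAT := by
  obtain ⟨A1, A2, A3, -⟩ := q_ANG
  refine ⟨?_, ?_⟩
  · intro p q hpq ρ hρ
    obtain ⟨s, t, hst, hts, rfl, rfl⟩ := A3 p q hpq
    have hpi := Real.pi_pos
    have hk : 0 < Real.sin ((t - s) / 2) := Real.sin_pos_of_pos_of_lt_pi (by linarith) (by linarith)
    have hcont : ContinuousOn (fun r : ℝ => Real.sin ((r - s) / 2) - ρ * Real.sin ((t - r) / 2))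
        (Set.Icc s t) := by
      apply Continuous.continuousOn
      fun_prop
    have hivt := intermediate_value_Ioo hst.le hcont
    have h0 : (0 : ℝ) ∈ Set.Ioo (Real.sin ((s - s) / 2) - ρ * Real.sin ((t - s) / 2))
        (Real.sin ((t - s) / 2) - ρ * Real.sin ((t - t) / 2)) := by
      rw [sub_self, sub_self, zero_div, Real.sin_zero, mul_zero, sub_zero, zero_sub]
      exact ⟨by have := mul_pos hρ hk; linarith, hk⟩
    obtain ⟨r, ⟨hr1, hr2⟩, hr⟩ := hivt h0
    refine ⟨Circle.exp r, A1 s r t hr1 hr2 hts, ?_⟩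
    rw [RAT_dist r s hr1.le (by linarith), dist_comm (Circle.exp r) (Circle.exp t),
      RAT_dist t r hr2.le (by linarith)]
    have hr' : Real.sin ((r - s) / 2) - ρ * Real.sin ((t - r) / 2) = 0 := hr
    linear_combination 2 * hr'
  · intro p q y y' hy hy' heq
    have hpi := Real.pi_pos
    have hpq : p ≠ q := (q_CYO.2.1 p y q hy).2.2.2
    obtain ⟨s, t, hst, hts, rfl, rfl⟩ := A3 p q hpq
    obtain ⟨r, hr1, hr2, rfl⟩ := A2 s t y hst hts hy
    obtain ⟨r', hr1', hr2', rfl⟩ := A2 s t y' hst hts hy'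
    rw [RAT_dist r s hr1.le (by linarith), RAT_dist r' s hr1'.le (by linarith),
      dist_comm (Circle.exp r) (Circle.exp t), dist_comm (Circle.exp r') (Circle.exp t),
      RAT_dist t r hr2.le (by linarith), RAT_dist t r' hr2'.le (by linarith)] at heq
    have hk : 0 < Real.sin ((t - s) / 2) := Real.sin_pos_of_pos_of_lt_pi (by linarith) (by linarith)
    have e1 : (t - r) / 2 = (t - s) / 2 - (r - s) / 2 := by ring
    have e2 : (t - r') / 2 = (t - s) / 2 - (r' - s) / 2 := by ring
    rw [e1, e2, Real.sin_sub ((t - s) / 2), Real.sin_sub ((t - s) / 2)] at heq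
    have h1 : Real.sin ((t - s) / 2) * Real.sin ((r - s) / 2 - (r' - s) / 2) = 0 := by
      rw [Real.sin_sub]
      linear_combination heq / 4
    have h2 : Real.sin ((r - s) / 2 - (r' - s) / 2) = 0 :=
      (mul_eq_zero.1 h1).resolve_left hk.ne'
    have h3 : (r - s) / 2 - (r' - s) / 2 = 0 :=
      (Real.sin_eq_zero_iff_of_lt_of_lt (by linarith) (by linarith)).1 h2
    have h4 : r = r' := by linarith
    rw [h4]

end Pool.SH
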