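import Pool.Agent.Work.MP_ae1ff6_sh.InterfaceG

/-!
# Block TR3: Möbius maps are transitive on counterclockwise triples
-/

open Topology Filter Set
open scoped ComplexConjugate

set_option autoImplicit false

namespace Pool.SH

open Pool.CG Pool.AR

theorem TR3_scale (k p q : ℝ) (hk : k ≠ 0) (hpq : p ≠ 0 ∨ q ≠ 0) :
    cusp (k * p) (k * q) = cusp p q := by
  have hne : k * p ≠ 0 ∨ k * q ≠ 0 := by
    rcases hpq with h | h
    · exact Or.inl (mul_ne_zero hk h)
    · exact Or.inr (mul_ne_zero hk h)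
  exact (q_FA1.2.2.2.1 _ _ _ _ hne hpq).2 (by ring)

theorem TR3_can (x D r : ℝ) (hD : D ≠ 0) (hr : r ≠ 0) : x / D / r * D * r = x := by
  field_simp

theorem TR3_aux (a b c : Circle) (h : Ccw a b c) :
    ∃ g : H, IsMob g ∧ g (cusp 1 0) = a ∧ g (cusp 0 1) = b ∧ g (cusp 1 1) = c := by
  obtain ⟨p, q, hpq, rfl⟩ := q_FA1.2.1 a
  obtain ⟨r, s, hrs, rfl⟩ := q_FA1.2.1 b
  obtain ⟨t, u, htu, rfl⟩ := q_FA1.2.1 c
  have hD := (q_FA1.2.2.2.2.2 p q r s t u hpq hrs htu).1 h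
  have huv : p * s - q * r ≠ 0 := by
    intro h0; rw [h0] at hD; simp at hD
  have hvw : r * u - s * t ≠ 0 := by
    intro h0; rw [h0] at hD; simp at hD
  have hwu : t * q - u * p ≠ 0 := by
    intro h0; rw [h0] at hD; simp at hD
  have hD' : 0 < (r * u - s * t) * (t * q - u * p) / (p * s - q * r) := by
    have e : (r * u - s * t) * (t * q - u * p) / (p * s - q * r) =
        ((p * s - q * r) * (r * u - s * t) * (t * q - u * p)) / (p * s - q * r) ^ 2 := by
      field_simp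
    rw [e]
    positivity
  obtain ⟨ρ, hρ, hρ2⟩ : ∃ ρ : ℝ, 0 < ρ ∧
      ρ ^ 2 = (r * u - s * t) * (t * q - u * p) / (p * s - q * r) :=
    ⟨Real.sqrt _, Real.sqrt_pos.2 hD', Real.sq_sqrt hD'.le⟩
  have hρ0 : ρ ≠ 0 := hρ.ne'
  have hρ3 : ρ ^ 2 * (p * s - q * r) = (r * u - s * t) * (t * q - u * p) := by
    rw [hρ2]; exact div_mul_cancel₀ _ huv
  obtain ⟨l, hl⟩ : ∃ l : ℝ, l = -(r * u - s * t) / (p * s - q * r) / ρ := ⟨_, rfl⟩
  obtain ⟨m, hm⟩ : ∃ m : ℝ, m = -(t * q - u * p) / (p * s - q * r) / ρ := ⟨_, rfl⟩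
  have hl0 : l ≠ 0 := by
    rw [hl]; exact div_ne_zero (div_ne_zero (neg_ne_zero.2 hvw) huv) hρ0
  have hm0 : m ≠ 0 := by
    rw [hm]; exact div_ne_zero (div_ne_zero (neg_ne_zero.2 hwu) huv) hρ0
  have hl1 : l * (p * s - q * r) * ρ = -(r * u - s * t) := by
    rw [hl]; exact TR3_can _ _ _ huv hρ0
  have hm1 : m * (p * s - q * r) * ρ = -(t * q - u * p) := by
    rw [hm]; exact TR3_can _ _ _ huv hρ0
  have hdet : (l * p) * (m * s) - (m * r) * (l * q) = 1 := by
    have e : (l * p) * (m * s) - (m * r) * (l * q) = l * m * (p * s - q * r) := by ring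
    rw [e]
    have e2 : (l * m * (p * s - q * r)) * (ρ ^ 2 * (p * s - q * r)) =
        1 * (ρ ^ 2 * (p * s - q * r)) := by
      rw [one_mul]
      calc (l * m * (p * s - q * r)) * (ρ ^ 2 * (p * s - q * r))
          = (l * (p * s - q * r) * ρ) * (m * (p * s - q * r) * ρ) := by ring
        _ = (r * u - s * t) * (t * q - u * p) := by rw [hl1, hm1]; ring
        _ = ρ ^ 2 * (p * s - q * r) := hρ3.symm
    exact mul_right_cancel₀ (mul_ne_zero (pow_ne_zero 2 hρ0) huv) e2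
  obtain ⟨g, hg, hmap⟩ := MOF_map q_FA1 q_MEX _ _ _ _ hdet
  refine ⟨g, hg, ?_, ?_, ?_⟩
  · rw [hmap 1 0 (Or.inl one_ne_zero)]
    have e1 : l * p * 1 + m * r * 0 = l * p := by ring
    have e2 : l * q * 1 + m * s * 0 = l * q := by ring
    rw [e1, e2]
    exact TR3_scale l p q hl0 hpq
  · rw [hmap 0 1 (Or.inr one_ne_zero)]
    have e1 : l * p * 0 + m * r * 1 = m * r := by ring
    have e2 : l * q * 0 + m * s * 1 = m * s := by ring
    rw [e1, e2]
    exact TR3_scale m r s hm0 hrs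
  · rw [hmap 1 1 (Or.inl one_ne_zero)]
    have e1 : l * p * 1 + m * r * 1 = ρ⁻¹ * t := by
      have : (l * p * 1 + m * r * 1) * ((p * s - q * r) * ρ) = (ρ⁻¹ * t) * ((p * s - q * r) * ρ) := by
        calc (l * p * 1 + m * r * 1) * ((p * s - q * r) * ρ)
            = (l * (p * s - q * r) * ρ) * p + (m * (p * s - q * r) * ρ) * r := by ring
          _ = t * (p * s - q * r) := by rw [hl1, hm1]; ring
          _ = (ρ⁻¹ * t) * ((p * s - q * r) * ρ) := by field_simp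
      exact mul_right_cancel₀ (mul_ne_zero huv hρ0) this
    have e2 : l * q * 1 + m * s * 1 = ρ⁻¹ * u := by
      have : (l * q * 1 + m * s * 1) * ((p * s - q * r) * ρ) = (ρ⁻¹ * u) * ((p * s - q * r) * ρ) := by
        calc (l * q * 1 + m * s * 1) * ((p * s - q * r) * ρ)
            = (l * (p * s - q * r) * ρ) * q + (m * (p * s - q * r) * ρ) * s := by ring
          _ = u * (p * s - q * r) := by rw [hl1, hm1]; ring
          _ = (ρ⁻¹ * u) * ((p * s - q * r) * ρ) := by field_simp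
      exact mul_right_cancel₀ (mul_ne_zero huv hρ0) this
    rw [e1, e2]
    exact TR3_scale ρ⁻¹ t u (inv_ne_zero hρ0) htu

theorem p_TR3 (h1 : Stmt_MBG) : Stmt_TR3 := by
  intro a b c a' b' c' h h'
  obtain ⟨g, hg, ga, gb, gc⟩ := TR3_aux a b c h
  obtain ⟨g', hg', ga', gb', gc'⟩ := TR3_aux a' b' c' h'
  refine ⟨g' * g⁻¹, h1.2.1 _ _ hg' (h1.2.2 _ hg), ?_, ?_, ?_⟩
  · have e : g⁻¹ a = cusp 1 0 := by rw [← ga]; exact g.symm_apply_apply _
    change g' (g⁻¹ a) = a'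
    rw [e, ga']
  · have e : g⁻¹ b = cusp 0 1 := by rw [← gb]; exact g.symm_apply_apply _
    change g' (g⁻¹ b) = b'
    rw [e, gb']
  · have e : g⁻¹ c = cusp 1 1 := by rw [← gc]; exact g.symm_apply_apply _
    change g' (g⁻¹ c) = c'
    rw [e, gc']

end Pool.SH
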