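import Pool.Agent.Work.MP_ae1ff6_sh.InterfaceG

/-!
# MP_ae1ff6_gt, block TRV: the third vertex of a triangle at a line
-/

open Topology Filter Set
open scoped ComplexConjugate

set_option autoImplicit false

namespace Pool.SH

open Pool.CG Pool.AR

theorem TRV_ne {a b c : Circle} (h : Ccw a b c) : a ≠ b ∧ b ≠ c ∧ a ≠ c :=
  (q_CYO.2.1 a b c h).2

theorem TRV_third {P : Set Circle} {p q v : Circle} (h : At P p q) (hv : v ∈ P) (h1 : v ≠ p)
    (h2 : v ≠ q) : Ccw p v q := by
  rcases h.2.2 hv with h3 | h3 | h3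
  · exact absurd h3 h1
  · exact absurd h3 h2
  · exact h3

/-- **TRV**: the triangle at a line. -/
theorem p_TRV : Stmt_TRV := by
  intro ℱ hT P hP p q hpq hA
  obtain ⟨a, b, c, hc, rfl⟩ := hT P hP
  obtain ⟨hab, hbc, hac⟩ := TRV_ne hc
  have key : ∀ v : Circle, v ∈ ({a, b, c} : Set Circle) → v ≠ p → v ≠ q →
      (∀ x : Circle, x ∈ ({a, b, c} : Set Circle) ↔ x ∈ ({p, q, v} : Set Circle)) →
      ∃ v, Ccw p v q ∧ ({a, b, c} : Set Circle) = {p, q, v} :=
    fun v hv h1 h2 h3 => ⟨v, TRV_third hA hv h1 h2, Set.ext h3⟩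
  have hp := hA.1
  have hq := hA.2.1
  simp only [Set.mem_insert_iff, Set.mem_singleton_iff] at hp hq key
  rcases hp with rfl | rfl | rfl <;> rcases hq with rfl | rfl | rfl
  · exact absurd rfl hpq
  · exact key c (by tauto) (Ne.symm hac) (Ne.symm hbc) (fun x => by tauto)
  · exact key b (by tauto) (Ne.symm hab) hbc (fun x => by tauto)
  · exact key c (by tauto) (Ne.symm hbc) (Ne.symm hac) (fun x => by tauto)
  · exact absurd rfl hpq
  · exact key a (by tauto) hab hac (fun x => by tauto)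
  · exact key b (by tauto) hbc (Ne.symm hab) (fun x => by tauto)
  · exact key a (by tauto) hac hab (fun x => by tauto)
  · exact absurd rfl hpq

end Pool.SH
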