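import Pool.Agent.Work.MP_ae1ff6_sh.InterfaceG

/-!
# Block TWO of MP_ae1ff6_gt, general half: glueing of two pieces (typed by helper99)
-/

open Topology Filter Set
open scoped ComplexConjugate

set_option autoImplicit false

namespace Pool.SH

open Pool.CG Pool.AR

lemma TWO_rot (hARL : Stmt_ARL) {a b c : Circle} (h : Ccw a b c) : Ccw b c a := by
  obtain ⟨θ, -, -, hc, -, -⟩ := hARL a
  rw [hc] at h ⊢
  tauto

lemma TWO_core (hARL : Stmt_ARL) (d : Circle → Circle) (p q : Circle) (V₁ V₂ : Set Circle)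
    (hp1 : p ∈ V₁) (hq1 : q ∈ V₁) (hp2 : p ∈ V₂) (hq2 : q ∈ V₂)
    (hV1 : V₁ ⊆ Arc q p) (hV2 : V₂ ⊆ Arc p q) (hd1 : CyOn d V₁) (hd2 : CyOn d V₂)
    {a b c : Circle} (ha : a ∈ V₂) (hb : b ∈ V₁) (hc : c ∈ V₁) (habc : Ccw a b c) :
    Ccw (d a) (d b) (d c) := by
  classical
  by_cases haV : a ∈ V₁
  · exact hd1 a haV b hb c hc habc
  have hap : a ≠ p := fun h => haV (h ▸ hp1)
  have haq : a ≠ q := fun h => haV (h ▸ hq1)
  have hpaq : Ccw p a q := by
    rcases hV2 ha with h | h | h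
    · exact absurd h hap
    · exact absurd h haq
    · exact h
  obtain ⟨θ, hinj, hmin, hcy, hz, harc⟩ := hARL a
  have hqp : θ q < θ p := (hz q p haq.symm hap.symm).1 hpaq
  have hb' := ((harc q p b hqp).1).1 (hV1 hb)
  have hc' := ((harc q p c hqp).1).1 (hV1 hc)
  have hbc : θ b < θ c := by
    rcases (hcy a b c).1 habc with h | h | h
    · exact h.2
    · exact h.1
    · exact absurd (hmin c) (not_le.2 h.1)
  -- images
  have himg : Ccw (d p) (d a) (d q) := hd2 p hp2 a ha q hq2 hpaq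
  obtain ⟨φ, hφinj, hφmin, hφcy, -, -⟩ := hARL (d a)
  have hmp := hφmin (d p)
  have hmq := hφmin (d q)
  have hmb := hφmin (d b)
  have hmc := hφmin (d c)
  have h1 : φ (d a) < φ (d q) ∧ φ (d q) < φ (d p) := by
    rcases (hφcy _ _ _).1 himg with h | h | h
    · exact absurd hmp (not_le.2 h.1)
    · exact h
    · exact absurd hmp (not_le.2 h.2)
  -- points of V₁ strictly between q and p
  have key : ∀ x ∈ V₁, θ q < θ x → θ x < θ p → φ (d q) < φ (d x) ∧ φ (d x) < φ (d p) := by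
    intro x hx hqx hxp
    have h2 : Ccw q x p := (hcy q x p).2 (Or.inl ⟨hqx, hxp⟩)
    rcases (hφcy _ _ _).1 (hd1 q hq1 x hx p hp1 h2) with h | h | h
    · exact h
    · exact absurd h1.2 (not_lt.2 h.2.le)
    · exact absurd h1.2 (not_lt.2 h.1.le)
  rw [hφcy]
  refine Or.inl ?_
  have hbp : θ b < θ p := lt_of_lt_of_le hbc hc'.2
  have hqc : θ q < θ c := lt_of_le_of_lt hb'.1 hbc
  rcases eq_or_lt_of_le hb'.1 with hbq | hbq
  · have hbq' : q = b := hinj hbq
    subst hbq'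
    refine ⟨h1.1, ?_⟩
    rcases eq_or_lt_of_le hc'.2 with hcp | hcp
    · have hcp' : c = p := hinj hcp
      subst hcp'
      exact h1.2
    · exact (key c hc hqc hcp).1
  · have hkb := key b hb hbq hbp
    refine ⟨lt_trans h1.1 hkb.1, ?_⟩
    rcases eq_or_lt_of_le hc'.2 with hcp | hcp
    · have hcp' : c = p := hinj hcp
      subst hcp'
      exact hkb.2
    · have hkc := key c hc hqc hcp
      have h2 : Ccw q b c := (hcy q b c).2 (Or.inl ⟨hbq, hbc⟩)
      rcases (hφcy _ _ _).1 (hd1 q hq1 b hb c hc h2) with h | h | h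
      · exact h.2
      · exact h.1
      · exact absurd hkc.1 (not_lt.2 h.1.le)

theorem p_TWO (h1 : Stmt_ARL) : Stmt_TWO := by
  intro d p q V₁ V₂ hpq hp1 hq1 hp2 hq2 hV1 hV2 hd1 hd2 a ha b hb c hc habc
  have hcore1 : ∀ {a b c : Circle}, a ∈ V₂ → b ∈ V₁ → c ∈ V₁ → Ccw a b c →
      Ccw (d a) (d b) (d c) := fun ha hb hc h =>
    TWO_core h1 d p q V₁ V₂ hp1 hq1 hp2 hq2 hV1 hV2 hd1 hd2 ha hb hc h
  have hcore2 : ∀ {a b c : Circle}, a ∈ V₁ → b ∈ V₂ → c ∈ V₂ → Ccw a b c →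
      Ccw (d a) (d b) (d c) := fun ha hb hc h =>
    TWO_core h1 d q p V₂ V₁ hq2 hp2 hq1 hp1 hV2 hV1 hd2 hd1 ha hb hc h
  have r : ∀ {a b c : Circle}, Ccw a b c → Ccw b c a := fun h => TWO_rot h1 h
  rcases ha with ha | ha <;> rcases hb with hb | hb <;> rcases hc with hc | hc
  · exact hd1 a ha b hb c hc habc
  · exact r (hcore1 hc ha hb (r (r habc)))
  · exact r (r (hcore1 hb hc ha (r habc)))
  · exact hcore2 ha hb hc habc
  · exact hcore1 ha hb hc habc
  · exact r (r (hcore2 hb hc ha (r habc)))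
  · exact r (hcore2 hc ha hb (r (r habc)))
  · exact hd2 a ha b hb c hc habc

end Pool.SH
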