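import Pool.Agent.Work.MP_ae1ff6_sh.B_ARL
import Pool.Agent.Work.MP_ae1ff6_sh.B_ARX
import Pool.Agent.Work.MP_ae1ff6_sh.B_PC1
import Pool.Agent.Work.MP_ae1ff6_sh.B_PC2
import Pool.Agent.Work.MP_ae1ff6_sh.B_CNT
import Pool.Agent.Work.MP_ae1ff6_sh.B_TWO
import Pool.Agent.Work.MP_ae1ff6_sh.B_GM1
import Pool.Agent.Work.MP_ae1ff6_sh.B_GM2
import Pool.Agent.Work.MP_ae1ff6_sh.B_GM3
import Pool.Agent.Work.MP_ae1ff6_sh.B_GLX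
import Pool.Agent.Work.MP_ae1ff6_sh.B_GLV
import Pool.Agent.Work.MP_ae1ff6_sh.B_GUN
import Pool.Agent.Work.MP_ae1ff6_sh.B_MBG
import Pool.Agent.Work.MP_ae1ff6_sh.B_MXI
import Pool.Agent.Work.MP_ae1ff6_sh.B_TR3
import Pool.Agent.Work.MP_ae1ff6_sh.B_RAT
import Pool.Agent.Work.MP_ae1ff6_sh.B_GEX
import Pool.Agent.Work.MP_ae1ff6_sh.B_TRV
import Pool.Agent.Work.MP_ae1ff6_sh.B_DV1
import Pool.Agent.Work.MP_ae1ff6_sh.B_DU1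
import Pool.Agent.Work.MP_ae1ff6_sh.B_PI1
import Pool.Agent.Work.MP_ae1ff6_sh.B_PI2
import Pool.Agent.Work.MP_ae1ff6_sh.B_PI3
import Pool.Agent.Work.MP_ae1ff6_sh.B_PIC

/-! Assembly of part 1 (general half, `InterfaceG`) of `MP_ae1ff6_sh`: every statement of
`InterfaceG` as a theorem `q_X : Stmt_X`. -/

namespace Pool.SH

theorem q_ARL : Stmt_ARL := p_ARL
theorem q_ARX : Stmt_ARX := p_ARX q_ARL
theorem q_PC1 : Stmt_PC1 := p_PC1 q_ARX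
theorem q_PC2 : Stmt_PC2 := p_PC2 q_ARL q_ARX q_PC1
theorem q_CNT : Stmt_CNT := p_CNT q_PC1
theorem q_TWO : Stmt_TWO := p_TWO q_ARL
theorem q_GM1 : Stmt_GM1 := p_GM1 q_PC1 q_PC2
theorem q_GM2 : Stmt_GM2 := p_GM2 q_ARX q_PC1
theorem q_GM3 : Stmt_GM3 := p_GM3 q_PC1 q_PC2 q_TWO
theorem q_GLX : Stmt_GLX := p_GLX q_GM1 q_GM2 q_GM3
theorem q_MBG : Stmt_MBG := p_MBG
theorem q_MXI : Stmt_MXI := p_MXI
theorem q_TR3 : Stmt_TR3 := p_TR3 q_MBG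
theorem q_RAT : Stmt_RAT := p_RAT
theorem q_GEX : Stmt_GEX := p_GEX q_MBG q_MXI q_TR3 q_RAT
theorem q_GLV : Stmt_GLV := p_GLV q_PC1 q_MXI q_GEX q_GLX
theorem q_GUN : Stmt_GUN := p_GUN q_CNT q_MXI q_GEX
theorem q_TRV : Stmt_TRV := p_TRV
theorem q_DV1 : Stmt_DV1 := p_DV1 q_PC1 q_GLV q_TRV
theorem q_DU1 : Stmt_DU1 := p_DU1 q_TR3 q_GUN q_TRV
theorem q_PI1 : Stmt_PI1 := p_PI1 q_ARL
theorem q_PI2 : Stmt_PI2 := p_PI2 q_ARL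
theorem q_PI3 : Stmt_PI3 := p_PI3 q_PI2
theorem q_PIC : Stmt_PIC := p_PIC q_MBG q_PI1 q_PI2 q_PI3

end Pool.SH
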