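import Pool.Agent.Work.MP_ae1ff6_sh.InterfaceG

/-! Block ARL. -/

open Topology Filter Set
open scoped ComplexConjugate

set_option autoImplicit false

namespace Pool.SH

open Pool.CG Pool.AR

theorem p_ARL : Stmt_ARL := by
  intro z
  obtain ⟨s, hs⟩ : ∃ s : ℝ, Circle.exp s = z := ⟨Complex.arg z, Circle.exp_arg z⟩
  obtain ⟨θ, h1, h2, h3⟩ := q_CUT s
  have hinj : Function.Injective θ := fun a b h => by
    rw [← (h1 a).2.2, ← (h1 b).2.2, h]
  have hz : θ z = s := by
    rw [← hs]
    exact h2 s le_rfl (by linarith [Real.pi_pos])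
  have hmin : ∀ y, θ z ≤ θ y := fun y => by
    rw [hz]
    exact (h1 y).1
  have hlt : ∀ y, y ≠ z → θ z < θ y := fun y hy =>
    lt_of_le_of_ne (hmin y) (fun h => hy (hinj h).symm)
  refine ⟨θ, hinj, hmin, h3, ?_, ?_⟩
  · intro p q hp hq
    have a1 := hlt p hp
    have a2 := hlt q hq
    rw [h3]
    constructor
    · rintro (⟨h, h'⟩ | ⟨h, h'⟩ | ⟨h, h'⟩)
      · exact absurd h (not_lt.2 a2.le)
      · exact h'
      · exact h
    · intro h
      exact Or.inr (Or.inl ⟨a1, h⟩)
  · intro p q y hpq
    constructor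
    · constructor
      · rintro (h | h | h)
        · subst h
          exact ⟨le_rfl, hpq.le⟩
        · subst h
          exact ⟨hpq.le, le_rfl⟩
        · rcases (h3 p y q).1 h with ⟨h, h'⟩ | ⟨h, h'⟩ | ⟨h, h'⟩
          · exact ⟨h.le, h'.le⟩
          · exact absurd h' (not_lt.2 hpq.le)
          · exact absurd h (not_lt.2 hpq.le)
      · rintro ⟨h, h'⟩
        rcases h.eq_or_lt with e | l
        · exact Or.inl (hinj e).symm
        rcases h'.eq_or_lt with e' | l'
        · exact Or.inr (Or.inl (hinj e'))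
        exact Or.inr (Or.inr ((h3 p y q).2 (Or.inl ⟨l, l'⟩)))
    · constructor
      · rintro (h | h | h)
        · subst h
          exact Or.inr le_rfl
        · subst h
          exact Or.inl le_rfl
        · rcases (h3 q y p).1 h with ⟨h, h'⟩ | ⟨h, h'⟩ | ⟨h, h'⟩
          · exact Or.inr h.le
          · exact Or.inl h.le
          · exact Or.inr h'.le
      · rintro (h | h)
        · rcases h.eq_or_lt with e | l
          · exact Or.inr (Or.inl (hinj e))
          exact Or.inr (Or.inr ((h3 q y p).2 (Or.inr (Or.inl ⟨l, hpq⟩))))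
        · rcases h.eq_or_lt with e | l
          · exact Or.inl (hinj e).symm
          exact Or.inr (Or.inr ((h3 q y p).2 (Or.inr (Or.inr ⟨hpq, l⟩))))

end Pool.SH
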