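import Pool.Agent.Work.MP_ae1ff6_sh.B_PIC
import Pool.Agent.Work.MP_ae1ff6_sh.B_ARL

/-!
# Realization by isometries, with a monotone boundary map (MP_ae1ff6_gt)

`RealizedM G` is `RealizedW G` with a boundary map `π` which is monotone of degree one (it preserves
the cyclic order of the points which it separates). The boundary map of a marking of a complete
hyperbolic metric has this property; without it `(ρ, π)` need not come from a metric on the same
surface. The construction of block PIC gives this stronger form.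
-/

open Topology Filter Set
open scoped ComplexConjugate

set_option autoImplicit false

namespace Pool.SH

open Pool.CG Pool.AR

/-- The group `G / Γ` of mapping classes is realized by orientation preserving isometries of a
complete hyperbolic metric on the surface: there are a homomorphism `ρ` from `G` to the Möbius maps
(the metric is the one of `𝔻 / ρ(Γ)`, and the `ρ g` are lifts of its isometries) and a continuous
monotone map `π` of degree one from the circle onto the circle (the boundary map of the marking; it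
collapses the intervals of discontinuity of `ρ(Γ)`) with `π ∘ ρ g = g ∘ π` for all `g ∈ G`. -/
def RealizedM (G : Subgroup H) : Prop :=
  ∃ (ρ : G →* H) (π : Circle → Circle), (∀ g, IsMob (ρ g)) ∧ Continuous π ∧
    Function.Surjective π ∧ (∀ a b c, Ccw (π a) (π b) (π c) → Ccw a b c) ∧
    ∀ (g : G) (x : Circle), π (ρ g x) = (g : H) (π x)

theorem RealizedM.toW {G : Subgroup H} (h : RealizedM G) : RealizedW G := by
  obtain ⟨ρ, π, h1, h2, h3, -, h5⟩ := h
  exact ⟨ρ, π, h1, h2, h3, h5⟩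

/-- the boundary map of block PI1 is monotone -/
theorem PIM (hARL : Stmt_ARL) (V : Set Circle) (d π : Circle → Circle) (hV : Dense V)
    (hd : CyOn d V) (hπ : ∀ y, Rel V d y (π y)) (a b c : Circle)
    (habc : Ccw (π a) (π b) (π c)) : Ccw a b c := by
  have hA := q_ANG.1
  have rot := q_CYO.1
  have hpi := Real.pi_pos
  have ex : ∀ x w : ℝ, x < w → w < x + 2 * Real.pi →
      ∃ β, x < β ∧ β < w ∧ Circle.exp β ∈ V := by
    intro x w h3 h4
    have h5 := (Pool.GC.arc x w h3 h4).1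
    have h6 : (Circle.exp '' Ioo x w).Nonempty :=
      ⟨_, (x + w) / 2, ⟨by linarith, by linarith⟩, rfl⟩
    obtain ⟨v, ⟨β, hβ, rfl⟩, hv⟩ := hV.inter_open_nonempty _ h5 h6
    exact ⟨β, hβ.1, hβ.2, hv⟩
  obtain ⟨s, u, hsu, hus, hz1, hz3⟩ := q_ANG.2.2.1 (π a) (π c) (q_CYO.2.1 _ _ _ habc).2.2.2
  rw [hz1, hz3] at habc
  obtain ⟨t, hst, htu, hz2⟩ := q_ANG.2.1 s u (π b) hsu hus habc
  obtain ⟨x1, p1, p2, v1⟩ := ex s ((s + t) / 2) (by linarith) (by linarith)
  obtain ⟨x2, p3, p4, v2⟩ := ex ((s + t) / 2) t (by linarith) (by linarith)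
  obtain ⟨x3, p5, p6, v3⟩ := ex t ((t + u) / 2) (by linarith) (by linarith)
  obtain ⟨x4, p7, p8, v4⟩ := ex ((t + u) / 2) u (by linarith) (by linarith)
  obtain ⟨x5, p9, p10, v5⟩ := ex u ((u + s + 2 * Real.pi) / 2) (by linarith) (by linarith)
  obtain ⟨x6, p11, p12, v6⟩ := ex ((u + s + 2 * Real.pi) / 2) (s + 2 * Real.pi) (by linarith)
    (by linarith)
  -- the values of `π` and the relation
  have n1 : ¬ Ccw (d (Circle.exp x1)) a (d (Circle.exp x6)) := by
    apply hπ a _ v6 _ v1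
    rw [hz1]
    exact rot _ _ _ (rot _ _ _ (hA s x1 x6 (by linarith) (by linarith) (by linarith)))
  have n2 : ¬ Ccw (d (Circle.exp x3)) b (d (Circle.exp x2)) := by
    apply hπ b _ v2 _ v3
    rw [hz2]
    exact hA x2 t x3 (by linarith) (by linarith) (by linarith)
  have n3 : ¬ Ccw (d (Circle.exp x5)) c (d (Circle.exp x4)) := by
    apply hπ c _ v4 _ v5
    rw [hz3]
    exact hA x4 u x5 (by linarith) (by linarith) (by linarith)
  have o2 := hd _ v1 _ v2 _ v3 (hA x1 x2 x3 (by linarith) (by linarith) (by linarith))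
  have o3 := hd _ v1 _ v3 _ v4 (hA x1 x3 x4 (by linarith) (by linarith) (by linarith))
  have o4 := hd _ v1 _ v4 _ v5 (hA x1 x4 x5 (by linarith) (by linarith) (by linarith))
  have o5 := hd _ v1 _ v5 _ v6 (hA x1 x5 x6 (by linarith) (by linarith) (by linarith))
  obtain ⟨θ, hinj, hmin, hθ, -, -⟩ := hARL (d (Circle.exp x1))
  rw [hθ] at n1 n2 n3 o2 o3 o4 o5
  rw [hθ]
  have m2 := hmin (d (Circle.exp x2))
  have m3 := hmin (d (Circle.exp x3))
  have m4 := hmin (d (Circle.exp x4))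
  have m5 := hmin (d (Circle.exp x5))
  have m6 := hmin (d (Circle.exp x6))
  have ma := hmin a
  have mb := hmin b
  have mc := hmin c
  have e2 : θ (d (Circle.exp x1)) < θ (d (Circle.exp x2)) ∧
      θ (d (Circle.exp x2)) < θ (d (Circle.exp x3)) := by
    rcases o2 with h | h | h
    · exact h
    · linarith [h.2]
    · linarith [h.1]
  have e3 : θ (d (Circle.exp x3)) < θ (d (Circle.exp x4)) := by
    rcases o3 with h | h | h
    · exact h.2
    · linarith [h.2]
    · linarith [h.1]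
  have e4 : θ (d (Circle.exp x4)) < θ (d (Circle.exp x5)) := by
    rcases o4 with h | h | h
    · exact h.2
    · linarith [h.2]
    · linarith [h.1]
  have e5 : θ (d (Circle.exp x5)) < θ (d (Circle.exp x6)) := by
    rcases o5 with h | h | h
    · exact h.2
    · linarith [h.2]
    · linarith [h.1]
  have fb1 : θ (d (Circle.exp x2)) ≤ θ b := by
    by_contra h
    push_neg at h
    exact n2 (Or.inr (Or.inl ⟨h, e2.2⟩))
  have fb2 : θ b ≤ θ (d (Circle.exp x3)) := by
    by_contra h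
    push_neg at h
    exact n2 (Or.inr (Or.inr ⟨e2.2, h⟩))
  have fc1 : θ (d (Circle.exp x4)) ≤ θ c := by
    by_contra h
    push_neg at h
    exact n3 (Or.inr (Or.inl ⟨h, e4⟩))
  have fa : θ a ≤ θ (d (Circle.exp x1)) ∨ θ (d (Circle.exp x6)) ≤ θ a := by
    by_contra h
    push_neg at h
    exact n1 (Or.inl ⟨h.1, h.2⟩)
  have fc2 : θ c ≤ θ (d (Circle.exp x5)) := by
    by_contra h
    push_neg at h
    exact n3 (Or.inr (Or.inr ⟨e4, h⟩))
  rcases fa with h | h
  · exact Or.inl ⟨by linarith [e2.1], by linarith⟩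
  · exact Or.inr (Or.inl ⟨by linarith, by linarith⟩)

/-- block PIC with a monotone boundary map -/
theorem picM (hARL : Stmt_ARL) (h1 : Stmt_MBG) (h2 : Stmt_PI1) (h3 : Stmt_PI2) (h4 : Stmt_PI3)
    (G : Subgroup H) (V : Set Circle) (d : Circle → Circle) (hOri : ∀ g ∈ G, Ori g)
    (hV : Dense V) (hG : ∀ g ∈ G, ∀ x ∈ V, g x ∈ V) (hd : CyOn d V)
    (hm : ∀ g ∈ G, ∃ m : H, IsMob m ∧ ∀ x ∈ V, d (g x) = m (d x)) : RealizedM G := by
  have hm' : ∀ g : G, ∃ m : H, IsMob m ∧ ∀ x ∈ V, d ((g : H) x) = m (d x) :=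
    fun g => hm g g.2
  choose m hmM hmd using hm'
  obtain ⟨a, ha, b, hb, c, hc, habc⟩ := PIC_three V hV
  have hdabc : Ccw (d a) (d b) (d c) := hd a ha b hb c hc habc
  obtain ⟨-, hab, hbc, hac⟩ := q_CYO.2.1 _ _ _ hdabc
  have huniq : ∀ n n' : H, IsMob n → IsMob n' → (∀ x ∈ V, n (d x) = n' (d x)) → n = n' := by
    intro n n' hn hn' h
    have hk : IsMob (n⁻¹ * n') := h1.2.1 _ _ (h1.2.2 _ hn) hn'
    have hfix : ∀ x ∈ V, (n⁻¹ * n') (d x) = d x := by
      intro x hx
      show n.symm (n' (d x)) = d x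
      rw [← h x hx]
      exact n.symm_apply_apply _
    have h5 := Pool.GC.mb3 _ hk (d a) (d b) (d c) hab hbc hac (hfix a ha) (hfix b hb) (hfix c hc)
    exact (inv_mul_eq_one.1 h5)
  have hmul : ∀ g g' : G, m (g * g') = m g * m g' := by
    intro g g'
    apply huniq _ _ (hmM _) (h1.2.1 _ _ (hmM g) (hmM g'))
    intro x hx
    rw [← hmd (g * g') x hx]
    show d ((g : H) ((g' : H) x)) = m g (m g' (d x))
    rw [← hmd g' x hx, ← hmd g _ (hG _ g'.2 x hx)]
  choose π hπ using h2 V d hd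
  obtain ⟨hπc, hπs, -⟩ := h4 V d π hV hd hπ
  refine ⟨MonoidHom.mk' m hmul, π, hmM, hπc, hπs, PIM hARL V d π hV hd hπ, ?_⟩
  intro g y
  apply h3 V d hV hd (m g y) _ _ (hπ _)
  intro u hu v hv huv hcon
  have hOg : Ori ((g : H)⁻¹) := hOri _ (G.inv_mem g.2)
  have h5 := hOg _ _ _ huv
  have h6 : Ori ((m g)⁻¹) := q_MOR.1 _ (h1.2.2 _ (hmM g))
  have h7 := h6 _ _ _ hcon
  have h8 : (g : H)⁻¹ ((g : H) (π y)) = π y := (g : H).symm_apply_apply _
  have h9 : (m g)⁻¹ (m g y) = y := (m g).symm_apply_apply _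
  have h10 : ∀ x ∈ V, (m g)⁻¹ (d x) = d ((g : H)⁻¹ x) := by
    intro x hx
    have h11 : (g : H)⁻¹ x ∈ V := hG _ (G.inv_mem g.2) x hx
    have h12 := hmd g _ h11
    have h13 : (g : H) ((g : H)⁻¹ x) = x := (g : H).apply_symm_apply _
    rw [h13] at h12
    rw [h12]
    exact (m g).symm_apply_apply _
  rw [h8] at h5
  rw [h9, h10 v hv, h10 u hu] at h7
  exact hπ y _ (hG _ (G.inv_mem g.2) u hu) _ (hG _ (G.inv_mem g.2) v hv) h5 h7

/-- block PIC with a monotone boundary map -/
def Stmt_PICM : Prop :=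
  ∀ (G : Subgroup H) (V : Set Circle) (d : Circle → Circle), (∀ g ∈ G, Ori g) → Dense V →
    (∀ g ∈ G, ∀ x ∈ V, g x ∈ V) → CyOn d V →
    (∀ g ∈ G, ∃ m : H, IsMob m ∧ ∀ x ∈ V, d (g x) = m (d x)) → RealizedM G

theorem p_PICM (h1 : Stmt_MBG) (h2 : Stmt_PI1) (h3 : Stmt_PI2) (h4 : Stmt_PI3) : Stmt_PICM := by
  intro G V d hOri hV hG hd hm
  exact picM p_ARL h1 h2 h3 h4 G V d hOri hV hG hd hm

end Pool.SH
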