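import Pool.Agent.Work.MP_ae1ff6_sh.Asm2
import Pool.Agent.Work.MP_ae1ff6_sh.Mono

/-!
# Mapping classes of infinite order (MP_ae1ff6_gt): assembly with monotone boundary maps
-/

open Topology Filter Set
open scoped ComplexConjugate

set_option autoImplicit false

namespace Pool.SH

open Pool.CG Pool.AR

/-- the developing map of the vertices, which are dense and invariant -/
theorem rln_core (hGLB : Stmt_GLB) (Γ G : Subgroup H) (Λ : Set (Circle × Circle)) (ℛ : Set (Set Circle))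
    (T : Set Circle → Set (Circle × Circle)) (hΓ : FirstKind Γ) (hle : Γ ≤ G) (hN : Net G Λ ℛ T)
    (hF : FanHyp ℛ T)
    (hV : ∀ g ∈ G, ∀ K ∈ ℛ, ∀ x ∈ Vt K (T K), g x ∈ Vt ((g : H) '' K) (T ((g : H) '' K))) :
    ∃ d : Circle → Circle, CyOn d (⋃₀ VV ℛ T) ∧
      (∀ g ∈ G, ∃ m : H, IsMob m ∧ ∀ x ∈ ⋃₀ VV ℛ T, d (g x) = m (d x)) ∧
      Dense (⋃₀ VV ℛ T) ∧ ∀ g ∈ G, ∀ x ∈ ⋃₀ VV ℛ T, g x ∈ ⋃₀ VV ℛ T := by
  obtain ⟨d, hd, hm⟩ := hGLB G Λ ℛ T hN hF hV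
  have hinv : ∀ g ∈ G, ∀ x ∈ ⋃₀ VV ℛ T, g x ∈ ⋃₀ VV ℛ T := by
    rintro g hg x ⟨_, ⟨K, hK, rfl⟩, hx⟩
    exact ⟨_, ⟨(g : H) '' K, hN.keepK g hg K hK, rfl⟩, hV g hg K hK x hx⟩
  refine ⟨d, hd, hm, ?_, hinv⟩
  obtain ⟨K, hK⟩ := hN.nonempty
  obtain ⟨P, hP⟩ := (hF K hK).1
  have hP' := hP
  obtain ⟨a, b, c, x, y, z, -, rfl, -⟩ := hP'
  have ha : a ∈ ⋃₀ VV ℛ T := ⟨_, ⟨K, hK, rfl⟩, Or.inl ⟨_, hP, by simp⟩⟩
  refine (hΓ.dense a).mono ?_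
  rintro w ⟨γ, hγ, rfl⟩
  exact hinv γ (hle hγ) a ha

/-- RLN with a monotone boundary map -/
def Stmt_RLNM : Prop :=
  ∀ (Γ G : Subgroup H) (Λ : Set (Circle × Circle)) (ℛ : Set (Set Circle))
    (T : Set Circle → Set (Circle × Circle)), FirstKind Γ → Γ ≤ G → Net G Λ ℛ T → FanHyp ℛ T →
    (∀ g ∈ G, ∀ K ∈ ℛ, ∀ x ∈ Vt K (T K), g x ∈ Vt ((g : H) '' K) (T ((g : H) '' K))) →
    RealizedM G

theorem p_RLNM (h1 : Stmt_GLB) (h2 : Stmt_PICM) : Stmt_RLNM := by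
  intro Γ G Λ ℛ T hΓ hle hN hF hV
  obtain ⟨d, hd, hm, hD, hinv⟩ := rln_core h1 Γ G Λ ℛ T hΓ hle hN hF hV
  exact h2 G _ d hN.ori hD hinv hd hm

/-- the theorem for mapping classes of infinite order: `f` is realized by an isometry of a complete hyperbolic
metric (`RealizedM`: the boundary map of the marking is monotone; `RealizedW`: it is only continuous and
onto) if and only if each closed geodesic `a` is crossed by `f ^ n (a)` only for finitely many integers `n` -/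
def Stmt_FullM : Prop :=
  ∀ (Γ : Subgroup H) (f : H) (T₀ : Set (Circle × Circle)), FirstKind Γ →
    (∀ γ ∈ Γ, ∀ n : ℕ, 0 < n → γ ^ n = 1 → γ = 1) → Tri T₀ → Keeps Γ T₀ → Ori f →
    (∀ γ, γ ∈ Γ ↔ f * γ * f⁻¹ ∈ Γ) → (∀ n : ℕ, 0 < n → f ^ n ∉ Γ) →
    (RealizedM (Γ ⊔ Subgroup.zpowers f) ↔ ∀ γ ∈ Γ, ∀ p q : Circle, Axis γ p q →
      {n : ℤ | ∃ κ ∈ Γ, Link ((κ * f ^ n) p) ((κ * f ^ n) q) p q}.Finite) ∧
    (RealizedW (Γ ⊔ Subgroup.zpowers f) ↔ ∀ γ ∈ Γ, ∀ p q : Circle, Axis γ p q →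
      {n : ℤ | ∃ κ ∈ Γ, Link ((κ * f ^ n) p) ((κ * f ^ n) q) p q}.Finite)

/-- the assembly of the theorem -/
theorem asm_FullM (hGEL : Stmt_GEL) (hFAM : Stmt_FAM) (hLMN : Stmt_LMN)
    (hNET : ∀ (G : Subgroup H) (Λ : Set (Circle × Circle)) (T : Set Circle → Set (Circle × Circle)),
      Lamn G Λ T → Net G Λ {K | Reg Λ K} T)
    (hTFN : Stmt_TFN) (hTEQ : Stmt_TEQ) (hRLN : Stmt_RLNM) : Stmt_FullM := by
  intro Γ f T₀ hΓ htf hT hk hO hf hinf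
  rw [← asm_conv Γ f hΓ hf hinf]
  have hn := (hGEL Γ f hf).2.2.2
  have key : Conv (Γ ⊔ Subgroup.zpowers f) → RealizedM (Γ ⊔ Subgroup.zpowers f) := by
    intro h
    obtain ⟨A, hA⟩ := hFAM Γ f hΓ hf hinf h
    have hL := hLMN Γ f A T₀ hΓ htf hT hk hO hf hinf h hA
    have hN := hNET _ _ _ hL
    exact hRLN Γ _ _ _ _ hΓ le_sup_left hN (fanHyp_of hTFN _ _ _ _ hN) (vt_of hTEQ _ _ _ _ hN)
  have back : RealizedW (Γ ⊔ Subgroup.zpowers f) → Conv (Γ ⊔ Subgroup.zpowers f) := fun h =>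
    Pool.CG.rl2 Γ _ hΓ le_sup_left hn h
  exact ⟨⟨fun h => back h.toW, key⟩, ⟨back, fun h => (key h).toW⟩⟩

end Pool.SH
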