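import Pool.Agent.Work.MP_ae1ff6_sh.InterfaceL

/-! # Block CNT2: the axes are countably many -/

open Topology Filter Set
open scoped ComplexConjugate

set_option autoImplicit false

namespace Pool.SH

open Pool.CG Pool.AR

theorem CNT2_mv (g : H) : ∃ n : ℕ, Mv (1 / ((n : ℝ) + 1)) g := by
  obtain ⟨w₁, w₂, w₃, h12, h13, h23⟩ := Pool.GC.ORB_three
  have d12 : w₁ ≠ w₂ := dist_pos.1 (by linarith)
  have d13 : w₁ ≠ w₃ := dist_pos.1 (by linarith)
  have d23 : w₂ ≠ w₃ := dist_pos.1 (by linarith)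
  have e12 : 0 < dist (g w₁) (g w₂) := dist_pos.2 fun h => d12 (g.injective h)
  have e13 : 0 < dist (g w₁) (g w₃) := dist_pos.2 fun h => d13 (g.injective h)
  have e23 : 0 < dist (g w₂) (g w₃) := dist_pos.2 fun h => d23 (g.injective h)
  have hm : 0 < min (dist (g w₁) (g w₂)) (min (dist (g w₁) (g w₃)) (dist (g w₂) (g w₃))) :=
    lt_min e12 (lt_min e13 e23)
  obtain ⟨n, hn⟩ := exists_nat_one_div_lt hm
  have k1 := hn.le.trans (min_le_left _ _)
  have k2 := hn.le.trans ((min_le_right _ _).trans (min_le_left _ _))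
  have k3 := hn.le.trans ((min_le_right _ _).trans (min_le_right _ _))
  have hle : 1 / ((n : ℝ) + 1) ≤ 1 := by
    rw [div_le_one (by positivity)]
    have : (0 : ℝ) ≤ n := Nat.cast_nonneg n
    linarith
  exact ⟨n, w₁, w₂, w₃, ⟨hle.trans h12, hle.trans h23, hle.trans h13⟩, k1, k3, k2⟩

theorem CNT2_cnt (Γ G : Subgroup H) (hle : Γ ≤ G) (hc : Conv G) : (Γ : Set H).Countable := by
  have h1 : (Γ : Set H) ⊆ ⋃ n : ℕ, {g : H | g ∈ G ∧ Mv (1 / ((n : ℝ) + 1)) g} := by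
    intro g hg
    obtain ⟨n, hn⟩ := CNT2_mv g
    exact mem_iUnion.2 ⟨n, hle hg, hn⟩
  exact (countable_iUnion fun n => (hc _ (by positivity)).countable).mono h1

theorem CNT2_ax (γ : H) : {a : Circle × Circle | Axis γ a.1 a.2}.Countable := by
  rcases Set.eq_empty_or_nonempty {a : Circle × Circle | Axis γ a.1 a.2} with h | ⟨a₀, h₀⟩
  · rw [h]
    exact countable_empty
  · have h1 : {a : Circle × Circle | Axis γ a.1 a.2} ⊆
        ({a₀.1, a₀.2} : Set Circle) ×ˢ ({a₀.1, a₀.2} : Set Circle) := by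
      intro a ha
      have f1 : γ a.1 = a.1 := (ha.2 a.1).2 (Or.inl rfl)
      have f2 : γ a.2 = a.2 := (ha.2 a.2).2 (Or.inr rfl)
      exact mk_mem_prod ((h₀.2 a.1).1 f1) ((h₀.2 a.2).1 f2)
    exact (((Set.toFinite _).prod (Set.toFinite _)).subset h1).countable

theorem p_CNT2 : Stmt_CNT2 := by
  intro Γ G hΓ hle hc
  constructor
  · have h1 : {a : Circle × Circle | ∃ γ ∈ Γ, Axis γ a.1 a.2} ⊆
        ⋃ γ ∈ (Γ : Set H), {a : Circle × Circle | Axis γ a.1 a.2} := by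
      rintro a ⟨γ, hγ, ha⟩
      exact mem_iUnion₂.2 ⟨γ, hγ, ha⟩
    exact ((CNT2_cnt Γ G hle hc).biUnion fun γ _ => CNT2_ax γ).mono h1
  · obtain ⟨γ, hγ, p, -, q, -, ha⟩ := Pool.CG.dns Γ hΓ univ univ isOpen_univ univ_nonempty
      isOpen_univ univ_nonempty
    exact ⟨(p, q), γ, hγ, ha⟩

end Pool.SH
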