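import Pool.Agent.Work.MP_ae1ff6_sh.InterfaceF

/-!
# MP_ae1ff6_gt, block DEL: developing maps of the regions
-/

open Topology Filter Set
open scoped ComplexConjugate

set_option autoImplicit false

namespace Pool.SH

open Pool.CG Pool.AR

theorem p_DEL (h1 : Stmt_YGQ) (h2 : Stmt_YAL) (h3 : Stmt_YDX) (h4 : Stmt_YOR) (h5 : Stmt_YTR)
    (h6 : Stmt_YMF) : Stmt_DEL := by
  classical
  intro G Λ ℛ T hN
  obtain ⟨hF, -⟩ := h1 G Λ ℛ T hN
  obtain ⟨-, hal⟩ := h2 G Λ ℛ T hN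
  have hex : ∀ K : Set Circle, ∃ δ : Circle → Circle, K ∈ ℛ → Dvl K (T K) (al G T K) δ := by
    intro K
    by_cases hK : K ∈ ℛ
    · obtain ⟨δ, hδ⟩ := h3 K (T K) (hF K hK) (al G T K) (fun x => hal K x)
      exact ⟨δ, fun _ => hδ⟩
    · exact ⟨id, fun h => absurd h hK⟩
  choose δ hδ using hex
  refine ⟨δ, fun K hK => h4 K (T K) (hF K hK) _ _ (hδ K hK), ?_, ?_⟩
  · intro K hK g hg
    exact h5 G Λ ℛ T hN K hK g hg (δ K) (δ ((g : H) '' K)) (hδ K hK)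
      (hδ _ (hN.keepK g hg K hK))
  · intro p q K K' hpq hK hK' hat hat' g hg hgp hgq
    exact h6 G Λ ℛ T hN δ (fun K hK => hδ K hK) p q K K' hpq hK hK' hat hat' g hg hgp hgq

end Pool.SH
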