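import Pool.Agent.Work.MP_ae1ff6_sh.InterfaceZ

/-! # Block DIR: the direction of an element with two fixed points -/

open Topology Filter Set
open scoped ComplexConjugate

set_option autoImplicit false

namespace Pool.SH

open Pool.CG Pool.AR

theorem DIR_arc {p q : Circle} (h : p ≠ q) :
    IsPreconnected {x : Circle | Ccw p x q} ∧ ∃ x, Ccw p x q := by
  obtain ⟨s, t, hst, ht, rfl, rfl⟩ := q_ANG.2.2.1 p q h
  have e : {x : Circle | Ccw (Circle.exp s) x (Circle.exp t)} = Circle.exp '' Ioo s t := by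
    ext z
    constructor
    · intro hz
      obtain ⟨r, h1, h2, h3⟩ := q_ANG.2.1 s t z hst ht hz
      exact ⟨r, ⟨h1, h2⟩, h3.symm⟩
    · rintro ⟨r, ⟨h1, h2⟩, rfl⟩
      exact q_ANG.1 s r t h1 h2 ht
  constructor
  · rw [e]
    exact Pool.GC.TWO_conn s t
  · exact ⟨Circle.exp ((s + t) / 2), q_ANG.1 s _ t (by linarith) (by linarith) ht⟩

theorem DIR_sign (h : H) {p q : Circle} (hpq : p ≠ q) (hp : h p = p)
    (hfix : ∀ x, Ccw p x q → h x ≠ x) :
    (∀ x, Ccw p x q → Ccw p x (h x)) ∨ ∀ x, Ccw p x q → Ccw p (h x) x := by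
  have hU : IsOpen {z : Circle | Ccw p z (h z)} :=
    isOpen_lt continuous_const (SHF_area_cont p _ _ continuous_id h.continuous)
  have hV : IsOpen {z : Circle | Ccw p (h z) z} :=
    isOpen_lt continuous_const (SHF_area_cont p _ _ h.continuous continuous_id)
  have hdis : Disjoint {z : Circle | Ccw p z (h z)} {z : Circle | Ccw p (h z) z} := by
    rw [Set.disjoint_left]
    intro z hz hz'
    exact (q_CYO.2.1 _ _ _ hz).1 hz'
  have hcov : {z : Circle | Ccw p z q} ⊆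
      {z : Circle | Ccw p z (h z)} ∪ {z : Circle | Ccw p (h z) z} := by
    intro z hz
    obtain ⟨-, h1, -, -⟩ := q_CYO.2.1 p z q hz
    have ha : z ≠ h z := fun e => hfix z hz e.symm
    have hb : p ≠ h z := by
      intro e
      exact h1 (h.injective (hp.trans e))
    exact q_CYO.2.2.1 p z (h z) h1 ha hb
  rcases (DIR_arc hpq).1.subset_or_subset hU hV hdis hcov with h2 | h2
  · exact Or.inl fun z hz => h2 hz
  · exact Or.inr fun z hz => h2 hz

theorem DIR_iter (g : H) {p q : Circle} (hO : Ori g) (hp : g p = p) (hq : g q = q) {x : Circle}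
    (hx : Ccw p x q) (n : ℕ) : Ccw p ((g ^ n) x) q := by
  induction n with
  | zero => exact hx
  | succ n ih =>
    have h1 := hO _ _ _ ih
    rw [hp, hq] at h1
    rw [pow_succ']
    exact h1

theorem DIR_lim (g : H) {x z : Circle} (h : Tendsto (fun n : ℕ => (g ^ n) x) atTop (𝓝 z)) :
    g z = z := by
  have h1 : Tendsto (fun n : ℕ => g ((g ^ n) x)) atTop (𝓝 (g z)) := (g.continuous.tendsto z).comp h
  have h2 : Tendsto (fun n : ℕ => (g ^ (n + 1)) x) atTop (𝓝 z) :=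
    (tendsto_add_atTop_iff_nat (f := fun n : ℕ => (g ^ n) x) 1).2 h
  refine tendsto_nhds_unique h1 (h2.congr fun n => ?_)
  rw [pow_succ']
  rfl

theorem DIR_inc (g : H) {p q : Circle} (hpq : p ≠ q) (hO : Ori g) (hp : g p = p) (hq : g q = q)
    (hfix : ∀ x, Ccw p x q → g x ≠ x) (hd : ∀ x, Ccw p x q → Ccw p x (g x)) {x : Circle}
    (hx : Ccw p x q) : Tendsto (fun n : ℕ => (g ^ n) x) atTop (𝓝 q) := by
  obtain ⟨s, t, hst, ht, rfl, rfl⟩ := q_ANG.2.2.1 p q hpq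
  have harc := DIR_iter g hO hp hq hx
  choose r h1 h2 h3 using fun n => q_ANG.2.1 s t _ hst ht (harc n)
  have hmono : StrictMono r := by
    refine strictMono_nat_of_lt_succ fun n => ?_
    have h4 := hd _ (harc n)
    have h5 : g ((g ^ n) x) = (g ^ (n + 1)) x := by
      rw [pow_succ']
      rfl
    rw [h5, h3 n, h3 (n + 1)] at h4
    exact (q_ANG.2.2.2.2.1 s (r n) (r (n + 1)) (h1 n) ((h2 n).trans ht) (h1 _)
      ((h2 _).trans ht)).1 h4
  have hb : BddAbove (Set.range r) := ⟨t, by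
    rintro _ ⟨n, rfl⟩
    exact (h2 n).le⟩
  have hlim := tendsto_atTop_ciSup hmono.monotone hb
  obtain ⟨R, hR⟩ : ∃ R, R = ⨆ i, r i := ⟨_, rfl⟩
  rw [← hR] at hlim
  have hR1 : s < R := by
    rw [hR]
    exact lt_of_lt_of_le (h1 0) (le_ciSup hb 0)
  have hR2 : R ≤ t := by
    rw [hR]
    exact ciSup_le fun n => (h2 n).le
  have hE : Tendsto (fun n : ℕ => (g ^ n) x) atTop (𝓝 (Circle.exp R)) :=
    ((Circle.exp.continuous.tendsto R).comp hlim).congr fun n => (h3 n).symm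
  rcases hR2.lt_or_eq with hlt | heq
  · exact absurd (DIR_lim g hE) (hfix _ (q_ANG.1 s R t hR1 hlt ht))
  · rw [← heq]
    exact hE

theorem DIR_dec (g : H) {p q : Circle} (hpq : p ≠ q) (hO : Ori g) (hp : g p = p) (hq : g q = q)
    (hfix : ∀ x, Ccw p x q → g x ≠ x) (hd : ∀ x, Ccw p x q → Ccw p (g x) x) {x : Circle}
    (hx : Ccw p x q) : Tendsto (fun n : ℕ => (g ^ n) x) atTop (𝓝 p) := by
  obtain ⟨s, t, hst, ht, rfl, rfl⟩ := q_ANG.2.2.1 p q hpq
  have harc := DIR_iter g hO hp hq hx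
  choose r h1 h2 h3 using fun n => q_ANG.2.1 s t _ hst ht (harc n)
  have hmono : Antitone r := by
    refine antitone_nat_of_succ_le fun n => ?_
    have h4 := hd _ (harc n)
    have h5 : g ((g ^ n) x) = (g ^ (n + 1)) x := by
      rw [pow_succ']
      rfl
    rw [h5, h3 n, h3 (n + 1)] at h4
    exact ((q_ANG.2.2.2.2.1 s (r (n + 1)) (r n) (h1 _) ((h2 _).trans ht) (h1 _)
      ((h2 _).trans ht)).1 h4).le
  have hb : BddBelow (Set.range r) := ⟨s, by
    rintro _ ⟨n, rfl⟩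
    exact (h1 n).le⟩
  have hlim := tendsto_atTop_ciInf hmono hb
  obtain ⟨R, hR⟩ : ∃ R, R = ⨅ i, r i := ⟨_, rfl⟩
  rw [← hR] at hlim
  have hR1 : R < t := by
    rw [hR]
    exact lt_of_le_of_lt (ciInf_le hb 0) (h2 0)
  have hR2 : s ≤ R := by
    rw [hR]
    exact le_ciInf fun n => (h1 n).le
  have hE : Tendsto (fun n : ℕ => (g ^ n) x) atTop (𝓝 (Circle.exp R)) :=
    ((Circle.exp.continuous.tendsto R).comp hlim).congr fun n => (h3 n).symm
  rcases hR2.lt_or_eq with hlt | heq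
  · exact absurd (DIR_lim g hE) (hfix _ (q_ANG.1 s R t hlt hR1 ht))
  · rw [heq]
    exact hE

theorem DIR_fixpow (g : H) {x : Circle} (h : g x = x) (n : ℕ) : (g ^ n) x = x := by
  induction n with
  | zero => rfl
  | succ n ih =>
    rw [pow_succ']
    change g ((g ^ n) x) = x
    rw [ih, h]

theorem DIR_eps {a b c d e : ℝ} (ha : 0 < a) (hb : 0 < b) (hc : 0 < c) (hd : 0 < d) (he : 0 < e) :
    ∃ ε : ℝ, 0 < ε ∧ ε < a ∧ ε < b ∧ ε < c ∧ ε < d ∧ ε < e := by
  obtain ⟨ε, h1, h2⟩ := exists_between (lt_min (lt_min ha hb) (lt_min hc (lt_min hd he)))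
  simp only [lt_min_iff] at h2
  exact ⟨ε, h1, h2.1.1, h2.1.2, h2.2.1, h2.2.2.1, h2.2.2.2⟩

theorem DIR_inv {h : H} {p : Circle} (hp : h p = p) : h⁻¹ p = p := by
  have h1 : h⁻¹ (h p) = p := h.symm_apply_apply p
  rwa [hp] at h1

theorem DIR_pp (G : Subgroup H) (hG : Conv G) (h : H) (hh : h ∈ G) (hO : Ori h) {p q : Circle}
    (hpq : p ≠ q) (hp : h p = p) (hq : h q = q) (hfix : ∀ x, x ≠ p → x ≠ q → h x ≠ x)
    (hd1 : ∀ x, Ccw p x q → Ccw p x (h x)) (hd2 : ∀ x, Ccw q x p → Ccw q x (h x)) : False := by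
  obtain ⟨x, hx⟩ := (DIR_arc hpq).2
  obtain ⟨y, hy⟩ := (DIR_arc hpq.symm).2
  obtain ⟨-, x1, x2, -⟩ := q_CYO.2.1 p x q hx
  obtain ⟨-, y1, y2, -⟩ := q_CYO.2.1 q y p hy
  have hX : Tendsto (fun n : ℕ => (h ^ n) x) atTop (𝓝 q) :=
    DIR_inc h hpq hO hp hq (fun z hz => by
      obtain ⟨-, z1, z2, -⟩ := q_CYO.2.1 p z q hz
      exact hfix z z1.symm z2) hd1 hx
  have hOi : Ori h⁻¹ := q_MOR.2.1.2.2 h hO
  have hpi : h⁻¹ p = p := DIR_inv hp
  have hqi : h⁻¹ q = q := DIR_inv hq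
  have happ : ∀ z, h (h⁻¹ z) = z := fun z => h.apply_symm_apply z
  have hY : Tendsto (fun n : ℕ => (h⁻¹ ^ n) y) atTop (𝓝 q) :=
    DIR_dec h⁻¹ hpq.symm hOi hqi hpi (fun z hz e => by
      obtain ⟨-, z1, z2, -⟩ := q_CYO.2.1 q z p hz
      apply hfix z z2 z1.symm
      have e1 := congrArg h e
      rw [happ] at e1
      exact e1.symm) (fun z hz => by
      have h1 := hOi _ _ _ hz
      rw [hqi, hpi] at h1
      have h2 := hd2 _ h1
      rw [happ] at h2
      exact h2) hy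
  obtain ⟨ε, e0, e1, e2, e3, e4, e5⟩ := DIR_eps (dist_pos.2 hpq) (dist_pos.2 x2.symm)
    (dist_pos.2 x1) (dist_pos.2 y2.symm) (dist_pos.2 y1.symm)
  have hpow : ∀ n : ℕ, (h ^ n) ((h⁻¹ ^ n) y) = y := by
    intro n
    have h1 : h ^ n * h⁻¹ ^ n = 1 := by
      rw [inv_pow, mul_inv_cancel]
    have h2 : (h ^ n * h⁻¹ ^ n) y = (1 : H) y := by rw [h1]
    exact h2
  have hev : ∀ᶠ n : ℕ in atTop, Mv ε (h ^ n) := by
    have t1 : Tendsto (fun n : ℕ => dist p ((h⁻¹ ^ n) y)) atTop (𝓝 (dist p q)) :=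
      tendsto_const_nhds.dist hY
    have t2 : Tendsto (fun n : ℕ => dist ((h⁻¹ ^ n) y) x) atTop (𝓝 (dist q x)) :=
      hY.dist tendsto_const_nhds
    have t3 : Tendsto (fun n : ℕ => dist y ((h ^ n) x)) atTop (𝓝 (dist y q)) :=
      tendsto_const_nhds.dist hX
    have t4 : Tendsto (fun n : ℕ => dist p ((h ^ n) x)) atTop (𝓝 (dist p q)) :=
      tendsto_const_nhds.dist hX
    filter_upwards [t1.eventually (lt_mem_nhds e1), t2.eventually (lt_mem_nhds e2),
      t3.eventually (lt_mem_nhds e5), t4.eventually (lt_mem_nhds e1)] with n a1 a2 a3 a4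
    refine ⟨p, (h⁻¹ ^ n) y, x, ⟨a1.le, a2.le, e3.le⟩, ?_⟩
    rw [hpow n, DIR_fixpow h hp n]
    exact ⟨e4.le, a3.le, a4.le⟩
  have hfin : ((fun g : H => g x) '' {g : H | (g ∈ G ∧ Mv ε g) ∧ ∃ n : ℕ, g = h ^ n}).Finite :=
    ((hG ε e0).subset fun g hg => hg.1).image _
  have hmem : ∀ᶠ n : ℕ in atTop,
      (h ^ n) x ∈ (fun g : H => g x) '' {g : H | (g ∈ G ∧ Mv ε g) ∧ ∃ n : ℕ, g = h ^ n} := by
    filter_upwards [hev] with n hn
    exact ⟨h ^ n, ⟨⟨G.pow_mem hh n, hn⟩, n, rfl⟩, rfl⟩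
  obtain ⟨g, ⟨-, n, rfl⟩, hgx⟩ := hfin.isClosed.mem_of_tendsto hX hmem
  have hgx' : (h ^ n) x = q := hgx
  exact x2 ((h ^ n).injective (hgx'.trans (DIR_fixpow h hq n).symm))

theorem p_DIR : Stmt_DIR := by
  intro G hG h hh hO h1 p q hpq hp hq
  have hfix : ∀ x, x ≠ p → x ≠ q → h x ≠ x := fun x hxp hxq hx =>
    h1 (q_FXT G h p q x hG hh hO hpq hxq.symm hxp.symm hp hq hx)
  have s1 := DIR_sign h hpq hp (fun z hz => by
    obtain ⟨-, z1, z2, -⟩ := q_CYO.2.1 p z q hz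
    exact hfix z z1.symm z2)
  have s2 := DIR_sign h hpq.symm hq (fun z hz => by
    obtain ⟨-, z1, z2, -⟩ := q_CYO.2.1 q z p hz
    exact hfix z z2 z1.symm)
  rcases s1 with s1 | s1
  · rcases s2 with s2 | s2
    · exact (DIR_pp G hG h hh hO hpq hp hq hfix s1 s2).elim
    · exact Or.inl ⟨s1, s2⟩
  · rcases s2 with s2 | s2
    · exact Or.inr ⟨s1, s2⟩
    · exfalso
      have hOi : Ori h⁻¹ := q_MOR.2.1.2.2 h hO
      have hpi : h⁻¹ p = p := DIR_inv hp
      have hqi : h⁻¹ q = q := DIR_inv hq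
      have happ : ∀ z, h (h⁻¹ z) = z := fun z => h.apply_symm_apply z
      refine DIR_pp G hG h⁻¹ (G.inv_mem hh) hOi hpq hpi hqi ?_ ?_ ?_
      · intro z hz1 hz2 e
        apply hfix z hz1 hz2
        have e1 := congrArg h e
        rw [happ] at e1
        exact e1.symm
      · intro z hz
        have h2 := hOi _ _ _ hz
        rw [hqi, hpi] at h2
        have h3 := s1 _ h2
        rw [happ] at h3
        exact h3
      · intro z hz
        have h2 := hOi _ _ _ hz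
        rw [hqi, hpi] at h2
        have h3 := s2 _ h2
        rw [happ] at h3
        exact h3

end Pool.SH
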