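import Pool.Agent.Work.MP_ae1ff6_sh.InterfaceG

/-! Block DU1 (helper58): uniqueness of the developing map. -/

open Topology Filter Set
open scoped ComplexConjugate

set_option autoImplicit false

namespace Pool.SH

open Pool.CG Pool.AR

theorem p_DU1 (hTR : Stmt_TR3) (hGUN : Stmt_GUN) (hTRV : Stmt_TRV) : Stmt_DU1 := by
  intro ℱ L hP hT hne z d d' hd hd' hs hs'
  refine hGUN ℱ L hP hne d d' hd ?_ ?_
  · intro P hPm
    obtain ⟨a, b, c, habc, hPe⟩ := hT P hPm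
    have ha : a ∈ ⋃₀ ℱ := ⟨P, hPm, by rw [hPe]; simp⟩
    have hb : b ∈ ⋃₀ ℱ := ⟨P, hPm, by rw [hPe]; simp⟩
    have hc : c ∈ ⋃₀ ℱ := ⟨P, hPm, by rw [hPe]; simp⟩
    obtain ⟨n, hn, h1, h2, h3⟩ := hTR (d a) (d b) (d c) (d' a) (d' b) (d' c)
      (hd a ha b hb c hc habc) (hd' a ha b hb c hc habc)
    refine ⟨n, hn, ?_⟩
    intro x hx
    rw [hPe] at hx
    rcases hx with h | h | h
    · rw [h, h1]
    · rw [h, h2]
    · rw [h, h3]
  · intro P hPm P' hPm' p q hpq hA hA'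
    obtain ⟨v, hv, hPe⟩ := hTRV ℱ hT P hPm p q (hP.ne p q hpq) hA
    obtain ⟨w, hw, hPe'⟩ := hTRV ℱ hT P' hPm' q p (hP.ne p q hpq).symm hA'
    have h1 := (q_CYO.2.1 p v q hv).2
    have h2 := (q_CYO.2.1 q w p hw).2
    have hPw : ({p, q, w} : Set Circle) ∈ ℱ := by
      have e : ({p, q, w} : Set Circle) = P' := by
        rw [hPe']
        exact Set.insert_comm p q {w}
      rw [e]
      exact hPm'
    have hPv : ({p, q, v} : Set Circle) ∈ ℱ := by
      rw [← hPe]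
      exact hPm
    refine ⟨v, by rw [hPe]; simp, w, by rw [hPe']; simp, h1.1.symm, h1.2.1, h2.2.1, h2.1.symm, ?_⟩
    rw [hs p q v w hpq hv hw hPv hPw, hs' p q v w hpq hv hw hPv hPw]

end Pool.SH
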