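import Pool.Agent.Work.MP_ae1ff6_sh.InterfaceL

/-!
# FAM: the family of closed geodesics
-/

open Topology Filter Set
open scoped ComplexConjugate

set_option autoImplicit false

namespace Pool.SH

open Pool.CG Pool.AR

/-- `a` is the image of the pair `c` or of its reversal under an element of `Γ f ^ m` -/
def FAM_R (Γ : Subgroup H) (f : H) (c : Circle × Circle) (m : ℤ) (a : Circle × Circle) : Prop :=
  ∃ κ ∈ Γ, a = ((κ * f ^ m) c.1, (κ * f ^ m) c.2) ∨ a = ((κ * f ^ m) c.2, (κ * f ^ m) c.1)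

theorem FAM_inv (g : H) (x : Circle) : g⁻¹ (g x) = x := g.symm_apply_apply x

theorem FAM_swap {Γ : Subgroup H} {f : H} {c : Circle × Circle} {m : ℤ} {x y : Circle}
    (h : FAM_R Γ f c m (x, y)) : FAM_R Γ f c m (y, x) := by
  obtain ⟨κ, hκ, h | h⟩ := h
  · refine ⟨κ, hκ, Or.inr ?_⟩
    rw [Prod.mk.injEq] at h ⊢
    exact ⟨h.2, h.1⟩
  · refine ⟨κ, hκ, Or.inl ?_⟩
    rw [Prod.mk.injEq] at h ⊢
    exact ⟨h.2, h.1⟩

theorem FAM_act {Γ : Subgroup H} {f : H} (hn : ∀ (n : ℤ), ∀ γ ∈ Γ, f ^ n * γ * (f ^ n)⁻¹ ∈ Γ)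
    {c a : Circle × Circle} {m : ℤ} (k : ℤ) (κ' : H) (hκ' : κ' ∈ Γ)
    (h : FAM_R Γ f c m a) : FAM_R Γ f c (m + k) ((κ' * f ^ k) a.1, (κ' * f ^ k) a.2) := by
  obtain ⟨κ, hκ, h⟩ := h
  have e : κ' * f ^ k * (κ * f ^ m) = κ' * (f ^ k * κ * (f ^ k)⁻¹) * f ^ (m + k) := by
    rw [add_comm m k, zpow_add]
    group
  refine ⟨κ' * (f ^ k * κ * (f ^ k)⁻¹), Γ.mul_mem hκ' (hn k κ hκ), ?_⟩
  rw [← e]
  rcases h with h | h
  · left
    rw [h]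
    rfl
  · right
    rw [h]
    rfl

theorem FAM_pow {Γ : Subgroup H} {f : H} (hn : ∀ (n : ℤ), ∀ γ ∈ Γ, f ^ n * γ * (f ^ n)⁻¹ ∈ Γ)
    {c : Circle × Circle} {j : ℤ} (h : FAM_R Γ f c j c) (k : ℕ) : FAM_R Γ f c (j * k) c := by
  induction k with
  | zero =>
    refine ⟨1, Γ.one_mem, Or.inl ?_⟩
    simp only [Nat.cast_zero, mul_zero, zpow_zero, mul_one]
    rfl
  | succ k ih =>
    obtain ⟨κ, hκ, h⟩ := h
    have h2 := FAM_act hn j κ hκ ih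
    have e : j * (k : ℤ) + j = j * ((k + 1 : ℕ) : ℤ) := by
      push_cast
      ring
    rw [e] at h2
    rcases h with h | h
    · rwa [← h] at h2
    · have h3 := FAM_swap h2
      rwa [← h] at h3

theorem FAM_zero {Γ : Subgroup H} {f : H} (hn : ∀ (n : ℤ), ∀ γ ∈ Γ, f ^ n * γ * (f ^ n)⁻¹ ∈ Γ)
    {c : Circle × Circle} (hne : c.1 ≠ c.2) (hfc : ∀ ε : ℝ, 0 < ε → ∃ N : ℤ, ∀ n : ℤ, (N ≤ n ∨ n ≤ -N) →
      ∀ κ ∈ Γ, dist ((κ * f ^ n) c.1) ((κ * f ^ n) c.2) < ε) {j : ℤ} (h : FAM_R Γ f c j c) : j = 0 := by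
  by_contra hj
  obtain ⟨N, hN⟩ := hfc (dist c.1 c.2) (dist_pos.2 hne)
  obtain ⟨κ, hκ, h1⟩ := FAM_pow hn h N.natAbs
  have hn' : N ≤ j * (N.natAbs : ℤ) ∨ j * (N.natAbs : ℤ) ≤ -N := by
    have e : (N.natAbs : ℤ) = |N| := Int.natCast_natAbs N
    rw [e]
    have e1 := abs_nonneg N
    have e2 := le_abs_self N
    rcases lt_or_gt_of_ne hj with hj | hj
    · right
      have e3 : j ≤ -1 := by omega
      nlinarith
    · left
      have e3 : 1 ≤ j := by omega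
      nlinarith
  have h2 := hN _ hn' κ hκ
  rcases h1 with h1 | h1
  · have h3 := congrArg (fun a : Circle × Circle => dist a.1 a.2) h1
    simp only at h3
    rw [← h3] at h2
    exact lt_irrefl _ h2
  · have h3 := congrArg (fun a : Circle × Circle => dist a.1 a.2) h1
    simp only at h3
    rw [dist_comm ((κ * f ^ _) c.2)] at h3
    rw [← h3] at h2
    exact lt_irrefl _ h2

theorem FAM_ginv {Γ : Subgroup H} {f : H} (hn : ∀ (n : ℤ), ∀ γ ∈ Γ, f ^ n * γ * (f ^ n)⁻¹ ∈ Γ)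
    (κ : H) (hκ : κ ∈ Γ) (k : ℤ) : ∃ κ' ∈ Γ, (κ * f ^ k)⁻¹ = κ' * f ^ (-k) := by
  refine ⟨f ^ (-k) * κ⁻¹ * (f ^ (-k))⁻¹, hn (-k) κ⁻¹ (Γ.inv_mem hκ), ?_⟩
  group

theorem FAM_uniq {Γ : Subgroup H} {f : H} (hn : ∀ (n : ℤ), ∀ γ ∈ Γ, f ^ n * γ * (f ^ n)⁻¹ ∈ Γ)
    {c : Circle × Circle} (hne : c.1 ≠ c.2) (hfc : ∀ ε : ℝ, 0 < ε → ∃ N : ℤ, ∀ n : ℤ, (N ≤ n ∨ n ≤ -N) →
      ∀ κ ∈ Γ, dist ((κ * f ^ n) c.1) ((κ * f ^ n) c.2) < ε) {m m' : ℤ} {a : Circle × Circle}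
    (h : FAM_R Γ f c m a) (h' : FAM_R Γ f c m' a) : m = m' := by
  obtain ⟨κ', hκ', h'⟩ := h'
  obtain ⟨κ'', hκ'', e1⟩ := FAM_ginv hn κ' hκ' m'
  have h2 := FAM_act hn (-m') κ'' hκ'' h
  rw [← e1] at h2
  have h3 : FAM_R Γ f c (m + -m') c := by
    rcases h' with h' | h'
    · rw [h'] at h2
      simp only [FAM_inv] at h2
      exact h2
    · rw [h'] at h2
      simp only [FAM_inv] at h2
      exact FAM_swap h2
  have h4 := FAM_zero hn hne hfc h3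
  omega

theorem p_FAM (h1 : Stmt_GEL) (h2 : Stmt_FC1) (h3 : Stmt_CNT2) : Stmt_FAM := by
  classical
  intro Γ f hF hN hI hC
  obtain ⟨g1, g2, -, g4⟩ := h1 Γ f hN
  have hΓ : Γ ≤ Γ ⊔ Subgroup.zpowers f := le_sup_left
  have hgG : ∀ κ ∈ Γ, ∀ k : ℤ, κ * f ^ k ∈ Γ ⊔ Subgroup.zpowers f := fun κ hκ k => (g1 _).2 ⟨κ, hκ, k, rfl⟩
  obtain ⟨hcnt, hnon⟩ := h3 Γ _ hF hΓ hC
  obtain ⟨c, hc⟩ := hcnt.exists_eq_range hnon
  have hax : ∀ i, ∃ γ ∈ Γ, Axis γ (c i).1 (c i).2 := by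
    intro i
    have h : c i ∈ Set.range c := ⟨i, rfl⟩
    rw [← hc] at h
    exact h
  have hne : ∀ i, (c i).1 ≠ (c i).2 := by
    intro i
    obtain ⟨γ, _, h⟩ := hax i
    exact h.1
  have hfc : ∀ i, ∀ ε : ℝ, 0 < ε → ∃ N : ℤ, ∀ n : ℤ, (N ≤ n ∨ n ≤ -N) →
      ∀ κ ∈ Γ, dist ((κ * f ^ n) (c i).1) ((κ * f ^ n) (c i).2) < ε := by
    intro i ε hε
    obtain ⟨γ, hγ, h⟩ := hax i
    exact h2 Γ f hF hN hI hC γ hγ _ _ h ε hε
  choose N hNN using fun i : ℕ => hfc i (1 / ((i : ℝ) + 1)) (by positivity)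
  obtain ⟨Q, hQ⟩ : ∃ Q : ℕ → Circle × Circle → Prop, ∀ i a, Q i a ↔ ∃ m, FAM_R Γ f (c i) m a :=
    ⟨fun i a => ∃ m, FAM_R Γ f (c i) m a, fun _ _ => Iff.rfl⟩
  obtain ⟨M, hM⟩ : ∃ M : ℕ → Circle × Circle → Prop, ∀ i a, M i a ↔ (Q i a ∧ ∀ j < i, ¬ Q j a) :=
    ⟨fun i a => Q i a ∧ ∀ j < i, ¬ Q j a, fun _ _ => Iff.rfl⟩
  have hQs : ∀ i x y, Q i (x, y) → Q i (y, x) := by
    intro i x y h
    rw [hQ] at h ⊢
    obtain ⟨m, h⟩ := h
    exact ⟨m, FAM_swap h⟩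
  have hMs : ∀ i x y, M i (x, y) → M i (y, x) := by
    intro i x y h
    rw [hM] at h ⊢
    exact ⟨hQs _ _ _ h.1, fun j hj h' => h.2 j hj (hQs _ _ _ h')⟩
  have hQa : ∀ i x y, ∀ κ ∈ Γ, ∀ k : ℤ, Q i (x, y) → Q i ((κ * f ^ k) x, (κ * f ^ k) y) := by
    intro i x y κ hκ k h
    rw [hQ] at h ⊢
    obtain ⟨m, h⟩ := h
    exact ⟨m + k, FAM_act g2 k κ hκ h⟩
  have hQb : ∀ i x y, ∀ κ ∈ Γ, ∀ k : ℤ, Q i ((κ * f ^ k) x, (κ * f ^ k) y) → Q i (x, y) := by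
    intro i x y κ hκ k h
    obtain ⟨κ', hκ', e⟩ := FAM_ginv g2 κ hκ k
    have h' := hQa i _ _ κ' hκ' (-k) h
    rw [← e, FAM_inv, FAM_inv] at h'
    exact h'
  have hMa : ∀ i x y, ∀ κ ∈ Γ, ∀ k : ℤ, M i (x, y) → M i ((κ * f ^ k) x, (κ * f ^ k) y) := by
    intro i x y κ hκ k h
    rw [hM] at h ⊢
    exact ⟨hQa _ _ _ κ hκ k h.1, fun j hj h' => h.2 j hj (hQb _ _ _ κ hκ k h')⟩
  have hMu : ∀ i j a, M i a → M j a → i = j := by
    intro i j a hi hj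
    rw [hM] at hi hj
    rcases lt_trichotomy i j with h | h | h
    · exact absurd hi.1 (hj.2 i h)
    · exact h
    · exact absurd hj.1 (hi.2 j h)
  have hMe : ∀ γ ∈ Γ, ∀ p q, Axis γ p q → ∃ i, M i (p, q) := by
    intro γ hγ p q h
    have h0 : (p, q) ∈ Set.range c := by
      rw [← hc]
      exact ⟨γ, hγ, h⟩
    obtain ⟨i, hi⟩ := h0
    have h4 : ∃ i, Q i (p, q) := by
      refine ⟨i, (hQ _ _).2 ⟨0, 1, Γ.one_mem, Or.inl ?_⟩⟩
      rw [hi, zpow_zero, mul_one]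
      rfl
    refine ⟨Nat.find h4, (hM _ _).2 ⟨Nat.find_spec h4, fun j hj => Nat.find_min h4 hj⟩⟩
  refine ⟨{a | ∃ i m, M i a ∧ N i ≤ m ∧ FAM_R Γ f (c i) m a}, ?_, ?_, ?_, ?_, ?_, ?_, ?_⟩
  · -- symm
    rintro x y ⟨i, m, h, h', h''⟩
    exact ⟨i, m, hMs _ _ _ h, h', FAM_swap h''⟩
  · -- keep
    rintro g hg x y ⟨i, m, h, h', h''⟩
    have e : g * f ^ (0 : ℤ) = g := by rw [zpow_zero, mul_one]
    have k1 := hMa i x y g hg 0 h
    have k2 := FAM_act g2 0 g hg h''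
    rw [e] at k1 k2
    rw [add_zero] at k2
    exact ⟨i, m, k1, h', k2⟩
  · -- axis
    rintro x y ⟨i, m, h, h', ⟨κ, hκ, h''⟩⟩
    obtain ⟨γ, hγ, ha⟩ := hax i
    refine ⟨(κ * f ^ m) * γ * (κ * f ^ m)⁻¹, g4 _ (hgG κ hκ m) γ hγ, ?_⟩
    have key : ∀ g : H, Axis (g * γ * g⁻¹) (g (c i).1) (g (c i).2) := by
      intro g
      refine ⟨fun h => ha.1 (g.injective h), fun z => ?_⟩
      have e1 : (g * γ * g⁻¹) z = g (γ (g⁻¹ z)) := rfl
      have e2 : ∀ w, g (g⁻¹ w) = w := fun w => g.apply_symm_apply w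
      rw [e1]
      have e3 : g (γ (g⁻¹ z)) = z ↔ γ (g⁻¹ z) = g⁻¹ z := by
        constructor
        · intro h
          have := congrArg (fun w => g⁻¹ w) h
          simp only [FAM_inv] at this
          exact this
        · intro h
          rw [h, e2]
      rw [e3, ha.2]
      have e4 : ∀ w, g⁻¹ z = w ↔ z = g w := by
        intro w
        constructor
        · intro h
          rw [← h, e2]
        · intro h
          rw [h, FAM_inv]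
      rw [e4, e4]
    rcases h'' with h'' | h''
    · rw [Prod.mk.injEq] at h''
      rw [h''.1, h''.2]
      exact key _
    · rw [Prod.mk.injEq] at h''
      rw [h''.1, h''.2]
      have k := key (κ * f ^ m)
      exact ⟨k.1.symm, fun z => (k.2 z).trans or_comm⟩
  · -- fin
    intro ε hε
    have hS : ∀ i, {x : Circle × Circle | (∃ g ∈ Γ ⊔ Subgroup.zpowers f, x = (g (c i).1, g (c i).2)) ∧
        ε ≤ dist x.1 x.2}.Finite := by
      intro i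
      obtain ⟨γ, hγ, ha⟩ := hax i
      exact Pool.GC.q_ORB Γ _ hF hΓ hC γ hγ _ _ ha ε hε
    have hT : (⋃ i ∈ Finset.range (Nat.ceil (1 / ε)),
        ({x : Circle × Circle | (∃ g ∈ Γ ⊔ Subgroup.zpowers f, x = (g (c i).1, g (c i).2)) ∧ ε ≤ dist x.1 x.2} ∪
        Prod.swap '' {x : Circle × Circle | (∃ g ∈ Γ ⊔ Subgroup.zpowers f, x = (g (c i).1, g (c i).2)) ∧
          ε ≤ dist x.1 x.2})).Finite := by
      refine Set.Finite.biUnion (Finset.finite_toSet _) fun i _ => ?_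
      exact (hS i).union ((hS i).image _)
    refine hT.subset ?_
    rintro a ⟨⟨i, m, h, h', ⟨κ, hκ, h''⟩⟩, hd⟩
    have hlt := hNN i m (Or.inl h') κ hκ
    have hi : dist a.1 a.2 < 1 / ((i : ℝ) + 1) := by
      rcases h'' with h'' | h''
      · rw [h'']
        exact hlt
      · rw [h'', dist_comm]
        exact hlt
    have hi2 : i < Nat.ceil (1 / ε) := by
      rw [Nat.lt_ceil]
      have h5 : ε < 1 / ((i : ℝ) + 1) := lt_of_le_of_lt hd hi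
      have h6 : (0 : ℝ) < (i : ℝ) + 1 := by positivity
      rw [lt_div_iff₀ h6] at h5
      rw [lt_div_iff₀ hε]
      nlinarith
    simp only [Set.mem_iUnion]
    refine ⟨i, Finset.mem_range.2 hi2, ?_⟩
    rcases h'' with h'' | h''
    · left
      exact ⟨⟨_, hgG κ hκ m, h''⟩, hd⟩
    · right
      refine ⟨(a.2, a.1), ⟨⟨_, hgG κ hκ m, ?_⟩, ?_⟩, rfl⟩
      · rw [h'']
      · simp only
        rw [dist_comm]
        exact hd
  · -- push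
    rintro x y ⟨i, m, h, h', h''⟩
    have e : (1 : H) * f ^ (1 : ℤ) = f := by rw [zpow_one, one_mul]
    have k1 := hMa i x y 1 Γ.one_mem 1 h
    have k2 := FAM_act g2 1 1 Γ.one_mem h''
    rw [e] at k1 k2
    exact ⟨i, m + 1, k1, by omega, k2⟩
  · -- swallow
    intro γ hγ p q ha
    obtain ⟨i, hi⟩ := hMe γ hγ p q ha
    obtain ⟨m, hm⟩ := (hQ _ _).1 ((hM _ _).1 hi).1
    refine ⟨N i - m, fun n hn => ?_⟩
    have e : (1 : H) * f ^ n = f ^ n := one_mul _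
    have k1 := hMa i p q 1 Γ.one_mem n hi
    have k2 := FAM_act g2 n 1 Γ.one_mem hm
    rw [e] at k1 k2
    exact ⟨i, m + n, k1, by omega, k2⟩
  · -- leave
    intro γ hγ p q ha
    obtain ⟨i, hi⟩ := hMe γ hγ p q ha
    obtain ⟨m, hm⟩ := (hQ _ _).1 ((hM _ _).1 hi).1
    refine ⟨N i - m - 1, fun n hn => ?_⟩
    rintro ⟨i', m', h, h', h''⟩
    have e : (1 : H) * f ^ n = f ^ n := one_mul _
    have k1 := hMa i p q 1 Γ.one_mem n hi
    have k2 := FAM_act g2 n 1 Γ.one_mem hm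
    rw [e] at k1 k2
    have hii := hMu _ _ _ k1 h
    subst hii
    have := FAM_uniq g2 (hne i) (hfc i) k2 h''
    omega

end Pool.SH
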