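import Pool.Agent.Work.MP_ae1ff6_sh.InterfaceT

/-! # Block FAN (helper25): the vertices near a gap -/

open Topology Filter Set
open scoped ComplexConjugate

set_option autoImplicit false

namespace Pool.SH

open Pool.CG Pool.AR

/-- coordinates on the circle cut at `p` -/
theorem FAN_cut (p : Circle) : ∃ θ : Circle → ℝ,
    (∀ y, θ p ≤ θ y) ∧ (∀ a b, θ a = θ b → a = b) ∧
    (∀ x y, Ccw p x y ↔ θ p < θ x ∧ θ x < θ y) ∧
    (∀ x y, θ p < θ x → (Ccw x y p ↔ θ x < θ y)) ∧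
    (∀ x y z, θ x < θ z → (Ccw x y z ↔ θ x < θ y ∧ θ y < θ z)) := by
  obtain ⟨σ, hσ⟩ : ∃ σ : ℝ, Circle.exp σ = p := ⟨Complex.arg p, Circle.exp_arg p⟩
  obtain ⟨θ, h1, h2, h3⟩ := q_CUT σ
  have hp : θ p = σ := by
    rw [← hσ]
    exact h2 σ le_rfl (by linarith [Real.pi_pos])
  have hmin : ∀ y, θ p ≤ θ y := fun y => by rw [hp]; exact (h1 y).1
  refine ⟨θ, hmin, ?_, ?_, ?_, ?_⟩
  · intro a b h
    rw [← (h1 a).2.2, ← (h1 b).2.2, h]
  · intro x y
    rw [h3]
    constructor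
    · rintro (h | h | h)
      · exact h
      · exact absurd h.2 (not_lt.2 (hmin _))
      · exact absurd h.1 (not_lt.2 (hmin _))
    · intro h
      exact Or.inl h
  · intro x y hx
    rw [h3]
    constructor
    · rintro (h | h | h)
      · exact h.1
      · exact absurd h.1 (not_lt.2 (hmin _))
      · exact h.2
    · intro h
      exact Or.inr (Or.inr ⟨hx, h⟩)
  · intro x y z hxz
    rw [h3]
    constructor
    · rintro (h | h | h)
      · exact h
      · exact absurd h.2 (not_lt.2 hxz.le)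
      · exact absurd h.1 (not_lt.2 hxz.le)
    · intro h
      exact Or.inl h

/-- one of three different points is different from `p` and `q` -/
theorem FAN_third (a b c p q : Circle) (hab : a ≠ b) (hbc : b ≠ c) (hac : a ≠ c)
    (P : Set Circle) (ha : a ∈ P) (hb : b ∈ P) (hc : c ∈ P) : ∃ x ∈ P, x ≠ p ∧ x ≠ q := by
  by_cases h1 : a = p ∨ a = q
  · by_cases h2 : b = p ∨ b = q
    · refine ⟨c, hc, ?_, ?_⟩
      · rintro rfl
        rcases h1 with h1 | h1
        · exact hac h1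
        · rcases h2 with h2 | h2
          · exact hbc h2
          · exact hab (h1.trans h2.symm)
      · rintro rfl
        rcases h1 with h1 | h1
        · rcases h2 with h2 | h2
          · exact hab (h1.trans h2.symm)
          · exact hbc h2
        · exact hac h1
    · push Not at h2
      exact ⟨b, hb, h2⟩
  · push Not at h1
    exact ⟨a, ha, h1⟩

theorem p_FAN (hSID : Stmt_SID) (hTEU : Stmt_TEU) (hPCT : Stmt_PCT) (hGP2 : Stmt_GP2) :
    Stmt_FAN := by
  intro K T hK hT p q hgap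
  obtain ⟨t1, t2, t3, -, -⟩ := hTEU K T hT
  obtain ⟨hPc, hTrs⟩ := hPCT K T hK hT
  have hpq : p ≠ q := hgap.2.2.1
  obtain ⟨θ, hmin, hinj, hcp, hcx, hc⟩ := FAN_cut p
  have hlt : ∀ y, y ≠ p → θ p < θ y := fun y hy =>
    lt_of_le_of_ne (hmin y) fun h => hy (hinj _ _ h).symm
  have hq : θ p < θ q := hlt q hpq.symm
  have hKq : ∀ k ∈ K, k ≠ p → k ≠ q → θ q < θ k := by
    intro k hk h1 h2
    by_contra h
    rcases (not_lt.1 h).eq_or_lt with e | l
    · exact h2 (hinj _ _ e)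
    · exact hgap.2.2.2 k hk ((hcp _ _).2 ⟨hlt k h1, l⟩)
  -- a third point
  obtain ⟨k₀, hk₀K, hk₀p, hk₀q⟩ : ∃ x ∈ K, x ≠ p ∧ x ≠ q := by
    obtain ⟨a, ha, b, hb, c, hcK, habc⟩ := hK.2
    obtain ⟨-, e1, e2, e3⟩ := q_CYO.2.1 a b c habc
    exact FAN_third a b c p q e1 e2 e3 K ha hb hcK
  have hk₀ : θ q < θ k₀ := hKq k₀ hk₀K hk₀p hk₀q
  by_cases hE : (p, q) ∈ TE K T
  · -- case (A)
    obtain ⟨v, hv⟩ := hSID K T hK hT q p (t1 p q hE) ⟨k₀, hk₀K, (hcx q k₀ hq).2 hk₀⟩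
    refine ⟨⟨_, hv.2, ?_⟩, Or.inl ⟨hE, v, hv⟩⟩
    simp
  · -- case (B)
    let G : Circle → Prop := fun v => (p, v) ∈ TE K T ∧ θ q < θ v
    have hbase : ∀ k, θ q < θ k → ∃ v, (p, v) ∈ TE K T ∧ θ q < θ v ∧ θ v < θ k := by
      intro k hk
      obtain ⟨v, hv, h | h⟩ := hGP2 K T hK hT p q k hgap ((hcp _ _).2 ⟨hq, hk⟩)
      · rw [h] at hv
        exact absurd hv hE
      · exact ⟨v, hv, (hc q v k hk).1 h⟩
    have hstep : ∀ v, G v → ∃ v', Nx K T p v v' ∧ G v' := by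
      intro v hv
      obtain ⟨v', h1, h2⟩ := hSID K T hK hT p v hv.1 ⟨q, hgap.2.1, (hcp _ _).2 ⟨hq, hv.2⟩⟩
      have h3 : v' ≠ p := by
        rintro rfl
        exact lt_irrefl _ ((hcp _ _).1 h1).1
      have h4 : (p, v') ∈ TE K T := (t2 _ h2 p (by simp)).2 v' (by simp) h3.symm
      have h5 : v' ∈ K := (t2 _ h2 v' (by simp)).1
      refine ⟨v', ⟨h1, h2⟩, h4, hKq v' h5 h3 ?_⟩
      rintro rfl
      exact hE h4
    obtain ⟨v₀, hv₀, hv₀q, -⟩ := hbase k₀ hk₀
    choose! f hf using hstep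
    let v : ℕ → Circle := fun n => Nat.rec v₀ (fun _ w => f w) n
    have hvs : ∀ j, v (j + 1) = f (v j) := fun j => rfl
    have hvG : ∀ j, G (v j) := by
      intro j
      induction j with
      | zero => exact ⟨hv₀, hv₀q⟩
      | succ j ih => rw [hvs]; exact (hf _ ih).2
    have hvN : ∀ j, Nx K T p (v j) (v (j + 1)) := fun j => by
      rw [hvs]; exact (hf _ (hvG j)).1
    have hvlt : ∀ j, θ (v (j + 1)) < θ (v j) := fun j => ((hcp _ _).1 (hvN j).1).2
    have hanti : StrictAnti fun j => θ (v j) := strictAnti_nat_of_succ_lt hvlt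
    have hvp : ∀ j, θ p < θ (v j) := fun j => hq.trans (hvG j).2
    -- (D)
    have hD : ∀ k, θ q < θ k → ∃ j, θ (v j) < θ k := by
      intro k hk
      obtain ⟨u, hu, huq, huk⟩ := hbase k hk
      by_contra hcon
      push Not at hcon
      have huv : ∀ j, θ u < θ (v j) := fun j => huk.trans_le (hcon j)
      obtain ⟨u', hu'1, hu'2⟩ := hSID K T hK hT p u hu ⟨q, hgap.2.1, (hcp _ _).2 ⟨hq, huq⟩⟩
      obtain ⟨w1, w2⟩ := (hcp _ _).1 hu'1
      have hfin := hPc.fin _ hu'2 _ (hvN 0).2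
      refine Set.infinite_of_injective_forall_mem (f := fun j : ℕ => (p, v (j + 1))) ?_ ?_ hfin
      · intro i j hij
        have h1 : v (i + 1) = v (j + 1) := (Prod.mk.inj hij).2
        have h2 : i + 1 = j + 1 := hanti.injective (by show θ (v (i + 1)) = θ (v (j + 1)); rw [h1])
        omega
      · intro j
        have hj0 : θ (v (j + 1)) < θ (v 0) := hanti (Nat.succ_pos j)
        refine ⟨⟨(hvG (j + 1)).1, ⟨q, hgap.2.1, (hcp _ _).2 ⟨hq, (hvG (j + 1)).2⟩⟩, ?_⟩, ?_, ?_⟩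
        · refine ⟨v 0, ?_, (hcx _ _ (hvp (j + 1))).2 hj0⟩
          exact (t2 _ (hvN 0).2 (v 0) (by simp)).1
        · intro z hz
          rcases hz with rfl | rfl | hz
          · exact Or.inl rfl
          · exact Or.inr (Or.inr ((hcp _ _).2 ⟨w1, w2.trans (huv (j + 1))⟩))
          · rw [Set.mem_singleton_iff.1 hz]
            exact Or.inr (Or.inr ((hcp _ _).2 ⟨w1.trans w2, huv (j + 1)⟩))
        · intro z hz
          rcases hz with rfl | rfl | hz
          · exact Or.inr (Or.inl rfl)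
          · rcases Nat.eq_zero_or_pos j with rfl | hj
            · exact Or.inl rfl
            · exact Or.inr (Or.inr ((hcx _ _ (hvp (j + 1))).2 (hanti (by omega : 0 + 1 < j + 1))))
          · rw [Set.mem_singleton_iff.1 hz]
            exact Or.inr (Or.inr ((hcx _ _ (hvp (j + 1))).2 hj0))
    refine ⟨⟨_, (hvN 0).2, by simp⟩, Or.inr ⟨hE, ?_, v, ?_, ?_, ?_⟩⟩
    · -- (C)
      intro P hP hqP
      obtain ⟨a, b, c, habc, rfl⟩ := hTrs P hP
      obtain ⟨-, e1, e2, e3⟩ := q_CYO.2.1 a b c habc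
      obtain ⟨x, hx, hxp, hxq⟩ := FAN_third a b c p q e1 e2 e3 {a, b, c} (by simp) (by simp) (by simp)
      have hxK : x ∈ K := (t2 _ hP x hx).1
      have hqx : (q, x) ∈ TE K T := (t2 _ hP q hqP).2 x hx hxq.symm
      obtain ⟨w, hw, hwq, hwx⟩ := hbase x (hKq x hxK hxp hxq)
      exact t3 p w q x hw hqx ((q_LKC _ _ _ _).2 (Or.inl ⟨(hcp _ _).2 ⟨hq, hwq⟩,
        (hcx _ _ (hq.trans hwq)).2 hwx⟩))
    · intro j
      exact ⟨hvN j, (hcp _ _).2 ⟨hq, (hvG j).2⟩, (hvG j).1⟩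
    · intro k hk
      have hk' := ((hcp _ _).1 hk).2
      obtain ⟨j, hj⟩ := hD k hk'
      exact ⟨j, (hc _ _ _ hk').2 ⟨(hvG j).2, hj⟩⟩
    · -- (E)
      intro u hu huv
      obtain ⟨hqu, hu0⟩ := (hc _ _ _ (hvG 0).2).1 huv
      have hex : ∃ j, θ (v j) ≤ θ u := by
        obtain ⟨j, hj⟩ := hD u hqu
        exact ⟨j, hj.le⟩
      classical
      have hj1 := Nat.find_spec hex
      have hj2 := fun i => Nat.find_min hex (m := i)
      obtain ⟨i, hi⟩ : ∃ i, Nat.find hex = i + 1 := by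
        refine Nat.exists_eq_succ_of_ne_zero fun h0 => ?_
        rw [h0] at hj1
        exact absurd hj1 (not_le.2 hu0)
      rw [hi] at hj1
      have hj3 : θ u < θ (v i) := not_le.1 (hj2 i (by omega))
      rcases hj1.eq_or_lt with e | l
      · exact ⟨i + 1, (hinj _ _ e).symm⟩
      · exfalso
        have hne : v (i + 1) ≠ v i := by
          intro h
          have := hvlt i
          rw [h] at this
          exact lt_irrefl _ this
        have h6 : (v (i + 1), v i) ∈ TE K T :=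
          (t2 _ (hvN i).2 (v (i + 1)) (by simp)).2 (v i) (by simp) hne
        exact t3 p u _ _ hu h6 ((q_LKC _ _ _ _).2 (Or.inl ⟨(hcp _ _).2 ⟨hvp (i + 1), l⟩,
          (hcx _ _ (hq.trans hqu)).2 hj3⟩))

end Pool.SH
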