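import Pool.Agent.Work.MP_ae1ff6_sh.InterfaceL

/-! # Block FC1: the images of a closed geodesic become short -/

open Topology Filter Set
open scoped ComplexConjugate

set_option autoImplicit false

namespace Pool.SH

open Pool.CG Pool.AR

theorem FC1_axis (γ g : H) (p q : Circle) (h : Axis γ p q) :
    Axis (g * γ * g⁻¹) (g p) (g q) := by
  refine ⟨fun he => h.1 (g.injective he), fun z => ?_⟩
  have h1 : (g * γ * g⁻¹) z = g (γ (g⁻¹ z)) := rfl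
  have h2 : g (g⁻¹ z) = z := g.apply_symm_apply z
  have h3 : ∀ w : Circle, g w = z ↔ g⁻¹ z = w := by
    intro w
    constructor
    · intro hw
      rw [← hw]
      exact g.symm_apply_apply w
    · intro hw
      rw [← hw]
      exact h2
  rw [h1, h3]
  have h4 := h.2 (g⁻¹ z)
  constructor
  · intro h5
    rcases h4.1 h5.symm with h6 | h6
    · exact Or.inl ((h3 p).2 h6).symm
    · exact Or.inr ((h3 q).2 h6).symm
  · rintro (h5 | h5)
    · exact (h4.2 (Or.inl ((h3 p).1 h5.symm))).symm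
    · exact (h4.2 (Or.inr ((h3 q).1 h5.symm))).symm

theorem FC1_bd (s : Set ℤ) (hs : s.Finite) : ∃ N : ℤ, ∀ n : ℤ, (N ≤ n ∨ n ≤ -N) → n ∉ s := by
  obtain ⟨a, ha⟩ := hs.bddAbove
  obtain ⟨b, hb⟩ := hs.bddBelow
  refine ⟨max (a + 1) (1 - b), fun n hn hs' => ?_⟩
  have h1 := ha hs'
  have h2 := hb hs'
  have h3 := le_max_left (a + 1) (1 - b)
  have h4 := le_max_right (a + 1) (1 - b)
  rcases hn with hn | hn <;> omega

theorem p_FC1 (hGEL : Stmt_GEL) : Stmt_FC1 := by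
  intro Γ f hΓ hn hinf hconv γ hγ p q hax ε hε
  obtain ⟨-, -, -, g4⟩ := hGEL Γ f hn
  have hS := Pool.GC.q_ORB Γ (Γ ⊔ Subgroup.zpowers f) hΓ le_sup_left hconv γ hγ p q hax ε hε
  have hcyc := ((Pool.CG.cyc Γ f hΓ hn).1.1 hconv).resolve_left
    (fun ⟨n, h0, h1⟩ => hinf n h0 h1)
  set S : Set (Circle × Circle) :=
    {x : Circle × Circle | (∃ g ∈ Γ ⊔ Subgroup.zpowers f, x = (g p, g q)) ∧ ε ≤ dist x.1 x.2} with hSd
  have hfin : (⋃ x ∈ S, {n : ℤ | ∃ κ ∈ Γ, Meets (κ * f ^ n) p q x.1 x.2}).Finite := by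
    refine hS.biUnion ?_
    rintro x ⟨⟨g, hg, rfl⟩, -⟩
    exact hcyc γ hγ (g * γ * g⁻¹) (g4 g hg γ hγ) p q (g p) (g q) hax (FC1_axis γ g p q hax)
  obtain ⟨N, hN⟩ := FC1_bd _ hfin
  refine ⟨N, fun n hn' κ hκ => ?_⟩
  by_contra hcon
  push Not at hcon
  refine hN n hn' ?_
  have hG : κ * f ^ n ∈ Γ ⊔ Subgroup.zpowers f :=
    mul_mem (Subgroup.mem_sup_left hκ)
      (Subgroup.mem_sup_right (Subgroup.zpow_mem_zpowers f n))
  refine mem_iUnion₂.2 ⟨((κ * f ^ n) p, (κ * f ^ n) q), ⟨⟨κ * f ^ n, hG, rfl⟩, hcon⟩, κ, hκ, Or.inr rfl⟩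

end Pool.SH
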