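import Pool.Agent.Work.MP_ae1ff6_sh.InterfaceL

/-!
# Block FLN of MP_ae1ff6_gt, the invariant lamination (typed by helper99)

A closed geodesic crosses no line of `fⁿ A`, for large `n`.
-/

open Topology Filter Set
open scoped ComplexConjugate

set_option autoImplicit false

namespace Pool.SH

open Pool.CG Pool.AR

theorem p_FLN (h1 : Stmt_SHB) : Stmt_FLN := by
  classical
  intro Γ f A hΓ hf hA γ hγ p q hax
  obtain ⟨hmono, -, -, -, hact, -⟩ := h1 Γ f A hf hA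
  obtain ⟨ρ, hρ, H1⟩ := Pool.GC.hyp γ p q (hΓ.mob γ hγ) hax
  obtain ⟨ε, hε, H2⟩ := Pool.GC.lub p q ρ hρ
  have hfin : {a : Circle × Circle | a ∈ A ∧ ε ≤ dist a.1 a.2}.Finite := hA.fin ε hε
  have hleave : ∀ a : Circle × Circle, ∃ N : ℤ, a ∈ A → ∀ n : ℤ, n ≤ N →
      ((f ^ n) a.1, (f ^ n) a.2) ∉ A := by
    intro a
    by_cases ha : a ∈ A
    · obtain ⟨δ, hδ, hδa⟩ := hA.axis a.1 a.2 ha
      obtain ⟨N, hN⟩ := hA.leave δ hδ a.1 a.2 hδa
      exact ⟨N, fun _ => hN⟩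
    · exact ⟨0, fun h => absurd h ha⟩
  choose Nf hNf using hleave
  obtain ⟨N₀, hN₀⟩ := (hfin.image Nf).bddBelow
  refine ⟨max 0 (-N₀), fun n hn => ⟨hax.1, ?_⟩⟩
  rintro ⟨x, y⟩ ha hlink
  have hxp : x ≠ p := fun h => hlink.1.1 h.symm
  have hxq : x ≠ q := fun h => hlink.2.1.1 h.symm
  obtain ⟨k, hk1, hk2⟩ := H1 x hxp hxq
  have hpk : (γ ^ k) p = p := CDB_fix ((hax.2 p).2 (Or.inl rfl)) k
  have hqk : (γ ^ k) q = q := CDB_fix ((hax.2 q).2 (Or.inr rfl)) k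
  have hlink' : Link ((γ ^ k) x) ((γ ^ k) y) p q := by
    have := Pool.GC.lhi (γ ^ k) x y p q hlink
    rwa [hpk, hqk] at this
  have hd := H2 _ _ hk1 hk2 hlink'
  have ha' : ((γ ^ k) x, (γ ^ k) y) ∈ sh f n A := by
    have := hact (γ ^ k) (Γ.zpow_mem hγ k) 0 n x y ha
    simpa using this
  have hn0 : (0 : ℤ) ≤ n := le_trans (le_max_left _ _) hn
  have hnN : -N₀ ≤ n := le_trans (le_max_right _ _) hn
  have ha0 : ((γ ^ k) x, (γ ^ k) y) ∈ A := by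
    have := hmono 0 n hn0 ha'
    simpa [sh] using this
  have hmem : ((γ ^ k) x, (γ ^ k) y) ∈ {a : Circle × Circle | a ∈ A ∧ ε ≤ dist a.1 a.2} := ⟨ha0, hd⟩
  have hlow := hN₀ (mem_image_of_mem Nf hmem)
  exact hNf _ ha0 (-n) (by linarith) ha'

end Pool.SH
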