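import Pool.Agent.Work.MP_ae1ff6_sh.InterfaceL

/-!
# Block GEL: the elements of the group generated by `Γ` and `f`
-/

open Topology Filter Set
open scoped ComplexConjugate

set_option autoImplicit false

namespace Pool.SH

open Pool.CG Pool.AR

theorem GEL_sup {G : Type*} [Group G] (Γ : Subgroup G) (f : G)
    (hf : Subgroup.zpowers f ≤ Subgroup.normalizer (Γ : Set G)) (g : G) :
    g ∈ Γ ⊔ Subgroup.zpowers f ↔ ∃ κ ∈ Γ, ∃ n : ℤ, g = κ * f ^ n := by
  have h := Subgroup.coe_mul_of_right_le_normalizer_left Γ (Subgroup.zpowers f) hf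
  rw [← SetLike.mem_coe, h, Set.mem_mul]
  constructor
  · rintro ⟨κ, hκ, y, hy, rfl⟩
    obtain ⟨n, rfl⟩ := Subgroup.mem_zpowers_iff.1 hy
    exact ⟨κ, hκ, n, rfl⟩
  · rintro ⟨κ, hκ, n, rfl⟩
    exact ⟨κ, hκ, f ^ n, Subgroup.mem_zpowers_iff.2 ⟨n, rfl⟩, rfl⟩

theorem p_GEL : Stmt_GEL := by
  intro Γ f hN
  have hf : f ∈ Subgroup.normalizer (Γ : Set H) := Subgroup.mem_normalizer_iff.2 hN
  have hz : Subgroup.zpowers f ≤ Subgroup.normalizer (Γ : Set H) := by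
    rw [Subgroup.zpowers_le]; exact hf
  have h1 := GEL_sup Γ f hz
  have h2 : ∀ (n : ℤ), ∀ γ ∈ Γ, f ^ n * γ * (f ^ n)⁻¹ ∈ Γ := by
    intro n γ hγ
    have hn : f ^ n ∈ Subgroup.normalizer (Γ : Set H) := Subgroup.zpow_mem _ hf n
    exact (Subgroup.mem_normalizer_iff.1 hn γ).1 hγ
  refine ⟨h1, h2, ?_, ?_⟩
  · intro htf hinf g hg n hn hgn
    obtain ⟨κ, hκ, k, rfl⟩ := (h1 g).1 hg
    -- powers
    have hpow : ∀ m : ℕ, ∃ κ' ∈ Γ, (κ * f ^ k) ^ m = κ' * f ^ (k * m) := by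
      intro m
      induction m with
      | zero => exact ⟨1, Γ.one_mem, by simp⟩
      | succ m ih =>
        obtain ⟨κ', hκ', e⟩ := ih
        refine ⟨κ' * (f ^ (k * m) * κ * (f ^ (k * m))⁻¹), Γ.mul_mem hκ' (h2 _ κ hκ), ?_⟩
        rw [pow_succ, e]
        have e2 : f ^ (k * ((m + 1 : ℕ) : ℤ)) = f ^ (k * (m : ℤ)) * f ^ k := by
          rw [← zpow_add]; congr 1; push_cast; ring
        rw [e2]
        group
    obtain ⟨κ', hκ', e⟩ := hpow n
    rw [hgn] at e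
    have hmem : f ^ (k * (n : ℤ)) ∈ Γ := by
      have : f ^ (k * (n : ℤ)) = κ'⁻¹ := by
        have e3 : κ'⁻¹ * 1 = κ'⁻¹ * (κ' * f ^ (k * (n : ℤ))) := by rw [← e]
        rw [mul_one, inv_mul_cancel_left] at e3
        exact e3.symm
      rw [this]; exact Γ.inv_mem hκ'
    have hk : k = 0 := by
      by_contra hk
      have hne : k * (n : ℤ) ≠ 0 := mul_ne_zero hk (by exact_mod_cast hn.ne')
      have hpos : 0 < (k * (n : ℤ)).natAbs := Int.natAbs_pos.2 hne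
      apply hinf _ hpos
      rcases Int.natAbs_eq (k * (n : ℤ)) with h | h
      · rw [← zpow_natCast, ← h]; exact hmem
      · have h' : (((k * (n : ℤ)).natAbs : ℕ) : ℤ) = -(k * (n : ℤ)) := by omega
        rw [← zpow_natCast, h', zpow_neg]
        exact Γ.inv_mem hmem
    subst hk
    rw [zpow_zero, mul_one] at hgn ⊢
    exact htf κ hκ n hn hgn
  · intro g hg γ hγ
    have hle : Γ ⊔ Subgroup.zpowers f ≤ Subgroup.normalizer (Γ : Set H) :=
      sup_le Subgroup.le_normalizer hz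
    exact (Subgroup.mem_normalizer_iff.1 (hle hg) γ).1 hγ

end Pool.SH
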