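import Pool.Agent.Work.MP_ae1ff6_sh.InterfaceG

/-!
# Realization of big mapping classes (MP_ae1ff6_gt): block GLX (the glueing theorem)
-/

open Topology Filter Set
open scoped ComplexConjugate

set_option autoImplicit false

namespace Pool.SH

open Pool.CG Pool.AR

theorem p_GLX (h1 : Stmt_GM1) (h2 : Stmt_GM2) (h3 : Stmt_GM3) : Stmt_GLX := by
  intro ℱ L hL δ τ hδ hτ hc
  obtain ⟨m, hm1, hm2⟩ := h1 ℱ L hL τ hτ
  obtain ⟨d, hd⟩ := h2 ℱ L hL (fun P x => m P (δ P x)) (by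
    intro P hP P' hP' p q hpq hA hA'
    have h4 := hc P hP P' hP' p q hpq hA hA'
    have h5 := hm2 P hP P' hP' p q hpq hA hA'
    rw [h5]
    constructor
    · show m P (δ P p) = m P (τ p q (δ P' p))
      rw [h4.1]
    · show m P (δ P q) = m P (τ p q (δ P' q))
      rw [h4.2])
  refine ⟨m, d, hm1, hd, hm2, ?_⟩
  refine h3 ℱ L hL d ?_
  intro P hP a ha b hb c hc' h
  rw [hd P hP a ha, hd P hP b hb, hd P hP c hc']
  exact q_MOR.1 (m P) (hm1 P hP) _ _ _ (hδ P hP a ha b hb c hc' h)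

end Pool.SH
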