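import Pool.Agent.Work.MP_ae1ff6_sh.InterfaceT

/-!
# Realization of big mapping classes (MP_ae1ff6_gt): block GP2 (image edges at a gap)
-/

open Topology Filter Set
open scoped ComplexConjugate

set_option autoImplicit false

namespace Pool.SH

open Pool.CG Pool.AR

theorem p_GP2 (h1 : Stmt_RTX) (h2 : Stmt_NSQ) : Stmt_GP2 := by
  intro K T hK hT p q k hG hpqk
  obtain ⟨x, y, hxy, hpxq, hy⟩ := h2 T hT p q k hpqk
  have hRx : Ret K x p := h1.2.2.2.2 K p q x hG hpxq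
  rcases hy with hy | hy
  · refine ⟨q, ⟨hG.2.2.1, x, y, hxy, hRx, ?_⟩, Or.inl rfl⟩
    rw [hy]
    exact h1.2.2.1 K q hG.2.1
  · obtain ⟨v, hv⟩ := h1.1 K hK y
    by_cases hvq : v = q
    · refine ⟨q, ⟨hG.2.2.1, x, y, hxy, hRx, ?_⟩, Or.inl rfl⟩
      rw [← hvq]
      exact hv
    · have hqvk : Ccw q v k := by
        by_cases hvy : v = y
        · rw [hvy]; exact hy
        · have h3 := hv.2 q hG.2.1 (Ne.symm hvq)
          rcases q_CYO.2.2.1 v q y hvq h3.1 hvy with h4 | h4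
          · exact absurd h4 h3.2
          · have h5 := q_CYO.1 _ _ _ (q_CYO.1 _ _ _ h4)
            exact (q_CYO.2.2.2 _ _ _ _ h5 hy).1
      have hvp : p ≠ v := by
        intro h
        rw [← h] at hqvk
        exact (q_CYO.2.1 _ _ _ (q_CYO.1 _ _ _ hpqk)).1 hqvk
      exact ⟨v, ⟨hvp, x, y, hxy, hRx, hv⟩, Or.inr hqvk⟩

end Pool.SH
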