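import Pool.Agent.Work.MP_ae1ff6_sh.InterfaceL

/-!
# Block LEV: each region has a level
-/

open Topology Filter Set
open scoped ComplexConjugate

set_option autoImplicit false

namespace Pool.SH

open Pool.CG Pool.AR

/-- An axis which separates two given points. -/
theorem LEV_axis (Γ : Subgroup H) (hΓ : FirstKind Γ) (x y : Circle) (hxy : x ≠ y) :
    ∃ γ ∈ Γ, ∃ p q, Axis γ p q ∧ Link p q x y := by
  obtain ⟨A, B, U, V, hA, hB, hU, hU', hV, hV', h⟩ := Pool.GC.lop x y hxy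
  obtain ⟨γ, hγ, p, hp, q, hq, hax⟩ := Pool.CG.dns Γ hΓ U V hU hU' hV hV'
  exact ⟨γ, hγ, p, q, hax,
    (Pool.GC.q_SYM _ _ _ _ (h x (mem_of_mem_nhds hA) y (mem_of_mem_nhds hB) p hp q hq)).1⟩

theorem p_LEV (h1 : Stmt_SHB) (h2 : Stmt_FLN) (h3 : Stmt_SPK) : Stmt_LEV := by
  intro Γ f A hΓ hf hA
  obtain ⟨s1, s2, s3, s4, s5, s6⟩ := h1 Γ f A hf hA
  refine ⟨?_, ?_⟩
  · intro K hK
    obtain ⟨⟨a, ha, b, hb, c, hc, habc⟩, hK2, hK3⟩ := hK
    have hab : a ≠ b := (q_CYO.2.1 a b c habc).2.1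
    obtain ⟨γ, hγ, p, q, hax, hl⟩ := LEV_axis Γ hΓ a b hab
    obtain ⟨M, hM⟩ := s6 γ hγ p q hax
    obtain ⟨N, hN⟩ := h2 Γ f A hΓ hf hA γ hγ p q hax
    have hbd : ∀ n : ℤ, (∃ a ∈ sh f n A, ∃ x ∈ K, ∃ y ∈ K, Link a.1 a.2 x y) → n ≤ N := by
      rintro n ⟨e, he, x, hx, y, hy, hxy⟩
      by_contra hn
      have hu := hN n (by omega)
      refine h3 (sh f n A) K (s2 n) ?_ e he x hx y hy hxy (p, q) hu a ha b hb hl
      intro x' hx' y' hy' l hl1 hl2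
      exact hK2 x' hx' y' hy' l ⟨n, hl1, hl2⟩
    obtain ⟨n, hn1, hn2⟩ := Int.exists_greatest_of_bdd
      (P := fun n => ∃ a ∈ sh f n A, ∃ x ∈ K, ∃ y ∈ K, Link a.1 a.2 x y) ⟨N, hbd⟩
      ⟨M, (p, q), hM M le_rfl, a, ha, b, hb, hl⟩
    refine ⟨n, hn1, ?_⟩
    intro m hm e he x hx y hy hxy
    have := hn2 m ⟨e, he, x, hx, y, hy, hxy⟩
    omega
  · intro K n m hn hm
    rcases lt_trichotomy n m with h | h | h
    · exfalso
      obtain ⟨e, he, x, hx, y, hy, hxy⟩ := hm.1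
      exact hn.2 m h e he x hx y hy hxy
    · exact h
    · exfalso
      obtain ⟨e, he, x, hx, y, hy, hxy⟩ := hn.1
      exact hm.2 n h e he x hx y hy hxy

end Pool.SH
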