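import Pool.Agent.Work.MP_ae1ff6_sh.InterfaceL

open Topology Filter Set
open scoped ComplexConjugate

set_option autoImplicit false

namespace Pool.SH

open Pool.CG Pool.AR

theorem LF1_three (R : Set ℝ) (hR : R.Infinite) (μ : ℝ) :
    ∃ a ∈ R, ∃ b ∈ R, ∃ c ∈ R, a < b ∧ b < c ∧ (μ ≤ a ∨ c ≤ μ) := by
  have key : ∀ R' : Set ℝ, R'.Infinite → ∃ a ∈ R', ∃ b ∈ R', ∃ c ∈ R', a < b ∧ b < c := by
    intro R' h
    obtain ⟨t, ht, hc⟩ := h.exists_subset_card_eq 3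
    refine ⟨t.orderEmbOfFin hc 0, ht (t.orderEmbOfFin_mem hc 0), t.orderEmbOfFin hc 1,
      ht (t.orderEmbOfFin_mem hc 1), t.orderEmbOfFin hc 2, ht (t.orderEmbOfFin_mem hc 2), ?_, ?_⟩
    · exact (t.orderEmbOfFin hc).strictMono (by decide)
    · exact (t.orderEmbOfFin hc).strictMono (by decide)
  have h2 : (R ∩ Ici μ).Infinite ∨ (R ∩ Iic μ).Infinite := by
    by_contra hcon
    rw [not_or, Set.not_infinite, Set.not_infinite] at hcon
    apply hR
    refine (hcon.1.union hcon.2).subset ?_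
    intro x hx
    rcases le_total μ x with h | h
    · exact Or.inl ⟨hx, h⟩
    · exact Or.inr ⟨hx, h⟩
  rcases h2 with h | h
  · obtain ⟨a, ha, b, hb, c, hc, h1, h2⟩ := key _ h
    exact ⟨a, ha.1, b, hb.1, c, hc.1, h1, h2, Or.inl ha.2⟩
  · obtain ⟨a, ha, b, hb, c, hc, h1, h2⟩ := key _ h
    exact ⟨a, ha.1, b, hb.1, c, hc.1, h1, h2, Or.inr hc.2⟩

theorem LF1_core (B : Set (Circle × Circle)) (hB : ∀ x y, (x, y) ∈ B → (y, x) ∈ B)
    (μ ν δ : ℝ) (hδ : δ ≤ Real.pi)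
    (hdis : ∀ s t, μ - δ < s → s < μ + δ → ν - δ < t → t < ν + δ → Circle.exp s ≠ Circle.exp t)
    (hstar : ∀ s t, μ - δ < s → s < μ + δ → ν - δ < t → t < ν + δ →
      (Circle.exp s, Circle.exp t) ∈ B → Circle.exp s = Circle.exp μ)
    (hinf : {s : ℝ | μ - δ < s ∧ s < μ + δ ∧ ∃ t, ν - δ < t ∧ t < ν + δ ∧
      (Circle.exp s, Circle.exp t) ∈ Un B ∧ (Circle.exp s, Circle.exp t) ∈ Un (Un B)}.Infinite) :
    False := by
  obtain ⟨ξ₁, ⟨a1, b1, t₁, c1, d1, hU1, -⟩, ξ₂, ⟨a2, b2, t₂, c2, d2, -, hW2⟩, ξ₃,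
    ⟨a3, b3, t₃, c3, d3, hU3, -⟩, h12, h23, hor⟩ := LF1_three _ hinf μ
  have hpi := Real.pi_pos
  obtain ⟨θ, hθ, hθe, hC⟩ := q_CUT ξ₁
  have e1 : θ (Circle.exp ξ₁) = ξ₁ := hθe ξ₁ le_rfl (by linarith)
  have e2 : θ (Circle.exp ξ₂) = ξ₂ := hθe ξ₂ (by linarith) (by linarith)
  have e3 : θ (Circle.exp ξ₃) = ξ₃ := hθe ξ₃ (by linarith) (by linarith)
  have hY : ∀ t, ν - δ < t → t < ν + δ → ξ₃ < θ (Circle.exp t) := by
    intro t ht ht'
    by_contra hcon
    push Not at hcon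
    obtain ⟨p1, p2, p3⟩ := hθ (Circle.exp t)
    exact hdis (θ (Circle.exp t)) t (by linarith) (by linarith) ht ht' p3
  have y1 := hY t₁ c1 d1
  have y2 := hY t₂ c2 d2
  have y3 := hY t₃ c3 d3
  have hmain : ∀ c e, (c, e) ∈ B → ξ₁ < θ c → θ c < ξ₃ → ξ₃ < θ e → False := by
    intro c e hce h1 h2 h3
    have g1 : θ e ≤ θ (Circle.exp t₁) := by
      by_contra hcon
      push Not at hcon
      refine hU1.2 (c, e) hce ?_
      refine (q_LKC _ _ _ _).2 (Or.inr ⟨(hC _ _ _).2 (Or.inl ⟨?_, ?_⟩),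
        (hC _ _ _).2 (Or.inr (Or.inl ⟨?_, ?_⟩))⟩)
      · show θ c < θ (Circle.exp t₁)
        linarith
      · exact hcon
      · show θ (Circle.exp ξ₁) < θ c
        linarith
      · show θ c < θ e
        linarith
    have g2 : θ (Circle.exp t₃) ≤ θ e := by
      by_contra hcon
      push Not at hcon
      refine hU3.2 (c, e) hce ?_
      refine (q_LKC _ _ _ _).2 (Or.inl ⟨(hC _ _ _).2 (Or.inl ⟨?_, ?_⟩),
        (hC _ _ _).2 (Or.inr (Or.inr ⟨?_, ?_⟩))⟩)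
      · show θ c < θ (Circle.exp ξ₃)
        linarith
      · show θ (Circle.exp ξ₃) < θ e
        linarith
      · show θ c < θ e
        linarith
      · exact hcon
    have hinj : ∀ x y : Circle, θ x = θ y → x = y := by
      intro x y hxy
      rw [← (hθ x).2.2, ← (hθ y).2.2, hxy]
    have hJ : ∃ t, ν - δ < t ∧ t < ν + δ ∧ e = Circle.exp t := by
      rcases g1.eq_or_lt with g1 | g1
      · exact ⟨t₁, c1, d1, hinj _ _ g1⟩
      rcases g2.eq_or_lt with g2 | g2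
      · exact ⟨t₃, c3, d3, (hinj _ _ g2).symm⟩
      rcases lt_trichotomy t₁ t₃ with h | h | h
      · exfalso
        obtain ⟨r, r1, r2, r3⟩ := q_ANG.2.1 t₁ t₃ (Circle.exp ξ₁) h (by linarith)
          ((hC _ _ _).2 (Or.inr (Or.inl ⟨by linarith, by linarith⟩)))
        exact hdis ξ₁ r a1 b1 (by linarith) (by linarith) r3
      · exfalso
        rw [h] at g1
        linarith
      · obtain ⟨r, r1, r2, r3⟩ := q_ANG.2.1 t₃ t₁ e h (by linarith)
          ((hC _ _ _).2 (Or.inl ⟨g2, g1⟩))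
        exact ⟨r, by linarith, by linarith, r3⟩
    obtain ⟨t, ht, ht', rfl⟩ := hJ
    have hc := (hθ c).2.2
    rw [← hc] at hce
    have hcm := hstar (θ c) t (by linarith) (by linarith) ht ht' hce
    rcases hor with h | h
    · obtain ⟨θ', -, hθe', -⟩ := q_CUT μ
      have k1 := hθe' μ le_rfl (by linarith)
      have k2 := hθe' (θ c) (by linarith) (by linarith)
      rw [hcm, k1] at k2
      linarith
    · have k1 := hθe μ (by linarith) (by linarith)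
      rw [← hcm, hc] at k1
      linarith
  have hUn : (Circle.exp ξ₁, Circle.exp ξ₃) ∈ Un B := by
    refine ⟨?_, ?_⟩
    · intro h
      have h' : Circle.exp ξ₁ = Circle.exp ξ₃ := h
      rw [h'] at e1
      linarith
    · rintro ⟨c, e⟩ hce hl
      have m1 := (hθ c).1
      have m2 := (hθ e).1
      rcases (q_LKC _ _ _ _).1 hl with ⟨q1, q2⟩ | ⟨q1, q2⟩
      · have q1 := (hC _ _ _).1 q1
        have q2 := (hC _ _ _).1 q2
        simp only [e1, e3] at q1 q2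
        refine hmain e c (hB _ _ hce) ?_ ?_ ?_
        · rcases q1 with q | q | q <;> rcases q2 with r | r | r <;> linarith [q.1, q.2, r.1, r.2]
        · rcases q1 with q | q | q <;> rcases q2 with r | r | r <;> linarith [q.1, q.2, r.1, r.2]
        · rcases q1 with q | q | q <;> rcases q2 with r | r | r <;> linarith [q.1, q.2, r.1, r.2]
      · have q1 := (hC _ _ _).1 q1
        have q2 := (hC _ _ _).1 q2
        simp only [e1, e3] at q1 q2
        refine hmain c e hce ?_ ?_ ?_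
        · rcases q1 with q | q | q <;> rcases q2 with r | r | r <;> linarith [q.1, q.2, r.1, r.2]
        · rcases q1 with q | q | q <;> rcases q2 with r | r | r <;> linarith [q.1, q.2, r.1, r.2]
        · rcases q1 with q | q | q <;> rcases q2 with r | r | r <;> linarith [q.1, q.2, r.1, r.2]
  refine hW2.2 (Circle.exp ξ₁, Circle.exp ξ₃) hUn ?_
  refine (q_LKC _ _ _ _).2 (Or.inl ⟨(hC _ _ _).2 (Or.inl ⟨?_, ?_⟩),
    (hC _ _ _).2 (Or.inr (Or.inr ⟨?_, ?_⟩))⟩)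
  · show θ (Circle.exp ξ₁) < θ (Circle.exp ξ₂)
    linarith
  · show θ (Circle.exp ξ₂) < θ (Circle.exp ξ₃)
    linarith
  · show θ (Circle.exp ξ₁) < θ (Circle.exp ξ₃)
    linarith
  · show θ (Circle.exp ξ₃) < θ (Circle.exp t₂)
    linarith

theorem p_LF1 (_h1 : Stmt_SHB) (h2 : Stmt_UNB) : Stmt_LF1 := by
  intro B hB hfin ε hε
  by_contra hS0
  have hS : Set.Infinite {a : Circle × Circle |
      a ∈ {l : Circle × Circle | l ∈ Un B ∧ l ∈ Un (Un B)} ∧ ε ≤ dist a.1 a.2} := hS0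
  obtain ⟨⟨u, v⟩, hacc⟩ := hS.exists_accPt_principal
  have huv : ε ≤ dist u v := by
    have hcl : IsClosed {a : Circle × Circle | ε ≤ dist a.1 a.2} :=
      isClosed_le continuous_const (continuous_fst.dist continuous_snd)
    have hmem := mem_closure_iff_clusterPt.2 hacc.clusterPt
    exact closure_minimal (fun a ha => ha.2) hcl hmem
  have hF := ((hfin (ε / 2) (by positivity)).subset
    (fun a (ha : a ∈ {a : Circle × Circle | a ∈ B ∧ ε / 2 ≤ dist a.1 a.2} \ {(u, v)}) => ha.1)).isClosed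
  have hFn : ({a : Circle × Circle | a ∈ B ∧ ε / 2 ≤ dist a.1 a.2} \ {(u, v)})ᶜ ∈ 𝓝 (u, v) :=
    hF.isOpen_compl.mem_nhds (fun h => h.2 rfl)
  obtain ⟨ρ₀, hρ₀, hball⟩ := Metric.mem_nhds_iff.1 hFn
  obtain ⟨μ, hμ⟩ : ∃ μ, Circle.exp μ = u := ⟨Complex.arg (u : ℂ), Circle.exp_arg u⟩
  obtain ⟨ν, hν⟩ : ∃ ν, Circle.exp ν = v := ⟨Complex.arg (v : ℂ), Circle.exp_arg v⟩
  have hρ : 0 < min ρ₀ (ε / 4) := lt_min hρ₀ (by positivity)
  obtain ⟨δ₁, hδ₁, hd₁⟩ := Metric.continuousAt_iff.1 (Circle.exp.continuous.continuousAt (x := μ))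
    _ hρ
  obtain ⟨δ₂, hδ₂, hd₂⟩ := Metric.continuousAt_iff.1 (Circle.exp.continuous.continuousAt (x := ν))
    _ hρ
  obtain ⟨δ, hδ, hδa, hδb, hδc⟩ : ∃ δ : ℝ, 0 < δ ∧ δ ≤ δ₁ ∧ δ ≤ δ₂ ∧ δ ≤ Real.pi :=
    ⟨min (min δ₁ δ₂) Real.pi, lt_min (lt_min hδ₁ hδ₂) Real.pi_pos,
      (min_le_left _ _).trans (min_le_left _ _), (min_le_left _ _).trans (min_le_right _ _),
      min_le_right _ _⟩
  have nu : ∀ s, μ - δ < s → s < μ + δ → dist (Circle.exp s) u < min ρ₀ (ε / 4) := by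
    intro s hs hs'
    rw [← hμ]
    apply hd₁
    rw [Real.dist_eq, abs_lt]
    constructor <;> linarith
  have nv : ∀ s, ν - δ < s → s < ν + δ → dist (Circle.exp s) v < min ρ₀ (ε / 4) := by
    intro s hs hs'
    rw [← hν]
    apply hd₂
    rw [Real.dist_eq, abs_lt]
    constructor <;> linarith
  have hfar : ∀ s t, μ - δ < s → s < μ + δ → ν - δ < t → t < ν + δ →
      ε / 2 < dist (Circle.exp s) (Circle.exp t) := by
    intro s t h1 h2 h3 h4
    have p1 := (nu s h1 h2).trans_le (min_le_right _ _)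
    have p2 := (nv t h3 h4).trans_le (min_le_right _ _)
    have p3 := dist_triangle4 u (Circle.exp s) (Circle.exp t) v
    rw [dist_comm u (Circle.exp s)] at p3
    linarith
  have hst : ∀ s t, μ - δ < s → s < μ + δ → ν - δ < t → t < ν + δ →
      (Circle.exp s, Circle.exp t) ∈ B → Circle.exp s = u ∧ Circle.exp t = v := by
    intro s t h1 h2 h3 h4 hb
    have hm : (Circle.exp s, Circle.exp t) ∈ Metric.ball (u, v) ρ₀ := by
      rw [Metric.mem_ball, Prod.dist_eq]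
      exact max_lt ((nu s h1 h2).trans_le (min_le_left _ _)) ((nv t h3 h4).trans_le (min_le_left _ _))
    by_contra hcon
    refine hball hm ⟨⟨hb, (hfar s t h1 h2 h3 h4).le⟩, ?_⟩
    intro heq
    have heq' : (Circle.exp s, Circle.exp t) = (u, v) := heq
    rw [Prod.mk.injEq] at heq'
    exact hcon heq'
  have hN : (Circle.exp '' Ioo (μ - δ) (μ + δ)) ×ˢ (Circle.exp '' Ioo (ν - δ) (ν + δ)) ∈
      𝓝 (u, v) := by
    refine prod_mem_nhds ?_ ?_
    · exact (isLocalHomeomorph_circleExp.isOpenMap _ isOpen_Ioo).mem_nhds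
        ⟨μ, ⟨by linarith, by linarith⟩, hμ⟩
    · exact (isLocalHomeomorph_circleExp.isOpenMap _ isOpen_Ioo).mem_nhds
        ⟨ν, ⟨by linarith, by linarith⟩, hν⟩
  have hinf : ({a : Circle × Circle |
      a ∈ {l : Circle × Circle | l ∈ Un B ∧ l ∈ Un (Un B)} ∧ ε ≤ dist a.1 a.2} ∩
      (Circle.exp '' Ioo (μ - δ) (μ + δ)) ×ˢ (Circle.exp '' Ioo (ν - δ) (ν + δ))).Infinite := by
    intro hfin'
    have hcl := (hfin'.subset (fun a (ha : a ∈ ({a : Circle × Circle |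
      a ∈ {l : Circle × Circle | l ∈ Un B ∧ l ∈ Un (Un B)} ∧ ε ≤ dist a.1 a.2} ∩
      (Circle.exp '' Ioo (μ - δ) (μ + δ)) ×ˢ (Circle.exp '' Ioo (ν - δ) (ν + δ))) \ {(u, v)}) =>
        ha.1)).isClosed
    have hn := hcl.isOpen_compl.mem_nhds (fun (h : (u, v) ∈ _ \ {(u, v)}) => h.2 rfl)
    obtain ⟨y, ⟨hy1, hy2⟩, hy3, hy4⟩ :=
      ((accPt_iff_frequently.1 hacc).and_eventually (Filter.inter_mem hN hn)).exists.imp
        (fun y hy => And.intro hy.2 hy.1)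
    exact hy2 ⟨⟨hy4, hy1⟩, hy3⟩
  have hor : (Prod.fst '' ({a : Circle × Circle |
      a ∈ {l : Circle × Circle | l ∈ Un B ∧ l ∈ Un (Un B)} ∧ ε ≤ dist a.1 a.2} ∩
      (Circle.exp '' Ioo (μ - δ) (μ + δ)) ×ˢ (Circle.exp '' Ioo (ν - δ) (ν + δ)))).Infinite ∨
      (Prod.snd '' ({a : Circle × Circle |
      a ∈ {l : Circle × Circle | l ∈ Un B ∧ l ∈ Un (Un B)} ∧ ε ≤ dist a.1 a.2} ∩
      (Circle.exp '' Ioo (μ - δ) (μ + δ)) ×ˢ (Circle.exp '' Ioo (ν - δ) (ν + δ)))).Infinite := by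
    by_contra hcon
    rw [not_or, Set.not_infinite, Set.not_infinite] at hcon
    apply hinf
    refine (hcon.1.prod hcon.2).subset ?_
    intro a ha
    exact ⟨⟨a, ha, rfl⟩, ⟨a, ha, rfl⟩⟩
  rcases hor with h | h
  · refine LF1_core B hB μ ν δ hδc ?_ ?_ ?_
    · intro s t h1 h2 h3 h4 heq
      have := hfar s t h1 h2 h3 h4
      rw [heq, dist_self] at this
      linarith
    · intro s t h1 h2 h3 h4 hb
      rw [hμ]
      exact (hst s t h1 h2 h3 h4 hb).1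
    · intro hfin'
      apply h
      refine (hfin'.image Circle.exp).subset ?_
      rintro x ⟨⟨a, b⟩, ⟨⟨⟨hU, hW⟩, -⟩, ⟨s, hs, hs'⟩, ⟨t, ht, ht'⟩⟩, rfl⟩
      have hs'' : Circle.exp s = a := hs'
      have ht'' : Circle.exp t = b := ht'
      refine ⟨s, ⟨hs.1, hs.2, t, ht.1, ht.2, ?_, ?_⟩, hs'⟩
      · rw [hs'', ht'']
        exact hU
      · rw [hs'', ht'']
        exact hW
  · refine LF1_core B hB ν μ δ hδc ?_ ?_ ?_
    · intro s t h1 h2 h3 h4 heq
      have := hfar t s h3 h4 h1 h2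
      rw [heq, dist_self] at this
      linarith
    · intro s t h1 h2 h3 h4 hb
      rw [hν]
      exact (hst t s h3 h4 h1 h2 (hB _ _ hb)).2
    · intro hfin'
      apply h
      refine (hfin'.image Circle.exp).subset ?_
      rintro x ⟨⟨a, b⟩, ⟨⟨⟨hU, hW⟩, -⟩, ⟨s, hs, hs'⟩, ⟨t, ht, ht'⟩⟩, rfl⟩
      have hs'' : Circle.exp s = a := hs'
      have ht'' : Circle.exp t = b := ht'
      refine ⟨t, ⟨ht.1, ht.2, s, hs.1, hs.2, ?_, ?_⟩, ht'⟩
      · rw [hs'', ht'']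
        exact h2.2.2.1 B a b hU
      · rw [hs'', ht'']
        exact h2.2.2.1 (Un B) a b hW

end Pool.SH
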