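import Pool.Agent.Work.MP_ae1ff6_sh.InterfaceL

/-! # Block LFL: local finiteness of the lamination -/

open Topology Filter Set
open scoped ComplexConjugate

set_option autoImplicit false

namespace Pool.SH

open Pool.CG Pool.AR

theorem LFL_axis {Γ : Subgroup H} (hΓ : FirstKind Γ) {x y : Circle} (h : x ≠ y) :
    ∃ a : Circle × Circle, (∃ γ ∈ Γ, Axis γ a.1 a.2) ∧ Link a.1 a.2 x y := by
  obtain ⟨A, B, U, V, hA, hB, hU, hU0, hV, hV0, hl⟩ := Pool.GC.lop x y h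
  obtain ⟨γ, hγ, p, hp, q, hq, hax⟩ := Pool.CG.dns Γ hΓ U V hU hU0 hV hV0
  exact ⟨(p, q), ⟨γ, hγ, hax⟩,
    (Pool.GC.q_SYM _ _ _ _ (hl x (mem_of_mem_nhds hA) y (mem_of_mem_nhds hB) p hp q hq)).1⟩

theorem LFL_open (a : Circle × Circle) : IsOpen {x : Circle × Circle | Link a.1 a.2 x.1 x.2} := by
  have hc : Continuous fun x : Circle × Circle => ((a.1, a.2), (x.1, x.2)) := by fun_prop
  exact Pool.GC.q_LNO.1.preimage hc

theorem LFL_compact (ε : ℝ) : IsCompact {x : Circle × Circle | ε ≤ dist x.1 x.2} := by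
  apply IsClosed.isCompact
  exact isClosed_le continuous_const (continuous_fst.dist continuous_snd)

theorem p_LFL (h1 : Stmt_SHB) (h2 : Stmt_FLN) (_h3 : Stmt_UNB) (h4 : Stmt_LF1) : Stmt_LFL := by
  intro Γ f A hΓ hn hF ε hε
  obtain ⟨-, s2, -, s4, -, s6⟩ := h1 Γ f A hn hF
  have key : ∀ u : Circle × Circle, ∃ (a : Circle × Circle) (N M : ℤ), ε ≤ dist u.1 u.2 →
      Link a.1 a.2 u.1 u.2 ∧ (∀ n : ℤ, N ≤ n → a ∈ Un (sh f n A)) ∧
      ∀ n : ℤ, n ≤ M → a ∈ sh f n A := by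
    intro u
    by_cases hu : ε ≤ dist u.1 u.2
    · have hne : u.1 ≠ u.2 := by
        intro e
        rw [e, dist_self] at hu
        linarith
      obtain ⟨a, ⟨γ, hγ, hax⟩, hl⟩ := LFL_axis hΓ hne
      obtain ⟨N, hN⟩ := h2 Γ f A hΓ hn hF γ hγ a.1 a.2 hax
      obtain ⟨M, hM⟩ := s6 γ hγ a.1 a.2 hax
      exact ⟨a, N, M, fun _ => ⟨hl, hN, hM⟩⟩
    · exact ⟨u, 0, 0, fun h => absurd h hu⟩
  choose a N M ha using key
  obtain ⟨t, ht, hcov⟩ := (LFL_compact ε).elim_nhds_subcover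
    (fun u => {x : Circle × Circle | Link (a u).1 (a u).2 x.1 x.2})
    (fun u hu => (LFL_open (a u)).mem_nhds (ha u hu).1)
  obtain ⟨N0, hN0⟩ := (t.image N).exists_le
  obtain ⟨M1, hM1⟩ := (t.image (fun u => -M u)).exists_le
  refine Set.Finite.subset (Set.Finite.biUnion (Set.finite_Icc (-M1) N0)
    (fun n _ => h4 (sh f n A) (s2 n) (s4 n) ε hε)) ?_
  rintro l ⟨⟨n, hl1, hl2⟩, hle⟩
  have hc := hcov (show l ∈ {x : Circle × Circle | ε ≤ dist x.1 x.2} from hle)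
  rw [Set.mem_iUnion₂] at hc
  obtain ⟨u, hut, hul⟩ := hc
  obtain ⟨-, g1, g2⟩ := ha u (ht u hut)
  have hn1 : n ≤ N0 := by
    by_contra hlt
    have h5 : N u ≤ N0 := hN0 _ (Finset.mem_image_of_mem N hut)
    exact hl2.2 _ (g1 n (by omega)) hul
  have hn2 : -M1 ≤ n := by
    by_contra hlt
    have h5 : -M u ≤ M1 := hM1 _ (Finset.mem_image_of_mem (fun u => -M u) hut)
    exact hl1.2 _ (g2 n (by omega)) hul
  exact Set.mem_biUnion (show n ∈ Set.Icc (-M1) N0 from ⟨hn2, hn1⟩) ⟨⟨hl1, hl2⟩, hle⟩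

end Pool.SH
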