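import Pool.Agent.Work.MP_ae1ff6_sh.InterfaceL

/-! Block LMN: the lamination. -/

open Topology Filter Set
open scoped ComplexConjugate

set_option autoImplicit false

namespace Pool.SH

open Pool.CG Pool.AR

theorem p_LMN (hGEL : Stmt_GEL) (hLUL : Stmt_LUL) (hLFL : Stmt_LFL) (hLNE : Stmt_LNE)
    (hTKP : Stmt_TKP) : Stmt_LMN := by
  intro Γ f A T₀ hΓ htf hT hK hf hnorm hinf hconv hA
  obtain ⟨-, -, h3, -⟩ := hGEL Γ f hnorm
  obtain ⟨s1, s2, s3, s4⟩ := hLUL Γ f A hnorm hA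
  obtain ⟨t1, t2⟩ := hTKP Γ f A T₀ hΓ hnorm hA hf hT hK
  exact
    { conv := hconv
      ori := q_MOR.2.2 Γ f hΓ hf
      tf := h3 htf hinf
      symm := s1
      ne := s2
      unlinked := s3
      fin := hLFL Γ f A hΓ hnorm hA
      nonempty := hLNE Γ f A hΓ hnorm hA
      keepL := s4
      tri := t1
      keepT := t2 }

end Pool.SH
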