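import Pool.Agent.Work.MP_ae1ff6_sh.InterfaceL

open Topology Filter Set
open scoped ComplexConjugate

set_option autoImplicit false

namespace Pool.SH

open Pool.CG Pool.AR

theorem LNE_axis_ne {γ : H} {p q : Circle} (h : Axis γ p q) : p ≠ q := by
  exact h.1

/-- Two lines which are not linked are crossed by a common line. -/
theorem LNE_sep (a₁ a₂ p q : Circle) (ha : a₁ ≠ a₂) (hpq : p ≠ q) (h : ¬ Link a₁ a₂ p q) :
    ∃ s t : Circle, Link a₁ a₂ s t ∧ Link p q s t := by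
  obtain ⟨s, t, hst, hts, rfl, rfl⟩ := q_ANG.2.2.1 a₁ a₂ ha
  have h4 := q_ANG.2.2.2.1
  rcases q_ANG.2.2.2.2.2 s t p q hst hts h with ⟨u, v, hu1, hu2, hv1, hv2, rfl, rfl⟩ |
    ⟨u, v, hu1, hu2, hv1, hv2, rfl, rfl⟩
  · have huv : u ≠ v := fun h => hpq (by rw [h])
    have hl : Link (Circle.exp s) (Circle.exp t) (Circle.exp ((u + v) / 2))
        (Circle.exp ((t + (s + 2 * Real.pi)) / 2)) := by
      rcases lt_or_gt_of_ne huv with h1 | h1 <;> apply h4 <;> linarith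
    refine ⟨_, _, hl, ?_⟩
    rcases lt_or_gt_of_ne huv with h1 | h1
    · apply h4 <;> linarith
    · have h2 : Link (Circle.exp v) (Circle.exp u) (Circle.exp ((u + v) / 2))
          (Circle.exp ((t + (s + 2 * Real.pi)) / 2)) := by apply h4 <;> linarith
      exact (Pool.GC.q_SYM _ _ _ _ h2).2.1
  · have huv : u ≠ v := fun h => hpq (by rw [h])
    have hl : Link (Circle.exp s) (Circle.exp t) (Circle.exp ((s + t) / 2))
        (Circle.exp ((u + v) / 2)) := by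
      rcases lt_or_gt_of_ne huv with h1 | h1 <;> apply h4 <;> linarith
    refine ⟨_, _, (Pool.GC.q_SYM _ _ _ _ hl).2.2, ?_⟩
    have he : Circle.exp ((s + t) / 2) = Circle.exp ((s + t) / 2 + 2 * Real.pi) := by
      rw [Circle.exp_add, Circle.exp_two_pi, mul_one]
    rw [he]
    rcases lt_or_gt_of_ne huv with h1 | h1
    · apply h4 <;> linarith
    · have h2 : Link (Circle.exp v) (Circle.exp u) (Circle.exp ((u + v) / 2))
          (Circle.exp ((s + t) / 2 + 2 * Real.pi)) := by apply h4 <;> linarith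
      exact (Pool.GC.q_SYM _ _ _ _ h2).2.1

theorem p_LNE (h1 : Stmt_SHB) (h2 : Stmt_FLN) (h3 : Stmt_SEP) : Stmt_LNE := by
  intro Γ f A hΓ hN hA
  obtain ⟨-, hsym, hax, -, -, -⟩ := h1 Γ f A hN hA
  obtain ⟨γ, hγ, p, -, q, -, hpq⟩ := Pool.CG.dns Γ hΓ univ univ isOpen_univ univ_nonempty isOpen_univ
    univ_nonempty
  obtain ⟨n, hn⟩ := h2 Γ f A hΓ hN hA γ hγ p q hpq
  have hb := hn n le_rfl
  obtain ⟨N, hNN⟩ := hA.swallow γ hγ p q hpq
  have ha : ((f ^ (n + N)) p, (f ^ (n + N)) q) ∈ sh f n A := by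
    have e : ∀ x : Circle, (f ^ (-n)) ((f ^ (n + N)) x) = (f ^ N) x := by
      intro x
      change (f ^ (-n) * f ^ (n + N)) x = _
      rw [← zpow_add]
      congr 2
      ring
    change ((f ^ (-n)) ((f ^ (n + N)) p), (f ^ (-n)) ((f ^ (n + N)) q)) ∈ A
    rw [e, e]
    exact hNN N le_rfl
  obtain ⟨γ', -, hγ'⟩ := hax n _ _ ha
  obtain ⟨s, t, hs1, hs2⟩ := LNE_sep _ _ p q (LNE_axis_ne hγ') (LNE_axis_ne hpq) (hb.2 _ ha)
  obtain ⟨l, hl1, hl2, -⟩ := h3 (sh f n A) (hsym n) s t _ ha hs1 (p, q) hb hs2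
  exact ⟨l, n, hl1, hl2⟩

end Pool.SH
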