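import Pool.Agent.Work.MP_ae1ff6_sh.InterfaceL

/-! Block LUL. -/

open Topology Filter Set
open scoped ComplexConjugate

set_option autoImplicit false

namespace Pool.SH

open Pool.CG Pool.AR

theorem p_LUL (h1 : Stmt_GEL) (h2 : Stmt_SHB) (h3 : Stmt_UNB) : Stmt_LUL := by
  intro Γ f A hf hA
  obtain ⟨gel1, gel2, -, -⟩ := h1 Γ f hf
  obtain ⟨sub, -, -, -, mv, -⟩ := h2 Γ f A hf hA
  obtain ⟨unm, -, uns, -, unt⟩ := h3
  refine ⟨?_, ?_, ?_, ?_⟩
  · rintro p q ⟨n, a, b⟩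
    exact ⟨n, uns _ p q a, uns _ p q b⟩
  · rintro p q ⟨n, a, b⟩
    exact a.1
  · rintro x y z w ⟨m, a, b⟩ ⟨n, c, d⟩ hl
    rcases le_total m n with hmn | hmn
    · have := unm _ _ (sub m n hmn) a
      exact d.2 _ this hl
    · have := unm _ _ (sub n m hmn) c
      exact b.2 _ this (Pool.GC.q_SYM x y z w hl).1
  · intro g hg x y hxy
    obtain ⟨n, a, b⟩ := hxy
    obtain ⟨κ, hκ, k, rfl⟩ := (gel1 g).1 hg
    have hinv : (κ * f ^ k)⁻¹ = (f ^ (-k) * κ⁻¹ * (f ^ (-k))⁻¹) * f ^ (-k) := by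
      rw [mul_inv_rev, zpow_neg]
      group
    have hk' := gel2 (-k) κ⁻¹ (Γ.inv_mem hκ)
    have e1 : ∀ u v, (u, v) ∈ sh f (n + k) A →
        ((κ * f ^ k)⁻¹ u, (κ * f ^ k)⁻¹ v) ∈ sh f n A := by
      intro u v huv
      have := mv _ hk' (-k) (n + k) u v huv
      rw [← hinv] at this
      have e : n + k + -k = n := by ring
      rw [e] at this
      exact this
    have e2 : ∀ u v, (u, v) ∈ sh f n A → ((κ * f ^ k) u, (κ * f ^ k) v) ∈ sh f (n + k) A :=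
      fun u v huv => mv κ hκ k n u v huv
    refine ⟨n + k, ?_, ?_⟩
    · exact unt _ _ (κ * f ^ k) e1 x y a
    · refine unt _ _ (κ * f ^ k) ?_ x y b
      refine unt _ _ (κ * f ^ k)⁻¹ ?_
      intro u v huv
      rw [inv_inv]
      exact e2 u v huv

end Pool.SH
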