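import Pool.Agent.Work.MP_ae1ff6_sh.InterfaceT

/-!
# Block NSQ: nested edges at a point
-/

open Topology Filter Set
open scoped ComplexConjugate

set_option autoImplicit false

namespace Pool.SH

open Pool.CG Pool.AR

/-- every point is `exp v` with `v` in a given half open interval of length `2π` -/
theorem NSQ_param (s : ℝ) (q : Circle) : ∃ v : ℝ, s < v ∧ v ≤ s + 2 * Real.pi ∧
    q = Circle.exp v := by
  have hpi : (0 : ℝ) < 2 * Real.pi := Real.two_pi_pos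
  have hm := toIocMod_mem_Ioc hpi s (Complex.arg (q : ℂ))
  refine ⟨toIocMod hpi s (Complex.arg (q : ℂ)), hm.1, hm.2, ?_⟩
  have h1 := toIocMod_add_toIocDiv_zsmul hpi s (Complex.arg (q : ℂ))
  have h2 : Circle.exp (toIocMod hpi s (Complex.arg (q : ℂ))) = Circle.exp (Complex.arg (q : ℂ)) := by
    rw [Circle.exp_eq_exp]
    refine ⟨-toIocDiv hpi s (Complex.arg (q : ℂ)), ?_⟩
    rw [zsmul_eq_mul] at h1
    push_cast
    linarith
  rw [h2, Circle.exp_arg]

/-- an edge around the point `q` -/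
theorem NSQ_edge (T : Set (Circle × Circle)) (hT : Tri T) (q : Circle) :
    ∃ s₀ t₀ v : ℝ, s₀ < v ∧ v ≤ t₀ ∧ t₀ < s₀ + 2 * Real.pi ∧
      (Circle.exp s₀, Circle.exp t₀) ∈ T ∧ q = Circle.exp v := by
  obtain ⟨⟨x₀, y₀⟩, h0⟩ := hT.nonempty
  obtain ⟨s, t, hst, hts, rfl, rfl⟩ := q_ANG.2.2.1 x₀ y₀ (hT.ne _ _ h0)
  obtain ⟨v, hv1, hv2, hv⟩ := NSQ_param s q
  by_cases h : v ≤ t
  · exact ⟨s, t, v, hv1, h, hts, h0, hv⟩
  · push Not at h
    refine ⟨t, s + 2 * Real.pi, v, h, hv2, by linarith, ?_, hv⟩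
    rw [Circle.exp_add_two_pi]
    exact hT.symm _ _ h0

theorem p_NSQ : Stmt_NSQ := by
  intro T hT p q k hpqk
  have hpi : (0 : ℝ) < 2 * Real.pi := Real.two_pi_pos
  obtain ⟨s₀, t₀, v, hsv, hvt, hts, hE, rfl⟩ := NSQ_edge T hT q
  -- the coordinate of `p`
  obtain ⟨ϖ', hw1, hw2, hp⟩ := NSQ_param (v - 2 * Real.pi) p
  have hne := q_CYO.2.1 _ _ _ hpqk
  have hw3 : ϖ' < v := by
    rcases lt_or_eq_of_le hw2 with h | h
    · linarith
    · exfalso
      apply hne.2.1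
      rw [hp, h]
      congr 1
      ring
  -- the coordinate of `k`
  have hqkp : Ccw (Circle.exp v) k p := q_CYO.1 _ _ _ hpqk
  have hp2 : p = Circle.exp (ϖ' + 2 * Real.pi) := by rw [Circle.exp_add_two_pi]; exact hp
  rw [hp2] at hqkp
  obtain ⟨κ, hk1, hk2, hk⟩ := q_ANG.2.1 v (ϖ' + 2 * Real.pi) k (by linarith) (by linarith) hqkp
  -- the finite set of the edges around `q` and `k`
  obtain ⟨P, hP⟩ : ∃ P : Set (ℝ × ℝ), P = {a : ℝ × ℝ | max s₀ ϖ' ≤ a.1 ∧ a.1 < v ∧ κ ≤ a.2 ∧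
    a.2 ≤ t₀ ∧ (Circle.exp a.1, Circle.exp a.2) ∈ T} := ⟨_, rfl⟩
  have hPf : P.Finite := by
    by_cases hκ : κ ≤ t₀
    · obtain ⟨ε, hε, hd⟩ := NST_eps s₀ t₀ v κ hts hsv.le hk1 hκ
      have hinj : InjOn Circle.exp (Ico s₀ (s₀ + 2 * Real.pi)) :=
        Circle.exp_injOn_Ico (by linarith)
      refine Set.Finite.of_finite_image (f := fun p : ℝ × ℝ => (Circle.exp p.1, Circle.exp p.2))
        ((hT.fin ε hε).subset ?_) ?_
      · rintro _ ⟨a, ha, rfl⟩
        rw [hP] at ha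
        obtain ⟨a1, a2, a3, a4, a5⟩ := ha
        exact ⟨a5, hd _ _ ((le_max_left _ _).trans a1) a2.le a3 a4⟩
      · intro a ha b hb he
        rw [hP] at ha hb
        obtain ⟨a1, a2, a3, a4, -⟩ := ha
        obtain ⟨b1, b2, b3, b4, -⟩ := hb
        have ha1 := (le_max_left s₀ ϖ').trans a1
        have hb1 := (le_max_left s₀ ϖ').trans b1
        have h2 : Circle.exp a.1 = Circle.exp b.1 := congrArg Prod.fst he
        have h3 : Circle.exp a.2 = Circle.exp b.2 := congrArg Prod.snd he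
        exact Prod.ext (hinj ⟨ha1, by linarith⟩ ⟨hb1, by linarith⟩ h2)
          (hinj ⟨by linarith, by linarith⟩ ⟨by linarith, by linarith⟩ h3)
    · have : P = ∅ := by
        rw [hP, Set.eq_empty_iff_forall_notMem]
        rintro a ⟨a1, a2, a3, a4, -⟩
        linarith
      rw [this]; exact Set.finite_empty
  have hu0 : max s₀ ϖ' < v := max_lt hsv hw3
  obtain ⟨M, hM, hMmax⟩ := Set.exists_max_image (insert (max s₀ ϖ') (Prod.fst '' P)) id
    ((hPf.image _).insert _) ⟨_, Set.mem_insert _ _⟩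
  have hMv : M < v := by
    rcases hM with rfl | ⟨a, ha, rfl⟩
    · exact hu0
    · rw [hP] at ha
      exact ha.2.1
  have hM0 : max s₀ ϖ' ≤ M := hMmax _ (Set.mem_insert _ _)
  have hu1 : M < (M + v) / 2 := by linarith
  have hu2 : (M + v) / 2 < v := by linarith
  have hs0 : s₀ ≤ (M + v) / 2 := by
    have := le_max_left s₀ ϖ'
    linarith
  obtain ⟨s, r, t, h1, h2, h3, h4, h5, h6, -, -, h7⟩ :=
    q_NST T hT.fin hT.third s₀ t₀ (by linarith) hts hE ((M + v) / 2) v hs0 hu2 hvt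
  have hr0 : max s₀ ϖ' ≤ r := by linarith
  have htκ : t < κ := by
    by_contra hcon
    push Not at hcon
    have hmem : (r, t) ∈ P := by
      rw [hP]
      exact ⟨hr0, h4, hcon, h6, h7⟩
    have h8 : r ≤ M := hMmax r (Set.mem_insert_of_mem _ ⟨(r, t), hmem, rfl⟩)
    linarith
  have hϖr : ϖ' < r := by
    have := le_max_right s₀ ϖ'
    linarith
  refine ⟨Circle.exp r, Circle.exp t, h7, ?_, ?_⟩
  · rw [hp]
    exact q_ANG.1 _ _ _ hϖr h4 (by linarith)
  · rcases lt_or_eq_of_le h5 with h | h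
    · right
      rw [hk]
      exact q_ANG.1 _ _ _ h htκ (by linarith)
    · left
      rw [h]

end Pool.SH
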