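import Pool.Agent.Work.MP_ae1ff6_sh.InterfaceZ
import Pool.Agent.Work.MP_ae1ff6_sh.B_DIR

/-!
# No element of a torsion free convergence group exchanges two points
-/

open Topology Filter Set
open scoped ComplexConjugate

set_option autoImplicit false

namespace Pool.SH

open Pool.CG Pool.AR

theorem p_NSW (h1 : Stmt_DIR) : Stmt_NSW := by
  intro G hG hO htf p q hpq g hg e1 e2
  have hh : g * g ∈ G := G.mul_mem hg hg
  have hp : (g * g) p = p := by
    show g (g p) = p
    rw [e1, e2]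
  have hq : (g * g) q = q := by
    show g (g q) = q
    rw [e2, e1]
  have hne : g * g ≠ 1 := by
    intro h
    have h2 : g = 1 := htf g hg 2 (by norm_num) (by rw [pow_two]; exact h)
    rw [h2] at e1
    exact hpq e1
  obtain ⟨x, hx⟩ := (DIR_arc hpq).2
  have k1 : Ccw q (g x) p := by
    have := hO g hg _ _ _ hx
    rwa [e1, e2] at this
  rcases h1 G hG (g * g) hh (hO _ hh) hne p q hpq hp hq with ⟨a1, a2⟩ | ⟨a1, a2⟩
  · have k2 := hO g hg _ _ _ (a1 x hx)
    rw [e1] at k2
    exact (q_CYO.2.1 _ _ _ k2).1 (a2 _ k1)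
  · have k2 := hO g hg _ _ _ (a1 x hx)
    rw [e1] at k2
    exact (q_CYO.2.1 _ _ _ k2).1 (a2 _ k1)

end Pool.SH
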