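import Pool.Agent.Work.MP_ae1ff6_sh.InterfaceT

/-!
# Block PCT of MP_ae1ff6_gt, part L3: the image triangles are pieces (typed by helper99)
-/

open Topology Filter Set
open scoped ComplexConjugate

set_option autoImplicit false

namespace Pool.SH

open Pool.CG Pool.AR

lemma PCT_sub (hRTM : Stmt_RTM) {K : Set Circle} {u v p q : Circle} (hu : Ret K u p)
    (hv : Ret K v q) (hpq : p ≠ q) {x y z a b c : Circle} (hx : Ret K x a) (hy : Ret K y b)
    (hz : Ret K z c) (h : x ∈ Arc u v ∧ y ∈ Arc u v ∧ z ∈ Arc u v) :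
    ({a, b, c} : Set Circle) ⊆ Arc p q := by
  rintro w (rfl | rfl | rfl)
  · exact hRTM.2 K u v x p q _ hu hv hx hpq h.1
  · exact hRTM.2 K u v y p q _ hu hv hy hpq h.2.1
  · exact hRTM.2 K u v z p q _ hu hv hz hpq h.2.2

lemma PCT_not (hARX : Stmt_ARX) {a b c p q : Circle} (habc : Ccw a b c)
    (h1 : ({a, b, c} : Set Circle) ⊆ Arc p q) (h2 : ({a, b, c} : Set Circle) ⊆ Arc q p) : False := by
  obtain ⟨-, hab, hbc, hac⟩ := q_CYO.2.1 a b c habc
  have ha := hARX.2.1 p q a (h1 (by simp)) (h2 (by simp))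
  have hb := hARX.2.1 p q b (h1 (by simp)) (h2 (by simp))
  have hc := hARX.2.1 p q c (h1 (by simp)) (h2 (by simp))
  rcases ha with rfl | rfl <;> rcases hb with rfl | rfl <;> rcases hc with rfl | rfl <;>
    first
      | exact hab rfl
      | exact hbc rfl
      | exact hac rfl

/-- one of the three different points is strictly between `a` and `b` -/
lemma PCT_mid {a b a' b' c' : Circle} (h' : Ccw a' b' c')
    (h1 : ({a', b', c'} : Set Circle) ⊆ Arc a b) :
    ∃ k ∈ ({a', b', c'} : Set Circle), Ccw a k b := by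
  obtain ⟨-, hab, hbc, hac⟩ := q_CYO.2.1 a' b' c' h'
  have ha := h1 (show a' ∈ ({a', b', c'} : Set Circle) by simp)
  have hb := h1 (show b' ∈ ({a', b', c'} : Set Circle) by simp)
  have hc := h1 (show c' ∈ ({a', b', c'} : Set Circle) by simp)
  rcases ha with ha | ha | ha
  · rcases hb with hb | hb | hb
    · exact absurd (ha.trans hb.symm) hab
    · rcases hc with hc | hc | hc
      · exact absurd (ha.trans hc.symm) hac
      · exact absurd (hb.trans hc.symm) hbc
      · exact ⟨c', by simp, hc⟩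
    · exact ⟨b', by simp, hb⟩
  · rcases hb with hb | hb | hb
    · rcases hc with hc | hc | hc
      · exact absurd (hb.trans hc.symm) hbc
      · exact absurd (ha.trans hc.symm) hac
      · exact ⟨c', by simp, hc⟩
    · exact absurd (ha.trans hb.symm) hab
    · exact ⟨b', by simp, hb⟩
  · exact ⟨a', by simp, ha⟩

/-- the separating side -/
lemma PCT_side (hRTM : Stmt_RTM) {K : Set Circle} {T : Set (Circle × Circle)}
    {a b c x y a' b' c' x' y' z' : Circle} (habc : Ccw a b c) (hc : c ∈ K)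
    (hyx : (y, x) ∈ T) (hx : Ret K x a) (hy : Ret K y b) (h' : Ccw a' b' c')
    (hx' : Ret K x' a') (hy' : Ret K y' b') (hz' : Ret K z' c')
    (h : x' ∈ Arc x y ∧ y' ∈ Arc x y ∧ z' ∈ Arc x y) :
    (b, a) ∈ TL K T ∧ ({a, b, c} : Set Circle) ⊆ Arc b a ∧ ({a', b', c'} : Set Circle) ⊆ Arc a b := by
  obtain ⟨-, hab, hbc, hac⟩ := q_CYO.2.1 a b c habc
  have h2 : ({a', b', c'} : Set Circle) ⊆ Arc a b := PCT_sub hRTM hx hy hab hx' hy' hz' h
  refine ⟨⟨⟨hab.symm, y, x, hyx, hy, hx⟩, ⟨c, hc, q_CYO.1 a b c habc⟩, ?_⟩, ?_, h2⟩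
  · obtain ⟨k, hk, hk'⟩ := PCT_mid h' h2
    refine ⟨k, ?_, hk'⟩
    rcases hk with rfl | rfl | rfl
    · exact hx'.1
    · exact hy'.1
    · exact hz'.1
  · rintro w (rfl | rfl | rfl)
    · exact Or.inr (Or.inl rfl)
    · exact Or.inl rfl
    · exact Or.inr (Or.inr (q_CYO.1 _ _ _ habc))

lemma PCT_rot (a b c : Circle) : ({b, c, a} : Set Circle) = {a, b, c} := by
  ext w
  simp only [mem_insert_iff, mem_singleton_iff]
  tauto

theorem p_PCT (h1 : Stmt_ARX) (h2 : Stmt_RTX) (h3 : Stmt_RTM) (h4 : Stmt_TSD) (h5 : Stmt_FNP)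
    (h6 : Stmt_SID) (h7 : Stmt_TEU) : Stmt_PCT := by
  classical
  intro K T hK hT
  obtain ⟨hex, huniq, -, -, -⟩ := h2
  obtain ⟨hTEs, -, -, -, -⟩ := h7 K T hT
  refine ⟨⟨?_, ?_, ?_, ?_, ?_, ?_, ?_⟩, ?_⟩
  · -- symm
    rintro p q ⟨hE, hk1, hk2⟩
    exact ⟨hTEs p q hE, hk2, hk1⟩
  · -- ne
    rintro p q ⟨hE, -, -⟩
    exact hE.1
  · -- three
    rintro P ⟨a, b, c, x, y, z, habc, rfl, -⟩
    exact ⟨a, by simp, b, by simp, c, by simp, habc⟩
  · -- unl
    rintro P ⟨a, b, c, x, y, z, habc, rfl, hxyz, hxy, hyz, hzx, hx, hy, hz⟩ p q ⟨hE, -, -⟩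
    obtain ⟨hpq, u, v, huv, hu, hv⟩ := hE
    rcases (h4 T hT x y z hxyz hxy hyz hzx).1 u v huv with h | h
    · exact Or.inl (PCT_sub h3 hu hv hpq hx hy hz h)
    · exact Or.inr (PCT_sub h3 hv hu hpq.symm hx hy hz h)
  · -- side
    rintro p q ⟨hE, hk, -⟩
    obtain ⟨v, hv1, hv2⟩ := h6 K T hK hT p q hE hk
    refine ⟨{p, v, q}, hv2, by simp, by simp, ?_⟩
    rintro w (rfl | rfl | rfl)
    · exact Or.inl rfl
    · exact Or.inr (Or.inr hv1)
    · exact Or.inr (Or.inl rfl)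
  · -- sep
    rintro P ⟨a, b, c, x, y, z, habc, rfl, hxyz, hxy, hyz, hzx, hx, hy, hz⟩
      P' ⟨a', b', c', x', y', z', habc', rfl, hxyz', hxy', hyz', hzx', hx', hy', hz'⟩ hne
    have hne' : ({x', y', z'} : Set Circle) ≠ {x, y, z} := by
      intro heq
      apply hne
      have key : ∀ {x y z a b c x' y' z' a' b' c' : Circle}, Ret K x a → Ret K y b → Ret K z c →
          Ret K x' a' → Ret K y' b' → Ret K z' c' → ({x, y, z} : Set Circle) ⊆ {x', y', z'} →
          ({a, b, c} : Set Circle) ⊆ {a', b', c'} := by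
        intro x y z a b c x' y' z' a' b' c' hx hy hz hx' hy' hz' hsub
        have one : ∀ {t s : Circle}, Ret K t s → t ∈ ({x', y', z'} : Set Circle) →
            s ∈ ({a', b', c'} : Set Circle) := by
          intro t s ht hmem
          rcases hmem with rfl | rfl | rfl
          · exact Or.inl (huniq K _ _ _ ht hx')
          · exact Or.inr (Or.inl (huniq K _ _ _ ht hy'))
          · exact Or.inr (Or.inr (huniq K _ _ _ ht hz'))
        rintro w (rfl | rfl | rfl)
        · exact one hx (hsub (by simp))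
        · exact one hy (hsub (by simp))
        · exact one hz (hsub (by simp))
      exact Subset.antisymm (key hx hy hz hx' hy' hz' heq.symm.subset)
        (key hx' hy' hz' hx hy hz heq.subset)
    rcases (h4 T hT x y z hxyz hxy hyz hzx).2 x' y' z' hxyz' hxy' hyz' hzx' hne' with h | h | h
    · obtain ⟨i1, i2, i3⟩ := PCT_side h3 habc hz.1 (hT.symm _ _ hxy) hx hy habc' hx' hy' hz' h
      exact ⟨b, a, i1, by simp, by simp, i2, i3⟩
    · have hbca : Ccw b c a := q_CYO.1 _ _ _ habc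
      obtain ⟨i1, i2, i3⟩ := PCT_side h3 hbca hx.1 (hT.symm _ _ hyz) hy hz habc' hx' hy' hz' h
      rw [PCT_rot a b c] at i2
      exact ⟨c, b, i1, by simp, by simp, i2, i3⟩
    · have hcab : Ccw c a b := q_CYO.1 _ _ _ (q_CYO.1 _ _ _ habc)
      obtain ⟨i1, i2, i3⟩ := PCT_side h3 hcab hy.1 (hT.symm _ _ hzx) hz hx habc' hx' hy' hz' h
      rw [PCT_rot b c a, PCT_rot a b c] at i2
      exact ⟨a, c, i1, by simp, by simp, i2, i3⟩
  · -- fin
    rintro P ⟨a, b, c, x, y, z, habc, rfl, hxyz, hxy, hyz, hzx, hx, hy, hz⟩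
      P' ⟨a', b', c', x', y', z', habc', rfl, hxyz', hxy', hyz', hzx', hx', hy', hz'⟩
    choose r hr using hex K hK
    have hF := h5 T hT.fin hT.ne x y x' y' (hT.ne _ _ hxy) (hT.ne _ _ hxy')
    refine (hF.image (Prod.map r r)).subset ?_
    rintro ⟨p, q⟩ ⟨⟨⟨hpq, u, v, huv, hu, hv⟩, -, -⟩, hP, hP'⟩
    change p ≠ q at hpq
    change Ret K u p at hu
    change Ret K v q at hv
    refine ⟨(u, v), ⟨huv, ?_⟩, ?_⟩
    · have hA : x ∈ Arc u v ∧ y ∈ Arc u v ∧ z ∈ Arc u v := by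
        rcases (h4 T hT x y z hxyz hxy hyz hzx).1 u v huv with h | h
        · exact h
        · exact (PCT_not h1 habc hP (PCT_sub h3 hv hu hpq.symm hx hy hz h)).elim
      have hB : x' ∈ Arc v u ∧ y' ∈ Arc v u ∧ z' ∈ Arc v u := by
        rcases (h4 T hT x' y' z' hxyz' hxy' hyz' hzx').1 u v huv with h | h
        · exact (PCT_not h1 habc' (PCT_sub h3 hu hv hpq hx' hy' hz' h) hP').elim
        · exact h
      exact ⟨hA.1, hA.2.1, hB.1, hB.2.1⟩
    · have e1 : r u = p := huniq K u _ _ (hr u) hu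
      have e2 : r v = q := huniq K v _ _ (hr v) hv
      simp [e1, e2]
  · -- triangles
    rintro P ⟨a, b, c, x, y, z, habc, rfl, -⟩
    exact ⟨a, b, c, habc, rfl⟩

end Pool.SH
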