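import Pool.Agent.Work.MP_ae1ff6_sh.InterfaceR

/-!
# Block RAR (lines and sets), typed by helper92
-/

open Topology Filter Set
open scoped ComplexConjugate

set_option autoImplicit false

namespace Pool.SH

open Pool.CG Pool.AR

theorem RAR_one (p q z : Circle) (hpq : p ≠ q) : z ∈ Arc p q ↔ ¬ Ccw q z p := by
  obtain ⟨c1, c2, c3, -⟩ := Pool.AR.q_CYO
  constructor
  · rintro (rfl | rfl | h) h'
    · exact (c2 _ _ _ h').2.2.1 rfl
    · exact (c2 _ _ _ h').2.1 rfl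
    · exact (c2 _ _ _ h).1 (c1 _ _ _ (c1 _ _ _ h'))
  · intro h
    by_cases h1 : z = p
    · exact Or.inl h1
    by_cases h2 : z = q
    · exact Or.inr (Or.inl h2)
    rcases c3 p z q (Ne.symm h1) h2 hpq with h3 | h3
    · exact Or.inr (Or.inr h3)
    · exact absurd (c1 _ _ _ h3) h

theorem p_RAR : Stmt_RAR := by
  obtain ⟨c1, c2, c3, -⟩ := Pool.AR.q_CYO
  refine ⟨RAR_one, ?_, ?_, ?_⟩
  · intro K p q hpq hK
    by_contra hcon
    rw [not_or, Set.not_subset, Set.not_subset] at hcon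
    obtain ⟨⟨a, ha, ha'⟩, b, hb, hb'⟩ := hcon
    rw [RAR_one p q a hpq, not_not] at ha'
    rw [RAR_one q p b (Ne.symm hpq), not_not] at hb'
    exact hK b hb a ha ((Pool.AR.q_LKC p q b a).mpr (Or.inl ⟨hb', ha'⟩))
  · intro p q x y hx hy hL
    rcases (Pool.AR.q_LKC p q x y).mp hL with ⟨_, h2⟩ | ⟨_, h2⟩
    · exact (RAR_one p q y (Ne.symm (c2 _ _ _ h2).2.2.2)).mp hy h2
    · exact (RAR_one p q x (Ne.symm (c2 _ _ _ h2).2.2.2)).mp hx h2
  · intro a b c d r hL hra hrb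
    by_contra hcon
    rw [not_or] at hcon
    exact Pool.GC.q_TWO a b c d r hL.1.1 hL.1.2 hL.2.1.1 hL.2.1.2 hra hrb
      ⟨fun h => absurd h hcon.1, fun h => absurd h hcon.2⟩ hL

end Pool.SH
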