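import Pool.Agent.Work.MP_ae1ff6_sh.InterfaceR

/-! # Block RCH: chords of arcs -/

open Topology Filter Set
open scoped ComplexConjugate

set_option autoImplicit false

namespace Pool.SH

open Pool.CG Pool.AR

theorem RCH_dist (r s : ℝ) (h1 : s ≤ r) (h2 : r ≤ s + 2 * Real.pi) :
    dist (Circle.exp r) (Circle.exp s) = 2 * Real.sin ((r - s) / 2) := by
  have h3 : dist (Circle.exp r) (Circle.exp s) =
      ‖Complex.exp (Complex.I * ((r - s : ℝ) : ℂ)) - 1‖ := by
    have h4 : dist (Circle.exp r) (Circle.exp s) =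
        ‖((Circle.exp r : Circle) : ℂ) - (Circle.exp s : Circle)‖ := by
      rw [← Complex.dist_eq]
      rfl
    have h5 : ((Circle.exp r : Circle) : ℂ) - (Circle.exp s : Circle) =
        ((Circle.exp s : Circle) : ℂ) * (Complex.exp (Complex.I * ((r - s : ℝ) : ℂ)) - 1) := by
      rw [Circle.coe_exp, Circle.coe_exp, mul_sub, mul_one, ← Complex.exp_add]
      congr 2
      push_cast
      ring
    rw [h4, h5, norm_mul, Circle.norm_coe, one_mul]
  rw [h3, Complex.norm_exp_I_mul_ofReal_sub_one, Real.norm_eq_abs, abs_of_nonneg]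
  have h6 : 0 ≤ Real.sin ((r - s) / 2) :=
    Real.sin_nonneg_of_nonneg_of_le_pi (by linarith) (by linarith)
  linarith

theorem RCH_mem (s t : ℝ) (x : Circle) (hst : s < t) (hts : t < s + 2 * Real.pi)
    (hx : x ∈ Arc (Circle.exp s) (Circle.exp t)) :
    ∃ u, s ≤ u ∧ u ≤ t ∧ x = Circle.exp u := by
  rcases hx with h | h | h
  · exact ⟨s, le_rfl, hst.le, h⟩
  · exact ⟨t, hst.le, le_rfl, h⟩
  · obtain ⟨r, h1, h2, h3⟩ := q_ANG.2.1 s t x hst hts h
    exact ⟨r, h1.le, h2.le, h3⟩

theorem RCH_short (s t : ℝ) (x y : Circle) (hst : s < t) (hts : t ≤ s + Real.pi)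
    (hx : x ∈ Arc (Circle.exp s) (Circle.exp t)) (hy : y ∈ Arc (Circle.exp s) (Circle.exp t)) :
    dist x y ≤ dist (Circle.exp s) (Circle.exp t) := by
  have hpi := Real.pi_pos
  obtain ⟨u, u1, u2, rfl⟩ := RCH_mem s t x hst (by linarith) hx
  obtain ⟨v, v1, v2, rfl⟩ := RCH_mem s t y hst (by linarith) hy
  rw [dist_comm (Circle.exp s) (Circle.exp t), RCH_dist t s hst.le (by linarith)]
  rcases le_total v u with h | h
  · rw [RCH_dist u v h (by linarith)]
    have := Real.sin_le_sin_of_le_of_le_pi_div_two (x := (u - v) / 2) (y := (t - s) / 2)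
      (by linarith) (by linarith) (by linarith)
    linarith
  · rw [dist_comm, RCH_dist v u h (by linarith)]
    have := Real.sin_le_sin_of_le_of_le_pi_div_two (x := (v - u) / 2) (y := (t - s) / 2)
      (by linarith) (by linarith) (by linarith)
    linarith

theorem p_RCH : Stmt_RCH := by
  intro a b x y x' y' hx hy hx' hy'
  have hpi := Real.pi_pos
  by_cases hab : a = b
  · subst hab
    have key : ∀ w ∈ Arc a a, w = a := by
      intro w hw
      rcases hw with h | h | h
      · exact h
      · exact h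
      · exact absurd rfl (q_CYO.2.1 a w a h).2.2.2
    rw [key x hx, key y hy, dist_self]
    exact min_le_left _ _
  · obtain ⟨s, t, hst, hts, rfl, rfl⟩ := q_ANG.2.2.1 a b hab
    rcases le_total t (s + Real.pi) with h | h
    · exact (min_le_left _ _).trans (RCH_short s t x y hst h hx hy)
    · refine (min_le_right _ _).trans ?_
      have hper : Circle.exp (s + 2 * Real.pi) = Circle.exp s := ANG_per s
      rw [← hper] at hx' hy' ⊢
      rw [dist_comm (Circle.exp (s + 2 * Real.pi))]
      exact RCH_short t (s + 2 * Real.pi) x' y' hts (by linarith) hx' hy'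

end Pool.SH
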