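import Pool.Agent.Work.MP_ae1ff6_sh.InterfaceR

/-!
# RCL: regions are closed
-/

open Topology Filter Set
open scoped ComplexConjugate

set_option autoImplicit false

namespace Pool.SH

open Pool.CG Pool.AR

theorem p_RCL : Stmt_RCL := by
  intro Λ K hK
  obtain ⟨-, h2, h3⟩ := hK
  rw [← isOpen_compl_iff, isOpen_iff_mem_nhds]
  intro z hz
  obtain ⟨x, hx, l, hl, hL⟩ := h3 z hz
  have hopen : IsOpen {z' : Circle | Link l.1 l.2 z' x} := by
    have hc : Continuous (fun z' : Circle => (((l.1, l.2), (z', x)) :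
        (Circle × Circle) × (Circle × Circle))) := by fun_prop
    exact Pool.GC.q_LNO.1.preimage hc
  have hmem : {z' : Circle | Link l.1 l.2 z' x} ∈ 𝓝 z := hopen.mem_nhds hL
  refine Filter.mem_of_superset hmem ?_
  intro z' hz' hzK
  exact h2 z' hzK x hx l hl hz'

end Pool.SH
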