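import Pool.Agent.Work.MP_ae1ff6_sh.InterfaceR

/-!
# Block RCV: covering of an arc (helper35)
-/

open Topology Filter Set
open scoped ComplexConjugate

set_option autoImplicit false

namespace Pool.SH

open Pool.CG Pool.AR

theorem p_RCV : Stmt_RCV := by
  intro Λ M s t hfin hu hst hts hM hcov
  have hpi := Real.two_pi_pos
  obtain ⟨m0, hm0, h01, h02⟩ := hcov ((s + t) / 2) (by linarith) (by linarith)
  obtain ⟨ha, hab, hb, -⟩ := hM m0 hm0
  obtain ⟨ε, hε, hd⟩ := NST_eps s t m0.1 m0.2 hts ha hab hb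
  have hinj : InjOn Circle.exp (Ico s (s + 2 * Real.pi)) := Circle.exp_injOn_Ico (by linarith)
  obtain ⟨N, hN⟩ : ∃ N : Set (ℝ × ℝ), N = {m : ℝ × ℝ | m ∈ M ∧ m.1 ≤ m0.1 ∧ m0.2 ≤ m.2} := ⟨_, rfl⟩
  have hNf : N.Finite := by
    refine Set.Finite.of_finite_image (f := fun p : ℝ × ℝ => (Circle.exp p.1, Circle.exp p.2))
      ((hfin ε hε).subset ?_) ?_
    · rintro _ ⟨p, hp, rfl⟩
      rw [hN] at hp
      obtain ⟨hp, c, d⟩ := hp
      obtain ⟨e, -, f, g⟩ := hM p hp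
      exact ⟨g, hd _ _ e c d f⟩
    · intro p hp q hq he
      rw [hN] at hp hq
      obtain ⟨e, f, g, -⟩ := hM p hp.1
      obtain ⟨e', f', g', -⟩ := hM q hq.1
      have h2 : Circle.exp p.1 = Circle.exp q.1 := congrArg Prod.fst he
      have h3 : Circle.exp p.2 = Circle.exp q.2 := congrArg Prod.snd he
      exact Prod.ext (hinj ⟨e, by linarith⟩ ⟨e', by linarith⟩ h2)
        (hinj ⟨by linarith, by linarith⟩ ⟨by linarith, by linarith⟩ h3)
  have hNn : N.Nonempty := ⟨m0, by rw [hN]; exact ⟨hm0, le_rfl, le_rfl⟩⟩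
  obtain ⟨m, hm, hmax⟩ := Set.exists_max_image N (fun p : ℝ × ℝ => p.2 - p.1) hNf hNn
  have hm' := hm
  rw [hN] at hm'
  obtain ⟨hmM, hc, hd'⟩ := hm'
  obtain ⟨h1, h2, h3, h4⟩ := hM m hmM
  have e1 : m.1 = s := by
    by_contra hne
    have hlt : s < m.1 := lt_of_le_of_ne h1 (Ne.symm hne)
    obtain ⟨m', hm'M, h5, h6⟩ := hcov m.1 hlt (by linarith)
    obtain ⟨h1', h2', h3', h4'⟩ := hM m' hm'M
    by_cases h7 : m'.2 < m.2
    · exact hu _ _ _ _ h4' h4 (q_ANG.2.2.2.1 m'.1 m.1 m'.2 m.2 h5 h6 h7 (by linarith))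
    · push Not at h7
      have h8 : m' ∈ N := by
        rw [hN]
        exact ⟨hm'M, by linarith, by linarith⟩
      have h9 : m'.2 - m'.1 ≤ m.2 - m.1 := hmax m' h8
      linarith
  have e2 : m.2 = t := by
    by_contra hne
    have hlt : m.2 < t := lt_of_le_of_ne h3 hne
    obtain ⟨m', hm'M, h5, h6⟩ := hcov m.2 (by linarith) hlt
    obtain ⟨h1', h2', h3', h4'⟩ := hM m' hm'M
    by_cases h7 : m.1 < m'.1
    · exact hu _ _ _ _ h4 h4' (q_ANG.2.2.2.1 m.1 m'.1 m.2 m'.2 h7 h5 h6 (by linarith))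
    · push Not at h7
      have h8 : m' ∈ N := by
        rw [hN]
        exact ⟨hm'M, by linarith, by linarith⟩
      have h9 : m'.2 - m'.1 ≤ m.2 - m.1 := hmax m' h8
      linarith
  have e3 : m = (s, t) := Prod.ext e1 e2
  rw [← e3]
  exact hmM

end Pool.SH
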