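import Pool.Agent.Work.MP_ae1ff6_sh.InterfaceR

/-!
# RFN: finitely many lines separate two sets
-/

open Topology Filter Set
open scoped ComplexConjugate

set_option autoImplicit false

namespace Pool.SH

open Pool.CG Pool.AR

theorem p_RFN (h1 : Stmt_RCH) : Stmt_RFN := by
  intro Λ K K' hfin hK hK'
  obtain ⟨x, hx, y, hy, hxy⟩ := hK
  obtain ⟨x', hx', y', hy', hxy'⟩ := hK'
  have hpos : 0 < min (dist x y) (dist x' y') :=
    lt_min (dist_pos.mpr hxy) (dist_pos.mpr hxy')
  refine (hfin _ hpos).subset ?_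
  rintro a ⟨haL, haK, haK'⟩
  exact ⟨haL, h1 a.1 a.2 x y x' y' (haK hx) (haK hy) (haK' hx') (haK' hy')⟩

end Pool.SH
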