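import Pool.Agent.Work.MP_ae1ff6_sh.InterfaceR

/-!
# Block RGA (the sides of a region are lines of the lamination), typed by helper40
-/

open Topology Filter Set
open scoped ComplexConjugate

set_option autoImplicit false

namespace Pool.SH

open Pool.CG Pool.AR

theorem RGA_core (K : Set Circle) (p q z y l1 l2 : Circle) (s t x : ℝ) (hst : s < t)
    (htp : t < s + 2 * Real.pi) (hp : p = Circle.exp s) (hq : q = Circle.exp t)
    (hz : z = Circle.exp x) (hsx : s < x) (hxt : x < t) (hy : y ∈ K) (hpK : p ∈ K) (hqK : q ∈ K)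
    (hK : ∀ a ∈ K, ∀ b ∈ K, ¬ Link l1 l2 a b) (h1 : Ccw l1 z l2) (h2 : Ccw l2 y l1) :
    ∃ a b : ℝ, s ≤ a ∧ a < b ∧ b ≤ t ∧ a < x ∧ x < b ∧ Circle.exp a = l1 ∧ Circle.exp b = l2 := by
  obtain ⟨θ, hθ, hθ', hc⟩ := Pool.AR.q_CUT s
  have hno : ∀ k ∈ K, ¬ Ccw l1 k l2 := fun k hk h =>
    hK k hk y hy ((Pool.AR.q_LKC l1 l2 k y).mpr (Or.inl ⟨h, h2⟩))
  have ep : θ p = s := by rw [hp]; exact hθ' s le_rfl (by linarith [Real.pi_pos])
  have eq : θ q = t := by rw [hq]; exact hθ' t hst.le htp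
  have ez : θ z = x := by rw [hz]; exact hθ' x hsx.le (by linarith)
  have n1 := hno p hpK
  have n2 := hno q hqK
  rw [hc, ep] at n1
  rw [hc, eq] at n2
  rw [hc, ez] at h1
  rw [hc] at h2
  obtain ⟨a1, a2, a3⟩ := hθ l1
  obtain ⟨b1, b2, b3⟩ := hθ l2
  refine ⟨θ l1, θ l2, a1, ?_, ?_, ?_, ?_, a3, b3⟩
  all_goals
    rcases h1 with h | h | h
    · by_contra hcon
      push Not at hcon
      first
        | linarith [h.1, h.2]
        | exact n2 (Or.inl ⟨by linarith [h.1, h.2], by linarith [h.1, h.2]⟩)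
    · by_contra _
      rcases eq_or_lt_of_le b1 with hb | hb
      · linarith [h.1, h.2]
      · exact n1 (Or.inr (Or.inl ⟨hb, h.2⟩))
    · by_contra _
      exact n2 (Or.inr (Or.inr ⟨h.1, by linarith [h.1, h.2]⟩))

theorem p_RGA (h1 : Stmt_RCV) (_h2 : Stmt_RAR) : Stmt_RGA := by
  obtain ⟨A1, -, A3, -⟩ := Pool.AR.q_ANG
  intro Λ K hΛ hR p q hg
  obtain ⟨hpK, hqK, hpq, hgap⟩ := hg
  obtain ⟨s, t, hst, htp, rfl, rfl⟩ := A3 p q hpq
  obtain ⟨-, hR2, hR3⟩ := hR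
  have := h1 Λ {m | s ≤ m.1 ∧ m.1 < m.2 ∧ m.2 ≤ t ∧ (Circle.exp m.1, Circle.exp m.2) ∈ Λ} s t
    hΛ.fin hΛ.unlinked hst htp (fun m hm => hm) ?_
  · exact this.2.2.2
  intro x hsx hxt
  have hz : Ccw (Circle.exp s) (Circle.exp x) (Circle.exp t) := A1 s x t hsx hxt htp
  have hzK : Circle.exp x ∉ K := fun h => hgap _ h hz
  obtain ⟨y, hy, l, hl, hL⟩ := hR3 _ hzK
  have hL2 := (Pool.AR.q_LKC l.1 l.2 (Circle.exp x) y).mp hL
  rcases hL2 with ⟨c1, c2⟩ | ⟨c1, c2⟩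
  · obtain ⟨a, b, e1, e2, e3, e4, e5, e6, e7⟩ := RGA_core K (Circle.exp s) (Circle.exp t)
      (Circle.exp x) y l.1 l.2 s t x hst htp rfl rfl rfl hsx hxt hy hpK hqK
      (fun a ha b hb => hR2 a ha b hb l hl) c1 c2
    refine ⟨(a, b), ⟨e1, e2, e3, ?_⟩, e4, e5⟩
    rw [e6, e7]
    exact hl
  · have hl' : (l.2, l.1) ∈ Λ := hΛ.symm l.1 l.2 hl
    obtain ⟨a, b, e1, e2, e3, e4, e5, e6, e7⟩ := RGA_core K (Circle.exp s) (Circle.exp t)
      (Circle.exp x) y l.2 l.1 s t x hst htp rfl rfl rfl hsx hxt hy hpK hqK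
      (fun a ha b hb => hR2 a ha b hb (l.2, l.1) hl') c2 c1
    refine ⟨(a, b), ⟨e1, e2, e3, ?_⟩, e4, e5⟩
    rw [e6, e7]
    exact hl'

end Pool.SH
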