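import Pool.Agent.Work.MP_ae1ff6_sh.InterfaceR

/-!
# Block RGP (the gap around a point outside of a closed set), typed by helper74
-/

open Topology Filter Set
open scoped ComplexConjugate

set_option autoImplicit false

namespace Pool.SH

open Pool.CG Pool.AR

theorem RGP_per (t : ℝ) : Circle.exp (t - 2 * Real.pi) = Circle.exp t := by
  have h := Circle.exp_add (t - 2 * Real.pi) (2 * Real.pi)
  rw [Circle.exp_two_pi, mul_one, sub_add_cancel] at h
  exact h.symm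

theorem RGP_per' (t : ℝ) : Circle.exp (t + 2 * Real.pi) = Circle.exp t := by
  rw [Circle.exp_add, Circle.exp_two_pi, mul_one]

theorem p_RGP : Stmt_RGP := by
  intro K hK x hx y hy hxy z hz
  obtain ⟨-, c2, -, -⟩ := Pool.AR.q_CYO
  obtain ⟨a1, a2, -⟩ := Pool.AR.q_ANG
  obtain ⟨θ₀, hθ₀, -, -⟩ := Pool.AR.q_CUT 0
  set ζ : ℝ := θ₀ z with hζ
  have hzζ : Circle.exp ζ = z := (hθ₀ z).2.2
  obtain ⟨θ, hθ, -, -⟩ := Pool.AR.q_CUT ζ
  have hcont : Continuous (fun t : ℝ => Circle.exp t) := Circle.exp.continuous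
  have hC : IsCompact (Set.Icc ζ (ζ + 2 * Real.pi) ∩ (fun t : ℝ => Circle.exp t) ⁻¹' K) :=
    isCompact_Icc.inter_right (hK.preimage hcont)
  have hxC : θ x ∈ Set.Icc ζ (ζ + 2 * Real.pi) ∩ (fun t : ℝ => Circle.exp t) ⁻¹' K := by
    refine ⟨⟨(hθ x).1, (hθ x).2.1.le⟩, ?_⟩
    simp only [Set.mem_preimage]
    rw [(hθ x).2.2]; exact hx
  have hyC : θ y ∈ Set.Icc ζ (ζ + 2 * Real.pi) ∩ (fun t : ℝ => Circle.exp t) ⁻¹' K := by
    refine ⟨⟨(hθ y).1, (hθ y).2.1.le⟩, ?_⟩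
    simp only [Set.mem_preimage]
    rw [(hθ y).2.2]; exact hy
  obtain ⟨t0, ht0, hmin⟩ := hC.exists_isLeast ⟨_, hxC⟩
  obtain ⟨t1, ht1, hmax⟩ := hC.exists_isGreatest ⟨_, hxC⟩
  have hne : θ x ≠ θ y := fun h => hxy (by rw [← (hθ x).2.2, ← (hθ y).2.2, h])
  have e0x := hmin hxC
  have e0y := hmin hyC
  have e1x := hmax hxC
  have e1y := hmax hyC
  have ht01 : t0 < t1 := by
    rcases lt_or_gt_of_ne hne with h | h
    · linarith
    · linarith
  have ht0K : Circle.exp t0 ∈ K := ht0.2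
  have ht1K : Circle.exp t1 ∈ K := ht1.2
  have h0 : ζ < t0 := by
    rcases lt_or_eq_of_le ht0.1.1 with h | h
    · exact h
    · exact absurd (by rw [← hzζ, h]; exact ht0K) hz
  have h1 : t1 < ζ + 2 * Real.pi := by
    rcases lt_or_eq_of_le ht1.1.2 with h | h
    · exact h
    · exact absurd (by rw [← hzζ, ← RGP_per' ζ, ← h]; exact ht1K) hz
  have hpi := Real.pi_pos
  have hccw : Ccw (Circle.exp t1) z (Circle.exp t0) := by
    have := a1 (t1 - 2 * Real.pi) ζ t0 (by linarith) h0 (by linarith)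
    rwa [RGP_per, hzζ] at this
  refine ⟨Circle.exp t1, Circle.exp t0, ⟨ht1K, ht0K, (c2 _ _ _ hccw).2.2.2, ?_⟩, hccw⟩
  intro k hk hcc
  rw [← RGP_per t1] at hcc
  obtain ⟨r, hr1, hr2, rfl⟩ := a2 (t1 - 2 * Real.pi) t0 k (by linarith) (by linarith) hcc
  rcases le_or_gt ζ r with h | h
  · have : t0 ≤ r := hmin ⟨⟨h, by linarith⟩, hk⟩
    linarith
  · have : r + 2 * Real.pi ≤ t1 := by
      refine hmax ⟨⟨by linarith, by linarith⟩, ?_⟩
      simp only [Set.mem_preimage]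
      rw [RGP_per']; exact hk
    linarith

end Pool.SH
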