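import Pool.Agent.Work.MP_ae1ff6_sh.InterfaceR

/-!
# Block RNT: the net of a lamination (helper35)
-/

open Topology Filter Set
open scoped ComplexConjugate

set_option autoImplicit false

namespace Pool.SH

open Pool.CG Pool.AR

theorem RNT_two (K : Set Circle) (h : ∃ a ∈ K, ∃ b ∈ K, ∃ c ∈ K, Ccw a b c) :
    ∃ x ∈ K, ∃ y ∈ K, x ≠ y := by
  obtain ⟨a, ha, b, hb, c, hc, habc⟩ := h
  exact ⟨a, ha, b, hb, (q_CYO.2.1 a b c habc).2.1⟩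

theorem p_RNT (h1 : Stmt_RAR) (h2 : Stmt_RCL) (h3 : Stmt_RGA) (h4 : Stmt_RSD) (h5 : Stmt_RSP)
    (h6 : Stmt_RFN) (h7 : Stmt_REQ) : Stmt_RNT := by
  intro G Λ T hL
  have hLmt : Lmt Λ := ⟨hL.symm, hL.ne, hL.unlinked, hL.fin⟩
  refine ⟨hL.conv, hL.ori, hL.tf, ⟨hL.symm, hL.ne, ?_, ?_, ?_, ?_, ?_⟩, ?_, ?_, ?_, hL.keepL, ?_,
    hL.tri, hL.keepT⟩
  · intro P hP
    exact hP.1
  · intro P hP p q hpq
    exact h1.2.1 P p q (hL.ne p q hpq) (fun a ha b hb => hP.2.1 a ha b hb (p, q) hpq)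
  · intro p q hpq
    obtain ⟨K, hK, hp, hq, hs⟩ := h4 Λ hLmt p q hpq
    exact ⟨K, hK, hp, hq, hs⟩
  · intro P hP P' hP' hne
    exact h5 Λ P P' hLmt hP hP' hne
  · intro P hP P' hP'
    exact h6 Λ P P' hL.fin (RNT_two P hP.1) (RNT_two P' hP'.1)
  · obtain ⟨l, hl⟩ := hL.nonempty
    obtain ⟨K, hK, -⟩ := h4 Λ hLmt l.1 l.2 hl
    exact ⟨K, hK⟩
  · intro K hK
    exact h2 Λ K hK
  · intro K hK p q hg
    exact h3 Λ K hLmt hK p q hg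
  · intro g hg K hK
    exact h7 G Λ K hL.keepL hK g hg (hL.ori g hg)

end Pool.SH
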