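import Pool.Agent.Work.MP_ae1ff6_sh.InterfaceR

/-!
# Block RS1 (the third point of the region on the right side of a line), typed by helper40
-/

open Topology Filter Set
open scoped ComplexConjugate

set_option autoImplicit false

namespace Pool.SH

open Pool.CG Pool.AR

theorem RS1_core (Λ : Set (Circle × Circle)) (hΛ : Lmt Λ) (s t x : ℝ) (l1 l2 : Circle)
    (hst : s < t) (htp : t < s + 2 * Real.pi) (hsx : s < x) (hxt : x < t)
    (hpq : (Circle.exp s, Circle.exp t) ∈ Λ) (hl : (l1, l2) ∈ Λ)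
    (h1 : Ccw l1 (Circle.exp x) l2)
    (h2 : Ccw l2 (Circle.exp s) l1 ∨ Ccw l2 (Circle.exp t) l1) :
    ∃ a b : ℝ, (a, b) ≠ (s, t) ∧ s ≤ a ∧ a < b ∧ b ≤ t ∧ (Circle.exp a, Circle.exp b) ∈ Λ ∧
      a < x ∧ x < b := by
  obtain ⟨-, -, -, A4, -⟩ := Pool.AR.q_ANG
  obtain ⟨θ, hθ, hθ', hc⟩ := Pool.AR.q_CUT s
  have es : θ (Circle.exp s) = s := hθ' s le_rfl (by linarith [Real.pi_pos])
  have et : θ (Circle.exp t) = t := hθ' t hst.le htp
  have ex : θ (Circle.exp x) = x := hθ' x hsx.le (by linarith)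
  obtain ⟨a1, a2, a3⟩ := hθ l1
  obtain ⟨b1, b2, b3⟩ := hθ l2
  rw [hc, ex] at h1
  rw [hc, hc, es, et] at h2
  have hl2 : (l2, l1) ∈ Λ := hΛ.symm l1 l2 hl
  rcases h2 with h2 | h2
  · have hab : s < θ l1 ∧ θ l1 < θ l2 := by
      rcases h2 with h | h | h
      · exact absurd h.1 (not_lt.mpr b1)
      · exact h
      · exact absurd h.2 (not_lt.mpr b1)
    have hax : θ l1 < x ∧ x < θ l2 := by
      rcases h1 with h | h | h
      · exact h
      · exact absurd h.2 (not_lt.mpr hab.2.le)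
      · exact absurd h.1 (not_lt.mpr hab.2.le)
    rcases le_or_gt (θ l2) t with hbt | hbt
    · refine ⟨θ l1, θ l2, ?_, a1, hab.2, hbt, ?_, hax.1, hax.2⟩
      · intro h
        have := congrArg Prod.fst h
        simp only at this
        linarith [hab.1]
      · rw [a3, b3]; exact hl
    · exfalso
      have hL := A4 s (θ l1) t (θ l2) hab.1 (by linarith [hax.1]) hbt b2
      rw [a3, b3] at hL
      exact hΛ.unlinked _ _ _ _ hpq hl hL
  · rcases h2 with h | h | h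
    · -- b < t < a
      exfalso
      have hxb : x < θ l2 := by
        rcases h1 with h' | h' | h'
        · linarith [h'.1, h.1, h.2]
        · exact h'.1
        · linarith [h'.2, h.2]
      have hL := A4 s (θ l2) t (θ l1) (by linarith) h.1 h.2 a2
      rw [a3, b3] at hL
      exact hΛ.unlinked _ _ _ _ hpq hl2 hL
    · -- t < a < b
      exfalso
      rcases h1 with h' | h' | h'
      · linarith [h'.1, h.1]
      · linarith [h'.2, h.2]
      · linarith [h'.1, h.2]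
    · -- a < b < t
      have hax : θ l1 < x ∧ x < θ l2 := by
        rcases h1 with h' | h' | h'
        · exact h'
        · exact absurd h'.2 (not_lt.mpr h.1.le)
        · exact absurd h'.1 (not_lt.mpr h.1.le)
      refine ⟨θ l1, θ l2, ?_, a1, h.1, h.2.le, ?_, hax.1, hax.2⟩
      · intro h'
        have := congrArg Prod.snd h'
        simp only at this
        linarith [h.2]
      · rw [a3, b3]; exact hl

theorem p_RS1 (h1 : Stmt_RCV) : Stmt_RS1 := by
  obtain ⟨A1, -, A3, -⟩ := Pool.AR.q_ANG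
  intro Λ hΛ p q hpq
  obtain ⟨s, t, hst, htp, rfl, rfl⟩ := A3 p q (hΛ.ne p q hpq)
  have hnot : ¬ ∀ x, s < x → x < t →
      ∃ m ∈ {m : ℝ × ℝ | m ≠ (s, t) ∧ s ≤ m.1 ∧ m.1 < m.2 ∧ m.2 ≤ t ∧
        (Circle.exp m.1, Circle.exp m.2) ∈ Λ}, m.1 < x ∧ x < m.2 := by
    intro hcov
    have := h1 Λ _ s t hΛ.fin hΛ.unlinked hst htp (fun m hm => hm.2) hcov
    exact this.1 rfl
  push Not at hnot
  obtain ⟨x, hsx, hxt, hx⟩ := hnot
  refine ⟨Circle.exp x, A1 s x t hsx hxt htp, ?_⟩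
  have key : ∀ l1 l2 : Circle, (l1, l2) ∈ Λ → Ccw l1 (Circle.exp x) l2 →
      ¬ (Ccw l2 (Circle.exp s) l1 ∨ Ccw l2 (Circle.exp t) l1) := by
    intro l1 l2 hl c1 c2
    obtain ⟨a, b, e0, e1, e2, e3, e4, e5, e6⟩ :=
      RS1_core Λ hΛ s t x l1 l2 hst htp hsx hxt hpq hl c1 c2
    exact absurd e6 (not_lt.mpr (hx (a, b) ⟨e0, e1, e2, e3, e4⟩ e5))
  intro l hl
  have hl' : (l.2, l.1) ∈ Λ := hΛ.symm l.1 l.2 hl
  constructor
  · intro hL
    rcases (Pool.AR.q_LKC l.1 l.2 _ _).mp hL with ⟨c1, c2⟩ | ⟨c1, c2⟩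
    · exact key l.1 l.2 hl c1 (Or.inl c2)
    · exact key l.2 l.1 hl' c2 (Or.inl c1)
  · intro hL
    rcases (Pool.AR.q_LKC l.1 l.2 _ _).mp hL with ⟨c1, c2⟩ | ⟨c1, c2⟩
    · exact key l.1 l.2 hl c1 (Or.inr c2)
    · exact key l.2 l.1 hl' c2 (Or.inr c1)

end Pool.SH
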