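import Pool.Agent.Work.MP_ae1ff6_sh.InterfaceR

/-!
# Block RSD (the region on the right side of a line), typed by helper74
-/

open Topology Filter Set
open scoped ComplexConjugate

set_option autoImplicit false

namespace Pool.SH

open Pool.CG Pool.AR

theorem RSD_deg (a b c : Circle) : ¬ Link a b c c := by
  obtain ⟨c1, c2, -, -⟩ := Pool.AR.q_CYO
  intro h
  rcases (Pool.AR.q_LKC a b c c).mp h with ⟨h1, h2⟩ | ⟨h1, h2⟩
  · exact (c2 _ _ _ (c1 _ _ _ h1)).1 (c1 _ _ _ h2)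
  · exact (c2 _ _ _ (c1 _ _ _ h1)).1 (c1 _ _ _ h2)

theorem RSD_sw (a b c d : Circle) (h : Link a b c d) : Link a b d c :=
  (Pool.AR.q_LKC a b d c).mpr ((Pool.AR.q_LKC a b c d).mp h).symm

theorem RSD_sw2 (a b c d : Circle) (h : Link a b c d) : Link b a c d := by
  refine (Pool.AR.q_LKC b a c d).mpr ?_
  rcases (Pool.AR.q_LKC a b c d).mp h with ⟨h1, h2⟩ | ⟨h1, h2⟩
  · exact Or.inr ⟨h2, h1⟩
  · exact Or.inl ⟨h2, h1⟩

theorem p_RSD (h1 : Stmt_RAR) (h2 : Stmt_RS1) : Stmt_RSD := by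
  intro Λ hΛ p q hpq
  obtain ⟨r1, r2, r3, r4⟩ := h1
  obtain ⟨c1, c2, c3, -⟩ := Pool.AR.q_CYO
  have hne : p ≠ q := hΛ.ne _ _ hpq
  obtain ⟨z, hz, hzl⟩ := h2 Λ hΛ p q hpq
  set K : Set Circle := {x | x ∈ Arc p q ∧ ∀ l ∈ Λ, ¬ Link l.1 l.2 x p ∧ ¬ Link l.1 l.2 x q} with hK
  have hpK : p ∈ K := by
    refine ⟨Or.inl rfl, fun l hl => ⟨RSD_deg _ _ _, fun h => ?_⟩⟩
    exact hΛ.unlinked p q l.1 l.2 hpq hl ((Pool.GC.q_SYM l.1 l.2 p q h).1)
  have hqK : q ∈ K := by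
    refine ⟨Or.inr (Or.inl rfl), fun l hl => ⟨fun h => ?_, RSD_deg _ _ _⟩⟩
    exact hΛ.unlinked p q l.1 l.2 hpq hl ((Pool.GC.q_SYM l.1 l.2 p q (RSD_sw _ _ _ _ h)).1)
  have hzK : z ∈ K := ⟨Or.inr (Or.inr hz), hzl⟩
  refine ⟨K, ⟨⟨p, hpK, z, hzK, q, hqK, hz⟩, ?_, ?_⟩, hpK, hqK, fun x hx => hx.1⟩
  · intro x hx y hy l hl hL
    have hp : p = l.1 ∨ p = l.2 := by
      by_contra hcon
      rw [not_or] at hcon
      rcases r4 l.1 l.2 x y p hL hcon.1 hcon.2 with h | h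
      · exact (hx.2 l hl).1 h
      · exact (hy.2 l hl).1 h
    have hq : q = l.1 ∨ q = l.2 := by
      by_contra hcon
      rw [not_or] at hcon
      rcases r4 l.1 l.2 x y q hL hcon.1 hcon.2 with h | h
      · exact (hx.2 l hl).2 h
      · exact (hy.2 l hl).2 h
    have hpqL : Link p q x y := by
      rcases hp with hp | hp <;> rcases hq with hq | hq
      · exact absurd (hp.trans hq.symm) hne
      · rw [hp, hq]; exact hL
      · rw [hp, hq]; exact RSD_sw2 _ _ _ _ hL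
      · exact absurd (hp.trans hq.symm) hne
    exact r3 p q x y hx.1 hy.1 hpqL
  · intro x hx
    by_cases hxA : x ∈ Arc p q
    · have : ∃ l ∈ Λ, Link l.1 l.2 x p ∨ Link l.1 l.2 x q := by
        by_contra hcon
        apply hx
        refine ⟨hxA, fun l hl => ⟨fun h => hcon ⟨l, hl, Or.inl h⟩, fun h => hcon ⟨l, hl, Or.inr h⟩⟩⟩
      obtain ⟨l, hl, h | h⟩ := this
      · exact ⟨p, hpK, l, hl, h⟩
      · exact ⟨q, hqK, l, hl, h⟩
    · rw [r1 p q x hne, not_not] at hxA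
      refine ⟨z, hzK, (p, q), hpq, ?_⟩
      exact RSD_sw _ _ _ _ ((Pool.AR.q_LKC p q z x).mpr (Or.inl ⟨hz, hxA⟩))

end Pool.SH
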