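import Pool.Agent.Work.MP_ae1ff6_sh.InterfaceR

/-!
# Block RSP: different regions are separated by a side
-/

open Topology Filter Set
open scoped ComplexConjugate

set_option autoImplicit false

namespace Pool.SH

open Pool.CG Pool.AR

theorem p_RSP (h1 : Stmt_RAR) (h2 : Stmt_RGP) (h3 : Stmt_RCL) (h4 : Stmt_RGA) : Stmt_RSP := by
  intro Λ K K' hL hK hK' hne
  obtain ⟨hR1, hR2, -, -⟩ := h1
  have hz : ∃ z ∈ K', z ∉ K := by
    by_contra hcon
    push Not at hcon
    apply hne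
    apply Set.Subset.antisymm _ hcon
    intro w hw
    by_contra hw'
    obtain ⟨x, hx, l, hl, hlk⟩ := hK'.2.2 w hw'
    exact hK.2.1 w hw x (hcon x hx) l hl hlk
  obtain ⟨z, hzK', hzK⟩ := hz
  have hcl : IsClosed K := h3 Λ K hK
  obtain ⟨a, ha, b, hb, c, hc, habc⟩ := hK.1
  have hab : a ≠ b := (q_CYO.2.1 a b c habc).2.1
  obtain ⟨p, q, hgap, hccw⟩ := h2 K hcl a ha b hb hab z hzK
  have hpq : (p, q) ∈ Λ := h4 Λ K hL hK p q hgap
  have hne' : p ≠ q := hgap.2.2.1
  refine ⟨q, p, hL.symm _ _ hpq, hgap.2.1, hgap.1, ?_, ?_⟩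
  · intro k hk
    rw [hR1 q p k hne'.symm]
    exact hgap.2.2.2 k hk
  · rcases hR2 K' p q hne' (fun x hx y hy => hK'.2.1 x hx y hy (p, q) hpq) with h | h
    · exact h
    · exfalso
      have h5 := h hzK'
      rw [hR1 q p z hne'.symm] at h5
      exact h5 hccw

end Pool.SH
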