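import Pool.Agent.Work.MP_ae1ff6_sh.InterfaceT

/-! Block RTE (helper58): equivariance. -/

open Topology Filter Set
open scoped ComplexConjugate

set_option autoImplicit false

namespace Pool.SH

open Pool.CG Pool.AR

theorem RTE_ret (g : H) (hc : ∀ a b c : Circle, Ccw a b c ↔ Ccw (g a) (g b) (g c))
    (K : Set Circle) (u w : Circle) (h : Ret K u w) : Ret ((g : H) '' K) (g u) (g w) := by
  refine ⟨⟨w, h.1, rfl⟩, ?_⟩
  rintro _ ⟨x, hx, rfl⟩ hne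
  have hxw : x ≠ w := fun e => hne (by rw [e])
  obtain ⟨h1, h2⟩ := h.2 x hx hxw
  exact ⟨fun e => h1 (g.injective e), fun e => h2 ((hc _ _ _).2 e)⟩

theorem RTE_gap (g : H) (hc : ∀ a b c : Circle, Ccw a b c ↔ Ccw (g a) (g b) (g c))
    (K : Set Circle) (p q : Circle) (h : Gap K p q) : Gap ((g : H) '' K) (g p) (g q) := by
  obtain ⟨h1, h2, h3, h4⟩ := h
  refine ⟨⟨p, h1, rfl⟩, ⟨q, h2, rfl⟩, fun e => h3 (g.injective e), ?_⟩
  rintro _ ⟨k, hk, rfl⟩ e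
  exact h4 k hk ((hc _ _ _).2 e)

theorem RTE_te (g : H) (hc : ∀ a b c : Circle, Ccw a b c ↔ Ccw (g a) (g b) (g c))
    (K : Set Circle) (T T' : Set (Circle × Circle)) (hT : ∀ x y, (x, y) ∈ T → (g x, g y) ∈ T')
    (p q : Circle) (h : (p, q) ∈ TE K T) : (g p, g q) ∈ TE ((g : H) '' K) T' := by
  obtain ⟨h1, x, y, hxy, hx, hy⟩ := h
  exact ⟨fun e => h1 (g.injective e), g x, g y, hT x y hxy, RTE_ret g hc K x _ hx,
    RTE_ret g hc K y _ hy⟩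

theorem RTE_tl (g : H) (hc : ∀ a b c : Circle, Ccw a b c ↔ Ccw (g a) (g b) (g c))
    (K : Set Circle) (T T' : Set (Circle × Circle)) (hT : ∀ x y, (x, y) ∈ T → (g x, g y) ∈ T')
    (p q : Circle) (h : (p, q) ∈ TL K T) : (g p, g q) ∈ TL ((g : H) '' K) T' := by
  obtain ⟨h1, ⟨k, hk, hk2⟩, ⟨l, hl, hl2⟩⟩ := h
  exact ⟨RTE_te g hc K T T' hT p q h1, ⟨g k, ⟨k, hk, rfl⟩, (hc _ _ _).1 hk2⟩,
    ⟨g l, ⟨l, hl, rfl⟩, (hc _ _ _).1 hl2⟩⟩

theorem RTE_img (g : H) (a b c : Circle) :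
    (g : H) '' ({a, b, c} : Set Circle) = {g a, g b, g c} := by
  rw [Set.image_insert_eq, Set.image_insert_eq, Set.image_singleton]

theorem RTE_tt (g : H) (hc : ∀ a b c : Circle, Ccw a b c ↔ Ccw (g a) (g b) (g c))
    (K : Set Circle) (T T' : Set (Circle × Circle)) (hT : ∀ x y, (x, y) ∈ T → (g x, g y) ∈ T')
    (P : Set Circle) (h : P ∈ TT K T) : (g : H) '' P ∈ TT ((g : H) '' K) T' := by
  obtain ⟨a, b, c, x, y, z, habc, hP, hxyz, h1, h2, h3, ha, hb, hc'⟩ := h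
  exact ⟨g a, g b, g c, g x, g y, g z, (hc _ _ _).1 habc, by rw [hP, RTE_img],
    (hc _ _ _).1 hxyz, hT _ _ h1, hT _ _ h2, hT _ _ h3, RTE_ret g hc K _ _ ha,
    RTE_ret g hc K _ _ hb, RTE_ret g hc K _ _ hc'⟩

theorem RTE_vt (g : H) (hc : ∀ a b c : Circle, Ccw a b c ↔ Ccw (g a) (g b) (g c))
    (K : Set Circle) (T T' : Set (Circle × Circle)) (hT : ∀ x y, (x, y) ∈ T → (g x, g y) ∈ T')
    (x : Circle) (h : x ∈ Vt K T) : g x ∈ Vt ((g : H) '' K) T' := by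
  rcases h with ⟨P, hP, hx⟩ | ⟨p, hp⟩
  · exact Or.inl ⟨_, RTE_tt g hc K T T' hT P hP, ⟨x, hx, rfl⟩⟩
  · exact Or.inr ⟨g p, RTE_gap g hc K p x hp⟩

theorem RTE_nx (g : H) (hc : ∀ a b c : Circle, Ccw a b c ↔ Ccw (g a) (g b) (g c))
    (K : Set Circle) (T T' : Set (Circle × Circle)) (hT : ∀ x y, (x, y) ∈ T → (g x, g y) ∈ T')
    (p b c : Circle) (h : Nx K T p b c) : Nx ((g : H) '' K) T' (g p) (g b) (g c) := by
  refine ⟨(hc _ _ _).1 h.1, ?_⟩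
  rw [← RTE_img]
  exact RTE_tt g hc K T T' hT _ h.2

theorem p_RTE : Stmt_RTE := by
  intro K T T' g hg hT
  have hgi : Ori g⁻¹ := q_MOR.2.1.2.2 g hg
  have hinv : ∀ x, (g⁻¹ : H) (g x) = x := fun x => g.symm_apply_apply x
  have hinv' : ∀ x, g ((g⁻¹ : H) x) = x := fun x => g.apply_symm_apply x
  have hc : ∀ a b c : Circle, Ccw a b c ↔ Ccw (g a) (g b) (g c) := by
    intro a b c
    refine ⟨hg a b c, fun h => ?_⟩
    have h1 := hgi _ _ _ h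
    rwa [hinv, hinv, hinv] at h1
  have hci : ∀ a b c : Circle, Ccw a b c ↔ Ccw ((g⁻¹ : H) a) ((g⁻¹ : H) b) ((g⁻¹ : H) c) := by
    intro a b c
    rw [hc ((g⁻¹ : H) a), hinv', hinv', hinv']
  have hT1 : ∀ x y, (x, y) ∈ T → (g x, g y) ∈ T' := fun x y h => (hT x y).1 h
  have hT2 : ∀ x y, (x, y) ∈ T' → ((g⁻¹ : H) x, (g⁻¹ : H) y) ∈ T := by
    intro x y h
    rw [hT, hinv', hinv']
    exact h
  have himg : ∀ P : Set Circle, ((g⁻¹ : H) : Circle → Circle) '' ((g : H) '' P) = P := by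
    intro P
    ext x
    constructor
    · rintro ⟨_, ⟨y, hy, rfl⟩, rfl⟩
      rw [hinv]
      exact hy
    · intro hx
      exact ⟨g x, ⟨x, hx, rfl⟩, hinv x⟩
  refine ⟨?_, ?_, ?_, ?_, ?_, ?_, ?_, ?_⟩
  · rintro ⟨h1, a, ha, b, hb, c, hc', h2⟩
    exact ⟨g.isClosed_image.2 h1, g a, ⟨a, ha, rfl⟩, g b, ⟨b, hb, rfl⟩, g c, ⟨c, hc', rfl⟩,
      (hc _ _ _).1 h2⟩
  · intro u w
    refine ⟨RTE_ret g hc K u w, fun h => ?_⟩
    have h1 := RTE_ret g⁻¹ hci _ _ _ h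
    rwa [himg, hinv, hinv] at h1
  · intro p q
    refine ⟨RTE_gap g hc K p q, fun h => ?_⟩
    have h1 := RTE_gap g⁻¹ hci _ _ _ h
    rwa [himg, hinv, hinv] at h1
  · intro p q
    refine ⟨RTE_te g hc K T T' hT1 p q, fun h => ?_⟩
    have h1 := RTE_te g⁻¹ hci _ T' T hT2 _ _ h
    rwa [himg, hinv, hinv] at h1
  · intro p q
    refine ⟨RTE_tl g hc K T T' hT1 p q, fun h => ?_⟩
    have h1 := RTE_tl g⁻¹ hci _ T' T hT2 _ _ h
    rwa [himg, hinv, hinv] at h1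
  · intro P
    refine ⟨RTE_tt g hc K T T' hT1 P, fun h => ?_⟩
    have h1 := RTE_tt g⁻¹ hci _ T' T hT2 _ h
    rwa [himg, himg] at h1
  · intro x
    refine ⟨RTE_vt g hc K T T' hT1 x, fun h => ?_⟩
    have h1 := RTE_vt g⁻¹ hci _ T' T hT2 _ h
    rwa [himg, hinv] at h1
  · intro p b c
    refine ⟨RTE_nx g hc K T T' hT1 p b c, fun h => ?_⟩
    have h1 := RTE_nx g⁻¹ hci _ T' T hT2 _ _ _ h
    rwa [himg, hinv, hinv, hinv] at h1

end Pool.SH
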