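import Pool.Agent.Work.MP_ae1ff6_sh.InterfaceT

/-!
Block RTM of MP_ae1ff6_sh (helper46): the retraction to a closed set is monotone.
-/

open Topology Filter Set
open scoped ComplexConjugate

set_option autoImplicit false

namespace Pool.SH

open Pool.CG Pool.AR

theorem RTM_rot {a b c : Circle} (h : Ccw a b c) : Ccw b c a := q_CYO.1 a b c h

/-- uniqueness of the retraction -/
theorem RTM_uniq {K : Set Circle} {x a c : Circle} (h1 : Ret K x a) (h2 : Ret K x c) : c = a := by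
  by_contra hne
  obtain ⟨ha, ha'⟩ := h1
  obtain ⟨hc, hc'⟩ := h2
  have e1 := ha' c hc hne
  have e2 := hc' a ha (fun h => hne h.symm)
  rcases q_CYO.2.2.1 c a x hne e2.1 e1.1 with h | h
  · exact e2.2 h
  · -- Ccw c x a
    exact e1.2 (RTM_rot (RTM_rot h))

/-- the statement about real numbers -/
theorem RTM_real {X Y Z A B C : ℝ} (hX : ∀ t ∈ ({Y, Z, A, B, C} : Set ℝ), X ≤ t)
    (hXY : X < Y) (hYZ : Y < Z) (hAB : A ≠ B) (hBC : B ≠ C) (hAC : A ≠ C)
    (h1 : ¬ (X < A ∧ A < B)) (h2 : ¬ (X < A ∧ A < C))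
    (h3 : ¬ (A < Y ∧ Y < B)) (h4 : ¬ (Y < B ∧ B < A)) (h5 : ¬ (C < B ∧ B < Z)) :
    (A < B ∧ B < C) ∨ (B < C ∧ C < A) ∨ (C < A ∧ A < B) := by
  have hA : X ≤ A := hX A (by simp)
  have hB : X ≤ B := hX B (by simp)
  have hC : X ≤ C := hX C (by simp)
  have key : B < C := by
    by_contra hcon
    have hCB : C < B := lt_of_le_of_ne (not_lt.mp hcon) (fun h => hBC h.symm)
    have hBY : B ≤ Y := by
      by_contra hY
      have hY' : Y < B := not_le.mp hY
      rcases lt_or_eq_of_le hA with hlt | heq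
      · have hBA : B < A := by
          by_contra hh
          exact h1 ⟨hlt, lt_of_le_of_ne (not_lt.mp hh) hAB⟩
        exact h4 ⟨hY', hBA⟩
      · exact h3 ⟨by linarith, hY'⟩
    exact h5 ⟨hCB, by linarith⟩
  rcases lt_or_eq_of_le hA with hlt | heq
  · have hCA : C < A := by
      by_contra hh
      exact h2 ⟨hlt, lt_of_le_of_ne (not_lt.mp hh) hAC⟩
    exact Or.inr (Or.inl ⟨key, hCA⟩)
  · left
    refine ⟨?_, key⟩
    have : A ≤ B := by linarith
    exact lt_of_le_of_ne this hAB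

theorem RTM_one (h1 : Stmt_ARL) (K : Set Circle) (x y z a b c : Circle) (ha : Ret K x a)
    (hb : Ret K y b) (hc : Ret K z c) (hab : a ≠ b) (hbc : b ≠ c) (hac : a ≠ c)
    (hxyz : Ccw x y z) : Ccw a b c := by
  obtain ⟨θ, hinj, hmin, hccw, -, -⟩ := h1 x
  have hne : ∀ {p q : Circle}, p ≠ q → θ p ≠ θ q := fun h h' => h (hinj h')
  have hxy : θ x < θ y ∧ θ y < θ z := by
    rcases (hccw x y z).1 hxyz with h | h | h
    · exact h
    · exact absurd (hmin y) (not_le.mpr (lt_trans h.1 h.2))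
    · exact absurd (hmin z) (not_le.mpr h.1)
  have hax := ha.2 b hb.1 (Ne.symm hab)
  have hax' := ha.2 c hc.1 (Ne.symm hac)
  have hby := hb.2 a ha.1 hab
  have hcz := hc.2 b hb.1 hbc
  rw [hccw]
  refine RTM_real (X := θ x) (Y := θ y) (Z := θ z) ?_ hxy.1 hxy.2 (hne hab) (hne hbc) (hne hac)
    ?_ ?_ ?_ ?_ ?_
  · intro t ht
    simp only [Set.mem_insert_iff, Set.mem_singleton_iff] at ht
    rcases ht with rfl | rfl | rfl | rfl | rfl <;> exact hmin _
  · rintro ⟨u1, u2⟩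
    exact hax.2 ((hccw a b x).2 (Or.inr (Or.inr ⟨u1, u2⟩)))
  · rintro ⟨u1, u2⟩
    exact hax'.2 ((hccw a c x).2 (Or.inr (Or.inr ⟨u1, u2⟩)))
  · rintro ⟨u1, u2⟩
    exact hby.2 ((hccw b a y).2 (Or.inr (Or.inl ⟨u1, u2⟩)))
  · rintro ⟨u1, u2⟩
    exact hby.2 ((hccw b a y).2 (Or.inr (Or.inr ⟨u1, u2⟩)))
  · rintro ⟨u1, u2⟩
    exact hcz.2 ((hccw c b z).2 (Or.inl ⟨u1, u2⟩))

theorem p_RTM (h1 : Stmt_ARL) : Stmt_RTM := by
  refine ⟨fun K x y z a b c ha hb hc hab hbc hac h => RTM_one h1 K x y z a b c ha hb hc hab hbc hac h,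
    ?_⟩
  intro K x y z a b c ha hb hc hab hz
  rcases hz with rfl | rfl | hz
  · exact Or.inl (RTM_uniq ha hc)
  · exact Or.inr (Or.inl (RTM_uniq hb hc))
  · by_cases hca : c = a
    · exact Or.inl hca
    by_cases hcb : c = b
    · exact Or.inr (Or.inl hcb)
    exact Or.inr (Or.inr (RTM_one h1 K x z y a c b ha hc hb (Ne.symm hca) hcb hab hz))

end Pool.SH
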