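import Pool.Agent.Work.MP_ae1ff6_sh.InterfaceT

/-!
# RTX: the retraction to a closed set
-/

open Topology Filter Set
open scoped ComplexConjugate

set_option autoImplicit false

namespace Pool.SH

open Pool.CG Pool.AR

theorem RTX_cut (K : Set Circle) (hK : Big K) (u : Circle) (hu : u ∉ K) :
    ∃ (θ : Circle → ℝ) (w q : Circle), w ∈ K ∧ q ∈ K ∧ (∀ k ∈ K, θ q ≤ θ k ∧ θ k ≤ θ w) ∧
      (∀ k ∈ K, θ u < θ k) ∧ θ q < θ w ∧ ∀ a b c, Ccw a b c ↔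
        (θ a < θ b ∧ θ b < θ c) ∨ (θ b < θ c ∧ θ c < θ a) ∨ (θ c < θ a ∧ θ a < θ b) := by
  obtain ⟨hcl, a, ha, b, hb, c, _, habc⟩ := hK
  obtain ⟨θ0, h0, -, -⟩ := q_CUT 0
  obtain ⟨θ, h1, h2, h3⟩ := q_CUT (θ0 u)
  obtain ⟨-, -, hs⟩ := h0 u
  have hab : a ≠ b := (q_CYO.2.1 a b c habc).2.1
  generalize θ0 u = s at *
  have hpi := Real.pi_pos
  have hθu : θ u = s := by
    rw [← hs]
    exact h2 s le_rfl (by linarith)
  have hE : IsCompact (Icc s (s + 2 * Real.pi) ∩ Circle.exp ⁻¹' K) :=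
    isCompact_Icc.inter_right (hcl.preimage Circle.exp.continuous)
  have hmem : ∀ k ∈ K, θ k ∈ Icc s (s + 2 * Real.pi) ∩ Circle.exp ⁻¹' K := by
    intro k hk
    obtain ⟨k1, k2, k3⟩ := h1 k
    refine ⟨⟨k1, k2.le⟩, ?_⟩
    rw [Set.mem_preimage, k3]
    exact hk
  have hne : (Icc s (s + 2 * Real.pi) ∩ Circle.exp ⁻¹' K).Nonempty := ⟨θ a, hmem a ha⟩
  obtain ⟨t1, ht1, hmax⟩ := hE.exists_isGreatest hne
  obtain ⟨t0, ht0, hmin⟩ := hE.exists_isLeast hne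
  have hper : Circle.exp (s + 2 * Real.pi) = u := by
    rw [Circle.exp_add, Circle.exp_two_pi, mul_one, hs]
  have hlt : ∀ t ∈ Icc s (s + 2 * Real.pi) ∩ Circle.exp ⁻¹' K, t < s + 2 * Real.pi := by
    rintro t ⟨⟨-, h4⟩, h5⟩
    rcases lt_or_eq_of_le h4 with h | h
    · exact h
    · exfalso
      rw [Set.mem_preimage, h, hper] at h5
      exact hu h5
  have hw : θ (Circle.exp t1) = t1 := h2 t1 ht1.1.1 (hlt t1 ht1)
  have hq : θ (Circle.exp t0) = t0 := h2 t0 ht0.1.1 (hlt t0 ht0)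
  refine ⟨θ, Circle.exp t1, Circle.exp t0, ht1.2, ht0.2, ?_, ?_, ?_, h3⟩
  · intro k hk
    rw [hw, hq]
    exact ⟨hmin (hmem k hk), hmax (hmem k hk)⟩
  · intro k hk
    obtain ⟨k1, k2, k3⟩ := h1 k
    rw [hθu]
    rcases lt_or_eq_of_le k1 with h | h
    · exact h
    · exfalso
      apply hu
      rw [← hs, h, k3]
      exact hk
  · rw [hw, hq]
    have a1 := hmin (hmem a ha)
    have a2 := hmax (hmem a ha)
    have b1 := hmin (hmem b hb)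
    have b2 := hmax (hmem b hb)
    rcases lt_or_ge t0 t1 with h | h
    · exact h
    · exfalso
      apply hab
      have e : θ a = θ b := by linarith
      rw [← (h1 a).2.2, ← (h1 b).2.2, e]

theorem RTX_uniq (K : Set Circle) (u w w' : Circle) (h : Ret K u w) (h' : Ret K u w') : w = w' := by
  by_contra hne
  obtain ⟨k1, k2⟩ := h.2 w' h'.1 (Ne.symm hne)
  obtain ⟨k3, k4⟩ := h'.2 w h.1 hne
  rcases q_CYO.2.2.1 w w' u hne k1 k3 with h5 | h5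
  · exact k2 h5
  · exact k4 (q_CYO.1 _ _ _ (q_CYO.1 _ _ _ h5))

theorem RTX_self (K : Set Circle) (u : Circle) (hu : u ∈ K) : Ret K u u := by
  refine ⟨hu, fun x _ hne => ⟨hne, fun h => ?_⟩⟩
  exact (q_CYO.2.1 _ _ _ h).2.2.2 rfl

theorem RTX_out (K : Set Circle) (hK : Big K) (u : Circle) (hu : u ∉ K) :
    ∃ w q, Ret K u w ∧ Gap K w q ∧ Ccw w u q := by
  obtain ⟨θ, w, q, hw, hq, h1, h2, h3, h4⟩ := RTX_cut K hK u hu
  refine ⟨w, q, ⟨hw, fun x hx hne => ⟨fun h => hu (h ▸ hx), fun h => ?_⟩⟩, ⟨hw, hq, ?_, fun k hk h => ?_⟩, ?_⟩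
  · rw [h4] at h
    have a1 := h1 x hx
    have a2 := h2 x hx
    rcases h with ⟨b1, b2⟩ | ⟨b1, b2⟩ | ⟨b1, b2⟩ <;> linarith
  · intro h
    rw [h] at h3
    exact lt_irrefl _ h3
  · rw [h4] at h
    have a1 := h1 k hk
    rcases h with ⟨b1, b2⟩ | ⟨b1, b2⟩ | ⟨b1, b2⟩ <;> linarith
  · rw [h4]
    right
    left
    exact ⟨h2 q hq, h3⟩

theorem p_RTX : Stmt_RTX := by
  refine ⟨?_, RTX_uniq, RTX_self, ?_, ?_⟩
  · intro K hK u
    by_cases hu : u ∈ K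
    · exact ⟨u, RTX_self K u hu⟩
    · obtain ⟨w, q, h, -⟩ := RTX_out K hK u hu
      exact ⟨w, h⟩
  · intro K hK u w hw hu
    obtain ⟨w', q, h, h1, h2⟩ := RTX_out K hK u hu
    have e := RTX_uniq K u w w' hw h
    subst e
    exact ⟨q, h1, h2⟩
  · intro K p q u hg hc
    refine ⟨hg.1, fun x hx hne => ⟨?_, ?_⟩⟩
    · rintro rfl
      exact hg.2.2.2 x hx hc
    · intro h
      exact hg.2.2.2 x hx (q_CYO.2.2.2 _ _ _ _ h hc).1

end Pool.SH
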