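import Pool.Agent.Work.MP_ae1ff6_sh.InterfaceL

/-! # Block SEP (helper25): separation -/

open Topology Filter Set
open scoped ComplexConjugate

set_option autoImplicit false

namespace Pool.SH

open Pool.CG Pool.AR

/-- the cyclic order of real numbers -/
def SEP_c (x y z : ℝ) : Prop := (x < y ∧ y < z) ∨ (y < z ∧ z < x) ∨ (z < x ∧ x < y)

/-- coordinates on the circle cut at `s` -/
theorem SEP_cut (s : Circle) : ∃ θ : Circle → ℝ, ∃ σ : ℝ,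
    (∀ y, σ ≤ θ y ∧ θ y < σ + 2 * Real.pi ∧ Circle.exp (θ y) = y) ∧
    (∀ t, σ ≤ t → t < σ + 2 * Real.pi → θ (Circle.exp t) = t) ∧ θ s = σ ∧
    (∀ a b c, Ccw a b c ↔ SEP_c (θ a) (θ b) (θ c)) ∧
    (∀ a b, θ a = θ b → a = b) := by
  obtain ⟨σ, hσ⟩ : ∃ σ : ℝ, Circle.exp σ = s := ⟨Complex.arg s, Circle.exp_arg s⟩
  obtain ⟨θ, h1, h2, h3⟩ := q_CUT σ
  refine ⟨θ, σ, h1, h2, ?_, h3, ?_⟩
  · rw [← hσ]
    exact h2 σ le_rfl (by linarith [Real.pi_pos])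
  · intro a b h
    rw [← (h1 a).2.2, ← (h1 b).2.2, h]

/-- two points `z`, `w` are separated by `x`, `y` -/
theorem SEP_link {θ : Circle → ℝ} (h3 : ∀ a b c, Ccw a b c ↔ SEP_c (θ a) (θ b) (θ c))
    {x y z w : Circle} (hxy : θ x < θ y) :
    Link x y z w ↔ (θ x < θ z ∧ θ z < θ y ∧ (θ w < θ x ∨ θ y < θ w)) ∨
      (θ x < θ w ∧ θ w < θ y ∧ (θ z < θ x ∨ θ y < θ z)) := by
  have key : ∀ z w : Circle, (Ccw x z y ∧ Ccw y w x) ↔
      (θ x < θ z ∧ θ z < θ y ∧ (θ w < θ x ∨ θ y < θ w)) := by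
    intro z w
    rw [h3, h3]
    unfold SEP_c
    constructor
    · rintro ⟨h | h | h, h'⟩
      · refine ⟨h.1, h.2, ?_⟩
        rcases h' with h' | h' | h'
        · exact Or.inl h'.2
        · exact Or.inl h'.1
        · exact Or.inr h'.2
      · exact absurd (h.1.trans h.2) (by intro h5; linarith [h.2])
      · exact absurd h.1 (not_lt.2 hxy.le)
    · rintro ⟨h1, h2, h | h⟩
      · exact ⟨Or.inl ⟨h1, h2⟩, Or.inr (Or.inl ⟨h, hxy⟩)⟩
      · exact ⟨Or.inl ⟨h1, h2⟩, Or.inr (Or.inr ⟨hxy, h⟩)⟩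
  rw [q_LKC, key z w, key w z]

theorem SEP_main (hUNB : Stmt_UNB) (hU4P : Stmt_U4P) (B : Set (Circle × Circle))
    (s t a₁ a₂ u₁ u₂ : Circle) (ha : (a₁, a₂) ∈ B) (hu : (u₁, u₂) ∈ Un B)
    (h1 : Ccw s a₁ t) (h2 : Ccw s u₁ t) (h3 : Ccw t a₂ s) (h4 : Ccw t u₂ s)
    (h5 : u₁ = a₁ ∨ Ccw s u₁ a₁) (h6 : a₂ = u₂ ∨ Ccw s a₂ u₂) :
    ∃ l, l ∈ Un B ∧ l ∈ Un (Un B) ∧ Link l.1 l.2 s t := by
  obtain ⟨-, -, hUsymm, hUcl, -⟩ := hUNB
  obtain ⟨θ, σ, c1, c2, c3, c4, c5⟩ := SEP_cut s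
  have hmin : ∀ y, θ s ≤ θ y := fun y => by rw [c3]; exact (c1 y).1
  -- the inequalities
  have g1 : ∀ b, Ccw s b t → θ s < θ b ∧ θ b < θ t := by
    intro b hb
    rcases (c4 _ _ _).1 hb with h | h | h
    · exact h
    · exact absurd h.2 (not_lt.2 (hmin _))
    · exact absurd h.1 (not_lt.2 (hmin _))
  have g2 : ∀ b, Ccw t b s → θ t < θ b := by
    intro b hb
    rcases (c4 _ _ _).1 hb with h | h | h
    · exact absurd h.2 (not_lt.2 (hmin _))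
    · exact absurd h.1 (not_lt.2 (hmin _))
    · exact h.2
  have g3 : ∀ b d, b = d ∨ Ccw s b d → θ b ≤ θ d := by
    rintro b d (rfl | hb)
    · exact le_rfl
    rcases (c4 _ _ _).1 hb with h | h | h
    · exact h.2.le
    · exact absurd h.2 (not_lt.2 (hmin _))
    · exact absurd h.1 (not_lt.2 (hmin _))
  obtain ⟨p1, p2⟩ := g1 _ h1
  obtain ⟨p3, p4⟩ := g1 _ h2
  have p5 := g2 _ h3
  have p6 := g2 _ h4
  have p7 := g3 _ _ h5
  have p8 := g3 _ _ h6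
  -- the compact set
  let F : Set (ℝ × ℝ) := {v | ∀ b ∈ B, ¬ Link b.1 b.2 (Circle.exp v.1) (Circle.exp v.2)}
  have hF : IsClosed F := by
    have h7 : Continuous fun v : ℝ × ℝ => (Circle.exp v.1, Circle.exp v.2) :=
      (Circle.exp.continuous.comp continuous_fst).prodMk (Circle.exp.continuous.comp continuous_snd)
    exact (hUcl B).preimage h7
  have hM : IsCompact ((Set.Icc (θ u₁) (θ a₁) ×ˢ Set.Icc (θ a₂) (θ u₂)) ∩ F) :=
    (isCompact_Icc.prod isCompact_Icc).inter_right hF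
  have hne : ((Set.Icc (θ u₁) (θ a₁) ×ˢ Set.Icc (θ a₂) (θ u₂)) ∩ F).Nonempty := by
    refine ⟨(θ u₁, θ u₂), ⟨⟨le_rfl, p7⟩, ⟨p8, le_rfl⟩⟩, ?_⟩
    intro b hb
    show ¬ Link b.1 b.2 (Circle.exp (θ u₁)) (Circle.exp (θ u₂))
    rw [(c1 u₁).2.2, (c1 u₂).2.2]
    exact hu.2 b hb
  obtain ⟨⟨α, β⟩, ⟨⟨⟨m1, m2⟩, ⟨m3, m4⟩⟩, m5⟩, hmax⟩ := hM.exists_isMaxOn hne
    (f := fun v : ℝ × ℝ => v.1 - v.2) (by fun_prop)
  have m1 : θ u₁ ≤ α := m1
  have m2 : α ≤ θ a₁ := m2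
  have m3 : θ a₂ ≤ β := m3
  have m4 : β ≤ θ u₂ := m4
  have hmax' : ∀ α' β' : ℝ, θ u₁ ≤ α' → α' ≤ θ a₁ → θ a₂ ≤ β' → β' ≤ θ u₂ →
      (∀ b ∈ B, ¬ Link b.1 b.2 (Circle.exp α') (Circle.exp β')) → α' - β' ≤ α - β := by
    intro α' β' i1 i2 i3 i4 i5
    exact hmax (a := (α', β')) ⟨⟨⟨i1, i2⟩, ⟨i3, i4⟩⟩, i5⟩
  have q0 : θ s < α := by linarith
  have q1 : α < θ t := by linarith
  have q2 : θ t < β := by linarith
  have q3 : β < σ + 2 * Real.pi := by linarith [(c1 u₂).2.1]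
  rw [c3] at q0
  have hx : θ (Circle.exp α) = α := c2 α q0.le (by linarith)
  have hy : θ (Circle.exp β) = β := c2 β (by linarith) q3
  have hxy : θ (Circle.exp α) < θ (Circle.exp β) := by rw [hx, hy]; linarith
  have hxyU : (Circle.exp α, Circle.exp β) ∈ Un B :=
    ⟨fun h => by
      have h' : Circle.exp α = Circle.exp β := h
      rw [h'] at hxy
      exact lt_irrefl _ hxy, m5⟩
  refine ⟨(Circle.exp α, Circle.exp β), hxyU, ⟨hxyU.1, ?_⟩, ?_⟩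
  · -- the line is in `Un (Un B)`
    have key : ∀ z w : Circle, (z, w) ∈ Un B → α < θ z → θ z < β → (θ w < α ∨ β < θ w) → False := by
      intro z w hzw j1 j2 j3
      have hl : Link (Circle.exp α) (Circle.exp β) z w :=
        (SEP_link c4 hxy).2 (Or.inl ⟨by rw [hx]; exact j1, by rw [hy]; exact j2, by rw [hx, hy]; exact j3⟩)
      obtain ⟨k1, -, k3, -⟩ := hU4P B _ _ z w hxyU hzw hl
      by_cases l1 : θ z ≤ θ a₁
      · have h7 := hmax' (θ z) β (m1.trans j1.le) l1 m3 m4 (by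
          intro b hb
          rw [(c1 z).2.2]
          exact (hUsymm B _ _ k3).2 b hb)
        linarith
      · by_cases l2 : θ a₂ ≤ θ z
        · have h7 := hmax' α (θ z) m1 m2 l2 (j2.le.trans m4) (by
            intro b hb
            rw [(c1 z).2.2]
            exact k1.2 b hb)
          linarith
        · push Not at l1 l2
          refine hzw.2 (a₁, a₂) ha ((SEP_link c4 (by linarith : θ a₁ < θ a₂)).2 (Or.inl
            ⟨l1, l2, ?_⟩))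
          rcases j3 with j3 | j3
          · exact Or.inl (by linarith)
          · exact Or.inr (by linarith)
    rintro ⟨z, w⟩ hzw hl
    have hl' : Link (Circle.exp α) (Circle.exp β) z w := (Pool.GC.q_SYM _ _ _ _ hl).1
    rcases (SEP_link c4 hxy).1 hl' with ⟨j1, j2, j3⟩ | ⟨j1, j2, j3⟩
    · rw [hx] at j1
      rw [hy] at j2
      rw [hx, hy] at j3
      exact key z w hzw j1 j2 j3
    · rw [hx] at j1
      rw [hy] at j2
      rw [hx, hy] at j3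
      exact key w z (hUsymm B _ _ hzw) j1 j2 j3
  · show Link (Circle.exp α) (Circle.exp β) s t
    refine (SEP_link c4 hxy).2 (Or.inr ⟨by rw [hx]; exact q1, by rw [hy]; exact q2, Or.inl ?_⟩)
    rw [hx, c3]
    exact q0

/-- a line which separates `s` and `t`, with the right names of its ends -/
theorem SEP_name (C : Set (Circle × Circle)) (hC : ∀ x y, (x, y) ∈ C → (y, x) ∈ C) (s t : Circle)
    (a : Circle × Circle) (ha : a ∈ C) (hl : Link a.1 a.2 s t) :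
    ∃ a₁ a₂, (a₁, a₂) ∈ C ∧ Ccw s a₁ t ∧ Ccw t a₂ s := by
  have h1 := (Pool.GC.q_SYM _ _ _ _ hl).1
  rcases (q_LKC _ _ _ _).1 h1 with h | h
  · exact ⟨a.1, a.2, ha, h.1, h.2⟩
  · exact ⟨a.2, a.1, hC _ _ ha, h.1, h.2⟩

theorem p_SEP (hUNB : Stmt_UNB) (hU4P : Stmt_U4P) : Stmt_SEP := by
  intro B hB s t a ha hla u hu hlu
  obtain ⟨a₁, a₂, ha', h1, h3⟩ := SEP_name B hB s t a ha hla
  obtain ⟨u₁, u₂, hu', h2, h4⟩ := SEP_name (Un B) (hUNB.2.2.1 B) s t u hu hlu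
  obtain ⟨θ, σ, c1, c2, c3, c4, c5⟩ := SEP_cut s
  have hmin : ∀ y, θ s ≤ θ y := fun y => by rw [c3]; exact (c1 y).1
  have g1 : ∀ b, Ccw s b t → θ s < θ b ∧ θ b < θ t := by
    intro b hb
    rcases (c4 _ _ _).1 hb with h | h | h
    · exact h
    · exact absurd h.2 (not_lt.2 (hmin _))
    · exact absurd h.1 (not_lt.2 (hmin _))
  have g2 : ∀ b, Ccw t b s → θ t < θ b := by
    intro b hb
    rcases (c4 _ _ _).1 hb with h | h | h
    · exact absurd h.2 (not_lt.2 (hmin _))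
    · exact absurd h.1 (not_lt.2 (hmin _))
    · exact h.2
  obtain ⟨p1, p2⟩ := g1 _ h1
  obtain ⟨p3, p4⟩ := g1 _ h2
  have p5 := g2 _ h3
  have p6 := g2 _ h4
  have ha12 : θ a₁ < θ a₂ := p2.trans p5
  have hnl : ¬ Link a₁ a₂ u₁ u₂ := hu'.2 (a₁, a₂) ha'
  rw [SEP_link c4 ha12] at hnl
  push Not at hnl
  -- the two cases
  have case1 : θ u₁ ≤ θ a₁ → θ a₂ ≤ θ u₂ → ∃ l, l ∈ Un B ∧ l ∈ Un (Un B) ∧ Link l.1 l.2 s t := by
    intro i1 i2
    refine SEP_main hUNB hU4P B s t a₁ a₂ u₁ u₂ ha' hu' h1 h2 h3 h4 ?_ ?_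
    · rcases i1.eq_or_lt with i1 | i1
      · exact Or.inl (c5 _ _ i1)
      · exact Or.inr ((c4 _ _ _).2 (Or.inl ⟨p3, i1⟩))
    · rcases i2.eq_or_lt with i2 | i2
      · exact Or.inl (c5 _ _ i2)
      · exact Or.inr ((c4 _ _ _).2 (Or.inl ⟨p1.trans ha12, i2⟩))
  have case2 : θ a₁ ≤ θ u₁ → θ u₂ ≤ θ a₂ → ∃ l, l ∈ Un B ∧ l ∈ Un (Un B) ∧ Link l.1 l.2 s t := by
    intro i1 i2
    obtain ⟨l, k1, k2, k3⟩ := SEP_main hUNB hU4P B t s a₂ a₁ u₂ u₁ (hB _ _ ha')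
      (hUNB.2.2.1 B _ _ hu') h3 h4 h1 h2 (by
        rcases i2.eq_or_lt with i2 | i2
        · exact Or.inl (c5 _ _ i2)
        · exact Or.inr ((c4 _ _ _).2 (Or.inl ⟨p6, i2⟩))) (by
        rcases i1.eq_or_lt with i1 | i1
        · exact Or.inl (c5 _ _ i1)
        · exact Or.inr ((c4 _ _ _).2 (Or.inr (Or.inl ⟨i1, p4⟩))))
    exact ⟨l, k1, k2, (Pool.GC.q_SYM _ _ _ _ k3).2.2⟩
  rcases lt_trichotomy (θ u₁) (θ a₁) with i | i | i
  · refine case1 i.le ?_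
    by_contra hcon
    push Not at hcon
    exact absurd i (not_lt.2 (hnl.2 (by linarith) hcon).1)
  · rcases le_total (θ a₂) (θ u₂) with j | j
    · exact case1 i.le j
    · exact case2 i.ge j
  · refine case2 i.le ?_
    by_contra hcon
    push Not at hcon
    exact absurd hcon (not_lt.2 (hnl.1 i (by linarith)).2)

end Pool.SH
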