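import Pool.Agent.Work.MP_ae1ff6_sh.InterfaceL

open Topology Filter Set
open scoped ComplexConjugate

set_option autoImplicit false

namespace Pool.SH

open Pool.CG Pool.AR

theorem SHB_mul (g h : H) (z : Circle) : (g * h) z = g (h z) := rfl

theorem SHB_inv (g : H) (z : Circle) : g⁻¹ (g z) = z := g.symm_apply_apply z

theorem SHB_inv' (g : H) (z : Circle) : g (g⁻¹ z) = z := g.apply_symm_apply z

theorem SHB_axis (g γ : H) (x y : Circle) (h : Axis γ (g⁻¹ x) (g⁻¹ y)) :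
    Axis (g * γ * g⁻¹) x y := by
  refine ⟨fun hxy => h.1 (by rw [hxy]), fun z => ?_⟩
  have h1 : (g * γ * g⁻¹) z = g (γ (g⁻¹ z)) := rfl
  rw [h1]
  have h2 : g (γ (g⁻¹ z)) = z ↔ γ (g⁻¹ z) = g⁻¹ z := by
    constructor
    · intro e
      have e2 := congrArg (fun t => g⁻¹ t) e
      have e3 : g⁻¹ (g (γ (g⁻¹ z))) = g⁻¹ z := e2
      rwa [SHB_inv] at e3
    · intro e
      rw [e, SHB_inv']
  rw [h2, h.2 (g⁻¹ z)]
  rw [(g⁻¹).injective.eq_iff, (g⁻¹).injective.eq_iff]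

theorem SHB_push {Γ : Subgroup H} {f : H} {A : Set (Circle × Circle)} (hA : Fam Γ f A) (k : ℕ) :
    ∀ x y, (x, y) ∈ A → ((f ^ (k : ℤ)) x, (f ^ (k : ℤ)) y) ∈ A := by
  induction k with
  | zero =>
    intro x y h
    have h1 : f ^ ((0 : ℕ) : ℤ) = 1 := by simp
    rw [h1]
    exact h
  | succ k ih =>
    intro x y h
    have h1 : f ^ ((k + 1 : ℕ) : ℤ) = f * f ^ (k : ℤ) := by
      rw [Nat.cast_add, Nat.cast_one, add_comm, zpow_add, zpow_one]
    rw [h1]
    exact hA.push _ _ (ih x y h)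

theorem p_SHB (hGEL : Stmt_GEL) : Stmt_SHB := by
  intro Γ f A hf hA
  have hconj := (hGEL Γ f hf).2.1
  refine ⟨?_, ?_, ?_, ?_, ?_, ?_⟩
  · intro m n hmn a ha
    obtain ⟨k, hk⟩ := Int.eq_ofNat_of_zero_le (sub_nonneg.2 hmn)
    have h1 : f ^ (-m) = f ^ (k : ℤ) * f ^ (-n) := by
      rw [← zpow_add]
      congr 1
      omega
    show ((f ^ (-m)) a.1, (f ^ (-m)) a.2) ∈ A
    rw [h1]
    exact SHB_push hA k _ _ ha
  · intro n x y h
    exact hA.symm _ _ h
  · intro n x y h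
    obtain ⟨γ, hγ, hax⟩ := hA.axis _ _ h
    refine ⟨f ^ n * γ * (f ^ n)⁻¹, hconj n γ hγ, SHB_axis _ _ _ _ ?_⟩
    have h1 : (f ^ n)⁻¹ = f ^ (-n) := (zpow_neg f n).symm
    rw [h1]
    exact hax
  · intro n ε hε
    have huc : UniformContinuous (f ^ n : H) :=
      CompactSpace.uniformContinuous_of_continuous (f ^ n : H).continuous
    obtain ⟨δ, hδ, hd⟩ := Metric.uniformContinuous_iff.1 huc ε hε
    have hinj : Function.Injective (fun a : Circle × Circle => ((f ^ (-n)) a.1, (f ^ (-n)) a.2)) := by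
      intro a b hab
      obtain ⟨h1, h2⟩ := Prod.mk.inj hab
      exact Prod.ext ((f ^ (-n) : H).injective h1) ((f ^ (-n) : H).injective h2)
    refine ((hA.fin δ hδ).preimage hinj.injOn).subset ?_
    rintro a ⟨ha1, ha2⟩
    refine ⟨ha1, ?_⟩
    by_contra hlt
    push Not at hlt
    have h3 := hd hlt
    have h4 : ∀ z, (f ^ n : H) ((f ^ (-n) : H) z) = z := by
      intro z
      rw [← SHB_mul, ← zpow_add, add_neg_cancel, zpow_zero]
      rfl
    have h5 : dist ((f ^ n : H) ((f ^ (-n) : H) a.1)) ((f ^ n : H) ((f ^ (-n) : H) a.2)) < ε := h3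
    rw [h4, h4] at h5
    linarith
  · intro κ hκ k n x y h
    have h1 : f ^ (-(n + k)) * (κ * f ^ k) =
        (f ^ (-(n + k)) * κ * (f ^ (-(n + k)))⁻¹) * f ^ (-n) := by
      have h2 : f ^ (-n) = f ^ (-(n + k)) * f ^ k := by
        rw [← zpow_add]
        congr 1
        omega
      rw [h2]
      group
    show ((f ^ (-(n + k))) ((κ * f ^ k) x), (f ^ (-(n + k))) ((κ * f ^ k) y)) ∈ A
    rw [← SHB_mul, ← SHB_mul, h1]
    exact hA.keep _ (hconj _ κ hκ) _ _ h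
  · intro γ hγ p q hax
    obtain ⟨N, hN⟩ := hA.swallow γ hγ p q hax
    refine ⟨-N, fun n hn => ?_⟩
    exact hN (-n) (by omega)

end Pool.SH
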