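import Pool.Agent.Work.MP_ae1ff6_sh.InterfaceT

/-!
# Block SID: the triangle on a side of an image edge (helper54)
-/

open Topology Filter Set
open scoped ComplexConjugate

set_option autoImplicit false

namespace Pool.SH

open Pool.CG Pool.AR

theorem p_SID (h1 : Stmt_ARL) (h2 : Stmt_RTX) (h3 : Stmt_RTM) (h4 : Stmt_FNP) : Stmt_SID := by
  rintro K T hK hT p q ⟨hpq, x₀, y₀, hxy₀, hx₀, hy₀⟩ ⟨k, hk, hpkq⟩
  simp only at hpq hx₀ hy₀
  obtain ⟨rot, asym, tot, -⟩ := q_CYO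
  obtain ⟨θ, inj, hmin, hccw, hz, harc⟩ := h1 k
  obtain ⟨-, hpk, hkq, -⟩ := asym p k q hpkq
  have hqp : θ q < θ p := (hz q p hkq.symm hpk).1 hpkq
  have hA : ∀ x y, Ret K x p → Ret K y q →
      θ q ≤ θ y ∧ θ y < θ p ∧ θ p ≤ θ x := by
    intro x y hx hy
    obtain ⟨a1, a2⟩ := hx.2 k hk hpk.symm
    obtain ⟨b1, b2⟩ := hy.2 k hk hkq
    obtain ⟨c1, c2⟩ := hy.2 p hx.1 hpq
    refine ⟨?_, ?_, ?_⟩
    · by_contra hc
      exact b2 ((hz y q b1.symm hkq.symm).2 (not_le.1 hc))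
    · rcases lt_trichotomy (θ y) (θ p) with h | h | h
      · exact h
      · exact absurd (inj h).symm c1
      · exact absurd ((hccw q p y).2 (Or.inl ⟨hqp, h⟩)) c2
    · by_contra hc
      exact a2 ((hz x p a1.symm hpk).2 (not_le.1 hc))
  obtain ⟨A1, A2, A3⟩ := hA x₀ y₀ hx₀ hy₀
  have hfin : {l : Circle × Circle | l ∈ T ∧ Ret K l.1 p ∧ Ret K l.2 q ∧ θ x₀ ≤ θ l.1 ∧
      θ l.2 ≤ θ y₀}.Finite := by
    refine (h4 T (fun ε hε => hT.fin ε hε) hT.ne k q x₀ y₀ hkq (hT.ne _ _ hxy₀)).subset ?_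
    rintro ⟨x, y⟩ ⟨hxy, hx, hy, g1, g2⟩
    simp only at hx hy g1 g2
    obtain ⟨B1, B2, B3⟩ := hA x y hx hy
    have hyx : θ y < θ x := lt_of_lt_of_le B2 B3
    refine ⟨hxy, ?_, ?_, ?_, ?_⟩
    · exact ((harc y x k hyx).2).2 (Or.inl (hmin y))
    · exact ((harc y x q hyx).2).2 (Or.inl B1)
    · exact ((harc y x x₀ hyx).1).2 ⟨by linarith, g1⟩
    · exact ((harc y x y₀ hyx).1).2 ⟨g2, by linarith⟩
  obtain ⟨⟨x, y⟩, ⟨hxy, hx, hy, g1, g2⟩, hmax⟩ := Set.exists_max_image _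
    (fun l : Circle × Circle => θ l.1 - θ l.2) hfin ⟨(x₀, y₀), hxy₀, hx₀, hy₀, le_rfl, le_rfl⟩
  simp only at hx hy g1 g2 hmax
  obtain ⟨B1, B2, B3⟩ := hA x y hx hy
  obtain ⟨z, hxzy, hxz, hzy⟩ := hT.third x y hxy
  have hzc : θ z < θ y ∨ θ x < θ z := by
    rcases (hccw x z y).1 hxzy with ⟨h, h'⟩ | ⟨h, -⟩ | ⟨-, h⟩
    · exfalso
      linarith
    · exact Or.inl h
    · exact Or.inr h
  obtain ⟨v, hv⟩ := h2.1 K hK z
  have hvp : p ≠ v := by
    rintro rfl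
    obtain ⟨C1, C2, C3⟩ := hA z y hv hy
    have hxz' : θ x < θ z := by
      rcases hzc with h | h
      · exfalso
        linarith
      · exact h
    have := hmax (z, y) ⟨hzy, hv, hy, by simp only; linarith, g2⟩
    simp only at this
    linarith
  have hvq : v ≠ q := by
    rintro rfl
    obtain ⟨C1, C2, C3⟩ := hA x z hx hv
    have hzy' : θ z < θ y := by
      rcases hzc with h | h
      · exact h
      · exfalso
        linarith
    have := hmax (x, z) ⟨hxz, hx, hv, g1, by simp only; linarith⟩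
    simp only at this
    linarith
  have hpvq : Ccw p v q := h3.1 K x z y p v q hx hv hy hvp hvq hpq hxzy
  exact ⟨v, hpvq, p, v, q, x, z, y, hpvq, rfl, hxzy, hxz, hzy, hT.symm _ _ hxy, hx, hv, hy⟩

end Pool.SH
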