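import Pool.Agent.Work.MP_ae1ff6_sh.InterfaceL

open Topology Filter Set
open scoped ComplexConjugate

set_option autoImplicit false

namespace Pool.SH

open Pool.CG Pool.AR

/-- separation in terms of coordinates -/
theorem SPK_link (θ : Circle → ℝ)
    (hθ : ∀ a b c, Ccw a b c ↔
      (θ a < θ b ∧ θ b < θ c) ∨ (θ b < θ c ∧ θ c < θ a) ∨ (θ c < θ a ∧ θ a < θ b))
    (a b c d : Circle) :
    Link a b c d ↔
      (θ a < θ c ∧ θ c < θ b ∧ (θ d < θ a ∨ θ b < θ d)) ∨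
      (θ b < θ c ∧ θ c < θ a ∧ (θ d < θ b ∨ θ a < θ d)) ∨
      (θ a < θ d ∧ θ d < θ b ∧ (θ c < θ a ∨ θ b < θ c)) ∨
      (θ b < θ d ∧ θ d < θ a ∧ (θ c < θ b ∨ θ a < θ c)) := by
  rw [q_LKC a b c d, hθ, hθ, hθ, hθ]
  grind

/-- the statement about real numbers -/
theorem SPK_real (U1 U2 A1 A2 S T S' T' : ℝ) (m1 : U1 ≤ U2) (m2 : U1 ≤ A1) (m3 : U1 ≤ A2)
    (m4 : U1 ≤ S) (m5 : U1 ≤ T) (m6 : U1 ≤ S') (m7 : U1 ≤ T')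
    (h1 : (A1 < S ∧ S < A2 ∧ (T < A1 ∨ A2 < T)) ∨ (A2 < S ∧ S < A1 ∧ (T < A2 ∨ A1 < T)) ∨
      (A1 < T ∧ T < A2 ∧ (S < A1 ∨ A2 < S)) ∨ (A2 < T ∧ T < A1 ∧ (S < A2 ∨ A1 < S)))
    (h2 : (U1 < S' ∧ S' < U2 ∧ (T' < U1 ∨ U2 < T')) ∨ (U2 < S' ∧ S' < U1 ∧ (T' < U2 ∨ U1 < T')) ∨
      (U1 < T' ∧ T' < U2 ∧ (S' < U1 ∨ U2 < S')) ∨ (U2 < T' ∧ T' < U1 ∧ (S' < U2 ∨ U1 < S')))
    (h3 : ¬ ((A1 < U1 ∧ U1 < A2 ∧ (U2 < A1 ∨ A2 < U2)) ∨ (A2 < U1 ∧ U1 < A1 ∧ (U2 < A2 ∨ A1 < U2)) ∨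
      (A1 < U2 ∧ U2 < A2 ∧ (U1 < A1 ∨ A2 < U1)) ∨ (A2 < U2 ∧ U2 < A1 ∧ (U1 < A2 ∨ A1 < U1)))) :
    ∃ X Y : ℝ, (X = S ∨ X = T) ∧ (Y = S' ∨ Y = T') ∧
      ((A1 < X ∧ X < A2 ∧ (Y < A1 ∨ A2 < Y)) ∨ (A2 < X ∧ X < A1 ∧ (Y < A2 ∨ A1 < Y)) ∨
        (A1 < Y ∧ Y < A2 ∧ (X < A1 ∨ A2 < X)) ∨ (A2 < Y ∧ Y < A1 ∧ (X < A2 ∨ A1 < X))) ∧
      ((U1 < X ∧ X < U2 ∧ U2 < Y) ∨ (U1 < Y ∧ Y < U2 ∧ U2 < X)) := by
  have hy : ∃ Y Z : ℝ, (Y = S' ∨ Y = T') ∧ (Z = S' ∨ Z = T') ∧ U1 < Y ∧ Y < U2 ∧ U2 < Z := by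
    rcases h2 with ⟨h, h', h''⟩ | ⟨h, h', h''⟩ | ⟨h, h', h''⟩ | ⟨h, h', h''⟩
    · exact ⟨S', T', Or.inl rfl, Or.inr rfl, h, h', by rcases h'' with h'' | h'' <;> linarith⟩
    · linarith
    · exact ⟨T', S', Or.inr rfl, Or.inl rfl, h, h', by rcases h'' with h'' | h'' <;> linarith⟩
    · linarith
  have hx : ∃ X Z : ℝ, (X = S ∨ X = T) ∧ (Z = S ∨ Z = T) ∧
      ((A1 < X ∧ X < A2 ∧ (Z < A1 ∨ A2 < Z)) ∨ (A2 < X ∧ X < A1 ∧ (Z < A2 ∨ A1 < Z))) := by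
    rcases h1 with h | h | h | h
    · exact ⟨S, T, Or.inl rfl, Or.inr rfl, Or.inl h⟩
    · exact ⟨S, T, Or.inl rfl, Or.inr rfl, Or.inr h⟩
    · exact ⟨T, S, Or.inr rfl, Or.inl rfl, Or.inl h⟩
    · exact ⟨T, S, Or.inr rfl, Or.inl rfl, Or.inr h⟩
  have hX : ∀ X, (X = S ∨ X = T) → U1 ≤ X := by
    rintro X (rfl | rfl)
    · exact m4
    · exact m5
  obtain ⟨Y, Y', hY, hY', y1, y2, y3⟩ := hy
  obtain ⟨X, X', hX1, hX2, hx⟩ := hx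
  have hXm := hX X hX1
  have hXm' := hX X' hX2
  clear h1 h2 hX m4 m5 m6 m7
  by_cases c1 : A1 ≤ U2
  · by_cases c2 : A2 ≤ U2
    · refine ⟨X, Y', hX1, hY', ?_, Or.inl ?_⟩
      · rcases hx with ⟨e1, e2, -⟩ | ⟨e1, e2, -⟩
        · exact Or.inl ⟨e1, e2, Or.inr (by linarith)⟩
        · exact Or.inr (Or.inl ⟨e1, e2, Or.inr (by linarith)⟩)
      · rcases hx with ⟨e1, e2, -⟩ | ⟨e1, e2, -⟩
        · exact ⟨by linarith, by linarith, y3⟩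
        · exact ⟨by linarith, by linarith, y3⟩
    · push Not at c2
      rcases eq_or_lt_of_le m2 with m2' | m2'
      · -- `A1 = U1`, `U2 < A2`
        rcases hx with ⟨e1, e2, e3⟩ | ⟨e1, e2, e3⟩
        · have e4 : A2 < X' := by
            rcases e3 with e3 | e3
            · linarith
            · exact e3
          exact ⟨X', Y, hX2, hY, Or.inr (Or.inr (Or.inl ⟨by linarith, by linarith, Or.inr e4⟩)),
            Or.inr ⟨y1, y2, by linarith⟩⟩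
        · linarith
      · -- `U1 < A1 ≤ U2 < A2`, so `A1 = U2`
        have e0 : A1 = U2 := by
          by_contra hne
          have : A1 < U2 := lt_of_le_of_ne c1 hne
          exact h3 (Or.inr (Or.inr (Or.inl ⟨this, c2, Or.inl m2'⟩)))
        rcases hx with ⟨e1, e2, e3⟩ | ⟨e1, e2, e3⟩
        · exact ⟨X, Y, hX1, hY, Or.inl ⟨e1, e2, Or.inl (by linarith)⟩,
            Or.inr ⟨y1, y2, by linarith⟩⟩
        · linarith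
  · push Not at c1
    by_cases c2 : A2 < U2
    · rcases eq_or_lt_of_le m3 with m3' | m3'
      · rcases hx with ⟨e1, e2, e3⟩ | ⟨e1, e2, e3⟩
        · linarith
        · have e4 : A1 < X' := by
            rcases e3 with e3 | e3
            · linarith
            · exact e3
          exact ⟨X', Y, hX2, hY, Or.inr (Or.inr (Or.inr ⟨by linarith, by linarith, Or.inr e4⟩)),
            Or.inr ⟨y1, y2, by linarith⟩⟩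
      · exact absurd (Or.inr (Or.inr (Or.inr ⟨c2, c1, Or.inl m3'⟩))) h3
    · push Not at c2
      refine ⟨X, Y, hX1, hY, ?_, Or.inr ⟨y1, y2, ?_⟩⟩
      · rcases hx with ⟨e1, e2, -⟩ | ⟨e1, e2, -⟩
        · exact Or.inl ⟨e1, e2, Or.inl (by linarith)⟩
        · exact Or.inr (Or.inl ⟨e1, e2, Or.inl (by linarith)⟩)
      · rcases hx with ⟨e1, e2, -⟩ | ⟨e1, e2, -⟩ <;> linarith

theorem SPK_claim (u1 u2 a1 a2 s t s' t' : Circle)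
    (h1 : Link a1 a2 s t) (h2 : Link u1 u2 s' t') (h3 : ¬ Link a1 a2 u1 u2) :
    ∃ x y : Circle, (x = s ∨ x = t) ∧ (y = s' ∨ y = t') ∧ Link a1 a2 x y ∧ Link u1 u2 x y := by
  obtain ⟨s0, hs0⟩ : ∃ s0 : ℝ, Circle.exp s0 = u1 := by
    obtain ⟨θ, h, -, -⟩ := q_CUT 0
    exact ⟨θ u1, (h u1).2.2⟩
  obtain ⟨θ, hp, he, hθ⟩ := q_CUT s0
  have hu1 : θ u1 = s0 := by
    rw [← hs0]
    exact he s0 le_rfl (by linarith [Real.pi_pos])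
  have hm : ∀ y, θ u1 ≤ θ y := fun y => by rw [hu1]; exact (hp y).1
  rw [SPK_link θ hθ] at h1 h2 h3
  obtain ⟨X, Y, hX, hY, hA, hU⟩ := SPK_real (θ u1) (θ u2) (θ a1) (θ a2) (θ s) (θ t) (θ s') (θ t')
    (hm u2) (hm a1) (hm a2) (hm s) (hm t) (hm s') (hm t') h1 h2 h3
  obtain ⟨x, hx, rfl⟩ : ∃ x, (x = s ∨ x = t) ∧ X = θ x := by
    rcases hX with rfl | rfl
    · exact ⟨s, Or.inl rfl, rfl⟩
    · exact ⟨t, Or.inr rfl, rfl⟩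
  obtain ⟨y, hy, rfl⟩ : ∃ y, (y = s' ∨ y = t') ∧ Y = θ y := by
    rcases hY with rfl | rfl
    · exact ⟨s', Or.inl rfl, rfl⟩
    · exact ⟨t', Or.inr rfl, rfl⟩
  refine ⟨x, y, hx, hy, ?_, ?_⟩
  · rw [SPK_link θ hθ]
    exact hA
  · rw [SPK_link θ hθ]
    rcases hU with ⟨h, h', h''⟩ | ⟨h, h', h''⟩
    · exact Or.inl ⟨h, h', Or.inr h''⟩
    · exact Or.inr (Or.inr (Or.inl ⟨h, h', Or.inr h''⟩))

theorem p_SPK (h1 : Stmt_SEP) : Stmt_SPK := by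
  intro B K hB hK a ha s hs t ht hst u hu s' hs' t' ht' hu'
  have h3 : ¬ Link a.1 a.2 u.1 u.2 := hu.2 a ha
  obtain ⟨x, y, hx, hy, h4, h5⟩ := SPK_claim u.1 u.2 a.1 a.2 s t s' t' hst hu' h3
  obtain ⟨l, hl1, hl2, hl3⟩ := h1 B hB x y a ha h4 u hu h5
  have hxK : x ∈ K := by
    rcases hx with rfl | rfl
    · exact hs
    · exact ht
  have hyK : y ∈ K := by
    rcases hy with rfl | rfl
    · exact hs'
    · exact ht'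
  exact hK x hxK y hyK l hl1 hl2 hl3

end Pool.SH
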