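import Pool.Agent.Work.MP_ae1ff6_sh.DefsG

/-!
# Realization of big mapping classes (MP_ae1ff6_gt): interface, general half (helper80)

Block `X`: file `Pool/Agent/Work/MP_ae1ff6_sh/B_X.lean`,
`import Pool.Agent.Work.MP_ae1ff6_sh.InterfaceG`, `namespace Pool.SH`, the `open` lines of this file,
`theorem p_X (h1 : Stmt_Y) .. : Stmt_X` with exactly the blocks of the column `uses`, in this order, as
hypotheses; auxiliary lemmas with the prefix `X_`.

Proved facts (not hypotheses), statements in `Pool/Agent/Work/MP_ae1ff6_ar/Interface.lean`: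
`Pool.AR.q_CUT`, `q_CYO`, `q_LKC`, `q_ANG`, `q_MOR`, `q_CYH`, `q_FA1`, `q_MEX`, `Pool.AR.MOF_map` (real
matrices of determinant one act as Möbius maps on the points `cusp p q`); in
`Pool/Agent/Work/MP_ae1ff6_cg/Interface.lean`: `Pool.GC.mb1`, `Pool.GC.mb2`, `Pool.GC.mb3`.
`H = Circle ≃ₜ Circle` is a group (`(g * h) z = g (h z)`, `g⁻¹ = g.symm`: `rfl`).
`Ccw a b c`: different points in counterclockwise order. `Arc a b`: the closed arc from `a` to `b`.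

Picture: the pieces are subsets of the circle (think of ideal polygons with these vertices in the disc)
which are separated by the lines `(p, q) ∈ L`; each line has exactly one piece on each side which
contains both ends; the dual graph is a tree (`fin`).
-/

open Topology Filter Set
open scoped ComplexConjugate

set_option autoImplicit false

namespace Pool.SH

open Pool.CG Pool.AR

/-! ### Part 1: arcs and pieces -/

/-- `d` preserves the cyclic order of the points of `V` -/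
def CyOn (d : Circle → Circle) (V : Set Circle) : Prop :=
  ∀ a ∈ V, ∀ b ∈ V, ∀ c ∈ V, Ccw a b c → Ccw (d a) (d b) (d c)

/-- the piece `P` contains `p` and `q` and is on the side `Arc p q` of the line `(p, q)` -/
def At (P : Set Circle) (p q : Circle) : Prop := p ∈ P ∧ q ∈ P ∧ P ⊆ Arc p q

/-- the lines (with orientation) which separate `P` from `Q` -/
def Sp (L : Set (Circle × Circle)) (P Q : Set Circle) : Set (Circle × Circle) :=
  {a | a ∈ L ∧ P ⊆ Arc a.1 a.2 ∧ Q ⊆ Arc a.2 a.1}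

/-- the number of lines which separate `P` from `Q` -/
noncomputable def dS (L : Set (Circle × Circle)) (P Q : Set Circle) : ℕ := (Sp L P Q).ncard

/-- `P` is separated by one of its lines from `Q` and `R` -/
def Iso (L : Set (Circle × Circle)) (P Q R : Set Circle) : Prop :=
  ∃ p q, (p, q) ∈ L ∧ At P p q ∧ Q ⊆ Arc q p ∧ R ⊆ Arc q p

/-- ARL (80 lines): the circle cut at `z` is linearly ordered. Proof. Let `z = exp s` and `θ` from
`q_CUT s`: `θ z = s` is the minimum; `θ` is injective. For `p, q ≠ z`: `θ z < θ p`, `θ z < θ q`, so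
`Ccw q z p` iff `θ p < θ q` (third case of CUT). If `θ p < θ q` then `Ccw p y q` iff
`θ p < θ y < θ q` (the other two cases are excluded), and `Ccw q y p` iff `θ y < θ p` or `θ q < θ y`. -/
def Stmt_ARL : Prop :=
  ∀ z : Circle, ∃ θ : Circle → ℝ, Function.Injective θ ∧ (∀ y, θ z ≤ θ y) ∧
    (∀ a b c, Ccw a b c ↔
      (θ a < θ b ∧ θ b < θ c) ∨ (θ b < θ c ∧ θ c < θ a) ∨ (θ c < θ a ∧ θ a < θ b)) ∧
    (∀ p q, p ≠ z → q ≠ z → (Ccw q z p ↔ θ p < θ q)) ∧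
    ∀ p q y, θ p < θ q → (y ∈ Arc p q ↔ θ p ≤ θ y ∧ θ y ≤ θ q) ∧
      (y ∈ Arc q p ↔ θ y ≤ θ p ∨ θ q ≤ θ y)

/-- ARX (80 lines; uses ARL): arcs. Proof. (1), (2): `q_CYO`. (3) ARL for `z = r`: `θ r < θ s` (`θ r` is
the minimum), so `Arc r s` is given by `θ y ≤ θ s`. If `θ p < θ q` then `Arc p q` is given by
`θ p ≤ θ y ≤ θ q`, so `Arc p q ⊆ Arc r s`; if `θ q < θ p` then `Arc q p ⊆ Arc r s`. -/
def Stmt_ARX : Prop :=
  (∀ p q z : Circle, p ≠ q → z ∈ Arc p q ∨ z ∈ Arc q p) ∧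
  (∀ p q z : Circle, z ∈ Arc p q → z ∈ Arc q p → z = p ∨ z = q) ∧
  ∀ p q r s : Circle, p ≠ q → r ≠ s → p ∈ Arc r s → q ∈ Arc r s →
    Arc p q ⊆ Arc r s ∨ Arc q p ⊆ Arc r s

/-- PC1 (150 lines; uses ARX): pieces. Proofs. (a) Otherwise the three different points of `P`
(`Pieces.three`, `q_CYO`) are in `{p, q}` (ARX 2). (b) If `P ≠ P'`, `Pieces.sep` gives `(r, s) ∈ L` with
`r, s ∈ P ⊆ Arc r s`, `P' ⊆ Arc s r`; `p, q ∈ Arc r s ∩ Arc s r`, so `{p, q} = {r, s}` (ARX 2). If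
`p = r`, `q = s` then `P' ⊆ Arc p q` and `P' ⊆ Arc q p`; if `p = s`, `q = r` the same for `P`: (a). (c)
`Sp L P' Q` is a proper subset of the finite set `Sp L P Q` (`Pieces.fin`): it does not contain
`(p, q) ∈ Sp L P Q` by (a). Let `(r, s) ∈ Sp L P' Q`, that is `P' ⊆ Arc r s`, `Q ⊆ Arc s r`, and suppose
that not `P ⊆ Arc r s`. Then `P ⊆ Arc s r` (`unl`), so `p, q ∈ Arc r s ∩ Arc s r`, `{p, q} = {r, s}`. If
`p = r`, `q = s` then `P' ⊆ Arc p q` and `⊆ Arc q p`. If `p = s`, `q = r` then `Q ⊆ Arc s r = Arc p q` and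
`Q ⊆ Arc q p`. Both contradict (a). (d) `(r, s) ↦ (s, r)` is a bijection (`symm`). (e)
`Sp L P R ⊆ Sp L P Q ∪ Sp L Q R` by `unl` for `Q`. (f) (a). -/
def Stmt_PC1 : Prop :=
  ∀ (ℱ : Set (Set Circle)) (L : Set (Circle × Circle)), Pieces ℱ L →
    (∀ P ∈ ℱ, ∀ p q, P ⊆ Arc p q → ¬ P ⊆ Arc q p) ∧
    (∀ P ∈ ℱ, ∀ P' ∈ ℱ, ∀ p q, (p, q) ∈ L → At P p q → At P' p q → P = P') ∧
    (∀ P ∈ ℱ, ∀ P' ∈ ℱ, ∀ Q ∈ ℱ, ∀ p q, (p, q) ∈ L → At P p q → At P' q p → Q ⊆ Arc q p →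
      dS L P' Q < dS L P Q) ∧
    (∀ P ∈ ℱ, ∀ Q ∈ ℱ, dS L P Q = dS L Q P) ∧
    (∀ P ∈ ℱ, ∀ Q ∈ ℱ, ∀ R ∈ ℱ, dS L P R ≤ dS L P Q + dS L Q R) ∧
    ∀ P ∈ ℱ, dS L P P = 0

/-- PC2 (120 lines; uses ARL ARX PC1). Proofs. (a) `r, s ∈ P ⊆ Arc p q` and `p, q ∈ P ⊆ Arc r s`. If
`r ∈ Q` then `r ∈ Arc p q ∩ Arc q p`, so `r ∈ {p, q}`, and the same for `s`. `Q` has three different
points, so there is `z ∈ Q`, `z ≠ p, q`, and then `z ≠ r, s`. `z ∈ Arc q p` says `Ccw q z p`, and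
`Ccw s z r`. ARL for `z`: `θ p < θ q` and `θ r < θ s`; so `θ p ≤ θ r, θ s ≤ θ q` and
`θ r ≤ θ p, θ q ≤ θ s`: `θ p = θ r`, `θ q = θ s`. (b) If `P = Q` then `P ≠ R`, `Pieces.sep` for `R` and
`P` gives `Iso L R P Q`. Let `P ≠ Q`: `Pieces.sep` gives `(p, q) ∈ L` with `At P p q`, `Q ⊆ Arc q p`.
If `R ⊆ Arc q p` we have `Iso L P Q R`. Otherwise `R ⊆ Arc p q` (`unl`). `sep` for `Q`, `P`: `(r, s) ∈ L`
with `At Q r s`, `P ⊆ Arc s r`. If `R ⊆ Arc s r` we have `Iso L Q R P`. Otherwise `R ⊆ Arc r s`. Now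
`r, s ∈ Q ⊆ Arc q p`, so by ARX 3 `Arc r s ⊆ Arc q p`, then `R ⊆ Arc q p`, or `Arc s r ⊆ Arc q p`, then
`P ⊆ Arc q p`: both contradict PC1 (a). -/
def Stmt_PC2 : Prop :=
  ∀ (ℱ : Set (Set Circle)) (L : Set (Circle × Circle)), Pieces ℱ L →
    (∀ P ∈ ℱ, ∀ Q ∈ ℱ, ∀ p q r s, (p, q) ∈ L → (r, s) ∈ L → At P p q → At P r s →
      Q ⊆ Arc q p → Q ⊆ Arc s r → p = r ∧ q = s) ∧
    ∀ P ∈ ℱ, ∀ Q ∈ ℱ, ∀ R ∈ ℱ, ¬ (P = Q ∧ Q = R) → Iso L P Q R ∨ Iso L Q R P ∨ Iso L R P Q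

/-- CNT (80 lines; uses PC1): connectedness. Proof. Strong induction on `dS L P P₀`. If `P ≠ P₀`,
`Pieces.sep` gives `(p, q) ∈ L` with `At P p q`, `P₀ ⊆ Arc q p`, and `Pieces.side` for `(q, p)` a piece
`P'` with `At P' q p`. By PC1 (c) `dS L P' P₀ < dS L P P₀`, so `Φ P'`, and `Φ P` (the hypothesis for the
pieces `P'`, `P` and the line `(q, p)`). -/
def Stmt_CNT : Prop :=
  ∀ (ℱ : Set (Set Circle)) (L : Set (Circle × Circle)), Pieces ℱ L →
    ∀ (Φ : Set Circle → Prop) (P₀ : Set Circle), P₀ ∈ ℱ → Φ P₀ →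
    (∀ P ∈ ℱ, ∀ P' ∈ ℱ, ∀ p q, (p, q) ∈ L → At P p q → At P' q p → Φ P → Φ P') → ∀ P ∈ ℱ, Φ P

/-- TWO (150 lines; uses ARL): glueing of two pieces. Proof. Let `a, b, c ∈ V₁ ∪ V₂`, `Ccw a b c`. If
all three are in `V₁` or all three in `V₂` we are done. By cyclic symmetry and the symmetry of the
claim (exchange `V₁` and `V₂`, `p` and `q`) we may assume `a ∈ V₂`, `a ∉ V₁` and `b, c ∈ V₁`. So
`Ccw p a q` (`a ≠ p, q` since `p, q ∈ V₁`), and `b, c ∈ Arc q p`. ARL for `z = a`: `θ q < θ p`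
(`Ccw p a q`), `θ q ≤ θ b, θ c ≤ θ p`, and `Ccw a b c` says `θ b < θ c`. The images: `Ccw (d p) (d a) (d q)`
(`V₂`). ARL for `z = d a`: `θ'`, `θ' (d q) < θ' (d p)`. Claim: `θ' (d q) ≤ θ' (d b) < θ' (d c) ≤ θ' (d p)`. By
`CyOn d V₁`: if `b ≠ q` then `Ccw q b c` (`θ q < θ b < θ c`), and so on: the triples `(q, b, p)`,
`(q, c, p)`, `(q, b, c)`, `(b, c, p)` which consist of different points are counterclockwise, and so are
their images; from these four and `θ' (d q) < θ' (d p)` the claim follows (`CUT` form of `Ccw` in ARL).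
So `Ccw (d a) (d b) (d c)`. -/
def Stmt_TWO : Prop :=
  ∀ (d : Circle → Circle) (p q : Circle) (V₁ V₂ : Set Circle), p ≠ q → p ∈ V₁ → q ∈ V₁ →
    p ∈ V₂ → q ∈ V₂ → V₁ ⊆ Arc q p → V₂ ⊆ Arc p q → CyOn d V₁ → CyOn d V₂ → CyOn d (V₁ ∪ V₂)

/-! ### Part 2: the glueing theorem -/

/-- GM1 (150 lines; uses PC1 PC2): the Möbius maps of the pieces. Proof. If `ℱ` is empty take `m = 1`.
Let `P₀ ∈ ℱ`. For `P ∈ ℱ`, `P ≠ P₀` choose by `Pieces.sep` a line `e P = (p, q) ∈ L` with `At P p q`,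
`P₀ ⊆ Arc q p` (it is unique by PC2 a) and by `Pieces.side` the piece `par P` with `At (par P) q p`
(unique by PC1 b); `dS L (par P) P₀ < dS L P P₀` (PC1 c). Define `mm : ℕ → Set Circle → H` by
`mm 0 P = 1` and `mm (k + 1) P = mm k (par P) * τ q p`, `(p, q) = e P`, if `P ∈ ℱ`, `P ≠ P₀`, and
`mm (k + 1) P = 1` otherwise. By induction on `k`: `mm k P = mm (k + 1) P` for `P ∈ ℱ`,
`dS L P P₀ ≤ k` (`dS L P P₀ = 0` implies `P = P₀`: otherwise `e P ∈ Sp L P P₀`). Let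
`m P = mm (dS L P P₀) P`; then `m P = m (par P) * τ q p` for `P ≠ P₀`, and all `m P` are Möbius (products:
`Pool.GC.mb2`). Let `(p, q) ∈ L`, `At P p q`, `At P' q p`. By `unl` `P₀ ⊆ Arc q p` or `P₀ ⊆ Arc p q`. In
the first case `P ≠ P₀` (PC1 a), `e P = (p, q)`, `par P = P'`, so `m P = m P' * τ q p`, and
`τ q p = (τ p q)⁻¹` gives the claim. In the second case `P' ≠ P₀`, `e P' = (q, p)`, `par P' = P` and
`m P' = m P * τ p q`. -/
def Stmt_GM1 : Prop :=
  ∀ (ℱ : Set (Set Circle)) (L : Set (Circle × Circle)), Pieces ℱ L →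
    ∀ τ : Circle → Circle → H, (∀ p q, (p, q) ∈ L → IsMob (τ p q) ∧ τ q p = (τ p q)⁻¹) →
    ∃ m : Set Circle → H, (∀ P ∈ ℱ, IsMob (m P)) ∧ ∀ P ∈ ℱ, ∀ P' ∈ ℱ, ∀ p q, (p, q) ∈ L →
      At P p q → At P' q p → m P' = m P * τ p q

/-- GM2 (100 lines; uses ARX PC1): compatible maps of the pieces. Proof. Claim: if `x ∈ P` and `x ∈ Q`,
`P, Q ∈ ℱ`, then `ε P x = ε Q x`. Strong induction on `dS L P Q`. If `P ≠ Q`: `Pieces.sep` gives
`(p, q) ∈ L`, `At P p q`, `Q ⊆ Arc q p`; `x ∈ Arc p q ∩ Arc q p`, so `x = p` or `x = q` (ARX 2). `side`: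
`P'` with `At P' q p`; `dS L P' Q < dS L P Q` (PC1 c), so `ε P' x = ε Q x`, and `ε P x = ε P' x` by
hypothesis. Let `d x = ε P x` for a chosen piece `P` which contains `x` (`d x = x` if there is
none). -/
def Stmt_GM2 : Prop :=
  ∀ (ℱ : Set (Set Circle)) (L : Set (Circle × Circle)), Pieces ℱ L →
    ∀ ε : Set Circle → Circle → Circle,
    (∀ P ∈ ℱ, ∀ P' ∈ ℱ, ∀ p q, (p, q) ∈ L → At P p q → At P' q p →
      ε P p = ε P' p ∧ ε P q = ε P' q) →
    ∃ d : Circle → Circle, ∀ P ∈ ℱ, ∀ x ∈ P, d x = ε P x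

/-- GM3 (150 lines; uses PC1 PC2 TWO): a map which preserves the cyclic order of each piece preserves
the cyclic order of the union. Proof. Claim: for `P, Q, R ∈ ℱ`, `x ∈ P`, `y ∈ Q`, `z ∈ R` we have
`CyOn d {x, y, z}`. Strong induction on `M = dS L P Q + dS L Q R + dS L R P`. If `P = Q = R`, clear.
Otherwise by PC2 (b) and because the claim and `M` (PC1 d) are symmetric we may assume `Iso L P Q R`:
`(p, q) ∈ L`, `At P p q`, `Q, R ⊆ Arc q p`. `side`: `P'` with `At P' q p`. Let `V₁ = {y, z, p, q} ⊆ Arc q p`,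
`V₂ = {x, p, q} ⊆ P ⊆ Arc p q`. `CyOn d V₂` is clear. `CyOn d V₁`: a counterclockwise triple of points of
`V₁` consists of different points, so it is contained in `{y, z, p}`, `{y, z, q}`, `{y, p, q}` or
`{z, p, q}`. Induction hypothesis for `(Q, R, P')` in the first two cases: `dS L P' Q < dS L P Q` and
`dS L P' R < dS L P R` (PC1 c). In the third case for `(Q, P', P')`: `2 dS L Q P' < 2 dS L P Q ≤ M` by
PC1 (d) (e) (f); the fourth case for `(R, P', P')` in the same way. TWO: `CyOn d (V₁ ∪ V₂)`. -/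
def Stmt_GM3 : Prop :=
  ∀ (ℱ : Set (Set Circle)) (L : Set (Circle × Circle)), Pieces ℱ L →
    ∀ d : Circle → Circle, (∀ P ∈ ℱ, CyOn d P) → CyOn d (⋃₀ ℱ)

/-- GLX (60 lines; uses GM1 GM2 GM3): the glueing theorem. Proof. `m` from GM1. For
`ε P x = m P (δ P x)`: `ε P' p = m P' (δ P' p) = m P (τ p q (δ P' p)) = m P (δ P p) = ε P p`, the same for
`q`; `d` from GM2; on `P` the map `d` is `m P ∘ δ P`, and `Ori (m P)` (`q_MOR`): GM3. -/
def Stmt_GLX : Prop :=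
  ∀ (ℱ : Set (Set Circle)) (L : Set (Circle × Circle)), Pieces ℱ L →
    ∀ (δ : Set Circle → Circle → Circle) (τ : Circle → Circle → H), (∀ P ∈ ℱ, CyOn (δ P) P) →
    (∀ p q, (p, q) ∈ L → IsMob (τ p q) ∧ τ q p = (τ p q)⁻¹) →
    (∀ P ∈ ℱ, ∀ P' ∈ ℱ, ∀ p q, (p, q) ∈ L → At P p q → At P' q p →
      τ p q (δ P' p) = δ P p ∧ τ p q (δ P' q) = δ P q) →
    ∃ (m : Set Circle → H) (d : Circle → Circle), (∀ P ∈ ℱ, IsMob (m P)) ∧
      (∀ P ∈ ℱ, ∀ x ∈ P, d x = m P (δ P x)) ∧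
      (∀ P ∈ ℱ, ∀ P' ∈ ℱ, ∀ p q, (p, q) ∈ L → At P p q → At P' q p → m P' = m P * τ p q) ∧
      CyOn d (⋃₀ ℱ)

/-! ### Part 3: Möbius maps -/

/-- MBG (20 lines): Möbius maps form a group. Proof. `Pool.GC.mb1` (`IsMob g` iff `Par g α β` for some
`α`, `β`) and `Pool.GC.mb2`. -/
def Stmt_MBG : Prop :=
  IsMob 1 ∧ (∀ g g' : H, IsMob g → IsMob g' → IsMob (g * g')) ∧ ∀ g : H, IsMob g → IsMob g⁻¹

/-- MXI (60 lines): invariance. Proof. With the parameters `(α, β)` of `g` and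
`D z = ‖conj β z + conj α‖ > 0`: `dist (g z) (g w) = dist z w / (D z D w)` (`Pool.GC.mb1`). The factors
cancel in `X`; `c = D q / D p` in the second claim (both sides are `0` if `y = q`). -/
def Stmt_MXI : Prop :=
  ∀ g : H, IsMob g → (∀ p q v w : Circle, X (g p) (g q) (g v) (g w) = X p q v w) ∧
    ∀ p q : Circle, ∃ c : ℝ, 0 < c ∧ ∀ y : Circle,
      dist (g y) (g p) / dist (g y) (g q) = c * (dist y p / dist y q)

/-- TR3 (120 lines; uses MBG): Möbius maps are transitive on counterclockwise triples. Proof. It is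
enough (MBG) to find for `Ccw a b c` a Möbius map `g` with `g (cusp 1 0) = a`, `g (cusp 0 1) = b`,
`g (cusp 1 1) = c`. Let `a = cusp u`, `b = cusp v`, `c = cusp w` with nonzero vectors of `ℝ ^ 2`
(`q_FA1` 2), `[u, v] = u₁ v₂ - v₁ u₂`. `q_FA1` (6): `0 < [u, v] [v, w] [w, u]`. Then `w = λ u + μ v` with
`λ = [w, v] / [u, v]`, `μ = [u, w] / [u, v]` (Cramer's rule), different from `0`, and
`D = [λ u, μ v] = λ μ [u, v] = [v, w] [w, u] / [u, v] > 0`. Let `r = √D`. The matrix with the columns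
`λ u / r`, `μ v / r` has determinant `1`: `MOF_map q_FA1 q_MEX` gives `g` with
`g (cusp 1 0) = cusp (λ u / r) = cusp u`, `g (cusp 0 1) = cusp v` and
`g (cusp 1 1) = cusp ((λ u + μ v) / r) = cusp (w / r) = cusp w` (`q_FA1` 4). -/
def Stmt_TR3 : Prop :=
  ∀ a b c a' b' c' : Circle, Ccw a b c → Ccw a' b' c' →
    ∃ g : H, IsMob g ∧ g a = a' ∧ g b = b' ∧ g c = c'

/-- RAT (120 lines): the ratio of the distances from the ends of an arc. Proof. `p = exp s`,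
`q = exp t`, `s < t < s + 2π` (`q_ANG` 3). For `s < r < t`: `dist (exp r) (exp s) = 2 sin ((r - s) / 2)`,
`dist (exp r) (exp t) = 2 sin ((t - r) / 2)`, and `Ccw p (exp r) q` (`q_ANG` 1; conversely `q_ANG` 2).
Existence: the continuous function `sin ((r - s) / 2) - ρ sin ((t - r) / 2)` of `r` is negative at `s`
and positive at `t`. Uniqueness: for `y = exp r`, `y' = exp r'` with `a = (r - s) / 2`,
`a' = (r' - s) / 2`, `κ = (t - s) / 2 ∈ (0, π)`:
`sin a sin (κ - a') - sin a' sin (κ - a) = sin κ sin (a - a')`, and this is zero, so `a = a'`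
(`|a - a'| < π`). -/
def Stmt_RAT : Prop :=
  (∀ p q : Circle, p ≠ q → ∀ ρ : ℝ, 0 < ρ → ∃ y, Ccw p y q ∧ dist y p = ρ * dist y q) ∧
  ∀ p q y y' : Circle, Ccw p y q → Ccw p y' q → dist y p * dist y' q = dist y' p * dist y q →
    y = y'

/-- GEX (100 lines; uses MBG MXI TR3 RAT): Möbius maps with prescribed shear. Proof. (1) RAT for the arc
from `q'` to `p'`: there is `y` with `Ccw q' y p'` and `dist y q' = ρ * dist y p'`,
`ρ = t * dist v q' / dist v p'`; then `X p' q' v y = t`. TR3: `τ` maps `(q, w, p)` to `(q', y, p')`. (2)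
`Ccw (τ q) (τ w) (τ p)` and `Ccw (τ q) (τ' w) (τ p)` (`q_MOR`: Möbius maps preserve the orientation); the
equation of the `X` gives (`dist v _ ≠ 0`)
`dist (τ w) (τ q) * dist (τ' w) (τ p) = dist (τ' w) (τ q) * dist (τ w) (τ p)`, so `τ w = τ' w` by RAT. So
`τ⁻¹ * τ'` is Möbius and fixes the three different points `p`, `q`, `w`: it is `1`
(`Pool.GC.mb3`). -/
def Stmt_GEX : Prop :=
  (∀ p q w p' q' v : Circle, Ccw q w p → Ccw p' v q' → ∀ t : ℝ, 0 < t →
    ∃ τ : H, IsMob τ ∧ τ p = p' ∧ τ q = q' ∧ X p' q' v (τ w) = t) ∧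
  ∀ (τ τ' : H) (p q v w : Circle), IsMob τ → IsMob τ' → Ccw q w p → v ≠ τ p → v ≠ τ q →
    τ p = τ' p → τ q = τ' q → X (τ p) (τ q) v (τ w) = X (τ p) (τ q) v (τ' w) → τ = τ'

/-- GLV (150 lines; uses PC1 MXI GEX GLX): the glueing theorem with prescribed shears. Proof. Let
`(p, q) ∈ L`, and `P`, `P'` the pieces with `At P p q`, `At P' q p` (`Pieces.side`, unique by PC1 b, so we
may choose a function `pc p q`). `v = v p q ∈ P`, `w = v q p ∈ P'`: `Ccw p v q`, `Ccw q w p` (`P ⊆ Arc p q`).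
With `δ = δ P`, `δ' = δ P'` GEX (1) for `(δ' p, δ' q, δ' w; δ p, δ q, δ v)` gives a Möbius map `τ p q` which
maps `δ' p` to `δ p`, `δ' q` to `δ q`, `X (δ p) (δ q) (δ v) (τ p q (δ' w)) = t p q`. `σ = (τ p q)⁻¹` has the
same properties as `τ q p`: `X (δ' q) (δ' p) (δ' w) (σ (δ v)) = X (δ q) (δ p) (τ p q (δ' w)) (δ v)` (MXI for
`τ p q`) `= X (δ p) (δ q) (δ v) (τ p q (δ' w))` (`X q p w v = X p q v w` by definition) `= t p q = t q p`; so
`τ q p = (τ p q)⁻¹` by GEX (2). GLX: `m`, `d`. `d p = m P (δ p)`, `d q = m P (δ q)`, `d v = m P (δ v)`,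
`d w = m P' (δ' w) = m P (τ p q (δ' w))`: MXI for `m P`. -/
def Stmt_GLV : Prop :=
  ∀ (ℱ : Set (Set Circle)) (L : Set (Circle × Circle)), Pieces ℱ L →
    ∀ (δ : Set Circle → Circle → Circle) (v : Circle → Circle → Circle) (t : Circle → Circle → ℝ),
    (∀ P ∈ ℱ, CyOn (δ P) P) → (∀ p q, (p, q) ∈ L → t p q = t q p ∧ 0 < t p q) →
    (∀ P ∈ ℱ, ∀ p q, (p, q) ∈ L → At P p q → v p q ∈ P ∧ v p q ≠ p ∧ v p q ≠ q) →
    ∃ (m : Set Circle → H) (d : Circle → Circle), (∀ P ∈ ℱ, IsMob (m P)) ∧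
      (∀ P ∈ ℱ, ∀ x ∈ P, d x = m P (δ P x)) ∧ CyOn d (⋃₀ ℱ) ∧
      ∀ p q, (p, q) ∈ L → X (d p) (d q) (d (v p q)) (d (v q p)) = t p q

/-- GUN (120 lines; uses CNT MXI GEX): uniqueness. Proof. Let `P₀ ∈ ℱ` and `n` the Möbius map for
`P₀`; CNT for `Φ P`: `d' x = n (d x)` for all `x ∈ P`. Let `Φ P`, `(p, q) ∈ L`, `At P p q`, `At P' q p`,
`n'` the Möbius map for `P'`, `v`, `w` from the hypothesis. `n' (d p) = d' p = n (d p)` (as `p ∈ P ∩ P'`),
the same for `q`. `X (n (d p)) (n (d q)) (n (d v)) (n' (d w)) = X (d' p) (d' q) (d' v) (d' w) =`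
`X (d p) (d q) (d v) (d w) = X (n (d p)) (n (d q)) (n (d v)) (n (d w))` (MXI). `w ∈ Arc q p`, so `Ccw q w p`
and `Ccw (d q) (d w) (d p)` (`CyOn d`), and in the same way `Ccw (d p) (d v) (d q)`, so
`n (d v) ≠ n (d p), n (d q)`. GEX (2) for `τ = n`, `τ' = n'` and the points `d p`, `d q`, `n (d v)`, `d w`:
`n = n'`. -/
def Stmt_GUN : Prop :=
  ∀ (ℱ : Set (Set Circle)) (L : Set (Circle × Circle)), Pieces ℱ L → ℱ.Nonempty →
    ∀ d d' : Circle → Circle, CyOn d (⋃₀ ℱ) →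
    (∀ P ∈ ℱ, ∃ n : H, IsMob n ∧ ∀ x ∈ P, d' x = n (d x)) →
    (∀ P ∈ ℱ, ∀ P' ∈ ℱ, ∀ p q, (p, q) ∈ L → At P p q → At P' q p →
      ∃ v ∈ P, ∃ w ∈ P', v ≠ p ∧ v ≠ q ∧ w ≠ p ∧ w ≠ q ∧
        X (d p) (d q) (d v) (d w) = X (d' p) (d' q) (d' v) (d' w)) →
    ∃ n : H, IsMob n ∧ ∀ x ∈ ⋃₀ ℱ, d' x = n (d x)

/-! ### Part 4: triangles with given shears -/

/-- all pieces are triangles -/
def Trs (ℱ : Set (Set Circle)) : Prop := ∀ P ∈ ℱ, ∃ a b c : Circle, Ccw a b c ∧ P = {a, b, c}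

/-- `d` has the shears `z` at the lines -/
def Shear (ℱ : Set (Set Circle)) (L : Set (Circle × Circle)) (z : Circle → Circle → ℝ)
    (d : Circle → Circle) : Prop :=
  ∀ p q v w : Circle, (p, q) ∈ L → Ccw p v q → Ccw q w p → ({p, q, v} : Set Circle) ∈ ℱ →
    ({p, q, w} : Set Circle) ∈ ℱ → X (d p) (d q) (d v) (d w) = Real.exp (z p q)

/-- TRV (50 lines): the triangle at a line. Proof. `P = {a, b, c}` contains `p`, `q`, and
`p ≠ q`; let `v` be the third point. `v ∈ Arc p q` and `v ≠ p, q`. -/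
def Stmt_TRV : Prop :=
  ∀ (ℱ : Set (Set Circle)), Trs ℱ → ∀ P ∈ ℱ, ∀ p q : Circle, p ≠ q → At P p q →
    ∃ v, Ccw p v q ∧ P = {p, q, v}

/-- DV1 (80 lines; uses PC1 GLV TRV): existence of the developing map. Proof. For `(p, q) ∈ L` let
`v p q` be the third point of the triangle `P` with `At P p q` (`Pieces.side`, TRV; choice), so
`Ccw p (v p q) q` and `{p, q, v p q} ∈ ℱ`. If also `Ccw p v' q` and `{p, q, v'} ∈ ℱ` then both triangles
satisfy `At _ p q`, so they are equal (PC1 b) and `v' = v p q`. GLV for `δ P x = x` and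
`t p q = exp (z p q)`. -/
def Stmt_DV1 : Prop :=
  ∀ (ℱ : Set (Set Circle)) (L : Set (Circle × Circle)), Pieces ℱ L → Trs ℱ →
    ∀ z : Circle → Circle → ℝ, (∀ p q, z p q = z q p) →
    ∃ d : Circle → Circle, CyOn d (⋃₀ ℱ) ∧ Shear ℱ L z d

/-- DU1 (80 lines; uses TR3 GUN TRV): uniqueness of the developing map. Proof. GUN. On `P = {a, b, c}`,
`Ccw a b c`, TR3 gives a Möbius map `n` with `n (d a) = d' a`, .. (both images are
counterclockwise). For `(p, q) ∈ L`, `At P p q`, `At P' q p` TRV gives `v`, `w` with `P = {p, q, v}` and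
`P' = {q, p, w} = {p, q, w}`; both `X` are `exp (z p q)`. -/
def Stmt_DU1 : Prop :=
  ∀ (ℱ : Set (Set Circle)) (L : Set (Circle × Circle)), Pieces ℱ L → Trs ℱ → ℱ.Nonempty →
    ∀ (z : Circle → Circle → ℝ) (d d' : Circle → Circle), CyOn d (⋃₀ ℱ) → CyOn d' (⋃₀ ℱ) →
    Shear ℱ L z d → Shear ℱ L z d' → ∃ n : H, IsMob n ∧ ∀ x ∈ ⋃₀ ℱ, d' x = n (d x)

/-! ### Part 5: the boundary map -/

/-- `z` is a possible value at `y` of the boundary map which maps `d x` to `x` for `x ∈ V` -/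
def Rel (V : Set Circle) (d : Circle → Circle) (y z : Circle) : Prop :=
  ∀ a ∈ V, ∀ b ∈ V, Ccw a z b → ¬ Ccw (d b) y (d a)

/-- PI1 (150 lines; uses ARL): existence. Proof. For `a, b ∈ V` with `Ccw (d b) y (d a)` the set
`C a b = {z | ¬ Ccw a z b}` is closed (`area` is continuous). By compactness of the circle
(`isCompact_univ`, finite intersection property) it is enough that for each finite set `S` of such
pairs there is a point in all `C a b`, `(a, b) ∈ S`. Let `F` be the finite set of the coordinates of the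
elements of `S`; if it is empty, any point. If `y = d x` for some `x ∈ F`, take `z = x`: `Ccw a x b` implies
`Ccw (d a) y (d b)`, which excludes `Ccw (d b) y (d a)`. Otherwise let `θ` be from ARL for `y`, `x ∈ F` with
`θ (d x)` maximal, and `z = x`. Suppose `(a, b) ∈ S`, `Ccw a x b`; then `Ccw (d a) (d x) (d b)` and, by
`Ccw (d b) y (d a)`, `θ (d a) < θ (d b)`, so `θ (d a) < θ (d x) < θ (d b)`: a contradiction to the choice
of `x` (`b ∈ F`). -/
def Stmt_PI1 : Prop :=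
  ∀ (V : Set Circle) (d : Circle → Circle), CyOn d V → ∀ y, ∃ z, Rel V d y z

/-- PI2 (150 lines; uses ARL): uniqueness. Proof. Suppose `z ≠ z'`, `z = exp s`, `z' = exp t`,
`s < t < s + 2π` (`q_ANG` 3). `V` is dense and the sets `exp '' Ioo x y`, `x < y < x + 2π`, are open
(`Pool.GC.arc`), so there are `b₁, a₂, b₂, a₁ ∈ V` which are `exp` of
`s < β₁ < α₂ < t < β₂ < α₁ < s + 2π`. `Ccw a₁ z b₁` and `Ccw a₂ z' b₂` (`q_ANG` 1), so by `Rel`: (1) not
`Ccw (d b₁) y (d a₁)`, (2) not `Ccw (d b₂) y (d a₂)`. The points `d b₁, d a₂, d b₂, d a₁` are in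
counterclockwise order (all four triples). If `y = d b₁` or `y = d a₁` then (2) is violated, if `y = d a₂`
or `y = d b₂` then (1) is violated. Otherwise ARL for `y`: `θ (d b₁) < θ (d a₁)` and
`θ (d b₂) < θ (d a₂)`. But the numbers `θ (d b₁), θ (d a₂), θ (d b₂), θ (d a₁)` are increasing up to a
cyclic rotation, and none of the four rotations satisfies both inequalities. -/
def Stmt_PI2 : Prop :=
  ∀ (V : Set Circle) (d : Circle → Circle), Dense V → CyOn d V →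
    ∀ y z z', Rel V d y z → Rel V d y z' → z = z'

/-- PI3 (100 lines; uses PI2): continuity and surjectivity. Proof. The set `{(y, z) | Rel V d y z}` is
closed: if `Ccw a z b` and `Ccw (d b) y (d a)`, `a, b ∈ V`, then this holds for nearby points. By PI2 it
is the graph of `π`. For `C` closed `π ⁻¹' C` is the image of the closed set
`{(y, z) | Rel V d y z ∧ z ∈ C}` under the first projection: `isClosedMap_fst_of_compactSpace`. For
`x ∈ V`: `Rel V d (d x) x`, since `Ccw a x b` implies `Ccw (d a) (d x) (d b)`; so `π (d x) = x`. The range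
of `π` is compact and contains the dense set `V`. -/
def Stmt_PI3 : Prop :=
  ∀ (V : Set Circle) (d π : Circle → Circle), Dense V → CyOn d V → (∀ y, Rel V d y (π y)) →
    Continuous π ∧ Function.Surjective π ∧ ∀ x ∈ V, π (d x) = x

/-- PIC (150 lines; uses MBG PI1 PI2 PI3): the realization. Proof. `π` from PI1 (choice) and PI3. There
are three points `a, b, c ∈ V` with `Ccw a b c` (density), so for `g ∈ G` the Möbius map `m g` with
`d (g x) = m g (d x)` for `x ∈ V` is unique (`Pool.GC.mb3` for `(m)⁻¹ * m'` and the points `d a`, `d b`,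
`d c`). So `m (g g') = m g * m g'`: a homomorphism `ρ : G →* H` (`MonoidHom.mk'`). If `Rel V d y z` and
`g ∈ G` then `Rel V d (m g y) (g z)`: let `a, b ∈ V`, `Ccw a (g z) b`, `Ccw (d b) (m g y) (d a)`; then
`Ccw (g⁻¹ a) z (g⁻¹ b)` (`Ori g⁻¹`, `q_MOR`), `g⁻¹ a, g⁻¹ b ∈ V`, and
`Ccw ((m g)⁻¹ (d b)) y ((m g)⁻¹ (d a))` with `(m g)⁻¹ (d x) = d (g⁻¹ x)`: a contradiction. So
`π (m g y) = g (π y)` by PI2. -/
def Stmt_PIC : Prop :=
  ∀ (G : Subgroup H) (V : Set Circle) (d : Circle → Circle), (∀ g ∈ G, Ori g) → Dense V →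
    (∀ g ∈ G, ∀ x ∈ V, g x ∈ V) → CyOn d V →
    (∀ g ∈ G, ∃ m : H, IsMob m ∧ ∀ x ∈ V, d (g x) = m (d x)) → RealizedW G

end Pool.SH
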