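import Pool.Agent.Work.MP_ae1ff6_sh.Defs
import Pool.Agent.Work.MP_ae1ff6_sh.InterfaceG

/-!
# Realization of big mapping classes (MP_ae1ff6_gt): one region

The interface between the part L3 (`InterfaceT`, triangulation of a region by retraction) and the part L4
(`InterfaceF`, fans, weights and developing maps of the regions).
-/

open Topology Filter Set
open scoped ComplexConjugate

set_option autoImplicit false

namespace Pool.SH

open Pool.CG Pool.AR

/-- what is used about the triangulation of one region `K`: the triangles are pieces; at a gap `(p, q)` of `K`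
the point `p` is a vertex; either `(p, q)` is a side of a triangle, or `q` is not a vertex and there is an
infinite fan at `p` which converges to `(p, q)` -/
structure Fans (K : Set Circle) (T : Set (Circle × Circle)) : Prop where
  pcs : Pieces (TT K T) (TL K T)
  trs : Trs (TT K T)
  nonempty : (TT K T).Nonempty
  sub : ∀ P ∈ TT K T, P ⊆ K
  start : ∀ p q, Gap K p q → ∃ P ∈ TT K T, p ∈ P
  fan : ∀ p q, Gap K p q → (∃ c, Ccw q c p ∧ ({p, q, c} : Set Circle) ∈ TT K T) ∨
    ((∀ P ∈ TT K T, q ∉ P) ∧
      ∃ v : ℕ → Circle, (∀ j, Nx K T p (v j) (v (j + 1))) ∧ Tendsto v atTop (𝓝 q))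

/-- output of L3: the triangulation of a closed set by retraction -/
def Stmt_TFN : Prop :=
  ∀ (K : Set Circle) (T : Set (Circle × Circle)), Tri T → IsClosed K →
    (∃ a ∈ K, ∃ b ∈ K, ∃ c ∈ K, Ccw a b c) → Fans K T

/-- output of L3: equivariance -/
def Stmt_TEQ : Prop :=
  ∀ (K : Set Circle) (T T' : Set (Circle × Circle)) (g : H), Ori g →
    (∀ x y, (x, y) ∈ T → (g x, g y) ∈ T') →
    (∀ P ∈ TT K T, (g : H) '' P ∈ TT (g '' K) T') ∧
    (∀ p q, (p, q) ∈ TL K T → (g p, g q) ∈ TL (g '' K) T') ∧
    (∀ p q, Gap K p q → Gap (g '' K) (g p) (g q)) ∧ (∀ x ∈ Vt K T, g x ∈ Vt (g '' K) T') ∧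
    ∀ p b c, Nx K T p b c → Nx (g '' K) T' (g p) (g b) (g c)

end Pool.SH
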