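import Pool.Agent.Work.MP_ae1ff6_sh.InterfaceT
import Pool.Agent.Work.MP_ae1ff6_sh.DefsF

/-!
# Block TEQ: equivariance of the triangulation of a region
-/

open Topology Filter Set
open scoped ComplexConjugate

set_option autoImplicit false

namespace Pool.SH

open Pool.CG Pool.AR

theorem TEQ_TE {K : Set Circle} {T T' : Set (Circle × Circle)} (h : T ⊆ T') {e : Circle × Circle}
    (he : e ∈ TE K T) : e ∈ TE K T' := by
  obtain ⟨h1, x, y, hxy, hx, hy⟩ := he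
  exact ⟨h1, x, y, h hxy, hx, hy⟩

theorem TEQ_TT {K : Set Circle} {T T' : Set (Circle × Circle)} (h : T ⊆ T') {P : Set Circle}
    (he : P ∈ TT K T) : P ∈ TT K T' := by
  obtain ⟨a, b, c, x, y, z, h1, h2, h3, h4, h5, h6, h7⟩ := he
  exact ⟨a, b, c, x, y, z, h1, h2, h3, h h4, h h5, h h6, h7⟩

theorem p_TEQ (h1 : Stmt_RTE) : Stmt_TEQ := by
  intro K T T' g hg hT
  let T₁ : Set (Circle × Circle) := {e | ∃ x y, (x, y) ∈ T ∧ e = (g x, g y)}
  have hT₁ : ∀ x y, (x, y) ∈ T ↔ (g x, g y) ∈ T₁ := by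
    intro x y
    constructor
    · intro h
      exact ⟨x, y, h, rfl⟩
    · rintro ⟨x', y', h, he⟩
      have e1 : g x = g x' := congrArg Prod.fst he
      have e2 : g y = g y' := congrArg Prod.snd he
      rw [g.injective e1, g.injective e2]
      exact h
  have hsub : T₁ ⊆ T' := by
    rintro e ⟨x, y, h, rfl⟩
    exact hT x y h
  obtain ⟨-, -, hgap, -, hTL, hTT, hVt, hNx⟩ := h1 K T T₁ g hg hT₁
  refine ⟨?_, ?_, ?_, ?_, ?_⟩
  · intro P hP
    exact TEQ_TT hsub ((hTT P).1 hP)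
  · intro p q hpq
    obtain ⟨h2, h3⟩ := (hTL p q).1 hpq
    exact ⟨TEQ_TE hsub h2, h3⟩
  · intro p q hpq
    exact (hgap p q).1 hpq
  · intro x hx
    rcases (hVt x).1 hx with ⟨P, hP, hxP⟩ | h
    · exact Or.inl ⟨P, TEQ_TT hsub hP, hxP⟩
    · exact Or.inr h
  · intro p b c hN
    obtain ⟨h2, h3⟩ := (hNx p b c).1 hN
    exact ⟨h2, TEQ_TT hsub h3⟩

end Pool.SH
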