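import Pool.Agent.Work.MP_ae1ff6_sh.InterfaceT

/-!
# TEU: image edges
-/

open Topology Filter Set
open scoped ComplexConjugate

set_option autoImplicit false

namespace Pool.SH

open Pool.CG Pool.AR

theorem TEU_btw (h : Stmt_RTM) {K : Set Circle} {x y z a b c : Circle} (h1 : Ret K x a)
    (h2 : Ret K y b) (h3 : Ret K z c) (hxy : x ≠ y) (hc : Ccw a c b) : Ccw x z y := by
  obtain ⟨hn, -, -, hab⟩ := q_CYO.2.1 _ _ _ hc
  obtain ⟨-, hac, hcb, -⟩ := q_CYO.2.1 _ _ _ hc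
  have hz : z ∉ Arc y x := by
    intro hz
    rcases h.2 K y x z b a c h2 h1 h3 hab.symm hz with e | e | e
    · exact hcb e
    · exact hac e.symm
    · exact hn (q_CYO.1 _ _ _ (q_CYO.1 _ _ _ e))
  have z1 : z ≠ y := fun e => hz (Or.inl e)
  have z2 : z ≠ x := fun e => hz (Or.inr (Or.inl e))
  have z3 : ¬ Ccw y z x := fun e => hz (Or.inr (Or.inr e))
  rcases q_CYO.2.2.1 x z y z2.symm z1 hxy with e | e
  · exact e
  · exact absurd (q_CYO.1 _ _ _ e) z3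

theorem TEU_sym {K : Set Circle} {T : Set (Circle × Circle)} (hT : Tri T) {p q : Circle}
    (h : (p, q) ∈ TE K T) : (q, p) ∈ TE K T := by
  obtain ⟨h0, x, y, hxy, h1, h2⟩ := h
  exact ⟨fun e => h0 e.symm, y, x, hT.symm x y hxy, h2, h1⟩

theorem TEU_two {K : Set Circle} {T : Set (Circle × Circle)} (hT : Tri T) :
    ∀ P ∈ TT K T, ∀ a ∈ P, a ∈ K ∧ ∀ b ∈ P, a ≠ b → (a, b) ∈ TE K T := by
  rintro P ⟨a, b, c, x, y, z, -, rfl, -, hxy, hyz, hzx, ha, hb, hc⟩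
  have e1 : a ≠ b → (a, b) ∈ TE K T := fun h => ⟨h, x, y, hxy, ha, hb⟩
  have e2 : b ≠ c → (b, c) ∈ TE K T := fun h => ⟨h, y, z, hyz, hb, hc⟩
  have e3 : c ≠ a → (c, a) ∈ TE K T := fun h => ⟨h, z, x, hzx, hc, ha⟩
  have f1 : b ≠ a → (b, a) ∈ TE K T := fun h => TEU_sym hT (e1 h.symm)
  have f2 : c ≠ b → (c, b) ∈ TE K T := fun h => TEU_sym hT (e2 h.symm)
  have f3 : a ≠ c → (a, c) ∈ TE K T := fun h => TEU_sym hT (e3 h.symm)
  intro u hu
  rcases hu with rfl | rfl | rfl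
  · refine ⟨ha.1, fun v hv hne => ?_⟩
    rcases hv with rfl | rfl | rfl
    · exact absurd rfl hne
    · exact e1 hne
    · exact f3 hne
  · refine ⟨hb.1, fun v hv hne => ?_⟩
    rcases hv with rfl | rfl | rfl
    · exact f1 hne
    · exact absurd rfl hne
    · exact e2 hne
  · refine ⟨hc.1, fun v hv hne => ?_⟩
    rcases hv with rfl | rfl | rfl
    · exact e3 hne
    · exact f2 hne
    · exact absurd rfl hne

theorem TEU_three (h : Stmt_RTM) {K : Set Circle} {T : Set (Circle × Circle)} (hT : Tri T) :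
    ∀ a b c d, (a, b) ∈ TE K T → (c, d) ∈ TE K T → ¬ Link a b c d := by
  rintro a b c d ⟨hab, x, y, hxy, hx, hy⟩ ⟨hcd, z, w, hzw, hz, hw⟩ hl
  have nxy : x ≠ y := hT.ne x y hxy
  refine hT.unlinked x y z w hxy hzw ((q_LKC x y z w).2 ?_)
  rcases (q_LKC a b c d).1 hl with ⟨h1, h2⟩ | ⟨h1, h2⟩
  · exact Or.inl ⟨TEU_btw h hx hy hz nxy h1, TEU_btw h hy hx hw nxy.symm h2⟩
  · exact Or.inr ⟨TEU_btw h hx hy hw nxy h1, TEU_btw h hy hx hz nxy.symm h2⟩

theorem TEU_aux (h : Stmt_RTM) {K : Set Circle} {T : Set (Circle × Circle)} (hT : Tri T)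
    {p b c c' : Circle} (h1 : Nx K T p b c) (h2 : Nx K T p b c') (h3 : Ccw p c c') : False := by
  obtain ⟨k1, m1⟩ := h1
  obtain ⟨k2, m2⟩ := h2
  have e1 : (p, c') ∈ TE K T :=
    (TEU_two hT _ m2 p (by simp)).2 c' (by simp) (q_CYO.2.1 _ _ _ k2).2.1
  have e2 : (c, b) ∈ TE K T :=
    (TEU_two hT _ m1 c (by simp)).2 b (by simp) (q_CYO.2.1 _ _ _ k1).2.2.1
  exact TEU_three h hT p c' c b e1 e2 ((q_LKC p c' c b).2 (Or.inl ⟨h3, q_CYO.1 _ _ _ k2⟩))

theorem TEU_four (h : Stmt_RTM) {K : Set Circle} {T : Set (Circle × Circle)} (hT : Tri T)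
    {p b c c' : Circle} (h1 : Nx K T p b c) (h2 : Nx K T p b c') : c = c' := by
  by_contra hne
  rcases q_CYO.2.2.1 p c c' (q_CYO.2.1 _ _ _ h1.1).2.1 hne (q_CYO.2.1 _ _ _ h2.1).2.1 with e | e
  · exact TEU_aux h hT h1 h2 e
  · exact TEU_aux h hT h2 h1 e

theorem p_TEU (h1 : Stmt_RTM) : Stmt_TEU := by
  intro K T hT
  refine ⟨fun p q h => TEU_sym hT h, TEU_two hT, TEU_three h1 hT,
    fun p b c c' h h' => TEU_four h1 hT h h', ?_⟩
  intro p b c v w hN hv hv' hw hw'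
  constructor
  · refine TEU_four h1 hT (p := p) (b := b) ⟨hv', ?_⟩ hN
    have e : ({p, v, b} : Set Circle) = {p, b, v} := by
      ext t
      simp only [Set.mem_insert_iff, Set.mem_singleton_iff]
      tauto
    rw [e]
    exact hv
  · refine ⟨hw', ?_⟩
    have e : ({b, w, p} : Set Circle) = {p, b, w} := by
      ext t
      simp only [Set.mem_insert_iff, Set.mem_singleton_iff]
      tauto
    rw [e]
    exact hw

end Pool.SH
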