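import Pool.Agent.Work.MP_ae1ff6_sh.InterfaceT
import Pool.Agent.Work.MP_ae1ff6_sh.DefsF

/-!
# Block TFN: the output of the part L3
-/

open Topology Filter Set
open scoped ComplexConjugate

set_option autoImplicit false

namespace Pool.SH

open Pool.CG Pool.AR

theorem TFN_tendsto (p q : Circle) (v : ℕ → Circle) (hpq : p ≠ q)
    (hv : ∀ j, Ccw q (v (j + 1)) (v j))
    (hex : ∀ k, Ccw p q k → ∃ j, Ccw q (v j) k) : Tendsto v atTop (𝓝 q) := by
  obtain ⟨hA1, hA2, hA3, -⟩ := Pool.AR.q_ANG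
  obtain ⟨-, -, -, hC4⟩ := Pool.AR.q_CYO
  obtain ⟨s, t, hst, hts, rfl, rfl⟩ := hA3 p q hpq
  rw [tendsto_atTop']
  intro N hN
  have hcont : ContinuousAt Circle.exp t := Circle.exp.continuous.continuousAt
  have hpre : Circle.exp ⁻¹' N ∈ 𝓝 t := hcont hN
  obtain ⟨δ, hδ, hball⟩ := Metric.mem_nhds_iff.1 hpre
  set δ' : ℝ := min (δ / 2) ((s + 2 * Real.pi - t) / 2) with hδ'
  have h1 : 0 < δ' := lt_min (by linarith) (by linarith)
  have h2 : δ' ≤ δ / 2 := min_le_left _ _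
  have h3 : δ' ≤ (s + 2 * Real.pi - t) / 2 := min_le_right _ _
  obtain ⟨j, hj⟩ := hex (Circle.exp (t + δ')) (hA1 s t (t + δ') hst (by linarith) (by linarith))
  refine ⟨j, fun i hi => ?_⟩
  have key : ∀ i, j ≤ i → Ccw (Circle.exp t) (v i) (Circle.exp (t + δ')) := by
    intro i hi
    induction i, hi using Nat.le_induction with
    | base => exact hj
    | succ n hn ih => exact (hC4 _ _ _ _ (hv n) ih).1
  obtain ⟨r, hr1, hr2, hr3⟩ := hA2 t (t + δ') (v i) (by linarith) (by linarith) (key i hi)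
  rw [hr3]
  apply hball
  rw [Metric.mem_ball, Real.dist_eq, abs_lt]
  constructor <;> linarith

theorem p_TFN (h1 : Stmt_TEU) (h2 : Stmt_PCT) (h3 : Stmt_TNE) (h4 : Stmt_FAN) : Stmt_TFN := by
  intro K T hT hK h3p
  have hB : Big K := ⟨hK, h3p⟩
  obtain ⟨hP, hTr⟩ := h2 K T hB hT
  obtain ⟨-, hsub, -, -, -⟩ := h1 K T hT
  obtain ⟨hC1, -, -, hC4⟩ := Pool.AR.q_CYO
  refine ⟨hP, hTr, h3 K T hB hT, ?_, ?_, ?_⟩
  · intro P hPm x hx
    exact (hsub P hPm x hx).1
  · intro p q hg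
    exact (h4 K T hB hT p q hg).1
  · intro p q hg
    rcases (h4 K T hB hT p q hg).2 with ⟨-, v, hv1, hv2⟩ | ⟨-, hq, v, hv, hex, -⟩
    · refine Or.inl ⟨v, hv1, ?_⟩
      have e : ({p, q, v} : Set Circle) = {q, v, p} := by
        ext z
        simp only [mem_insert_iff, mem_singleton_iff]
        tauto
      rw [e]
      exact hv2
    · refine Or.inr ⟨hq, v, fun j => (hv j).1, ?_⟩
      refine TFN_tendsto p q v hg.2.2.1 ?_ hex
      intro j
      -- Ccw p q (v (j+1)), Ccw p (v (j+1)) (v j)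
      exact (hC4 _ _ _ _ (hv (j + 1)).2.1 (hv j).1.1).2

end Pool.SH
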