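import Pool.Agent.Work.MP_ae1ff6_sh.InterfaceL

/-!
# Block TKP (typed by helper43)
-/

open Topology Filter Set
open scoped ComplexConjugate

set_option autoImplicit false

namespace Pool.SH

open Pool.CG Pool.AR

theorem TKP_inv (h1 : Stmt_GEL) (Γ : Subgroup H) (f : H) (hf : ∀ γ, γ ∈ Γ ↔ f * γ * f⁻¹ ∈ Γ) (κ : H)
    (hκ : κ ∈ Γ) (k : ℤ) : ∃ κ' ∈ Γ, (κ * f ^ k)⁻¹ = κ' * f ^ (-k) := by
  refine ⟨f ^ (-k) * κ⁻¹ * (f ^ (-k))⁻¹, (h1 Γ f hf).2.1 (-k) κ⁻¹ (Γ.inv_mem hκ), ?_⟩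
  group

/-- the levels are shifted -/
theorem TKP_lev (h1 : Stmt_GEL) (h2 : Stmt_SHB) (Γ : Subgroup H) (f : H) (A : Set (Circle × Circle))
    (hf : ∀ γ, γ ∈ Γ ↔ f * γ * f⁻¹ ∈ Γ) (hA : Fam Γ f A) (κ : H) (hκ : κ ∈ Γ) (k n : ℤ) (K : Set Circle)
    (hK : Lev f A K n) : Lev f A (((κ * f ^ k : H) : Circle → Circle) '' K) (n + k) := by
  obtain ⟨-, -, -, -, h5, -⟩ := h2 Γ f A hf hA
  obtain ⟨⟨a, ha, x, hx, y, hy, hl⟩, hK2⟩ := hK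
  refine ⟨⟨((κ * f ^ k) a.1, (κ * f ^ k) a.2), h5 κ hκ k n a.1 a.2 ha, _, ⟨x, hx, rfl⟩, _, ⟨y, hy, rfl⟩,
    Pool.GC.lhi _ _ _ _ _ hl⟩, ?_⟩
  rintro m hm b hb _ ⟨x', hx', rfl⟩ _ ⟨y', hy', rfl⟩ hl'
  obtain ⟨κ', hκ', hinv⟩ := TKP_inv h1 Γ f hf κ hκ k
  have hb' := h5 κ' hκ' (-k) m b.1 b.2 hb
  have hl2 := Pool.GC.lhi ((κ * f ^ k)⁻¹) _ _ _ _ hl'
  have e : ∀ z : Circle, ((κ * f ^ k)⁻¹ : H) ((κ * f ^ k : H) z) = z := fun z => by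
    have := congrArg (fun g : H => g z) (inv_mul_cancel (κ * f ^ k))
    exact this
  rw [e, e, hinv] at hl2
  exact hK2 (m + -k) (by omega) _ hb' x' hx' y' hy' hl2

theorem TKP_tri (h1 : Stmt_GEL) (Γ : Subgroup H) (f : H) (T₀ : Set (Circle × Circle))
    (hf : ∀ γ, γ ∈ Γ ↔ f * γ * f⁻¹ ∈ Γ) (hT : Keeps Γ T₀) (κ : H) (hκ : κ ∈ Γ) (k n : ℤ) (x y : Circle)
    (h : (x, y) ∈ sh f n T₀) : ((κ * f ^ k) x, (κ * f ^ k) y) ∈ sh f (n + k) T₀ := by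
  have hκ2 := (h1 Γ f hf).2.1 (-(n + k)) κ hκ
  have h' := hT _ hκ2 _ _ h
  have e : f ^ (-(n + k)) * κ * (f ^ (-(n + k)))⁻¹ * f ^ (-n) = f ^ (-(n + k)) * (κ * f ^ k) := by
    rw [← zpow_neg, mul_assoc, ← zpow_add, mul_assoc]
    congr 3
    ring
  have ez : ∀ z : Circle, (f ^ (-(n + k)) * κ * (f ^ (-(n + k)))⁻¹ : H) ((f ^ (-n) : H) z) =
      (f ^ (-(n + k)) : H) ((κ * f ^ k : H) z) := fun z => congrArg (fun g : H => g z) e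
  change ((f ^ (-(n + k)) : H) ((κ * f ^ k : H) x), (f ^ (-(n + k)) : H) ((κ * f ^ k : H) y)) ∈ T₀
  rw [← ez, ← ez]
  exact h'

/-- Block TKP. -/
theorem p_TKP (h1 : Stmt_GEL) (h2 : Stmt_SHB) (h3 : Stmt_LEV) (h4 : Stmt_TRS) : Stmt_TKP := by
  intro Γ f A T₀ hΓ hf hA hO hT hKT
  obtain ⟨hex, hun⟩ := h3 Γ f A hΓ hf hA
  refine ⟨?_, ?_⟩
  · intro K hK
    obtain ⟨n, hn⟩ := hex K hK
    have : TK f A T₀ K = sh f n T₀ := by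
      ext a
      constructor
      · rintro ⟨m, hm, ha⟩
        rw [hun K n m hn hm]
        exact ha
      · exact fun ha => ⟨n, hn, ha⟩
    rw [this]
    exact h4 f T₀ hO hT n
  · rintro g hg K hK x y ⟨n, hn, hxy⟩
    obtain ⟨κ, hκ, k, rfl⟩ := ((h1 Γ f hf).1 g).1 hg
    exact ⟨n + k, TKP_lev h1 h2 Γ f A hf hA κ hκ k n K hn, TKP_tri h1 Γ f T₀ hf hKT κ hκ k n x y hxy⟩

end Pool.SH
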