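import Pool.Agent.Work.MP_ae1ff6_sh.InterfaceT

open Topology Filter Set
open scoped ComplexConjugate

set_option autoImplicit false

namespace Pool.SH

open Pool.CG Pool.AR

lemma TNE_third {K : Set Circle} (hK : Big K) (p v : Circle) : ∃ k ∈ K, k ≠ p ∧ k ≠ v := by
  obtain ⟨-, a, ha, b, hb, c, hc, habc⟩ := hK
  obtain ⟨-, hab, hbc, hac⟩ := q_CYO.2.1 a b c habc
  by_cases h1 : a ≠ p ∧ a ≠ v
  · exact ⟨a, ha, h1⟩
  by_cases h2 : b ≠ p ∧ b ≠ v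
  · exact ⟨b, hb, h2⟩
  refine ⟨c, hc, ?_, ?_⟩
  · rintro rfl
    have h3 : a = v := by
      by_contra h
      exact h1 ⟨hac, h⟩
    have h4 : b = v := by
      by_contra h
      exact h2 ⟨hbc, h⟩
    exact hab (h3.trans h4.symm)
  · rintro rfl
    have h3 : a = p := by
      by_contra h
      exact h1 ⟨h, hac⟩
    have h4 : b = p := by
      by_contra h
      exact h2 ⟨h, hbc⟩
    exact hab (h3.trans h4.symm)

theorem p_TNE (h1 : Stmt_RTX) (h2 : Stmt_SID) (h3 : Stmt_GP2) : Stmt_TNE := by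
  intro K T hK hT
  obtain ⟨c1, c2, c3, c4⟩ := q_CYO
  by_cases hg : ∃ p q, Gap K p q
  · obtain ⟨p, q, hpq⟩ := hg
    obtain ⟨k, hk, hkp, hkq⟩ := TNE_third hK p q
    have hpqk : Ccw p q k := by
      rcases c3 p k q (Ne.symm hkp) hkq hpq.2.2.1 with h | h
      · exact absurd h (hpq.2.2.2 k hk)
      · exact h
    obtain ⟨v, hv, -⟩ := h3 K T hK hT p q k hpq hpqk
    have hpv : p ≠ v := hv.1
    obtain ⟨k', hk', hkp', hkv'⟩ := TNE_third hK p v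
    rcases c3 p k' v (Ne.symm hkp') hkv' hpv with h | h
    · obtain ⟨w, -, hw⟩ := h2 K T hK hT p v hv ⟨k', hk', h⟩
      exact ⟨_, hw⟩
    · have hv' : (v, p) ∈ TE K T := by
        obtain ⟨-, x, y, hxy, hx, hy⟩ := hv
        exact ⟨Ne.symm hpv, y, x, hT.symm x y hxy, hy, hx⟩
      obtain ⟨w, -, hw⟩ := h2 K T hK hT v p hv' ⟨k', hk', c1 _ _ _ h⟩
      exact ⟨_, hw⟩
  · have hall : ∀ u, u ∈ K := by
      intro u
      by_contra hu
      obtain ⟨w, hw⟩ := h1.1 K hK u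
      obtain ⟨q, hq, -⟩ := h1.2.2.2.1 K hK u w hw hu
      exact hg ⟨w, q, hq⟩
    obtain ⟨⟨x, y⟩, hxy⟩ := hT.nonempty
    have hTE : (x, y) ∈ TE K T :=
      ⟨hT.ne x y hxy, x, y, hxy, h1.2.2.1 K x (hall x), h1.2.2.1 K y (hall y)⟩
    obtain ⟨z, hz, -⟩ := hT.third x y hxy
    obtain ⟨w, -, hw⟩ := h2 K T hK hT x y hTE ⟨z, hall z, hz⟩
    exact ⟨_, hw⟩

end Pool.SH
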