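import Pool.Agent.Work.MP_ae1ff6_sh.InterfaceT

/-! # Block TSD -/

open Topology Filter Set
open scoped ComplexConjugate

set_option autoImplicit false

namespace Pool.SH

open Pool.CG Pool.AR

theorem TSD_pair (hX : Stmt_ARX) {T : Set (Circle × Circle)} (hT : Tri T) (x y u v : Circle)
    (hxy : (x, y) ∈ T) (huv : (u, v) ∈ T ∨ u = v) : u ∈ Arc x y ∨ v ∈ Arc y x := by
  have hne := hT.ne x y hxy
  by_contra hcon
  rw [not_or] at hcon
  obtain ⟨h1, h2⟩ := hcon
  have h3 : u ∈ Arc y x := (hX.1 x y u hne).resolve_left h1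
  have h4 : v ∈ Arc x y := (hX.1 x y v hne).resolve_right h2
  have h5 : Ccw y u x := by
    rcases h3 with h | h | h
    · exact absurd (Or.inr (Or.inl h)) h1
    · exact absurd (Or.inl h) h1
    · exact h
  have h6 : Ccw x v y := by
    rcases h4 with h | h | h
    · exact absurd (Or.inr (Or.inl h)) h2
    · exact absurd (Or.inl h) h2
    · exact h
  rcases huv with h | h
  · exact hT.unlinked x y v u hxy (hT.symm _ _ h) ((q_LKC x y v u).2 (Or.inl ⟨h6, h5⟩))
  · rw [h] at h1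
    exact h1 (Or.inr (Or.inr h6))

theorem TSD_one (hX : Stmt_ARX) {T : Set (Circle × Circle)} (hT : Tri T) (a b c : Circle)
    (hab : (a, b) ∈ T) (hbc : (b, c) ∈ T) (hca : (c, a) ∈ T) (x y : Circle) (hxy : (x, y) ∈ T) :
    (a ∈ Arc x y ∧ b ∈ Arc x y ∧ c ∈ Arc x y) ∨
      (a ∈ Arc y x ∧ b ∈ Arc y x ∧ c ∈ Arc y x) := by
  have hba := hT.symm _ _ hab
  have hcb := hT.symm _ _ hbc
  have hac := hT.symm _ _ hca
  by_cases ha : a ∈ Arc x y
  · by_cases hb : b ∈ Arc x y
    · by_cases hc : c ∈ Arc x y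
      · exact Or.inl ⟨ha, hb, hc⟩
      · right
        exact ⟨(TSD_pair hX hT x y c a hxy (Or.inl hca)).resolve_left hc,
          (TSD_pair hX hT x y c b hxy (Or.inl hcb)).resolve_left hc,
          (TSD_pair hX hT x y c c hxy (Or.inr rfl)).resolve_left hc⟩
    · right
      exact ⟨(TSD_pair hX hT x y b a hxy (Or.inl hba)).resolve_left hb,
        (TSD_pair hX hT x y b b hxy (Or.inr rfl)).resolve_left hb,
        (TSD_pair hX hT x y b c hxy (Or.inl hbc)).resolve_left hb⟩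
  · right
    exact ⟨(TSD_pair hX hT x y a a hxy (Or.inr rfl)).resolve_left ha,
      (TSD_pair hX hT x y a b hxy (Or.inl hab)).resolve_left ha,
      (TSD_pair hX hT x y a c hxy (Or.inl hac)).resolve_left ha⟩

theorem TSD_mem (a b c z : Circle) (h1 : z ∈ Arc b a) (h2 : z ∈ Arc c b)
    (h3 : z ∈ Arc a c) : z ∈ ({a, b, c} : Set Circle) := by
  have rot := q_CYO.1
  rw [mem_insert_iff, mem_insert_iff, mem_singleton_iff]
  rcases h1 with h1 | h1 | h1
  · exact Or.inr (Or.inl h1)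
  · exact Or.inl h1
  rcases h2 with h2 | h2 | h2
  · exact Or.inr (Or.inr h2)
  · exact Or.inr (Or.inl h2)
  rcases h3 with h3 | h3 | h3
  · exact Or.inl h3
  · exact Or.inr (Or.inr h3)
  exfalso
  have k1 : Ccw a b z := rot _ _ _ (rot _ _ _ h1)
  have k3 := q_CYO.2.2.2 a b z c k1 h3
  have k4 : Ccw b c z := rot _ _ _ (rot _ _ _ h2)
  exact (q_CYO.2.1 _ _ _ k4).1 k3.2

theorem p_TSD (hX : Stmt_ARX) : Stmt_TSD := by
  intro T hT a b c habc hab hbc hca
  refine ⟨fun x y hxy => TSD_one hX hT a b c hab hbc hca x y hxy, ?_⟩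
  intro d e f hdef hde hef hfd hne
  by_contra hcon
  rw [not_or, not_or] at hcon
  obtain ⟨n1, n2, n3⟩ := hcon
  have m1 := (TSD_one hX hT d e f hde hef hfd a b hab).resolve_left n1
  have m2 := (TSD_one hX hT d e f hde hef hfd b c hbc).resolve_left n2
  have m3 := (TSD_one hX hT d e f hde hef hfd c a hca).resolve_left n3
  have e1 := TSD_mem a b c d m1.1 m2.1 m3.1
  have e2 := TSD_mem a b c e m1.2.1 m2.2.1 m3.2.1
  have e3 := TSD_mem a b c f m1.2.2 m2.2.2 m3.2.2
  have hsub : ({d, e, f} : Set Circle) ⊆ {a, b, c} := by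
    intro z hz
    rcases hz with rfl | rfl | rfl
    · exact e1
    · exact e2
    · exact e3
  obtain ⟨-, q1, q2, q3⟩ := q_CYO.2.1 a b c habc
  obtain ⟨-, r1, r2, r3⟩ := q_CYO.2.1 d e f hdef
  have c1 : ({a, b, c} : Set Circle).ncard = 3 :=
    Set.ncard_eq_three.2 ⟨a, b, c, q1, q3, q2, rfl⟩
  have c2 : ({d, e, f} : Set Circle).ncard = 3 :=
    Set.ncard_eq_three.2 ⟨d, e, f, r1, r3, r2, rfl⟩
  exact hne (Set.eq_of_subset_of_ncard_le hsub (by rw [c1, c2]) (Set.toFinite _))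

end Pool.SH
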