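import Pool.Agent.Work.MP_ae1ff6_sh.InterfaceL

/-!
# U4P: four points on the circle
-/

open Topology Filter Set
open scoped ComplexConjugate

set_option autoImplicit false

namespace Pool.SH

open Pool.CG Pool.AR

/-- the statement for real coordinates, `x` is the smallest one -/
theorem U4P_real (x y z w p q : ℝ) (hy : x ≤ y) (hz : x ≤ z) (hw : x ≤ w) (hp : x ≤ p) (hq : x ≤ q)
    (h1 : (((x < z ∧ z < y) ∨ (z < y ∧ y < x) ∨ (y < x ∧ x < z)) ∧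
        ((y < w ∧ w < x) ∨ (w < x ∧ x < y) ∨ (x < y ∧ y < w))) ∨
      (((x < w ∧ w < y) ∨ (w < y ∧ y < x) ∨ (y < x ∧ x < w)) ∧
        ((y < z ∧ z < x) ∨ (z < x ∧ x < y) ∨ (x < y ∧ y < z))))
    (h2 : (((p < x ∧ x < q) ∨ (x < q ∧ q < p) ∨ (q < p ∧ p < x)) ∧
        ((q < z ∧ z < p) ∨ (z < p ∧ p < q) ∨ (p < q ∧ q < z))) ∨
      (((p < z ∧ z < q) ∨ (z < q ∧ q < p) ∨ (q < p ∧ p < z)) ∧
        ((q < x ∧ x < p) ∨ (x < p ∧ p < q) ∨ (p < q ∧ q < x)))) :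
    ((((p < x ∧ x < q) ∨ (x < q ∧ q < p) ∨ (q < p ∧ p < x)) ∧
        ((q < y ∧ y < p) ∨ (y < p ∧ p < q) ∨ (p < q ∧ q < y))) ∨
      (((p < y ∧ y < q) ∨ (y < q ∧ q < p) ∨ (q < p ∧ p < y)) ∧
        ((q < x ∧ x < p) ∨ (x < p ∧ p < q) ∨ (p < q ∧ q < x)))) ∨
    ((((p < z ∧ z < q) ∨ (z < q ∧ q < p) ∨ (q < p ∧ p < z)) ∧
        ((q < w ∧ w < p) ∨ (w < p ∧ p < q) ∨ (p < q ∧ q < w))) ∨
      (((p < w ∧ w < q) ∨ (w < q ∧ q < p) ∨ (q < p ∧ p < w)) ∧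
        ((q < z ∧ z < p) ∨ (z < p ∧ p < q) ∨ (p < q ∧ q < z)))) := by
  have h1' : (x < z ∧ z < y ∧ y < w) ∨ (x < w ∧ w < y ∧ y < z) := by
    rcases h1 with ⟨h | h | h, h' | h' | h'⟩ | ⟨h | h | h, h' | h' | h'⟩
    all_goals first
      | (exfalso; obtain ⟨a1, a2⟩ := h; obtain ⟨a3, a4⟩ := h'; linarith)
      | (left; exact ⟨h.1, h.2, h'.2⟩)
      | (right; exact ⟨h.1, h.2, h'.2⟩)
  have h2' : (x < q ∧ q < z ∧ z < p) ∨ (x < p ∧ p < z ∧ z < q) := by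
    rcases h2 with ⟨h | h | h, h' | h' | h'⟩ | ⟨h | h | h, h' | h' | h'⟩
    all_goals first
      | (exfalso; obtain ⟨a1, a2⟩ := h; obtain ⟨a3, a4⟩ := h'; linarith)
      | (left; exact ⟨h.1, h'.1, h'.2⟩)
      | (right; exact ⟨h'.1, h.1, h.2⟩)
  rcases h1' with ⟨a1, a2, a3⟩ | ⟨a1, a2, a3⟩
  · rcases h2' with ⟨b1, b2, b3⟩ | ⟨b1, b2, b3⟩
    · rcases lt_or_ge y p with c | c
      · exact Or.inl (Or.inl ⟨Or.inr (Or.inl ⟨b1, by linarith⟩), Or.inl ⟨by linarith, c⟩⟩)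
      · exact Or.inr (Or.inr ⟨Or.inr (Or.inr ⟨by linarith, by linarith⟩), Or.inl ⟨b2, b3⟩⟩)
    · rcases lt_or_ge y q with c | c
      · exact Or.inl (Or.inr ⟨Or.inl ⟨by linarith, c⟩, Or.inr (Or.inl ⟨b1, by linarith⟩)⟩)
      · exact Or.inr (Or.inl ⟨Or.inl ⟨b2, b3⟩, Or.inr (Or.inr ⟨by linarith, by linarith⟩)⟩)
  · rcases h2' with ⟨b1, b2, b3⟩ | ⟨b1, b2, b3⟩
    · rcases lt_or_ge q y with c | c
      · exact Or.inl (Or.inl ⟨Or.inr (Or.inl ⟨b1, by linarith⟩), Or.inl ⟨c, by linarith⟩⟩)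
      · exact Or.inr (Or.inr ⟨Or.inr (Or.inl ⟨by linarith, by linarith⟩), Or.inl ⟨b2, b3⟩⟩)
    · rcases lt_or_ge p y with c | c
      · exact Or.inl (Or.inr ⟨Or.inl ⟨c, by linarith⟩, Or.inr (Or.inl ⟨b1, by linarith⟩)⟩)
      · exact Or.inr (Or.inl ⟨Or.inl ⟨b2, b3⟩, Or.inr (Or.inl ⟨by linarith, by linarith⟩)⟩)

theorem U4P_cd {a b c d : Circle} (h : Link a b c d) : Link a b d c :=
  (q_LKC a b d c).2 ((q_LKC a b c d).1 h).symm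

theorem U4P_ab {a b c d : Circle} (h : Link a b c d) : Link b a c d :=
  (q_LKC b a c d).2 (((q_LKC a b c d).1 h).symm.imp And.symm And.symm)

theorem U4P_key {x y z w p q : Circle} (h1 : Link x y z w) (h2 : Link p q x z) :
    Link p q x y ∨ Link p q z w := by
  obtain ⟨θ₀, e1, -, -⟩ := q_CUT 0
  obtain ⟨θ, f1, f2, f3⟩ := q_CUT (θ₀ x)
  have hx : θ x = θ₀ x := by
    have h := f2 (θ₀ x) le_rfl (by have := Real.pi_pos; linarith)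
    rwa [(e1 x).2.2] at h
  have hmin : ∀ u, θ x ≤ θ u := fun u => by rw [hx]; exact (f1 u).1
  rw [q_LKC, f3, f3, f3, f3] at h1 h2
  rw [q_LKC, q_LKC, f3, f3, f3, f3, f3, f3, f3, f3]
  exact U4P_real (θ x) (θ y) (θ z) (θ w) (θ p) (θ q) (hmin y) (hmin z) (hmin w) (hmin p) (hmin q)
    h1 h2

theorem U4P_main (B : Set (Circle × Circle)) (x y z w : Circle) (hxy : (x, y) ∈ Un B)
    (hzw : (z, w) ∈ Un B) (h : Link x y z w) : (x, z) ∈ Un B := by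
  refine ⟨fun e => h.1.1 e.symm, fun a ha hl => ?_⟩
  rcases U4P_key h hl with h' | h'
  · exact hxy.2 a ha h'
  · exact hzw.2 a ha h'

theorem U4P_sw {B : Set (Circle × Circle)} {x y : Circle} (h : (x, y) ∈ Un B) : (y, x) ∈ Un B :=
  ⟨fun e => h.1 e.symm, fun a ha hl => h.2 a ha (U4P_cd hl)⟩

theorem p_U4P : Stmt_U4P := by
  intro B x y z w hxy hzw h
  exact ⟨U4P_main B x y z w hxy hzw h, U4P_main B x y w z hxy (U4P_sw hzw) (U4P_cd h),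
    U4P_main B y x z w (U4P_sw hxy) hzw (U4P_ab h),
    U4P_main B y x w z (U4P_sw hxy) (U4P_sw hzw) (U4P_cd (U4P_ab h))⟩

end Pool.SH
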