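import Pool.Agent.Work.MP_ae1ff6_sh.InterfaceL

/-! # Block UNB: the polar families (typed by helper56) -/

open Topology Filter Set
open scoped ComplexConjugate

set_option autoImplicit false

namespace Pool.SH

open Pool.CG Pool.AR

theorem p_UNB : Stmt_UNB := by
  refine ⟨?_, ?_, ?_, ?_, ?_⟩
  · intro B B' hBB u hu
    exact ⟨hu.1, fun a ha => hu.2 a (hBB ha)⟩
  · intro B hB b hb
    refine ⟨hB b.1 b.2 hb, fun u hu h => ?_⟩
    exact hu.2 b hb (Pool.GC.q_SYM _ _ _ _ h).1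
  · intro B x y h
    refine ⟨fun e => h.1 e.symm, fun a ha hl => ?_⟩
    exact h.2 a ha (Pool.GC.q_SYM _ _ _ _ hl).2.2
  · intro B
    have h1 : {u : Circle × Circle | ∀ a ∈ B, ¬ Link a.1 a.2 u.1 u.2} =
        ⋂ a ∈ B, {u : Circle × Circle | ¬ Link a.1 a.2 u.1 u.2} := by
      ext u
      simp only [mem_setOf_eq, mem_iInter]
    rw [h1]
    refine isClosed_biInter fun a _ => ?_
    have h2 : IsOpen {u : Circle × Circle | Link a.1 a.2 u.1 u.2} := by
      have h3 : Continuous fun u : Circle × Circle => (a, u) := by fun_prop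
      exact Pool.GC.q_LNO.1.preimage h3
    have h4 : {u : Circle × Circle | ¬ Link a.1 a.2 u.1 u.2} =
        {u : Circle × Circle | Link a.1 a.2 u.1 u.2}ᶜ := rfl
    rw [h4]
    exact h2.isClosed_compl
  · intro B B' g hg x y h
    refine ⟨fun e => h.1 (g.injective e), fun b hb hl => ?_⟩
    have h1 := hg b.1 b.2 hb
    have h2 : Link (g⁻¹ b.1) (g⁻¹ b.2) (g⁻¹ (g x)) (g⁻¹ (g y)) := by
      first
      | exact (Pool.GC.lhi g⁻¹ _ _ _ _).2 hl
      | exact (Pool.GC.lhi g⁻¹ _ _ _ _).1 hl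
      | exact Pool.GC.lhi g⁻¹ _ _ _ _ hl
    have e1 : g⁻¹ (g x) = x := g.symm_apply_apply x
    have e2 : g⁻¹ (g y) = y := g.symm_apply_apply y
    rw [e1, e2] at h2
    exact h.2 (g⁻¹ b.1, g⁻¹ b.2) h1 h2

end Pool.SH
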