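import Pool.Agent.Work.MP_ae1ff6_sh.InterfaceZ

/-!
# Block VPC: the vertex sets of the regions are pieces
-/

open Topology Filter Set
open scoped ComplexConjugate

set_option autoImplicit false

namespace Pool.SH

open Pool.CG Pool.AR

/-- a set with three different points is not contained in both arcs -/
lemma VPC_no (h1 : Stmt_ARX) {V : Set Circle} (h3 : ∃ a ∈ V, ∃ b ∈ V, ∃ c ∈ V, Ccw a b c)
    {p q : Circle} (hp : V ⊆ Arc p q) (hq : V ⊆ Arc q p) : False := by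
  obtain ⟨-, hX2, -⟩ := h1
  obtain ⟨a, ha, b, hb, c, hc, habc⟩ := h3
  obtain ⟨-, hab, hbc, hac⟩ := q_CYO.2.1 a b c habc
  rcases hX2 p q a (hp ha) (hq ha) with h | h
  · rcases hX2 p q b (hp hb) (hq hb) with h' | h'
    · exact hab (h.trans h'.symm)
    · rcases hX2 p q c (hp hc) (hq hc) with h'' | h''
      · exact hac (h.trans h''.symm)
      · exact hbc (h'.trans h''.symm)
  · rcases hX2 p q b (hp hb) (hq hb) with h' | h'
    · rcases hX2 p q c (hp hc) (hq hc) with h'' | h''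
      · exact hbc (h'.trans h''.symm)
      · exact hac (h.trans h''.symm)
    · exact hab (h.trans h'.symm)

/-- the vertices are in the region -/
lemma VPC_sub {ℛ : Set (Set Circle)} {T : Set Circle → Set (Circle × Circle)} (hf : FanHyp ℛ T)
    {K : Set Circle} (hK : K ∈ ℛ) : Vt K (T K) ⊆ K := by
  intro x hx
  rcases hx with ⟨P, hP, hx⟩ | ⟨p, hp⟩
  · exact (hf K hK).2.1 P hP hx
  · exact hp.2.1

/-- there are three vertices -/
lemma VPC_three {ℛ : Set (Set Circle)} {T : Set Circle → Set (Circle × Circle)} (hf : FanHyp ℛ T)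
    {K : Set Circle} (hK : K ∈ ℛ) :
    ∃ a ∈ Vt K (T K), ∃ b ∈ Vt K (T K), ∃ c ∈ Vt K (T K), Ccw a b c := by
  obtain ⟨P, hP⟩ := (hf K hK).1
  obtain ⟨a, b, c, x, y, z, habc, hPe, h⟩ := hP
  have hP' : P ∈ TT K (T K) := ⟨a, b, c, x, y, z, habc, hPe, h⟩
  refine ⟨a, Or.inl ⟨P, hP', ?_⟩, b, Or.inl ⟨P, hP', ?_⟩, c, Or.inl ⟨P, hP', ?_⟩, habc⟩
  · rw [hPe]; simp
  · rw [hPe]; simp
  · rw [hPe]; simp

/-- a side of a region is a gap of the region -/
lemma VPC_gap {K : Set Circle} {p q : Circle} (hne : p ≠ q) (h : At K p q) : Gap K q p := by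
  obtain ⟨hp, hq, hK⟩ := h
  refine ⟨hq, hp, Ne.symm hne, ?_⟩
  intro k hk hc
  obtain ⟨hn, hqk, hkp, -⟩ := q_CYO.2.1 q k p hc
  rcases hK hk with h | h | h
  · exact hkp h
  · exact hqk h.symm
  · exact hn (q_CYO.1 _ _ _ (q_CYO.1 _ _ _ h))

theorem p_VPC (h1 : Stmt_ARX) (_h2 : Stmt_PC1) : Stmt_VPC := by
  intro G Λ ℛ T hN hf
  have hP := hN.pcs
  -- lift of the side from the vertex set to the region
  have lift : ∀ K ∈ ℛ, ∀ p q, (p, q) ∈ Λ → Vt K (T K) ⊆ Arc p q → K ⊆ Arc p q := by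
    intro K hK p q hpq hV
    rcases hP.unl K hK p q hpq with h | h
    · exact h
    · exact (VPC_no h1 (VPC_three hf hK) hV ((VPC_sub hf hK).trans h)).elim
  have hAt : ∀ K ∈ ℛ, ∀ p q, (p, q) ∈ Λ → (At K p q ↔ At (Vt K (T K)) p q) := by
    intro K hK p q hpq
    constructor
    · intro h
      have hg := VPC_gap (hP.ne p q hpq) h
      obtain ⟨P, hPT, hqP⟩ := (hf K hK).2.2 q p hg
      exact ⟨Or.inr ⟨q, hg⟩, Or.inl ⟨P, hPT, hqP⟩, (VPC_sub hf hK).trans h.2.2⟩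
    · rintro ⟨hp, hq, hV⟩
      exact ⟨VPC_sub hf hK hp, VPC_sub hf hK hq, lift K hK p q hpq hV⟩
  refine ⟨?_, ?_, hAt⟩
  · refine ⟨hP.symm, hP.ne, ?_, ?_, ?_, ?_, ?_⟩
    · rintro V ⟨K, hK, rfl⟩
      exact VPC_three hf hK
    · rintro V ⟨K, hK, rfl⟩ p q hpq
      rcases hP.unl K hK p q hpq with h | h
      · exact Or.inl ((VPC_sub hf hK).trans h)
      · exact Or.inr ((VPC_sub hf hK).trans h)
    · intro p q hpq
      obtain ⟨K, hK, hK'⟩ := hP.side p q hpq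
      exact ⟨Vt K (T K), ⟨K, hK, rfl⟩, (hAt K hK p q hpq).1 hK'⟩
    · rintro V ⟨K, hK, rfl⟩ V' ⟨K', hK', rfl⟩ hne
      have hKK : K ≠ K' := by
        rintro rfl
        exact hne rfl
      obtain ⟨p, q, hpq, hp, hq, hKs, hKs'⟩ := hP.sep K hK K' hK' hKK
      obtain ⟨a1, a2, a3⟩ := (hAt K hK p q hpq).1 ⟨hp, hq, hKs⟩
      exact ⟨p, q, hpq, a1, a2, a3, (VPC_sub hf hK').trans hKs'⟩
    · rintro V ⟨K, hK, rfl⟩ V' ⟨K', hK', rfl⟩
      refine (hP.fin K hK K' hK').subset ?_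
      rintro ⟨a, b⟩ ⟨hab, hV, hV'⟩
      exact ⟨hab, lift K hK a b hab hV, lift K' hK' b a (hP.symm a b hab) hV'⟩
  · intro K hK K' hK' he
    by_contra hne
    obtain ⟨p, q, hpq, -, -, hKs, hKs'⟩ := hP.sep K hK K' hK' hne
    have he' : Vt K (T K) = Vt K' (T K') := he
    refine VPC_no h1 (VPC_three hf hK) ((VPC_sub hf hK).trans hKs) ?_
    rw [he']
    exact (VPC_sub hf hK').trans hKs'

end Pool.SH
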