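import Pool.Agent.Work.MP_ae1ff6_sh.InterfaceZ

/-! Block WIT: witnesses on the two sides of each line, compatible with `G`. -/

open Topology Filter Set
open scoped ComplexConjugate

set_option autoImplicit false

namespace Pool.SH

open Pool.CG Pool.AR

theorem WIT_mm (g h : H) (u : Sym2 Circle) : Sym2.map g (Sym2.map h u) = Sym2.map (g * h : H) u := by
  induction u with
  | _ x y => rfl

theorem WIT_one (u : Sym2 Circle) : Sym2.map (1 : H) u = u := by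
  induction u with
  | _ x y => rfl

/-- orbit representatives of the unordered pairs -/
theorem WIT_rep (G : Subgroup H) : ∃ hh : Sym2 Circle → H, (∀ u, hh u ∈ G) ∧
    ∀ g ∈ G, ∀ u, Sym2.map ((hh (Sym2.map g u))⁻¹ : H) (Sym2.map g u) = Sym2.map ((hh u)⁻¹ : H) u := by
  let S : Setoid (Sym2 Circle) :=
    ⟨fun u u' => ∃ g ∈ G, Sym2.map g u = u',
      fun u => ⟨1, G.one_mem, WIT_one u⟩,
      fun {u u'} h => by
        obtain ⟨g, hg, h⟩ := h
        refine ⟨g⁻¹, G.inv_mem hg, ?_⟩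
        rw [← h, WIT_mm, inv_mul_cancel, WIT_one],
      fun {u u' u''} h h' => by
        obtain ⟨g, hg, h⟩ := h
        obtain ⟨g', hg', h'⟩ := h'
        refine ⟨g' * g, G.mul_mem hg' hg, ?_⟩
        rw [← h', ← h, WIT_mm]⟩
  have hex : ∀ u : Sym2 Circle, ∃ h : H, h ∈ G ∧
      Sym2.map h (Quotient.out (Quotient.mk S u)) = u := by
    intro u
    obtain ⟨g, hg, h⟩ : S.r (Quotient.out (Quotient.mk S u)) u := Quotient.exact (Quotient.out_eq _)
    exact ⟨g, hg, h⟩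
  choose hh hG hh' using hex
  refine ⟨hh, hG, ?_⟩
  intro g hg u
  have e : ∀ u' : Sym2 Circle, Sym2.map ((hh u')⁻¹ : H) u' = Quotient.out (Quotient.mk S u') := by
    intro u'
    have h := congrArg (Sym2.map ((hh u')⁻¹ : H)) (hh' u')
    rw [WIT_mm, inv_mul_cancel, WIT_one] at h
    exact h.symm
  rw [e, e]
  have e3 : Quotient.mk S u = Quotient.mk S (Sym2.map g u) := Quotient.sound ⟨g, hg, rfl⟩
  rw [e3]

theorem WIT_at {h : H} (ho : Ori h) {K : Set Circle} {x y : Circle} (hA : At K x y) :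
    At ((h : H) '' K) (h x) (h y) := by
  refine ⟨⟨x, hA.1, rfl⟩, ⟨y, hA.2.1, rfl⟩, ?_⟩
  rintro _ ⟨z, hz, rfl⟩
  rcases hA.2.2 hz with h1 | h1 | h1
  · exact Or.inl (by rw [h1])
  · exact Or.inr (Or.inl (by rw [h1]))
  · exact Or.inr (Or.inr (ho _ _ _ h1))

theorem p_WIT (h1 : Stmt_NSW) (h2 : Stmt_PC1) : Stmt_WIT := by
  classical
  intro G Λ ℛ T hN h3 hV
  have hw : ∀ x y : Circle, ∃ c : Circle, (x, y) ∈ Λ →
      ∃ K ∈ ℛ, At K x y ∧ c ∈ Vt K (T K) ∧ c ≠ x ∧ c ≠ y := by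
    intro x y
    by_cases hxy : (x, y) ∈ Λ
    · obtain ⟨K, hK, hx, hy, ha⟩ := hN.pcs.side x y hxy
      obtain ⟨c, hc, hcx, hcy⟩ := h3 K hK x y
      exact ⟨c, fun _ => ⟨K, hK, ⟨hx, hy, ha⟩, hc, hcx, hcy⟩⟩
    · exact ⟨x, fun h => absurd h hxy⟩
  choose w hw using hw
  obtain ⟨hh, hG, hrep⟩ := WIT_rep G
  refine ⟨fun p q => hh s(p, q) (w ((hh s(p, q))⁻¹ p) ((hh s(p, q))⁻¹ q)), ?_, ?_⟩
  · intro K hK p q hpq hA
    have hGi : (hh s(p, q))⁻¹ ∈ G := G.inv_mem (hG _)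
    have hcan : ∀ z : Circle, hh s(p, q) ((hh s(p, q))⁻¹ z) = z := fun z =>
      (hh s(p, q)).apply_symm_apply z
    obtain ⟨K₀, hK₀, hA₀, hc, hcp, hcq⟩ := hw _ _ (hN.keepL _ hGi p q hpq)
    have hA1 := WIT_at (hN.ori _ (hG s(p, q))) hA₀
    rw [hcan, hcan] at hA1
    have hK1 := hN.keepK _ (hG s(p, q)) K₀ hK₀
    have hKe : K = (hh s(p, q) : H) '' K₀ :=
      (h2 ℛ Λ hN.pcs).2.1 K hK _ hK1 p q hpq hA hA1
    refine ⟨?_, ?_, ?_⟩
    · have h4 := hV _ (hG s(p, q)) K₀ hK₀ _ hc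
      rw [← hKe] at h4
      exact h4
    · intro h4
      apply hcp
      apply (hh s(p, q)).injective
      rw [hcan]
      exact h4
    · intro h4
      apply hcq
      apply (hh s(p, q)).injective
      rw [hcan]
      exact h4
  · intro g hg p q hpq
    have hsw : s(g q, g p) = s(g p, g q) := Sym2.eq_swap
    have hsw' : s(q, p) = s(p, q) := Sym2.eq_swap
    have hr := hrep g hg s(p, q)
    change s((hh s(g p, g q))⁻¹ (g p), (hh s(g p, g q))⁻¹ (g q)) =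
      s((hh s(p, q))⁻¹ p, (hh s(p, q))⁻¹ q) at hr
    have hne : p ≠ q := hN.pcs.ne p q hpq
    have hcan : ∀ z : Circle, hh s(p, q) ((hh s(p, q))⁻¹ z) = z := fun z =>
      (hh s(p, q)).apply_symm_apply z
    have hcan2 : ∀ z : Circle, (hh s(p, q))⁻¹ (hh s(p, q) z) = z := fun z =>
      (hh s(p, q)).symm_apply_apply z
    have hcan' : ∀ z : Circle, hh s(g p, g q) ((hh s(g p, g q))⁻¹ z) = z := fun z =>
      (hh s(g p, g q)).apply_symm_apply z
    have hcang : ∀ z : Circle, g⁻¹ (g z) = z := fun z => g.symm_apply_apply z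
    have hr2 : (hh s(g p, g q))⁻¹ (g p) = (hh s(p, q))⁻¹ p ∧
        (hh s(g p, g q))⁻¹ (g q) = (hh s(p, q))⁻¹ q := by
      rcases Sym2.eq_iff.mp hr with h4 | h4
      · exact h4
      · exfalso
        refine h1 G hN.conv hN.ori hN.tf p q hne (hh s(p, q) * (hh s(g p, g q))⁻¹ * g)
          (G.mul_mem (G.mul_mem (hG _) (G.inv_mem (hG _))) hg) ?_ ?_
        · change hh s(p, q) ((hh s(g p, g q))⁻¹ (g p)) = q
          rw [h4.1, hcan]
        · change hh s(p, q) ((hh s(g p, g q))⁻¹ (g q)) = p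
          rw [h4.2, hcan]
    refine ⟨hh s(g p, g q) * (hh s(p, q))⁻¹ * g⁻¹,
      G.mul_mem (G.mul_mem (hG _) (G.inv_mem (hG _))) (G.inv_mem hg), ?_, ?_, ?_, ?_⟩
    · change hh s(g p, g q) ((hh s(p, q))⁻¹ (g⁻¹ (g p))) = g p
      rw [hcang, ← hr2.1, hcan']
    · change hh s(g p, g q) ((hh s(p, q))⁻¹ (g⁻¹ (g q))) = g q
      rw [hcang, ← hr2.2, hcan']
    · change hh s(g p, g q) (w ((hh s(g p, g q))⁻¹ (g p)) ((hh s(g p, g q))⁻¹ (g q))) =
        hh s(g p, g q) ((hh s(p, q))⁻¹ (g⁻¹ (g (hh s(p, q)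
          (w ((hh s(p, q))⁻¹ p) ((hh s(p, q))⁻¹ q))))))
      rw [hcang, hcan2, hr2.1, hr2.2]
    · change hh s(g q, g p) (w ((hh s(g q, g p))⁻¹ (g q)) ((hh s(g q, g p))⁻¹ (g p))) =
        hh s(g p, g q) ((hh s(p, q))⁻¹ (g⁻¹ (g (hh s(q, p)
          (w ((hh s(q, p))⁻¹ q) ((hh s(q, p))⁻¹ p))))))
      rw [hsw, hsw', hcang, hcan2, hr2.1, hr2.2]

end Pool.SH
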