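import Pool.Agent.Work.MP_ae1ff6_sh.InterfaceF

/-!
# YAL: the weights are invariant
-/

open Topology Filter Set
open scoped ComplexConjugate

set_option autoImplicit false

namespace Pool.SH

open Pool.CG Pool.AR

theorem YAL_inv (g : H) (x : Circle) : g⁻¹ (g x) = x := g.symm_apply_apply x

theorem YAL_inv' (g : H) (x : Circle) : g (g⁻¹ x) = x := g.apply_symm_apply x

theorem YAL_image (g : H) (K : Set Circle) : (g⁻¹ : H) '' ((g : H) '' K) = K := by
  ext x
  constructor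
  · rintro ⟨_, ⟨y, hy, rfl⟩, rfl⟩
    rw [YAL_inv]
    exact hy
  · intro hx
    exact ⟨g x, ⟨x, hx, rfl⟩, YAL_inv g x⟩

theorem YAL_conj (g h : H) (K : Set Circle) (hK : (h : H) '' K = K) :
    ((g * h * g⁻¹ : H)) '' ((g : H) '' K) = (g : H) '' K := by
  ext x
  constructor
  · rintro ⟨_, ⟨y, hy, rfl⟩, rfl⟩
    refine ⟨h y, ?_, ?_⟩
    · rw [← hK]
      exact ⟨y, hy, rfl⟩
    · change g (h y) = g (h (g⁻¹ (g y)))
      rw [YAL_inv]
  · rintro ⟨y, hy, rfl⟩
    rw [← hK] at hy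
    obtain ⟨z, hz, rfl⟩ := hy
    refine ⟨g z, ⟨z, hz, rfl⟩, ?_⟩
    change g (h (g⁻¹ (g z))) = g (h z)
    rw [YAL_inv]

theorem YAL_per (h1 : Stmt_YGQ) (G : Subgroup H) (Λ : Set (Circle × Circle)) (ℛ : Set (Set Circle))
    (T : Set Circle → Set (Circle × Circle)) (hN : Net G Λ ℛ T) (K : Set Circle) (hK : K ∈ ℛ)
    (g : H) (hg : g ∈ G) (p : Circle) (n : ℕ) (hP : Per G T K p n) :
    Per G T ((g : H) '' K) (g p) n := by
  obtain ⟨hn, h, hh, hhK, hhp, b, hb⟩ := hP
  obtain ⟨-, -, -, h4⟩ := h1 G Λ ℛ T hN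
  obtain ⟨-, -, -, -, -, -, hSn⟩ := h4 g hg K hK
  refine ⟨hn, g * h * g⁻¹, G.mul_mem (G.mul_mem hg hh) (G.inv_mem hg), YAL_conj g h K hhK, ?_,
    g b, ?_⟩
  · change g (h (g⁻¹ (g p))) = g p
    rw [YAL_inv, hhp]
  · have e : (g * h * g⁻¹ : H) (g b) = g (h b) := by
      change g (h (g⁻¹ (g b))) = g (h b)
      rw [YAL_inv]
    rw [e]
    exact (hSn p n b (h b)).mp hb

theorem p_YAL (h1 : Stmt_YGQ) : Stmt_YAL := by
  classical
  intro G Λ ℛ T hN
  refine ⟨?_, ?_⟩
  · intro K hK g hg p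
    have hiff : ∀ n, Per G T ((g : H) '' K) (g p) n ↔ Per G T K p n := by
      intro n
      constructor
      · intro h
        have h2 := YAL_per h1 G Λ ℛ T hN _ (hN.keepK g hg K hK) g⁻¹ (G.inv_mem hg) (g p) n h
        rw [YAL_image, YAL_inv] at h2
        exact h2
      · exact YAL_per h1 G Λ ℛ T hN K hK g hg p n
    have hfun : Per G T ((g : H) '' K) (g p) = Per G T K p := funext fun n => propext (hiff n)
    unfold al
    rw [hfun]
  · intro K p
    unfold al
    split_ifs with h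
    · generalize hm : (@Nat.find _ _ h) = m
      have h2 : Per G T K p m := by
        rw [← hm]
        exact Nat.find_spec h
      have h3 : (1 : ℝ) ≤ (m : ℝ) := by exact_mod_cast h2.1
      refine ⟨by positivity, ?_⟩
      rw [div_le_one (by linarith)]
      exact h3
    · exact ⟨one_pos, le_refl 1⟩

end Pool.SH
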