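import Pool.Agent.Work.MP_ae1ff6_sh.InterfaceF

/-!
# Block YCH (MP_ae1ff6_gt, part 4): the neighbours of a vertex form one chain (helper94)
-/

open Topology Filter Set
open scoped ComplexConjugate

set_option autoImplicit false

namespace Pool.SH

open Pool.CG Pool.AR

theorem p_YCH (h1 : Stmt_ARX) (h2 : Stmt_PC1) (h3 : Stmt_TRV) : Stmt_YCH := by
  intro K T hF p b c b' c' hbc hbc' hord
  obtain ⟨cy1, cy2, cy3, cy4⟩ := q_CYO
  obtain ⟨-, arx, -⟩ := h1
  have hpc := hF.pcs
  obtain ⟨-, -, pcC, -, -, -⟩ := h2 _ _ hpc
  -- strong induction on the number of separating lines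
  have key : ∀ m : ℕ, ∀ b c : Circle, Nx K T p b c → Ccw p b' b →
      dS (TL K T) ({p, c, b} : Set Circle) ({p, c', b'} : Set Circle) = m →
      ∃ n : ℕ, Sn K T p (n + 1) b b' := by
    intro m
    induction m using Nat.strong_induction_on with
    | _ m ih =>
      intro b c hbc hord hm
      by_cases hb'c : b' = c
      · exact ⟨0, c, hbc, hb'c.symm⟩
      · obtain ⟨hccw, hP⟩ := hbc
        obtain ⟨hccw', hP'⟩ := hbc'
        obtain ⟨na, npc, ncb, npb⟩ := cy2 p c b hccw
        obtain ⟨nb, npb', nb'b, -⟩ := cy2 p b' b hord
        -- the two pieces are different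
        have hne : ({p, c, b} : Set Circle) ≠ ({p, c', b'} : Set Circle) := by
          intro h
          have hb' : b' ∈ ({p, c, b} : Set Circle) := by rw [h]; simp
          simp only [mem_insert_iff, mem_singleton_iff] at hb'
          rcases hb' with h' | h' | h'
          · exact npb' h'.symm
          · exact hb'c h'
          · exact nb'b h'
        obtain ⟨r, s, hrs, hr, hs, hPrs, hPsr⟩ := hpc.sep _ hP _ hP' hne
        have hrsne : r ≠ s := hpc.ne r s hrs
        have hp1 : p ∈ Arc r s := hPrs (by simp)
        have hp2 : p ∈ Arc s r := hPsr (by simp)
        simp only [mem_insert_iff, mem_singleton_iff] at hr hs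
        -- the line is `(c, p)`
        have hcp : r = c ∧ s = p := by
          rcases arx r s p hp1 hp2 with h | h
          · -- `p = r`
            exfalso
            subst h
            rcases hs with h | h | h
            · exact hrsne h.symm
            · subst h
              have hb : b ∈ Arc p s := hPrs (by simp)
              rcases hb with h | h | h
              · exact npb h.symm
              · exact ncb h.symm
              · exact na h
            · subst h
              have hb : b' ∈ Arc s p := hPsr (by simp)
              rcases hb with h | h | h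
              · exact nb'b h
              · exact npb' h.symm
              · exact (cy2 _ _ _ h).1 (cy1 _ _ _ (cy1 _ _ _ hord))
          · -- `p = s`
            subst h
            rcases hr with h | h | h
            · exact absurd h hrsne
            · exact ⟨h, rfl⟩
            · exfalso
              subst h
              have hc : c ∈ Arc r p := hPrs (by simp)
              rcases hc with h | h | h
              · exact ncb h
              · exact npc h.symm
              · exact (cy2 _ _ _ h).1 (cy1 _ _ _ (cy1 _ _ _ hccw))
        obtain ⟨rfl, rfl⟩ := hcp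
        -- now the line is `(r, s)`, `c = r`, `p = s`
        have hsr : (s, r) ∈ TL K T := hpc.symm _ _ hrs
        obtain ⟨P'', hP'', hs'', hr'', hsub⟩ := hpc.side s r hsr
        have hAt : At P'' s r := ⟨hs'', hr'', hsub⟩
        obtain ⟨v, hv, hPv⟩ := h3 _ hF.trs P'' hP'' s r (fun h => hrsne h.symm) hAt
        have hset : P'' = ({s, v, r} : Set Circle) := by
          rw [hPv]
          ext x
          simp only [mem_insert_iff, mem_singleton_iff]
          tauto
        have hNx : Nx K T s r v := ⟨hv, hset ▸ hP''⟩
        have hlt := pcC _ hP _ hP'' _ hP' r s hrs ⟨by simp, by simp, hPrs⟩ hAt hPsr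
        have hb'm : b' ∈ Arc s r := hPsr (by simp)
        have hord' : Ccw s b' r := by
          rcases hb'm with h | h | h
          · exact absurd h.symm npb'
          · exact absurd h hb'c
          · exact h
        rw [hset, hm] at hlt
        obtain ⟨n, hn⟩ := ih _ hlt r v hNx hord' rfl
        exact ⟨n + 1, r, ⟨hccw, hP⟩, hn⟩
  exact key _ b c hbc hord rfl

end Pool.SH
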