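import Pool.Agent.Work.MP_ae1ff6_sh.InterfaceF

/-! Block YDI. -/

open Topology Filter Set
open scoped ComplexConjugate

set_option autoImplicit false

namespace Pool.SH

open Pool.CG Pool.AR

theorem p_YDI : Stmt_YDI := by
  intro g p q hO hp hq hD
  have hO' : Ori g⁻¹ := q_MOR.2.1.2.2 g hO
  have hp' : g⁻¹ p = p := by
    have := g.symm_apply_apply p
    rw [hp] at this
    exact this
  have hq' : g⁻¹ q = q := by
    have := g.symm_apply_apply q
    rw [hq] at this
    exact this
  have hx : ∀ x, g (g⁻¹ x) = x := fun x => g.apply_symm_apply x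
  constructor
  · intro x h
    have h1 := hO' _ _ _ h
    rw [hp', hq'] at h1
    have h2 := hD.2 _ h1
    rw [hx] at h2
    exact h2
  · intro x h
    have h1 := hO' _ _ _ h
    rw [hp', hq'] at h1
    have h2 := hD.1 _ h1
    rw [hx] at h2
    exact h2

end Pool.SH
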