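import Pool.Agent.Work.MP_ae1ff6_sh.InterfaceF

open Topology Filter Set
open scoped ComplexConjugate

set_option autoImplicit false

namespace Pool.SH

open Pool.CG Pool.AR

theorem p_YDV (h1 : Stmt_DV1) (h2 : Stmt_DU1) (h3 : Stmt_YZE) : Stmt_YDV := by
  intro K T hF a
  obtain ⟨z, hz, hza⟩ := h3 K T hF a
  have key : ∀ d : Circle → Circle, Shear (TT K T) (TL K T) z d ↔ Sha K T a d := by
    intro d
    constructor
    · intro h p q v w h1 h2 h3 h4 h5
      rw [h p q v w h1 h2 h3 h4 h5, hza p q v w h1 h2 h3 h4 h5]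
    · intro h p q v w h1 h2 h3 h4 h5
      rw [h p q v w h1 h2 h3 h4 h5, hza p q v w h1 h2 h3 h4 h5]
  refine ⟨?_, ?_⟩
  · obtain ⟨d, hd, hd'⟩ := h1 (TT K T) (TL K T) hF.pcs hF.trs z hz
    exact ⟨d, hd, (key d).1 hd'⟩
  · intro d d' hd hd' hs hs'
    exact h2 (TT K T) (TL K T) hF.pcs hF.trs hF.nonempty z d d' hd hd' ((key d).2 hs) ((key d').2 hs')

end Pool.SH
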