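import Pool.Agent.Work.MP_ae1ff6_sh.InterfaceF

/-! # Block YDX: existence of the developing map of a region -/

open Topology Filter Set
open scoped ComplexConjugate

set_option autoImplicit false

namespace Pool.SH

open Pool.CG Pool.AR

theorem YDX_uniq (K : Set Circle) (p p' x : Circle) (h : Gap K p x) (h' : Gap K p' x) :
    p = p' := by
  obtain ⟨hp, -, hpx, hg⟩ := h
  obtain ⟨hp', -, hpx', hg'⟩ := h'
  by_contra hne
  rcases q_CYO.2.2.1 p p' x hne hpx' hpx with h1 | h1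
  · exact hg p' hp' h1
  · exact hg' p hp (q_CYO.1 _ _ _ (q_CYO.1 _ _ _ h1))

theorem p_YDX (hYEX : Stmt_YEX) (hYDV : Stmt_YDV) : Stmt_YDX := by
  classical
  intro K T hF a ha
  obtain ⟨d, hcy, hsha⟩ := (hYDV K T hF a).1
  have key : ∀ x, ∃ y, (x ∈ Vx K T → y = d x) ∧
      (x ∉ Vx K T → ∀ p, Gap K p x → Edge (Vx K T) d p y) := by
    intro x
    by_cases hx : x ∈ Vx K T
    · exact ⟨d x, fun _ => rfl, fun h => absurd hx h⟩
    · by_cases hp : ∃ p, Gap K p x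
      · obtain ⟨p, hp⟩ := hp
        obtain ⟨y, hy⟩ := hYEX K T hF a d ha hcy hsha p x hp hx
        refine ⟨y, fun h => absurd h hx, fun _ p' hp' => ?_⟩
        rw [YDX_uniq K p' p x hp' hp]
        exact hy
      · exact ⟨x, fun h => absurd h hx, fun _ p' hp' => absurd ⟨p', hp'⟩ hp⟩
  choose δ hδ1 hδ2 using key
  refine ⟨δ, ⟨?_, ?_, ?_⟩⟩
  · intro x hx y hy z hz h
    rw [hδ1 x hx, hδ1 y hy, hδ1 z hz]
    exact hcy x hx y hy z hz h
  · intro p q v w hpq h1 h2 h3 h4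
    have hp : p ∈ Vx K T := ⟨_, h3, by simp⟩
    have hq : q ∈ Vx K T := ⟨_, h3, by simp⟩
    have hv : v ∈ Vx K T := ⟨_, h3, by simp⟩
    have hw : w ∈ Vx K T := ⟨_, h4, by simp⟩
    rw [hδ1 p hp, hδ1 q hq, hδ1 v hv, hδ1 w hw]
    exact hsha p q v w hpq h1 h2 h3 h4
  · intro p q hg hq
    obtain ⟨e1, e2⟩ := hδ2 q hq p hg
    obtain ⟨P, hP, hpP⟩ := hF.start p q hg
    have hp : p ∈ Vx K T := ⟨P, hP, hpP⟩
    refine ⟨fun x hx hxp => ?_, fun y' hy' => ?_⟩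
    · rw [hδ1 p hp, hδ1 x hx]
      exact e1 x hx hxp
    · rw [hδ1 p hp]
      refine e2 y' fun x hx hxp => ?_
      have h := hy' x hx hxp
      rwa [hδ1 p hp, hδ1 x hx] at h

end Pool.SH
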