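import Pool.Agent.Work.MP_ae1ff6_sh.InterfaceF

/-!
# Block YED of MP_ae1ff6_gt, part 4: uniqueness and transport of `Edge` (typed by helper99)
-/

open Topology Filter Set
open scoped ComplexConjugate

set_option autoImplicit false

namespace Pool.SH

open Pool.CG Pool.AR

lemma YED_inv (m : H) (x : Circle) : m⁻¹ (m x) = x := m.symm_apply_apply x

lemma YED_inv' (m : H) (x : Circle) : m (m⁻¹ x) = x := m.apply_symm_apply x

theorem p_YED : Stmt_YED := by
  refine ⟨?_, ?_⟩
  · intro V d p y y' h h'
    rcases h.2 y' h'.1 with e | e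
    · exact e.symm
    · rcases h'.2 y h.1 with e' | e'
      · exact e'
      · exact absurd e' (q_CYO.2.1 _ _ _ e).1
  · intro V V' d d' g m p y hm hp hg hg' hd h
    have hmi : Ori m⁻¹ := q_MOR.2.1.2.2 m hm
    refine ⟨?_, ?_⟩
    · intro x' hx' hne
      have hx : g⁻¹ x' ∈ V := hg' x' hx'
      have hxp : g⁻¹ x' ≠ p := by
        intro e
        apply hne
        rw [← e, YED_inv']
      have h1 := hm _ _ _ (h.1 _ hx hxp)
      rw [← hd p hp, ← hd _ hx, YED_inv'] at h1
      exact h1
    · intro y' hy'
      have h2 : ∀ x ∈ V, x ≠ p → Ccw (d p) (m⁻¹ y') (d x) := by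
        intro x hx hxp
        have h3 := hy' (g x) (hg x hx) (fun e => hxp (g.injective e))
        rw [hd p hp, hd x hx] at h3
        have h4 := hmi _ _ _ h3
        rw [YED_inv, YED_inv] at h4
        exact h4
      rcases h.2 _ h2 with e | e
      · left
        rw [← e, YED_inv']
      · right
        have h5 := hm _ _ _ e
        rw [YED_inv', ← hd p hp] at h5
        exact h5

end Pool.SH
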