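import Pool.Agent.Work.MP_ae1ff6_sh.InterfaceF

open Topology Filter Set
open scoped ComplexConjugate

set_option autoImplicit false

namespace Pool.SH

open Pool.CG Pool.AR

lemma YEX_open (p x : Circle) : IsOpen {u : Circle | Ccw p u x} := by
  have : Continuous fun z : Circle => area p z x := by
    unfold area
    fun_prop
  exact isOpen_lt continuous_const this

theorem p_YEX (h1 : Stmt_YNX) (h2 : Stmt_YKA) (h3 : Stmt_YSU) (h4 : Stmt_YRA) : Stmt_YEX := by
  intro K T hF a d ha hd hS p q hg hq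
  obtain ⟨c1, c2, c3, c4⟩ := q_CYO
  obtain ⟨n1, n2, n3, n4, n5⟩ := h1 K T hF p
  rcases hF.fan p q hg with ⟨c, hc, hcT⟩ | ⟨hqT, v, hv, hlim⟩
  · exact absurd (Set.mem_sUnion.2 ⟨_, hcT, by simp⟩) hq
  obtain ⟨κ, k1, k2, k3⟩ := h2 (d p)
  have hpV : p ∈ Vx K T := (n4 _ _ (hv 0)).1
  have hvV : ∀ j, v j ∈ Vx K T := fun j => (n4 _ _ (hv j)).2.1
  have hcc : ∀ j, Ccw p (v (j + 1)) (v j) := fun j => (hv j).1
  have hvp : ∀ j, v j ≠ p := fun j => (c2 _ _ _ (hcc j)).2.2.2.symm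
  have hdd : ∀ j, Ccw (d p) (d (v (j + 1))) (d (v j)) := fun j =>
    hd p hpV _ (hvV (j + 1)) _ (hvV j) (hcc j)
  have hdne : ∀ j, d (v j) ≠ d p := fun j => (c2 _ _ _ (hdd j)).2.2.2.symm
  have hlt : ∀ j, κ (d (v (j + 1))) < κ (d (v j)) := fun j =>
    (k1 _ _ (hdne (j + 1)) (hdne j)).1 (hdd j)
  have hE : ∀ j, Ez d p (v j) (v (j + 1)) = κ (d (v j)) - κ (d (v (j + 1))) := by
    intro j
    have hp1 : 0 < dist (d (v j)) (d p) := dist_pos.2 (hdne j)
    have hp2 : 0 < dist (d (v (j + 1))) (d p) := dist_pos.2 (hdne (j + 1))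
    have := k2 _ _ (hdd j)
    rw [Ez, dist_comm (d (v j)) (d (v (j + 1))), this, mul_comm (dist (d (v (j + 1))) (d p)) (dist (d (v j)) (d p)),
      mul_div_assoc, div_self (mul_pos hp1 hp2).ne', mul_one]
  have hpos : ∀ j, 0 < Ez d p (v j) (v (j + 1)) := fun j => (h4 K T hF a d hd hS p _ _ _ (hv j) (hv (j + 1))).1
  obtain ⟨⟨C, hC⟩, -⟩ := h3 (fun j => Ez d p (v j) (v (j + 1))) (fun j => a (v j)) (a p) (ha p).1 (fun j => ha (v j)) hpos
    (fun j => (h4 K T hF a d hd hS p _ _ _ (hv j) (hv (j + 1))).2.2)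
  have hlow : ∀ n, κ (d (v 0)) - C ≤ κ (d (v n)) := by
    intro n
    have h := hC n
    have e : ∑ j ∈ Finset.range n, Ez d p (v j) (v (j + 1)) = κ (d (v 0)) - κ (d (v n)) := by
      rw [← Finset.sum_range_sub' (fun j => κ (d (v j))) n]
      exact Finset.sum_congr rfl fun j _ => hE j
    rw [e] at h
    linarith
  have hbdd : BddBelow (Set.range fun j => κ (d (v j))) :=
    ⟨κ (d (v 0)) - C, by rintro _ ⟨n, rfl⟩; exact hlow n⟩
  set t : ℝ := ⨅ j, κ (d (v j)) with ht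
  have htlt : ∀ j, t < κ (d (v j)) := fun j => lt_of_le_of_lt (ciInf_le hbdd (j + 1)) (hlt j)
  obtain ⟨y, hy1, hy2⟩ := k3 t
  refine ⟨y, ?_, ?_⟩
  · intro x hx hxp
    have hxK : x ∈ K := by
      obtain ⟨P, hP, hxP⟩ := Set.mem_sUnion.1 hx
      exact hF.sub P hP hxP
    have hxq : x ≠ q := fun h => hq (h ▸ hx)
    have hcq : Ccw p q x := by
      rcases c3 p q x hg.2.2.1 hxq.symm (Ne.symm hxp) with h | h
      · exact h
      · exact absurd h (hg.2.2.2 x hxK)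
    have hev : ∀ᶠ j in atTop, Ccw p (v j) x := hlim.eventually ((YEX_open p x).mem_nhds hcq)
    obtain ⟨j, hj⟩ := hev.exists
    have hdj : Ccw (d p) (d (v j)) (d x) := hd p hpV _ (hvV j) _ hx hj
    have hdx : d x ≠ d p := (c2 _ _ _ hdj).2.2.2.symm
    have h5 := (k1 _ _ (hdne j) hdx).1 hdj
    refine (k1 _ _ hy1 hdx).2 ?_
    rw [hy2]
    exact (htlt j).trans h5
  · intro y' hy'
    have hy'p : y' ≠ d p := (c2 _ _ _ (hy' (v 0) (hvV 0) (hvp 0))).2.1.symm
    have hle : κ y' ≤ t := by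
      refine le_ciInf fun j => ?_
      exact ((k1 _ _ hy'p (hdne j)).1 (hy' (v j) (hvV j) (hvp j))).le
    rcases hle.lt_or_eq with hlt' | heq
    · right
      refine (k1 _ _ hy'p hy1).2 ?_
      rw [hy2]; exact hlt'
    · left
      by_contra hne
      rcases c3 (d p) y' y hy'p.symm hne hy1.symm with h | h
      · have := (k1 _ _ hy'p hy1).1 h
        rw [hy2, heq] at this
        exact lt_irrefl _ this
      · have := (k1 _ _ hy1 hy'p).1 h
        rw [hy2, heq] at this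
        exact lt_irrefl _ this

end Pool.SH
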