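import Pool.Agent.Work.MP_ae1ff6_sh.InterfaceF

/-!
# MP_ae1ff6_gt, block YG1: the end of the gap of a closed leaf is not a vertex
-/

open Topology Filter Set
open scoped ComplexConjugate

set_option autoImplicit false

namespace Pool.SH

open Pool.CG Pool.AR

theorem YG1_at {p q y : Circle} (hy : Ccw q y p) : At ({p, q, y} : Set Circle) q p := by
  refine ⟨Or.inr (Or.inl rfl), Or.inl rfl, ?_⟩
  rintro z hz
  rcases hz with hz | hz | hz
  · exact Or.inr (Or.inl hz)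
  · exact Or.inl hz
  · rw [Set.mem_singleton_iff] at hz
    rw [hz]
    exact Or.inr (Or.inr hy)

theorem p_YG1 (h1 : Stmt_YPU) (h2 : Stmt_YGQ) (h3 : Stmt_YFX) : Stmt_YG1 := by
  rintro G Λ ℛ T hN K hK p q hgap ⟨g, hg, hg1, hgp, hgq⟩
  obtain ⟨hF, -, -, hact⟩ := h2 G Λ ℛ T hN
  obtain ⟨hst, -, hfix, -⟩ := h3 G Λ ℛ T hN K hK p q hgap
  rcases (hF K hK).fan p q hgap with ⟨c, hc, hP⟩ | ⟨hno, -⟩
  · exfalso
    have hKK : (g : H) '' K = K := hst g hg hgp hgq
    have hP' : ({p, q, g c} : Set Circle) ∈ TT K (T K) := by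
      have h := ((hact g hg K hK).2.2.2.1 p q c).1 hP
      rw [hKK, hgp, hgq] at h
      exact h
    have hc' : Ccw q (g c) p := by
      have h := hN.ori g hg _ _ _ hc
      rwa [hgp, hgq] at h
    have heq := h1 _ _ (hF K hK).pcs _ hP _ hP' q p (Ne.symm hgap.2.2.1) (YG1_at hc) (YG1_at hc')
    have hmem : g c ∈ ({p, q, c} : Set Circle) := by
      rw [heq]; exact Or.inr (Or.inr rfl)
    obtain ⟨-, hqc, hcp, -⟩ := q_CYO.2.1 _ _ _ hc
    obtain ⟨-, hqgc, hgcp, -⟩ := q_CYO.2.1 _ _ _ hc'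
    rcases hmem with h | h | h
    · exact hgcp h
    · exact hqgc h.symm
    · exact hg1 (hfix g hg hgp hgq c hcp (Ne.symm hqc) h)
  · rintro ⟨P, hP, hq⟩
    exact hno P hP hq

end Pool.SH
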