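import Pool.Agent.Work.MP_ae1ff6_sh.InterfaceF

/-! # Block YG2: shifts (helper57) -/

open Topology Filter Set
open scoped ComplexConjugate

set_option autoImplicit false

namespace Pool.SH

open Pool.CG Pool.AR

theorem p_YG2 (hSN : Stmt_YSN) (hCH : Stmt_YCH) (hGQ : Stmt_YGQ) : Stmt_YG2 := by
  intro G Λ ℛ T hN K hK p h hh hp hKK n b c hbc hb
  have hF : Fans K (T K) := (hGQ G Λ ℛ T hN).1 K hK
  have hg := (hGQ G Λ ℛ T hN).2.2.2 h hh K hK
  rw [hKK] at hg
  have hNx : ∀ x y, Nx K (T K) p x y → Nx K (T K) p (h x) (h y) := by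
    intro x y hxy
    have h1 := (hg.2.2.2.2.2.1 p x y).1 hxy
    rwa [hp] at h1
  have hL : ∀ (k : ℕ) (x y : Circle), Sn K (T K) p k x y →
      (Sn K (T K) p n x (h x) ↔ Sn K (T K) p n y (h y)) := by
    intro k
    induction k with
    | zero =>
      intro x y hxy
      have h1 : x = y := hxy
      rw [h1]
    | succ k ih =>
      intro x y hxy
      obtain ⟨z, hz, hzy⟩ := hxy
      exact ((hSN K (T K) hF p).2.2.2.1 n x z (h x) (h z) hz (hNx x z hz)).trans (ih z y hzy)
  have hne : ∀ x y, Nx K (T K) p x y → p ≠ x := fun x y hxy => (q_CYO.2.1 _ _ _ hxy.1).2.2.2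
  have h1 : ∀ x y, Nx K (T K) p x y → Sn K (T K) p n x (h x) := by
    intro x y hxy
    by_cases hxb : x = b
    · rw [hxb]
      exact hb
    · rcases q_CYO.2.2.1 p x b (hne x y hxy) hxb (hne b c hbc) with h2 | h2
      · obtain ⟨k, hk⟩ := hCH K (T K) hF p b c x y hbc hxy h2
        exact (hL (k + 1) b x hk).1 hb
      · obtain ⟨k, hk⟩ := hCH K (T K) hF p x y b c hxy hbc h2
        exact (hL (k + 1) x b hk).2 hb
  have h2 : ∀ (r : ℕ) (x y : Circle), Nx K (T K) p x y → Sn K (T K) p (r * n) x ((h ^ r) x) := by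
    intro r
    induction r with
    | zero =>
      intro x y _
      rw [Nat.zero_mul]
      rfl
    | succ r ih =>
      intro x y hxy
      have h3 := (hSN K (T K) hF p).1 n (r * n) x (h x) ((h ^ r) (h x)) (h1 x y hxy)
        (ih (h x) (h y) (hNx x y hxy))
      have h4 : (r + 1) * n = n + r * n := by ring
      rw [h4, pow_succ]
      exact h3
  intro b' c' hbc'
  exact ⟨h1 b' c' hbc', fun r => h2 r b' c' hbc'⟩

end Pool.SH
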