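import Pool.Agent.Work.MP_ae1ff6_sh.InterfaceF

/-!
# Block YG3 of MP_ae1ff6_gt, part 4: the generator of the stabilizer of a gap (typed by helper6)
-/

open Topology Filter Set
open scoped ComplexConjugate

set_option autoImplicit false

namespace Pool.SH

open Pool.CG Pool.AR

lemma YG3_inv (m : H) (x : Circle) : m⁻¹ (m x) = x := m.symm_apply_apply x

lemma YG3_mul (m n : H) (x : Circle) : (m * n) x = m (n x) := rfl

lemma YG3_fix_inv (m : H) (x : Circle) (h : m x = x) : m⁻¹ x = x := by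
  have h' := YG3_inv m x
  rw [h] at h'
  exact h'

lemma YG3_fix_pow (m : H) (x : Circle) (h : m x = x) (r : ℕ) : (m ^ r) x = x := by
  induction r with
  | zero => rfl
  | succ r ih => rw [pow_succ, YG3_mul, h, ih]

theorem p_YG3 (h1 : Stmt_YSN) (h2 : Stmt_YCH) (h3 : Stmt_YGQ) (h4 : Stmt_YFX) (h5 : Stmt_YG1)
    (h6 : Stmt_YG2) (h7 : Stmt_YDI) (h8 : Stmt_DIR) : Stmt_YG3 := by
  classical
  intro G Λ ℛ T hN K hK p q hg hex
  obtain ⟨hrot, has, htot, htr⟩ := q_CYO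
  obtain ⟨hQ1, hQ2, hQ3, hQ4⟩ := h3 G Λ ℛ T hN
  obtain ⟨hF1, hF2, hF3, hF4⟩ := h4 G Λ ℛ T hN K hK p q hg
  have hfan := hQ1 K hK
  have hq : q ∉ Vx K (T K) := h5 G Λ ℛ T hN K hK p q hg hex
  obtain ⟨g0, hg0G, hg0, hg0p, hg0q⟩ := hex
  have hpq : p ≠ q := hg.2.2.1
  obtain ⟨hS1, hS2, hS3, hS4, hS5, hS6, hS7⟩ := h1 K (T K) hfan p
  -- (1)
  have h1a : ∀ b c, Nx K (T K) p b c → Ccw q b p := by
    intro b c hbc
    have hbK : b ∈ K := hfan.sub _ hbc.2 (by simp)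
    have hbV : b ∈ Vx K (T K) := ⟨_, hbc.2, by simp⟩
    have hbp : b ≠ p := fun e => (has _ _ _ hbc.1).2.2.2 e.symm
    have hbq : b ≠ q := fun e => hq (e ▸ hbV)
    exact hF4 b hbK hbp hbq
  -- the fan
  obtain ⟨v, hv, -⟩ : ∃ v : ℕ → Circle, (∀ j, Nx K (T K) p (v j) (v (j + 1))) ∧
      Tendsto v atTop (𝓝 q) := by
    rcases hfan.fan p q hg with ⟨c, hc, hc'⟩ | ⟨-, v, hv⟩
    · exact absurd ⟨_, hc', by simp⟩ hq
    · exact ⟨v, hv⟩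
  -- images
  have hNx : ∀ g ∈ G, g p = p → (g : H) '' K = K → ∀ b c, Nx K (T K) p b c →
      Nx K (T K) p (g b) (g c) := by
    intro g hgG hgp hgK b c hbc
    have h := ((hQ4 g hgG K hK).2.2.2.2.2.1 p b c).1 hbc
    rw [hgK, hgp] at h
    exact h
  have hSn : ∀ g ∈ G, g p = p → (g : H) '' K = K → ∀ n b c, Sn K (T K) p n b c →
      Sn K (T K) p n (g b) (g c) := by
    intro g hgG hgp hgK n b c hbc
    have h := ((hQ4 g hgG K hK).2.2.2.2.2.2 p n b c).1 hbc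
    rw [hgK, hgp] at h
    exact h
  -- (2)
  have h2a : ∀ g ∈ G, g p = p → g q = q → Dir g p q → ∀ b c, Nx K (T K) p b c →
      ∃ n : ℕ, Sn K (T K) p (n + 1) b (g b) := by
    intro g hgG hgp hgq hd b c hbc
    have e1 := h1a b c hbc
    have e2 := hd.2 b e1
    have e3 := (htr _ _ _ _ e2 e1).2
    have e4 : Ccw p (g b) b := hrot _ _ _ (hrot _ _ _ e3)
    exact h2 K (T K) hfan p b c (g b) (g c) hbc
      (hNx g hgG hgp (hF1 g hgG hgp hgq) b c hbc) e4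
  -- (3)
  have h3a : ∃ n, Per G T K p n := by
    have key : ∀ g ∈ G, g p = p → g q = q → Dir g p q → ∃ n, Per G T K p n := by
      intro g hgG hgp hgq hd
      obtain ⟨n, hn⟩ := h2a g hgG hgp hgq hd (v 0) (v 1) (hv 0)
      exact ⟨n + 1, Nat.succ_pos n, g, hgG, hF1 g hgG hgp hgq, hgp, v 0, hn⟩
    rcases h8 G hN.conv g0 hg0G (hN.ori g0 hg0G) hg0 p q hpq hg0p hg0q with hd | hd
    · exact key g0 hg0G hg0p hg0q hd
    · exact key g0⁻¹ (G.inv_mem hg0G) (YG3_fix_inv _ _ hg0p) (YG3_fix_inv _ _ hg0q)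
        (h7 g0 q p (hN.ori g0 hg0G) hg0q hg0p ⟨hd.2, hd.1⟩)
  obtain ⟨N, hNP, hNmin, hal⟩ : ∃ N, Per G T K p N ∧ (∀ m, Per G T K p m → N ≤ m) ∧
      al G T K p = 1 / (N : ℝ) := by
    refine ⟨Nat.find h3a, Nat.find_spec h3a, fun m hm => Nat.find_min' h3a hm, ?_⟩
    unfold al
    rw [dif_pos h3a]
  obtain ⟨hN0, h, hhG, hhK, hhp, b0, hb0⟩ := hNP
  have hhq : h q = q := hF2 h hhG hhp hhK
  obtain ⟨N', rfl⟩ : ∃ N', N = N' + 1 := ⟨N - 1, by omega⟩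
  obtain ⟨b1, hb1, hb1'⟩ := id hb0
  have hc0 : Ccw p (h b0) b0 := hS5 N' b0 (h b0) hb0
  have hh1 : h ≠ 1 := by
    rintro rfl
    exact (has _ _ _ hc0).2.2.1 rfl
  have hdir : Dir h p q := by
    rcases h8 G hN.conv h hhG (hN.ori h hhG) hh1 p q hpq hhp hhq with hd | hd
    · exact hd
    · exfalso
      have e1 := h1a b0 b1 hb1
      have e2 := hd.2 b0 e1
      have e3 : Ccw q (h b0) p := h1a _ _ (hNx h hhG hhp hhK b0 b1 hb1)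
      have e4 := (htr _ _ _ _ e2 e3).2
      have e5 : Ccw p b0 (h b0) := hrot _ _ _ (hrot _ _ _ e4)
      exact (has _ _ _ hc0).1 e5
  -- (4)
  refine ⟨h, hhG, N' + 1, hN0, hal, hhp, hhq, hdir, ⟨b0, b1, hb1, hb0⟩, ?_⟩
  intro g hgG hgp hgq hgd
  obtain ⟨n, hn⟩ := h2a g hgG hgp hgq hgd (v 0) (v 1) (hv 0)
  have hG2 := (h6 G Λ ℛ T hN K hK p h hhG hhp hhK (N' + 1) b0 b1 hb1 hb0 (v 0) (v 1) (hv 0)).2
  obtain ⟨r, s, hs, hns⟩ : ∃ r s : ℕ, s < N' + 1 ∧ n + 1 = r * (N' + 1) + s :=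
    ⟨(n + 1) / (N' + 1), (n + 1) % (N' + 1), Nat.mod_lt _ (Nat.succ_pos _),
      (Nat.div_add_mod' (n + 1) (N' + 1)).symm⟩
  have hr := hG2 r
  rw [hns] at hn
  have hs6 : Sn K (T K) p s ((h ^ r) (v 0)) (g (v 0)) :=
    hS6 (r * (N' + 1)) s (v 0) ((h ^ r) (v 0)) (g (v 0)) hr hn
  have hkG : (h ^ r)⁻¹ ∈ G := G.inv_mem (G.pow_mem hhG r)
  have hkp : (h ^ r)⁻¹ p = p := YG3_fix_inv _ _ (YG3_fix_pow _ _ hhp r)
  have hkq : (h ^ r)⁻¹ q = q := YG3_fix_inv _ _ (YG3_fix_pow _ _ hhq r)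
  have hkK : ((h ^ r)⁻¹ : H) '' K = K := hF1 _ hkG hkp hkq
  have hs7 := hSn _ hkG hkp hkK s _ _ hs6
  rw [YG3_inv] at hs7
  have hkgG : (h ^ r)⁻¹ * g ∈ G := G.mul_mem hkG hgG
  have hkgp : ((h ^ r)⁻¹ * g) p = p := by rw [YG3_mul, hgp, hkp]
  have hkgq : ((h ^ r)⁻¹ * g) q = q := by rw [YG3_mul, hgq, hkq]
  have hs0 : s = 0 := by
    by_contra hne
    have hle := hNmin s ⟨Nat.pos_of_ne_zero hne, _, hkgG, hF1 _ hkgG hkgp hkgq, hkgp, v 0, hs7⟩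
    omega
  rw [hs0] at hs7 hns
  have hfix : ((h ^ r)⁻¹ * g) (v 0) = v 0 := by
    have h' : v 0 = (h ^ r)⁻¹ (g (v 0)) := hs7
    exact h'.symm
  have hb := has _ _ _ (h1a _ _ (hv 0))
  have hone : (h ^ r)⁻¹ * g = 1 :=
    hF3 _ hkgG hkgp hkgq (v 0) hb.2.2.1 hb.2.1.symm hfix
  refine ⟨r, ?_, (inv_mul_eq_one.1 hone).symm⟩
  rcases Nat.eq_zero_or_pos r with hr0 | hr0
  · rw [hr0] at hns
    omega
  · exact hr0

end Pool.SH
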