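import Pool.Agent.Work.MP_ae1ff6_sh.InterfaceF

/-!
# YKA: the coordinate of the real line with `p` at infinity
-/

open Topology Filter Set
open scoped ComplexConjugate

set_option autoImplicit false

namespace Pool.SH

open Pool.CG Pool.AR

theorem YKA_dist (r s : ℝ) (h1 : s ≤ r) (h2 : r ≤ s + 2 * Real.pi) :
    dist (Circle.exp r) (Circle.exp s) = 2 * Real.sin ((r - s) / 2) := by
  have h3 : dist (Circle.exp r) (Circle.exp s) =
      ‖Complex.exp (Complex.I * ((r - s : ℝ) : ℂ)) - 1‖ := by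
    have h4 : dist (Circle.exp r) (Circle.exp s) = ‖((Circle.exp r : Circle) : ℂ) - (Circle.exp s : Circle)‖ := by
      rw [← Complex.dist_eq]
      rfl
    have h5 : ((Circle.exp r : Circle) : ℂ) - (Circle.exp s : Circle) =
        ((Circle.exp s : Circle) : ℂ) * (Complex.exp (Complex.I * ((r - s : ℝ) : ℂ)) - 1) := by
      rw [Circle.coe_exp, Circle.coe_exp, mul_sub, mul_one, ← Complex.exp_add]
      congr 2
      push_cast
      ring
    rw [h4, h5, norm_mul, Circle.norm_coe, one_mul]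
  rw [h3, Complex.norm_exp_I_mul_ofReal_sub_one, Real.norm_eq_abs, abs_of_nonneg]
  apply mul_nonneg two_pos.le
  apply Real.sin_nonneg_of_nonneg_of_le_pi <;> linarith

/-- the coordinate in terms of half angles -/
noncomputable def YKA_k (x : ℝ) : ℝ := -(Real.cos x / Real.sin x) / 2

theorem YKA_sub {x y : ℝ} (hx : Real.sin x ≠ 0) (hy : Real.sin y ≠ 0) :
    YKA_k y - YKA_k x = Real.sin (y - x) / (2 * (Real.sin x * Real.sin y)) := by
  rw [YKA_k, YKA_k, Real.sin_sub]
  field_simp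
  ring

theorem YKA_lt {x y : ℝ} (hx0 : 0 < x) (hx1 : x < Real.pi) (hy0 : 0 < y) (hy1 : y < Real.pi) (h : x < y) :
    YKA_k x < YKA_k y := by
  have h1 := Real.sin_pos_of_pos_of_lt_pi hx0 hx1
  have h2 := Real.sin_pos_of_pos_of_lt_pi hy0 hy1
  have h3 := Real.sin_pos_of_pos_of_lt_pi (sub_pos.2 h) (by linarith)
  have h4 : 0 < YKA_k y - YKA_k x := by
    rw [YKA_sub h1.ne' h2.ne']
    positivity
  linarith

theorem YKA_iff {x y : ℝ} (hx0 : 0 < x) (hx1 : x < Real.pi) (hy0 : 0 < y) (hy1 : y < Real.pi) :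
    YKA_k x < YKA_k y ↔ x < y := by
  constructor
  · intro h
    by_contra h1
    rcases lt_or_eq_of_le (not_lt.1 h1) with h2 | h2
    · exact lt_asymm h (YKA_lt hy0 hy1 hx0 hx1 h2)
    · rw [h2] at h
      exact lt_irrefl _ h
  · exact YKA_lt hx0 hx1 hy0 hy1

theorem p_YKA : Stmt_YKA := by
  intro p
  obtain ⟨θ0, h0, -, -⟩ := q_CUT 0
  obtain ⟨θ, h1, h2, h3⟩ := q_CUT (θ0 p)
  obtain ⟨-, -, hs⟩ := h0 p
  generalize θ0 p = s at *
  have hpi := Real.pi_pos
  have hp : θ p = s := by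
    rw [← hs]
    exact h2 s le_rfl (by linarith)
  have hgt : ∀ a, a ≠ p → s < θ a := by
    intro a ha
    obtain ⟨k1, k2, k3⟩ := h1 a
    rcases lt_or_eq_of_le k1 with h | h
    · exact h
    · exfalso
      apply ha
      rw [← k3, ← h, hs]
  have hx0 : ∀ a, a ≠ p → 0 < (θ a - s) / 2 := fun a ha => by
    have := hgt a ha
    linarith
  have hx1 : ∀ a, (θ a - s) / 2 < Real.pi := fun a => by
    have := (h1 a).2.1
    linarith
  refine ⟨fun y => YKA_k ((θ y - s) / 2), ?_, ?_, ?_⟩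
  · intro a b ha hb
    rw [YKA_iff (hx0 a ha) (hx1 a) (hx0 b hb) (hx1 b), h3, hp]
    have a1 := hgt a ha
    have a2 := hgt b hb
    constructor
    · rintro (⟨b1, b2⟩ | ⟨b1, b2⟩ | ⟨b1, b2⟩) <;> linarith
    · intro h
      left
      exact ⟨a1, by linarith⟩
  · intro a b hab
    obtain ⟨-, hpa, hab', hpb⟩ := q_CYO.2.1 p a b hab
    have a1 := hgt a hpa.symm
    have a2 := hgt b hpb.symm
    have hlt : θ a < θ b := by
      rw [h3, hp] at hab
      rcases hab with ⟨b1, b2⟩ | ⟨b1, b2⟩ | ⟨b1, b2⟩ <;> linarith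
    have s1 := Real.sin_pos_of_pos_of_lt_pi (hx0 a hpa.symm) (hx1 a)
    have s2 := Real.sin_pos_of_pos_of_lt_pi (hx0 b hpb.symm) (hx1 b)
    have d1 : dist a b = 2 * Real.sin ((θ b - θ a) / 2) := by
      rw [dist_comm]
      have h := YKA_dist (θ b) (θ a) hlt.le (by linarith [(h1 b).2.1])
      rwa [(h1 a).2.2, (h1 b).2.2] at h
    have d2 : dist a p = 2 * Real.sin ((θ a - s) / 2) := by
      have h := YKA_dist (θ a) s a1.le (by linarith [(h1 a).2.1])
      rwa [(h1 a).2.2, hs] at h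
    have d3 : dist b p = 2 * Real.sin ((θ b - s) / 2) := by
      have h := YKA_dist (θ b) s a2.le (by linarith [(h1 b).2.1])
      rwa [(h1 b).2.2, hs] at h
    simp only
    rw [YKA_sub s1.ne' s2.ne', d1, d2, d3]
    have e : (θ b - s) / 2 - (θ a - s) / 2 = (θ b - θ a) / 2 := by ring
    rw [e]
    field_simp
  · intro t
    have c1 := Real.neg_pi_div_two_lt_arctan (2 * t)
    have c2 := Real.arctan_lt_pi_div_two (2 * t)
    have hy : θ (Circle.exp (s + Real.pi + 2 * Real.arctan (2 * t))) = s + Real.pi + 2 * Real.arctan (2 * t) :=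
      h2 _ (by linarith) (by linarith)
    refine ⟨Circle.exp (s + Real.pi + 2 * Real.arctan (2 * t)), ?_, ?_⟩
    · intro h
      rw [h, hp] at hy
      linarith
    · simp only
      rw [hy]
      have e : (s + Real.pi + 2 * Real.arctan (2 * t) - s) / 2 = Real.arctan (2 * t) + Real.pi / 2 := by ring
      have e2 : -(-Real.sin (Real.arctan (2 * t)) / Real.cos (Real.arctan (2 * t))) = Real.tan (Real.arctan (2 * t)) := by
        rw [Real.tan_eq_sin_div_cos]
        ring
      rw [e, YKA_k, Real.cos_add_pi_div_two, Real.sin_add_pi_div_two, e2, Real.tan_arctan]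
      ring

end Pool.SH
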