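import Pool.Agent.Work.MP_ae1ff6_sh.InterfaceF

/-!
# YMP: powers
-/

open Topology Filter Set
open scoped ComplexConjugate

set_option autoImplicit false

namespace Pool.SH

open Pool.CG Pool.AR

theorem YMP_inj (h : H) {x y : Circle} (hxy : h x = h y) : x = y := h.injective hxy

theorem YMP_pow (h : H) (r : ℕ) (x : Circle) : (h ^ (r + 1)) x = h ((h ^ r) x) := by
  rw [pow_succ']
  rfl

theorem p_YMP : Stmt_YMP := by
  intro V δ h p q μ hp hq hV hinj hμ r
  have key : ∀ (r : ℕ), ∀ x ∈ V, x ≠ p → x ≠ q →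
      (h ^ r) x ∈ V ∧ (h ^ r) x ≠ p ∧ (h ^ r) x ≠ q := by
    intro r
    induction r with
    | zero => intro x hx h1 h2; exact ⟨hx, h1, h2⟩
    | succ r ih =>
      intro x hx h1 h2
      obtain ⟨a, b, c⟩ := ih x hx h1 h2
      rw [YMP_pow]
      exact ⟨hV _ a, fun h3 => b (YMP_inj h (h3.trans hp.symm)),
        fun h3 => c (YMP_inj h (h3.trans hq.symm))⟩
  induction r with
  | zero =>
    intro x hx h1 h2
    simp
  | succ r ih =>
    intro x hx h1 h2
    obtain ⟨a, b, c⟩ := key r x hx h1 h2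
    have e1 := ih x hx h1 h2
    have e2 := hμ _ a b c
    rw [YMP_pow]
    have hB : dist (δ ((h ^ r) x)) (δ q) ≠ 0 := dist_ne_zero.mpr (hinj _ a c)
    have e3 : (dist (δ (h ((h ^ r) x))) (δ p) * dist (δ x) (δ q)) * dist (δ ((h ^ r) x)) (δ q) =
        (μ ^ (r + 1) * (dist (δ x) (δ p) * dist (δ (h ((h ^ r) x))) (δ q))) *
          dist (δ ((h ^ r) x)) (δ q) := by
      have e4 : (dist (δ (h ((h ^ r) x))) (δ p) * dist (δ x) (δ q)) * dist (δ ((h ^ r) x)) (δ q) =
          (dist (δ (h ((h ^ r) x))) (δ p) * dist (δ ((h ^ r) x)) (δ q)) * dist (δ x) (δ q) := by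
        ring
      rw [e4, e2]
      have e5 : μ * (dist (δ ((h ^ r) x)) (δ p) * dist (δ (h ((h ^ r) x))) (δ q)) *
          dist (δ x) (δ q) = μ * dist (δ (h ((h ^ r) x))) (δ q) *
            (dist (δ ((h ^ r) x)) (δ p) * dist (δ x) (δ q)) := by ring
      rw [e5, e1]
      ring
    exact mul_right_cancel₀ hB e3

end Pool.SH
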