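import Pool.Agent.Work.MP_ae1ff6_sh.InterfaceF

/-! # Block YMU (helper25): the length of a closed leaf is one -/

open Topology Filter Set
open scoped ComplexConjugate

set_option autoImplicit false

namespace Pool.SH

open Pool.CG Pool.AR

theorem YMU_third (a b c p q : Circle) (hab : a ≠ b) (hbc : b ≠ c) (hac : a ≠ c)
    (P : Set Circle) (ha : a ∈ P) (hb : b ∈ P) (hc : c ∈ P) : ∃ x ∈ P, x ≠ p ∧ x ≠ q := by
  by_cases h1 : a = p ∨ a = q
  · by_cases h2 : b = p ∨ b = q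
    · refine ⟨c, hc, ?_, ?_⟩
      · rintro rfl
        rcases h1 with h1 | h1
        · exact hac h1
        · rcases h2 with h2 | h2
          · exact hbc h2
          · exact hab (h1.trans h2.symm)
      · rintro rfl
        rcases h1 with h1 | h1
        · rcases h2 with h2 | h2
          · exact hab (h1.trans h2.symm)
          · exact hbc h2
        · exact hac h1
    · push Not at h2
      exact ⟨b, hb, h2⟩
  · push Not at h1
    exact ⟨a, ha, h1⟩

/-- a map which preserves the cyclic order of a set with at least three points is injective -/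
theorem YMU_inj {V : Set Circle} {δ : Circle → Circle} (h : CyOn δ V)
    (h3 : ∀ p q : Circle, ∃ x ∈ V, x ≠ p ∧ x ≠ q) {x y : Circle} (hx : x ∈ V) (hy : y ∈ V)
    (hxy : x ≠ y) : δ x ≠ δ y := by
  obtain ⟨z, hz, hzx, hzy⟩ := h3 x y
  rcases q_CYO.2.2.1 x y z hxy hzy.symm hzx.symm with h1 | h1
  · exact (q_CYO.2.1 _ _ _ (h x hx y hy z hz h1)).2.1
  · exact (q_CYO.2.1 _ _ _ (h x hx z hz y hy h1)).2.2.2

theorem YMU_kap {κ : Circle → ℝ} {P Q y y' : Circle} {c : ℝ}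
    (hκ : ∀ a b, Ccw P a b → dist a b = (κ b - κ a) * (dist a P * dist b P))
    (h1 : Ccw P Q y) (h2 : Ccw P Q y')
    (h : dist y' P / dist y' Q = c * (dist y P / dist y Q)) :
    c * (κ y' - κ Q) = κ y - κ Q := by
  obtain ⟨-, a1, a2, a3⟩ := q_CYO.2.1 _ _ _ h1
  obtain ⟨-, b1, b2, b3⟩ := q_CYO.2.1 _ _ _ h2
  have e1 := hκ Q y h1
  have e2 := hκ Q y' h2
  rw [dist_comm] at e1 e2
  have p1 : 0 < dist y Q := dist_pos.2 a2.symm
  have p2 : 0 < dist y' Q := dist_pos.2 b2.symm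
  have p3 : 0 < dist y P := dist_pos.2 a3.symm
  have p4 : 0 < dist y' P := dist_pos.2 b3.symm
  have p5 : 0 < dist Q P := dist_pos.2 a1.symm
  have u1 : κ y - κ Q ≠ 0 := by
    intro h0
    rw [h0, zero_mul] at e1
    exact p1.ne' e1
  have u2 : κ y' - κ Q ≠ 0 := by
    intro h0
    rw [h0, zero_mul] at e2
    exact p2.ne' e2
  rw [e1, e2] at h
  have p3' := p3.ne'
  have p4' := p4.ne'
  have p5' := p5.ne'
  field_simp at h
  linear_combination -h

theorem YMU_seq (K : Set Circle) (T : Set (Circle × Circle)) (p : Circle) (v : ℕ → Circle)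
    (h : ∀ j, Nx K T p (v j) (v (j + 1))) (n : ℕ) : ∀ j, Sn K T p n (v j) (v (j + n)) := by
  induction n with
  | zero => exact fun j => rfl
  | succ n ih =>
    intro j
    refine ⟨v (j + 1), h j, ?_⟩
    have h1 := ih (j + 1)
    rwa [show j + 1 + n = j + (n + 1) by omega] at h1

theorem p_YMU (hMXI : Stmt_MXI) (hYKA : Stmt_YKA) (hYSU : Stmt_YSU) (hYNX : Stmt_YNX)
    (hYSN : Stmt_YSN) (hYRA : Stmt_YRA) (hYOR : Stmt_YOR) (hYGQ : Stmt_YGQ) (hYAL : Stmt_YAL)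
    (hYTR : Stmt_YTR) (hYFX : Stmt_YFX) (hYG2 : Stmt_YG2) : Stmt_YMU := by
  intro G Λ ℛ T hN K hK p q hgap hq δ hδ h hh N hN0 hal hp hqq hper x hx hxp hxq
  have hF : Fans K (T K) := (hYGQ G Λ ℛ T hN).1 K hK
  obtain ⟨f1, f2, f3, f4⟩ := hYFX G Λ ℛ T hN K hK p q hgap
  have hKK : (h : H) '' K = K := f1 h hh hp hqq
  obtain ⟨m, hm, hmδ⟩ := hYTR G Λ ℛ T hN K hK h hh δ δ hδ (by rw [hKK]; exact hδ)
  obtain ⟨y1, y2, y3, y4, y5⟩ := hYNX K (T K) hF p
  obtain ⟨s1, s2, s3, s4, s5, s6, s7⟩ := hYSN K (T K) hF p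
  have hcy : CyOn δ (Vt K (T K)) := hYOR K (T K) hF _ δ hδ
  have hVV : ∀ z ∈ Vx K (T K), z ∈ Vt K (T K) := by
    rintro z ⟨P, hP, hz⟩
    exact Or.inl ⟨P, hP, hz⟩
  have hpx : p ∈ Vx K (T K) := by
    obtain ⟨P, hP, hz⟩ := hF.start p q hgap
    exact ⟨P, hP, hz⟩
  have hpt : p ∈ Vt K (T K) := hVV p hpx
  have hqt : q ∈ Vt K (T K) := Or.inr ⟨p, hgap⟩
  have h3 : ∀ r s : Circle, ∃ z ∈ Vt K (T K), z ≠ r ∧ z ≠ s := by
    intro r s
    obtain ⟨P, hP⟩ := hF.nonempty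
    obtain ⟨a, b, c, habc, rfl⟩ := hF.trs P hP
    obtain ⟨-, e1, e2, e3⟩ := q_CYO.2.1 a b c habc
    have hsub : ∀ z ∈ ({a, b, c} : Set Circle), z ∈ Vt K (T K) := fun z hz => Or.inl ⟨_, hP, hz⟩
    exact YMU_third a b c r s e1 e2 e3 _ (hsub a (by simp)) (hsub b (by simp)) (hsub c (by simp))
  have hinj : ∀ {z w : Circle}, z ∈ Vt K (T K) → w ∈ Vt K (T K) → z ≠ w → δ z ≠ δ w :=
    fun hz hw hzw => YMU_inj hcy h3 hz hw hzw
  have hmP : m (δ p) = δ p := by rw [← hmδ p hpt, hp]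
  have hmQ : m (δ q) = δ q := by rw [← hmδ q hqt, hqq]
  obtain ⟨c, hc0, hc⟩ := (hMXI m hm).2 (δ p) (δ q)
  rw [hmP, hmQ] at hc
  -- it is enough to show `c = exp 1`
  have key : c = Real.exp 1 := by
    obtain ⟨v, hv⟩ : ∃ v : ℕ → Circle, ∀ j, Nx K (T K) p (v j) (v (j + 1)) := by
      rcases hF.fan p q hgap with ⟨c, -, hc⟩ | ⟨-, v, hv, -⟩
      · exact absurd ⟨_, hc, by simp⟩ hq
      · exact ⟨v, hv⟩
    have hvx : ∀ j, v j ∈ Vx K (T K) := fun j => (y4 _ _ (hv j)).2.1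
    have hvt : ∀ j, v j ∈ Vt K (T K) := fun j => hVV _ (hvx j)
    have hvK : ∀ j, v j ∈ K := fun j => by
      obtain ⟨P, hP, hz⟩ := hvx j
      exact hF.sub P hP hz
    have hvp : ∀ j, v j ≠ p := fun j => ((q_CYO.2.1 _ _ _ (hv j).1).2.2.2).symm
    have hvq : ∀ j, v j ≠ q := fun j e => hq (e ▸ hvx j)
    have hpqv : ∀ j, Ccw p q (v j) := fun j =>
      q_CYO.1 _ _ _ (q_CYO.1 _ _ _ (f4 (v j) (hvK j) (hvp j) (hvq j)))
    have hPQ : ∀ j, Ccw (δ p) (δ q) (δ (v j)) := fun j => hcy p hpt q hqt _ (hvt j) (hpqv j)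
    have hhv : ∀ j, h (v j) = v (j + N) := by
      intro j
      obtain ⟨b, c', hbc, hS⟩ := hper
      have h1 := (hYG2 G Λ ℛ T hN K hK p h hh hp hKK N b c' hbc hS (v j) (v (j + 1)) (hv j)).1
      exact s2 N (v j) _ _ h1 (YMU_seq K (T K) p v hv N j)
    obtain ⟨κ, k1, k2, k3⟩ := hYKA (δ p)
    have hD : ∀ j, Ez δ p (v j) (v (j + 1)) = κ (δ (v j)) - κ (δ (v (j + 1))) := by
      intro j
      have h1 : Ccw (δ p) (δ (v (j + 1))) (δ (v j)) :=
        hcy p hpt _ (hvt (j + 1)) _ (hvt j) (hv j).1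
      have h2 := k2 _ _ h1
      have p1 : dist (δ (v j)) (δ p) ≠ 0 := dist_ne_zero.2 (hinj (hvt j) hpt (hvp j))
      have p2 : dist (δ (v (j + 1))) (δ p) ≠ 0 :=
        dist_ne_zero.2 (hinj (hvt (j + 1)) hpt (hvp (j + 1)))
      unfold Ez
      rw [dist_comm (δ (v j)) (δ (v (j + 1))), h2]
      field_simp
    have hcyx : CyOn δ (Vx K (T K)) := hδ.cy
    have hra := fun j => hYRA K (T K) hF (al G T K) δ hcyx hδ.sha p (v j) (v (j + 1)) (v (j + 2))
      (hv j) (hv (j + 1))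
    have hNR : (0 : ℝ) < N := by exact_mod_cast hN0
    obtain ⟨-, hsu⟩ := hYSU (fun j => Ez δ p (v j) (v (j + 1))) (fun j => al G T K (v j))
      (al G T K p) ((hYAL G Λ ℛ T hN).2 K p).1 (fun j => (hYAL G Λ ℛ T hN).2 K (v j))
      (fun j => (hra j).1) (fun j => (hra j).2.2)
    have hDN := hsu N (fun j => by
      show al G T K (v (j + N)) = al G T K (v j)
      have h1 := (hYAL G Λ ℛ T hN).1 K hK h hh (v j)
      rw [hKK, hhv] at h1
      exact h1)
    have hDN' : Ez δ p (v N) (v (N + 1)) = Ez δ p (v 0) (v 1) * Real.exp (-((N : ℝ) * (1 / N))) := by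
      rw [← hal]
      exact hDN
    rw [mul_one_div_cancel hNR.ne'] at hDN'
    have hy : ∀ j, c * (κ (δ (v (j + N))) - κ (δ q)) = κ (δ (v j)) - κ (δ q) := by
      intro j
      refine YMU_kap k2 (hPQ j) (hPQ (j + N)) ?_
      have h1 := hc (δ (v j))
      rw [← hmδ _ (hvt j), hhv] at h1
      exact h1
    have e0 := hy 0
    have e1 := hy 1
    rw [zero_add] at e0
    rw [add_comm 1 N] at e1
    have d0 := hD 0
    have dN := hD N
    rw [zero_add] at d0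
    have hpos : 0 < Ez δ p (v 0) (v 1) := (hra 0).1
    have hcD : c * Ez δ p (v N) (v (N + 1)) = Ez δ p (v 0) (v 1) := by
      rw [dN, d0]
      linear_combination e0 - e1
    rw [hDN'] at hcD
    have h5 : c * Real.exp (-1) = 1 := by
      have h6 : (c * Real.exp (-1)) * Ez δ p (v 0) (v 1) = 1 * Ez δ p (v 0) (v 1) := by
        linear_combination hcD
      exact mul_right_cancel₀ hpos.ne' h6
    calc c = c * (Real.exp (-1) * Real.exp 1) := by
          rw [← Real.exp_add, neg_add_cancel, Real.exp_zero, mul_one]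
      _ = (c * Real.exp (-1)) * Real.exp 1 := by ring
      _ = Real.exp 1 := by rw [h5, one_mul]
  have h1 := hc (δ x)
  rw [key, ← hmδ x hx] at h1
  have p1 : dist (δ x) (δ q) ≠ 0 := dist_ne_zero.2 (hinj hx hqt hxq)
  have p2 : dist (δ (h x)) (δ q) ≠ 0 := by
    rw [hmδ x hx]
    refine dist_ne_zero.2 fun e => hinj hx hqt hxq (m.injective ?_)
    rw [e, hmQ]
  field_simp at h1
  linear_combination h1

end Pool.SH
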