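import Pool.Agent.Work.MP_ae1ff6_sh.InterfaceF

/-! Block YNX. -/

open Topology Filter Set
open scoped ComplexConjugate

set_option autoImplicit false

namespace Pool.SH

open Pool.CG Pool.AR

lemma YNX_at {x y z : Circle} (h : Ccw x y z) : At ({x, y, z} : Set Circle) x z := by
  refine ⟨by simp, by simp, ?_⟩
  intro w hw
  simp only [mem_insert_iff, mem_singleton_iff] at hw
  rcases hw with rfl | rfl | rfl
  · exact Or.inl rfl
  · exact Or.inr (Or.inr h)
  · exact Or.inr (Or.inl rfl)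

lemma YNX_rot (x y z : Circle) : ({x, y, z} : Set Circle) = {y, z, x} := by
  ext w
  simp only [mem_insert_iff, mem_singleton_iff]
  tauto

theorem p_YNX (h1 : Stmt_ARX) (_h2 : Stmt_PC1) (h3 : Stmt_TRV) (h4 : Stmt_YPU) : Stmt_YNX := by
  intro K T hF p
  obtain ⟨cy1, cy2, -, -⟩ := q_CYO
  have hpc := hF.pcs
  refine ⟨?_, ?_, ?_, ?_, ?_⟩
  · rintro b c c' ⟨hc, hm⟩ ⟨hc', hm'⟩
    have hne := cy2 _ _ _ hc
    have hne' := cy2 _ _ _ hc'
    have he := h4 _ _ hpc _ hm _ hm' p b hne.2.2.2 (YNX_at hc) (YNX_at hc')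
    have hcm : c ∈ ({p, c', b} : Set Circle) := by
      rw [← he]
      simp
    simp only [mem_insert_iff, mem_singleton_iff] at hcm
    rcases hcm with h | h | h
    · exact absurd h.symm hne.2.1
    · exact h
    · exact absurd h hne.2.2.1
  · rintro b b' c ⟨hc, hm⟩ ⟨hc', hm'⟩
    have hne := cy2 _ _ _ hc
    have hne' := cy2 _ _ _ hc'
    have a1 : At ({p, c, b} : Set Circle) c p := by
      rw [YNX_rot]
      exact YNX_at (cy1 _ _ _ hc)
    have a2 : At ({p, c, b'} : Set Circle) c p := by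
      rw [YNX_rot]
      exact YNX_at (cy1 _ _ _ hc')
    have he := h4 _ _ hpc _ hm _ hm' c p hne.2.1.symm a1 a2
    have hcm : b ∈ ({p, c, b'} : Set Circle) := by
      rw [← he]
      simp
    simp only [mem_insert_iff, mem_singleton_iff] at hcm
    rcases hcm with h | h | h
    · exact absurd h.symm hne.2.2.2
    · exact absurd h.symm hne.2.2.1
    · exact h
  · rintro a b c ⟨hba, hm'⟩ ⟨hcb, hm⟩
    have hne := cy2 _ _ _ hcb
    have hne' := cy2 _ _ _ hba
    have hPP : ({p, c, b} : Set Circle) ≠ {p, b, a} := by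
      intro he
      have hcm : a ∈ ({p, c, b} : Set Circle) := by
        rw [he]
        simp
      simp only [mem_insert_iff, mem_singleton_iff] at hcm
      rcases hcm with h | h | h
      · exact hne'.2.2.2 h.symm
      · subst h
        exact hne.1 hba
      · exact hne'.2.2.1 h.symm
    obtain ⟨r, s, hrs, -, -, hP, hP'⟩ := hpc.sep _ hm _ hm' hPP
    have hpr : p = r ∨ p = s := h1.2.1 r s p (hP (by simp)) (hP' (by simp))
    have hbr : b = r ∨ b = s := h1.2.1 r s b (hP (by simp)) (hP' (by simp))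
    rcases hpr with e | e <;> rcases hbr with e' | e'
    · exact absurd (e.trans e'.symm) hne'.2.1
    · rw [e, e']
      exact hrs
    · rw [e, e']
      exact hpc.symm _ _ hrs
    · exact absurd (e.trans e'.symm) hne'.2.1
  · rintro b c ⟨-, hm⟩
    exact ⟨⟨_, hm, by simp⟩, ⟨_, hm, by simp⟩, ⟨_, hm, by simp⟩⟩
  · intro b hb
    have hpb : p ≠ b := hpc.ne _ _ hb
    constructor
    · obtain ⟨P, hP, hp, hb', hs⟩ := hpc.side _ _ hb
      obtain ⟨v, hv, hPv⟩ := h3 _ hF.trs P hP p b hpb ⟨hp, hb', hs⟩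
      refine ⟨v, hv, ?_⟩
      have : ({p, v, b} : Set Circle) = {p, b, v} := by rw [Set.pair_comm v b]
      rw [this, ← hPv]
      exact hP
    · obtain ⟨P, hP, hp, hb', hs⟩ := hpc.side _ _ (hpc.symm _ _ hb)
      obtain ⟨v, hv, hPv⟩ := h3 _ hF.trs P hP b p hpb.symm ⟨hp, hb', hs⟩
      refine ⟨v, cy1 _ _ _ (cy1 _ _ _ hv), ?_⟩
      have : ({p, b, v} : Set Circle) = {b, p, v} := by
        ext w
        simp only [mem_insert_iff, mem_singleton_iff]
        tauto
      rw [this, ← hPv]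
      exact hP

end Pool.SH
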