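import Pool.Agent.Work.MP_ae1ff6_sh.InterfaceF

open Topology Filter Set
open scoped ComplexConjugate

set_option autoImplicit false

namespace Pool.SH

open Pool.CG Pool.AR

theorem p_YOR (h1 : Stmt_ARL) : Stmt_YOR := by
  intro K T hF a δ hD x hx y hy z hz hxyz
  obtain ⟨P, hP⟩ := hF.nonempty
  obtain ⟨o, ho, b, hb, c, hc, hobc⟩ := hF.pcs.three P hP
  have hV : ∀ P' ∈ TT K T, ∀ w ∈ P', w ∈ Vx K T := fun P' hP' w hw => ⟨P', hP', hw⟩
  have hoV := hV P hP o ho
  have hbV := hV P hP b hb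
  have hcV := hV P hP c hc
  have hVK : ∀ w ∈ Vx K T, w ∈ K := by
    rintro w ⟨P', hP', hw⟩
    exact hF.sub P' hP' hw
  obtain ⟨θ, hinj, hmin, hC, -, -⟩ := h1 o
  obtain ⟨θ', hinj', hmin', hC', -, -⟩ := h1 (δ o)
  have hlt : ∀ w, w ≠ o → θ o < θ w := fun w hw =>
    lt_of_le_of_ne (hmin w) (fun h => hw (hinj h).symm)
  have hlt' : ∀ w, w ≠ δ o → θ' (δ o) < θ' w := fun w hw =>
    lt_of_le_of_ne (hmin' w) (fun h => hw (hinj' h).symm)
  obtain ⟨-, hob, hbc, hoc⟩ := q_CYO.2.1 o b c hobc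
  -- another point
  have hoth : ∀ u v : Circle, ∃ w ∈ Vx K T, w ≠ u ∧ w ≠ v := by
    intro u v
    by_cases k1 : o ≠ u ∧ o ≠ v
    · exact ⟨o, hoV, k1⟩
    by_cases k2 : b ≠ u ∧ b ≠ v
    · exact ⟨b, hbV, k2⟩
    refine ⟨c, hcV, ?_, ?_⟩
    · rintro rfl
      have e1 : o = v := by
        by_contra hne
        exact k1 ⟨hoc, hne⟩
      have e2 : b = v := by
        by_contra hne
        exact k2 ⟨hbc, hne⟩
      exact hob (e1.trans e2.symm)
    · rintro rfl
      have e1 : o = u := by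
        by_contra hne
        exact k1 ⟨hne, hoc⟩
      have e2 : b = u := by
        by_contra hne
        exact k2 ⟨hne, hbc⟩
      exact hob (e1.trans e2.symm)
  have hV1 : ∀ u ∈ Vx K T, ∀ v ∈ Vx K T, θ u < θ v → θ' (δ u) < θ' (δ v) := by
    intro u hu v hv huv
    by_cases huo : u = o
    · subst huo
      have hvu : v ≠ u := by
        rintro rfl
        exact lt_irrefl _ huv
      obtain ⟨w, hw, hwu, hwv⟩ := hoth u v
      apply hlt'
      rcases q_CYO.2.2.1 u v w hvu.symm hwv.symm hwu.symm with h | h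
      · exact (q_CYO.2.1 _ _ _ (hD.cy u hu v hv w hw h)).2.1.symm
      · exact (q_CYO.2.1 _ _ _ (hD.cy u hu w hw v hv h)).2.2.2.symm
    · have h2 := hD.cy o hoV u hu v hv ((hC _ _ _).2 (Or.inl ⟨hlt u huo, huv⟩))
      have m1 := hmin' (δ v)
      rcases (hC' _ _ _).1 h2 with h | h | h
      · exact h.2
      · exact h.1
      · linarith [h.1]
  have hgap : ∀ p q, Gap K p q → q ∉ Vx K T → p ∈ Vx K T ∧ θ p < θ q ∧ θ' (δ p) < θ' (δ q) ∧
      (∀ u ∈ Vx K T, θ q < θ u → θ' (δ q) < θ' (δ u)) ∧ ∀ u ∈ K, θ u < θ q → θ u ≤ θ p := by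
    intro p q hg hq
    obtain ⟨P', hP', hpP⟩ := hF.start p q hg
    have hp := hV P' hP' p hpP
    have hE := (hD.edge p q hg hq).1
    have hqo : q ≠ o := by
      rintro rfl
      exact hq hoV
    have ha : θ p < θ q := by
      by_cases hpo : p = o
      · rw [hpo]
        exact hlt q hqo
      · by_contra hcon
        push Not at hcon
        have h2 : θ q < θ p := lt_of_le_of_ne hcon (fun h => hg.2.2.1 (hinj h).symm)
        exact hg.2.2.2 o (hVK o hoV) ((hC _ _ _).2 (Or.inr (Or.inl ⟨hlt q hqo, h2⟩)))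
    have hb' : θ' (δ p) < θ' (δ q) := by
      by_cases hpo : p = o
      · subst hpo
        obtain ⟨w, hw, hwp, -⟩ := hoth p p
        exact hlt' _ (q_CYO.2.1 _ _ _ (hE w hw hwp)).2.1.symm
      · have h2 := hE o hoV (Ne.symm hpo)
        have m1 := hmin' (δ p)
        have m2 := hmin' (δ q)
        rcases (hC' _ _ _).1 h2 with h | h | h
        · exact h.1
        · linarith [h.1]
        · exact h.2
    refine ⟨hp, ha, hb', ?_, ?_⟩
    · intro u hu hqu
      have hup : u ≠ p := by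
        rintro rfl
        linarith
      have h2 := hE u hu hup
      have h3 := hV1 p hp u hu (ha.trans hqu)
      rcases (hC' _ _ _).1 h2 with h | h | h
      · exact h.2
      · exact h.1
      · linarith [h.1]
    · intro u hu huq
      by_contra hcon
      push Not at hcon
      exact hg.2.2.2 u hu ((hC _ _ _).2 (Or.inl ⟨hcon, huq⟩))
  have hcase : ∀ w ∈ Vt K T, w ∈ Vx K T ∨ (w ∉ Vx K T ∧ ∃ p, Gap K p w) := by
    intro w hw
    by_cases hwV : w ∈ Vx K T
    · exact Or.inl hwV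
    · refine Or.inr ⟨hwV, ?_⟩
      rcases hw with ⟨P', hP', hw⟩ | h
      · exact absurd (hV P' hP' w hw) hwV
      · exact h
  have hmain : ∀ u ∈ Vt K T, ∀ v ∈ Vt K T, θ u < θ v → θ' (δ u) < θ' (δ v) := by
    intro u hu v hv huv
    rcases hcase u hu with hu' | ⟨hu', p, hp⟩
    · rcases hcase v hv with hv' | ⟨hv', q, hq⟩
      · exact hV1 u hu' v hv' huv
      · obtain ⟨g1, g2, g3, g4, g5⟩ := hgap q v hq hv'
        rcases (g5 u (hVK u hu') huv).eq_or_lt with h | h
        · rw [hinj h]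
          exact g3
        · exact (hV1 u hu' q g1 h).trans g3
    · obtain ⟨k1, k2, k3, k4, k5⟩ := hgap p u hp hu'
      rcases hcase v hv with hv' | ⟨hv', q, hq⟩
      · exact k4 v hv' huv
      · obtain ⟨g1, g2, g3, g4, g5⟩ := hgap q v hq hv'
        rcases (g5 u hp.2.1 huv).eq_or_lt with h | h
        · exact absurd ((hinj h) ▸ g1) hu'
        · exact (k4 q g1 h).trans g3
  refine (hC' _ _ _).2 ?_
  rcases (hC _ _ _).1 hxyz with h | h | h
  · exact Or.inl ⟨hmain x hx y hy h.1, hmain y hy z hz h.2⟩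
  · exact Or.inr (Or.inl ⟨hmain y hy z hz h.1, hmain z hz x hx h.2⟩)
  · exact Or.inr (Or.inr ⟨hmain z hz x hx h.1, hmain x hx y hy h.2⟩)

end Pool.SH
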