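import Pool.Agent.Work.MP_ae1ff6_sh.InterfaceF

/-!
# MP_ae1ff6_gt, block YPU: two pieces with the same pair of points on the same side
-/

open Topology Filter Set
open scoped ComplexConjugate

set_option autoImplicit false

namespace Pool.SH

open Pool.CG Pool.AR

theorem p_YPU (h1 : Stmt_ARX) (h2 : Stmt_PC1) : Stmt_YPU := by
  intro ℱ L hF P hP P' hP' p q hpq hA hA'
  obtain ⟨ha, -⟩ := h2 ℱ L hF
  obtain ⟨-, hx, -⟩ := h1
  by_contra hne
  obtain ⟨r, s, hrs, hr, hs, hPr, hPs⟩ := hF.sep P hP P' hP' hne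
  obtain ⟨hpP, hqP, hPA⟩ := hA
  obtain ⟨hpP', hqP', hPA'⟩ := hA'
  have hp := hx r s p (hPr hpP) (hPs hpP')
  have hq := hx r s q (hPr hqP) (hPs hqP')
  rcases hp with rfl | rfl
  · rcases hq with rfl | rfl
    · exact hpq rfl
    · exact ha P' hP' _ _ hPA' hPs
  · rcases hq with rfl | rfl
    · exact ha P hP _ _ hPA hPr
    · exact hpq rfl

end Pool.SH
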