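import Pool.Agent.Work.MP_ae1ff6_sh.InterfaceF

/-!
# Block YRA of MP_ae1ff6_gt, part 4: the shear at an edge (typed by helper99)
-/

open Topology Filter Set
open scoped ComplexConjugate

set_option autoImplicit false

namespace Pool.SH

open Pool.CG Pool.AR

theorem p_YRA (h1 : Stmt_YNX) : Stmt_YRA := by
  intro K T hF a d hcy hsha p x y w hxy hyw
  have hTL : (p, y) ∈ TL K T := (h1 K T hF p).2.2.1 x y w hxy hyw
  obtain ⟨hc1, hT1⟩ := hxy
  obtain ⟨hc2, hT2⟩ := hyw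
  have hset : ({p, w, y} : Set Circle) = {p, y, w} := by
    ext u
    simp only [mem_insert_iff, mem_singleton_iff]
    tauto
  have hT2' : ({p, y, w} : Set Circle) ∈ TT K T := hset ▸ hT2
  have hX := hsha p y w x hTL hc2 (q_CYO.1 _ _ _ hc1) hT2' hT1
  have hp : p ∈ Vx K T := ⟨_, hT1, by simp⟩
  have hy : y ∈ Vx K T := ⟨_, hT1, by simp⟩
  have hx : x ∈ Vx K T := ⟨_, hT1, by simp⟩
  have hw : w ∈ Vx K T := ⟨_, hT2, by simp⟩
  obtain ⟨-, n1, n2, n3⟩ := q_CYO.2.1 _ _ _ (hcy p hp y hy x hx hc1)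
  obtain ⟨-, m1, m2, m3⟩ := q_CYO.2.1 _ _ _ (hcy p hp w hw y hy hc2)
  have d1 : 0 < dist (d x) (d y) := dist_pos.2 n2.symm
  have d2 : 0 < dist (d x) (d p) := dist_pos.2 n3.symm
  have d3 : 0 < dist (d y) (d p) := dist_pos.2 n1.symm
  have d4 : 0 < dist (d y) (d w) := dist_pos.2 m2.symm
  have d5 : 0 < dist (d w) (d p) := dist_pos.2 m1.symm
  have hX' : Real.exp (a p + a y - (a x + a w) / 2) =
      dist (d w) (d p) * dist (d x) (d y) / (dist (d y) (d w) * dist (d x) (d p)) := by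
    have e : a p + a y - (a x + a w) / 2 = a p + a y - (a w + a x) / 2 := by ring
    rw [e, ← hX, X, dist_comm (d w) (d y)]
  refine ⟨div_pos d1 (mul_pos d2 d3), div_pos d4 (mul_pos d3 d5), ?_⟩
  rw [hX', Ez, Ez]
  field_simp

end Pool.SH
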