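import Pool.Agent.Work.MP_ae1ff6_sh.InterfaceF

open Topology Filter Set
open scoped ComplexConjugate

set_option autoImplicit false

namespace Pool.SH

open Pool.CG Pool.AR

theorem YSN_add (K : Set Circle) (T : Set (Circle × Circle)) (p : Circle) (n : ℕ) :
    ∀ m b c d, Sn K T p n b c → Sn K T p m c d → Sn K T p (n + m) b d := by
  induction n with
  | zero =>
    intro m b c d h1 h2
    have h1' : b = c := h1
    rw [Nat.zero_add, h1']
    exact h2
  | succ n ih =>
    intro m b c d h1 h2
    obtain ⟨x, hx, hx'⟩ := h1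
    have e : n + 1 + m = (n + m) + 1 := by omega
    rw [e]
    exact ⟨x, hx, ih m x c d hx' h2⟩

theorem YSN_last (K : Set Circle) (T : Set (Circle × Circle)) (p : Circle) (n : ℕ) :
    ∀ b c, Sn K T p (n + 1) b c → ∃ b', Sn K T p n b b' ∧ Nx K T p b' c := by
  induction n with
  | zero =>
    intro b c h
    obtain ⟨x, hx, hx'⟩ := h
    have hx'' : x = c := hx'
    exact ⟨b, rfl, hx'' ▸ hx⟩
  | succ n ih =>
    intro b c h
    obtain ⟨x, hx, hx'⟩ := h
    obtain ⟨y, hy, hy'⟩ := ih x c hx'
    exact ⟨y, ⟨x, hx, hy⟩, hy'⟩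

theorem YSN_one (K : Set Circle) (T : Set (Circle × Circle)) (p b c : Circle)
    (h : Nx K T p b c) : Sn K T p 1 b c := ⟨c, h, rfl⟩

theorem p_YSN (h1 : Stmt_YNX) : Stmt_YSN := by
  intro K T hF p
  obtain ⟨f1, f2, -, -, -⟩ := h1 K T hF p
  refine ⟨fun n m b c d => YSN_add K T p n m b c d, ?_, ?_, ?_, ?_, ?_,
    fun n b c => YSN_last K T p n b c⟩
  · intro n
    induction n with
    | zero =>
      intro b c c' h h'
      have e : b = c := h
      have e' : b = c' := h'
      rw [← e, ← e']
    | succ n ih =>
      intro b c c' h h'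
      obtain ⟨x, hx, hx'⟩ := h
      obtain ⟨y, hy, hy'⟩ := h'
      have e := f1 b x y hx hy
      subst e
      exact ih x c c' hx' hy'
  · intro n
    induction n with
    | zero =>
      intro b b' c h h'
      have e : b = c := h
      have e' : b' = c := h'
      rw [e, e']
    | succ n ih =>
      intro b b' c h h'
      obtain ⟨x, hx, hx'⟩ := YSN_last K T p n b c h
      obtain ⟨y, hy, hy'⟩ := YSN_last K T p n b' c h'
      have e := f2 x y c hx' hy'
      subst e
      exact ih b b' x hx hy
  · intro n b c b' c' hb hb'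
    constructor
    · intro h
      have h2 := YSN_add K T p n 1 b b' c' h (YSN_one K T p b' c' hb')
      obtain ⟨x, hx, hx'⟩ := h2
      have e := f1 b x c hx hb
      subst e
      exact hx'
    · intro h
      have h2 : Sn K T p (n + 1) b c' := ⟨c, hb, h⟩
      obtain ⟨x, hx, hx'⟩ := YSN_last K T p n b c' h2
      have e := f2 x b' c' hx' hb'
      subst e
      exact hx
  · intro n
    induction n with
    | zero =>
      intro b c h
      obtain ⟨x, hx, hx'⟩ := h
      have e : x = c := hx'
      subst e
      exact hx.1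
    | succ n ih =>
      intro b c h
      obtain ⟨x, hx, hx'⟩ := h
      exact (q_CYO.2.2.2 p c x b (ih x c hx') hx.1).1
  · intro n
    induction n with
    | zero =>
      intro m b c d h h'
      have e : b = c := h
      rw [Nat.zero_add] at h'
      rw [← e]
      exact h'
    | succ n ih =>
      intro m b c d h h'
      obtain ⟨x, hx, hx'⟩ := h
      have e : n + 1 + m = (n + m) + 1 := by omega
      rw [e] at h'
      obtain ⟨y, hy, hy'⟩ := h'
      have e2 := f1 b x y hx hy
      subst e2
      exact ih m x c d hx' hy'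

end Pool.SH
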