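import Pool.Agent.Work.MP_ae1ff6_sh.InterfaceF

/-!
# Realization of big mapping classes (MP_ae1ff6_gt): block YSU (real sequences)
-/

open Topology Filter Set
open scoped ComplexConjugate

set_option autoImplicit false

namespace Pool.SH

open Pool.CG Pool.AR

theorem YSU_form (D a : ℕ → ℝ) (c : ℝ)
    (h : ∀ j, D j = D (j + 1) * Real.exp (c + a (j + 1) - (a j + a (j + 2)) / 2)) (n : ℕ) :
    D n = D 0 * Real.exp (-(n * c + (a 1 - a 0 + a n - a (n + 1)) / 2)) := by
  induction n with
  | zero =>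
    have h1 : -(((0 : ℕ) : ℝ) * c + (a 1 - a 0 + a 0 - a (0 + 1)) / 2) = 0 := by
      simp
    rw [h1, Real.exp_zero, mul_one]
  | succ n ih =>
    have h1 := h n
    have h2 : D (n + 1) = D n * Real.exp (-(c + a (n + 1) - (a n + a (n + 2)) / 2)) := by
      rw [h1, mul_assoc, ← Real.exp_add, add_neg_cancel, Real.exp_zero, mul_one]
    rw [h2, ih, mul_assoc, ← Real.exp_add]
    congr 2
    push_cast
    ring

theorem p_YSU : Stmt_YSU := by
  intro D a c hc ha hD h
  have hf := YSU_form D a c h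
  refine ⟨?_, ?_⟩
  · refine ⟨D 0 * Real.exp 1 * (1 - Real.exp (-c))⁻¹, fun n => ?_⟩
    have hr : Real.exp (-c) < 1 := by
      rw [Real.exp_lt_one_iff]
      linarith
    have hr0 : 0 < 1 - Real.exp (-c) := by linarith
    have h1 : ∀ j, D j ≤ D 0 * Real.exp 1 * Real.exp (-c) ^ j := by
      intro j
      rw [hf j, mul_assoc, ← Real.exp_nat_mul, ← Real.exp_add]
      refine mul_le_mul_of_nonneg_left ?_ (hD 0).le
      refine Real.exp_le_exp.2 ?_
      have h2 := ha 0
      have h3 := ha 1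
      have h4 := ha j
      have h5 := ha (j + 1)
      linarith [h2.1, h2.2, h3.1, h3.2, h4.1, h4.2, h5.1, h5.2]
    have h2 : ∑ j ∈ Finset.range n, Real.exp (-c) ^ j ≤ (1 - Real.exp (-c))⁻¹ := by
      have h3 := mul_neg_geom_sum (Real.exp (-c)) n
      rw [← one_div, le_div_iff₀ hr0, mul_comm, h3]
      have h4 : 0 ≤ Real.exp (-c) ^ n := by positivity
      linarith
    calc ∑ j ∈ Finset.range n, D j ≤ ∑ j ∈ Finset.range n, D 0 * Real.exp 1 * Real.exp (-c) ^ j :=
          Finset.sum_le_sum fun j _ => h1 j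
      _ = D 0 * Real.exp 1 * ∑ j ∈ Finset.range n, Real.exp (-c) ^ j := by
          rw [Finset.mul_sum]
      _ ≤ D 0 * Real.exp 1 * (1 - Real.exp (-c))⁻¹ :=
          mul_le_mul_of_nonneg_left h2 (mul_nonneg (hD 0).le (Real.exp_pos _).le)
  · intro N hN
    have h1 := hN 0
    have h2 := hN 1
    rw [zero_add] at h1
    rw [add_comm] at h2
    rw [hf N, h1, h2]
    congr 2
    ring

end Pool.SH
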