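import Pool.Agent.Work.MP_ae1ff6_sh.InterfaceF

/-!
# YTR: transport of developing maps
-/

open Topology Filter Set
open scoped ComplexConjugate

set_option autoImplicit false

namespace Pool.SH

open Pool.CG Pool.AR

theorem YTR_inv (g : H) (x : Circle) : g⁻¹ (g x) = x := g.symm_apply_apply x

theorem YTR_inv' (g : H) (x : Circle) : g (g⁻¹ x) = x := g.apply_symm_apply x

theorem p_YTR (h1 : Stmt_YED) (h2 : Stmt_YDV) (h3 : Stmt_YGQ) (h4 : Stmt_YAL) : Stmt_YTR := by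
  intro G Λ ℛ T hN K hK g hg δ δ' hδ hδ'
  have hO : Ori g := hN.ori g hg
  obtain ⟨hF, -, -, hG⟩ := h3 G Λ ℛ T hN
  obtain ⟨hVx, hGap, -, hTT, hTL, -, -⟩ := hG g hg K hK
  have hFK : Fans K (T K) := hF K hK
  have hcy : CyOn (fun x => δ' (g x)) (Vx K (T K)) := by
    intro a ha b hb c hc habc
    exact hδ'.cy _ ((hVx a).mp ha) _ ((hVx b).mp hb) _ ((hVx c).mp hc) (hO a b c habc)
  have hal : ∀ x, al G T ((g : H) '' K) (g x) = al G T K x :=
    fun x => (h4 G Λ ℛ T hN).1 K hK g hg x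
  have hsha : Sha K (T K) (al G T K) (fun x => δ' (g x)) := by
    intro p q v w hpq hpv hqw hv hw
    have h5 := hδ'.sha (g p) (g q) (g v) (g w) ((hTL p q).mp hpq) (hO _ _ _ hpv) (hO _ _ _ hqw)
      ((hTT p q v).mp hv) ((hTT p q w).mp hw)
    rw [hal, hal, hal, hal] at h5
    exact h5
  obtain ⟨m, hm, hmx⟩ := (h2 K (T K) hFK (al G T K)).2 δ (fun x => δ' (g x)) hδ.cy hcy hδ.sha hsha
  have hmO : Ori m := q_MOR.1 m hm
  refine ⟨m, hm, ?_⟩
  intro x hx
  by_cases hxV : x ∈ Vx K (T K)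
  · exact hmx x hxV
  · rcases hx with ⟨P, hP, hxP⟩ | ⟨p, hp⟩
    · exact absurd (mem_sUnion.mpr ⟨P, hP, hxP⟩) hxV
    · have hpV : p ∈ Vx K (T K) := by
        obtain ⟨P, hP, hpP⟩ := hFK.start p x hp
        exact mem_sUnion.mpr ⟨P, hP, hpP⟩
      have hE := hδ.edge p x hp hxV
      have hgV : ∀ y ∈ Vx ((g : H) '' K) (T ((g : H) '' K)), g⁻¹ y ∈ Vx K (T K) := by
        intro y hy
        rw [hVx, YTR_inv']
        exact hy
      have hE2 := h1.2 (Vx K (T K)) (Vx ((g : H) '' K) (T ((g : H) '' K))) δ δ' g m p (δ x) hmO hpV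
        (fun y hy => (hVx y).mp hy) hgV hmx hE
      have hgx : g x ∉ Vx ((g : H) '' K) (T ((g : H) '' K)) := fun h => hxV ((hVx x).mpr h)
      have hE3 := hδ'.edge (g p) (g x) ((hGap p x).mp hp) hgx
      exact h1.1 _ _ _ _ _ hE3 hE2

end Pool.SH
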