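import Pool.Agent.Work.MP_ae1ff6_sh.InterfaceF

/-!
# MP_ae1ff6_gt, part 4, block YZE: the shears as a symmetric function of the edge
-/

open Topology Filter Set
open scoped ComplexConjugate

set_option autoImplicit false

namespace Pool.SH

open Pool.CG Pool.AR

/-- `v` and `w` are the third vertices of the triangles at the edge `(p, q)` -/
def YZE_Q (K : Set Circle) (T : Set (Circle × Circle)) (p q v w : Circle) : Prop :=
  (p, q) ∈ TL K T ∧ Ccw p v q ∧ Ccw q w p ∧ ({p, q, v} : Set Circle) ∈ TT K T ∧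
    ({p, q, w} : Set Circle) ∈ TT K T

theorem YZE_at {p q v : Circle} (h : Ccw p v q) : At ({p, q, v} : Set Circle) p q := by
  refine ⟨by simp, by simp, ?_⟩
  rintro x (rfl | rfl | rfl)
  · exact Or.inl rfl
  · exact Or.inr (Or.inl rfl)
  · exact Or.inr (Or.inr h)

theorem YZE_at' {p q w : Circle} (h : Ccw q w p) : At ({p, q, w} : Set Circle) q p := by
  refine ⟨by simp, by simp, ?_⟩
  rintro x (rfl | rfl | rfl)
  · exact Or.inr (Or.inl rfl)
  · exact Or.inl rfl
  · exact Or.inr (Or.inr h)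

theorem YZE_eq {p q v v' : Circle} (h1 : v ≠ p) (h2 : v ≠ q)
    (h : ({p, q, v} : Set Circle) = {p, q, v'}) : v = v' := by
  have h3 : v ∈ ({p, q, v'} : Set Circle) := h ▸ (by simp)
  rcases h3 with h4 | h4 | h4
  · exact absurd h4 h1
  · exact absurd h4 h2
  · exact h4

theorem YZE_uniq (h1 : Stmt_YPU) {K : Set Circle} {T : Set (Circle × Circle)} (hF : Fans K T)
    {p q v w v' w' : Circle} (h : YZE_Q K T p q v w) (h' : YZE_Q K T p q v' w') :
    v = v' ∧ w = w' := by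
  obtain ⟨a1, a2, a3, a4, a5⟩ := h
  obtain ⟨b1, b2, b3, b4, b5⟩ := h'
  have n1 := q_CYO.2.1 p v q a2
  have n2 := q_CYO.2.1 q w p a3
  have hpq : p ≠ q := n1.2.2.2
  constructor
  · exact YZE_eq n1.2.1.symm n1.2.2.1
      (h1 _ _ hF.pcs _ a4 _ b4 p q hpq (YZE_at a2) (YZE_at b2))
  · exact YZE_eq n2.2.2.1 n2.2.1.symm
      (h1 _ _ hF.pcs _ a5 _ b5 q p hpq.symm (YZE_at' a3) (YZE_at' b3))

theorem YZE_symm {K : Set Circle} {T : Set (Circle × Circle)} (hF : Fans K T)
    {p q v w : Circle} (h : YZE_Q K T p q v w) : YZE_Q K T q p w v := by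
  obtain ⟨a1, a2, a3, a4, a5⟩ := h
  refine ⟨hF.pcs.symm p q a1, a3, a2, ?_, ?_⟩
  · rw [Set.insert_comm]
    exact a5
  · rw [Set.insert_comm]
    exact a4

theorem p_YZE (h1 : Stmt_YPU) : Stmt_YZE := by
  intro K T hF a
  classical
  let z : Circle → Circle → ℝ := fun p q =>
    if h : ∃ y : Circle × Circle, YZE_Q K T p q y.1 y.2 then
      a p + a q - (a h.choose.1 + a h.choose.2) / 2 else 0
  have val : ∀ p q v w, YZE_Q K T p q v w → z p q = a p + a q - (a v + a w) / 2 := by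
    intro p q v w h
    have hex : ∃ y : Circle × Circle, YZE_Q K T p q y.1 y.2 := ⟨(v, w), h⟩
    have hz : z p q = a p + a q - (a hex.choose.1 + a hex.choose.2) / 2 := dif_pos hex
    obtain ⟨e1, e2⟩ := YZE_uniq h1 hF hex.choose_spec h
    rw [hz, e1, e2]
  refine ⟨z, ?_, fun p q v w a1 a2 a3 a4 a5 => val p q v w ⟨a1, a2, a3, a4, a5⟩⟩
  intro p q
  by_cases h : ∃ y : Circle × Circle, YZE_Q K T p q y.1 y.2
  · obtain ⟨⟨v, w⟩, hvw⟩ := h
    rw [val p q v w hvw, val q p w v (YZE_symm hF hvw)]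
    ring
  · have h' : ¬ ∃ y : Circle × Circle, YZE_Q K T q p y.1 y.2 := by
      rintro ⟨⟨v, w⟩, hvw⟩
      exact h ⟨(w, v), YZE_symm hF hvw⟩
    have e1 : z p q = 0 := dif_neg h
    have e2 : z q p = 0 := dif_neg h'
    rw [e1, e2]

end Pool.SH
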