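import Pool.Agent.Work.MP_ae1ff6_sh.DefsG

/-!
# Mapping classes of infinite order realized by isometries (MP_ae1ff6_gt): definitions

`Γ` is a torsion free Fuchsian group of the first kind, `f` a homeomorphism of the circle which normalises
`Γ` (see `Pool/Agent/Work/MP_ae1ff6_cg/Defs.lean`). `Ccw a b c`: `a`, `b`, `c` are different points in
counterclockwise order (`Pool/Agent/Work/MP_ae1ff6_ar/Defs.lean`).
-/

open Topology Filter Set
open scoped ComplexConjugate

set_option autoImplicit false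

namespace Pool.SH

open Pool.CG Pool.AR

/-- `K` and `K'` are neighbours along the line `(p, q)`; `K` is on the right side of `(p, q)`, in the arc from
`p` to `q` -/
def Adj (P : Set (Set Circle)) (L : Set (Circle × Circle)) (p q : Circle) (K K' : Set Circle) : Prop :=
  (p, q) ∈ L ∧ K ∈ P ∧ K' ∈ P ∧ p ∈ K ∧ q ∈ K ∧ p ∈ K' ∧ q ∈ K' ∧ K ⊆ Arc p q ∧ K' ⊆ Arc q p

/-- `d` preserves the cyclic order of the points of `V` -/
def Ordp (V : Set Circle) (d : Circle → Circle) : Prop :=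
  ∀ a ∈ V, ∀ b ∈ V, ∀ c ∈ V, Ccw a b c → Ccw (d a) (d b) (d c)

/-- the pieces in `P` are triangles and the map `d` has the shears `z` -/
def Shears (P : Set (Set Circle)) (L : Set (Circle × Circle)) (z : Circle → Circle → Circle → Circle → ℝ)
    (d : Circle → Circle) : Prop :=
  ∀ p q v w, (p, q) ∈ L → {p, q, v} ∈ P → {p, q, w} ∈ P → Ccw p v q → Ccw q w p →
    X (d p) (d q) (d v) (d w) = Real.exp (z p q v w)

/-! ### The retraction to a closed set -/

/-- `w` is the last point of `K` at or before `u` (in counterclockwise direction): there is no point of `K`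
in the half open arc `(w, u]` -/
def Ret (K : Set Circle) (u w : Circle) : Prop := w ∈ K ∧ ∀ x ∈ K, x ≠ w → x ≠ u ∧ ¬ Ccw w x u

/-- the images of the edges of the ideal triangulation `T` under the retraction to `K` -/
def TE (K : Set Circle) (T : Set (Circle × Circle)) : Set (Circle × Circle) :=
  {e | e.1 ≠ e.2 ∧ ∃ x y, (x, y) ∈ T ∧ Ret K x e.1 ∧ Ret K y e.2}

/-- the images of the triangles of `T` under the retraction to `K`, if they are triangles -/
def TT (K : Set Circle) (T : Set (Circle × Circle)) : Set (Set Circle) :=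
  {P | ∃ a b c x y z, Ccw a b c ∧ P = {a, b, c} ∧ Ccw x y z ∧ (x, y) ∈ T ∧ (y, z) ∈ T ∧ (z, x) ∈ T ∧
    Ret K x a ∧ Ret K y b ∧ Ret K z c}

/-- the image edges which are not sides of `K` -/
def TL (K : Set Circle) (T : Set (Circle × Circle)) : Set (Circle × Circle) :=
  {e | e ∈ TE K T ∧ (∃ k ∈ K, Ccw e.1 k e.2) ∧ ∃ k ∈ K, Ccw e.2 k e.1}

/-- the open arc from `p` to `q` is a gap of `K` -/
def Gap (K : Set Circle) (p q : Circle) : Prop := p ∈ K ∧ q ∈ K ∧ p ≠ q ∧ ∀ k ∈ K, ¬ Ccw p k q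

/-- the vertices of the triangles and the ends of the gaps -/
def Vt (K : Set Circle) (T : Set (Circle × Circle)) : Set Circle :=
  {x | (∃ P ∈ TT K T, x ∈ P) ∨ ∃ p, Gap K p x}

/-- `c` is the next vertex after `b` at `p` (clockwise, towards the gap after `p`) -/
def Nx (K : Set Circle) (T : Set (Circle × Circle)) (p b c : Circle) : Prop :=
  Ccw p c b ∧ ({p, c, b} : Set Circle) ∈ TT K T

/-- `c` is the `n`-th vertex after `b` at `p` -/
def Sn (K : Set Circle) (T : Set (Circle × Circle)) (p : Circle) : ℕ → Circle → Circle → Prop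
  | 0, b, c => b = c
  | n + 1, b, c => ∃ b', Nx K T p b b' ∧ Sn K T p n b' c

/-! ### The invariant lamination -/

/-- the image of the family `A` under `f ^ n` -/
def sh (f : H) (n : ℤ) (A : Set (Circle × Circle)) : Set (Circle × Circle) :=
  {a | ((f ^ (-n)) a.1, (f ^ (-n)) a.2) ∈ A}

/-- the lines which cross no line of `A` -/
def Un (A : Set (Circle × Circle)) : Set (Circle × Circle) :=
  {u | u.1 ≠ u.2 ∧ ∀ a ∈ A, ¬ Link a.1 a.2 u.1 u.2}

/-- a locally finite family of closed geodesics with `f A ⊆ A` such that each closed geodesic is in `f⁻ⁿ A`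
and is not in `fⁿ A`, for all large `n` -/
structure Fam (Γ : Subgroup H) (f : H) (A : Set (Circle × Circle)) : Prop where
  symm : ∀ x y, (x, y) ∈ A → (y, x) ∈ A
  keep : Keeps Γ A
  axis : ∀ x y, (x, y) ∈ A → ∃ γ ∈ Γ, Axis γ x y
  fin : LocFin A
  push : ∀ x y, (x, y) ∈ A → (f x, f y) ∈ A
  swallow : ∀ γ ∈ Γ, ∀ p q, Axis γ p q → ∃ N : ℤ, ∀ n : ℤ, N ≤ n → ((f ^ n) p, (f ^ n) q) ∈ A
  leave : ∀ γ ∈ Γ, ∀ p q, Axis γ p q → ∃ N : ℤ, ∀ n : ℤ, n ≤ N → ((f ^ n) p, (f ^ n) q) ∉ A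

/-- the invariant lamination: the lines which cross neither a line of `fⁿ A` nor a line of `Un (fⁿ A)`, for
some `n` -/
def Lam (f : H) (A : Set (Circle × Circle)) : Set (Circle × Circle) :=
  {l | ∃ n : ℤ, l ∈ Un (sh f n A) ∧ l ∈ Un (Un (sh f n A))}

/-- `K` is a region of `Λ` (the set of its ideal points): a maximal set of at least three points such that no
line of `Λ` separates two of them -/
def Reg (Λ : Set (Circle × Circle)) (K : Set Circle) : Prop :=
  (∃ a ∈ K, ∃ b ∈ K, ∃ c ∈ K, Ccw a b c) ∧ (∀ a ∈ K, ∀ b ∈ K, ∀ l ∈ Λ, ¬ Link l.1 l.2 a b) ∧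
    ∀ z, z ∉ K → ∃ x ∈ K, ∃ l ∈ Λ, Link l.1 l.2 z x

/-- `n` is the level of `K`: the last integer such that a line of `fⁿ A` crosses `K` -/
def Lev (f : H) (A : Set (Circle × Circle)) (K : Set Circle) (n : ℤ) : Prop :=
  (∃ a ∈ sh f n A, ∃ x ∈ K, ∃ y ∈ K, Link a.1 a.2 x y) ∧
    ∀ m : ℤ, n < m → ∀ a ∈ sh f m A, ∀ x ∈ K, ∀ y ∈ K, ¬ Link a.1 a.2 x y

/-- the triangulation `fⁿ T₀`, `n` the level of `K` -/
def TK (f : H) (A T₀ : Set (Circle × Circle)) (K : Set Circle) : Set (Circle × Circle) :=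
  {a | ∃ n : ℤ, Lev f A K n ∧ a ∈ sh f n T₀}

/-- what is used about the lamination `Λ` and the triangulations `T` in the construction of the regions -/
structure Lamn (G : Subgroup H) (Λ : Set (Circle × Circle)) (T : Set Circle → Set (Circle × Circle)) :
    Prop where
  conv : Conv G
  ori : ∀ g ∈ G, Ori g
  tf : ∀ g ∈ G, ∀ n : ℕ, 0 < n → g ^ n = 1 → g = 1
  symm : ∀ p q, (p, q) ∈ Λ → (q, p) ∈ Λ
  ne : ∀ p q, (p, q) ∈ Λ → p ≠ q
  unlinked : ∀ x y z w, (x, y) ∈ Λ → (z, w) ∈ Λ → ¬ Link x y z w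
  fin : LocFin Λ
  nonempty : Λ.Nonempty
  keepL : Keeps G Λ
  tri : ∀ K, Reg Λ K → Tri (T K)
  keepT : ∀ g ∈ G, ∀ K, Reg Λ K → ∀ x y, (x, y) ∈ T K → (g x, g y) ∈ T ((g : H) '' K)

/-- The data of the second part: a group `G`, a `G`-invariant lamination `Λ` with regions `ℛ`, and for each
region `K` an ideal triangulation `T K` of the disc, compatible with `G`. -/
structure Net (G : Subgroup H) (Λ : Set (Circle × Circle)) (ℛ : Set (Set Circle))
    (T : Set Circle → Set (Circle × Circle)) : Prop where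
  conv : Conv G
  ori : ∀ g ∈ G, Ori g
  tf : ∀ g ∈ G, ∀ n : ℕ, 0 < n → g ^ n = 1 → g = 1
  pcs : Pieces ℛ Λ
  nonempty : ℛ.Nonempty
  closed : ∀ K ∈ ℛ, IsClosed K
  gap : ∀ K ∈ ℛ, ∀ p q, Gap K p q → (p, q) ∈ Λ
  keepL : Keeps G Λ
  keepK : ∀ g ∈ G, ∀ K ∈ ℛ, (g : H) '' K ∈ ℛ
  tri : ∀ K ∈ ℛ, Tri (T K)
  keepT : ∀ g ∈ G, ∀ K ∈ ℛ, ∀ x y, (x, y) ∈ T K → (g x, g y) ∈ T ((g : H) '' K)

/-! ### The shears -/

/-- an element of `G` which preserves `K` and fixes `p` shifts the vertices at `p` by `n` -/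
def Per (G : Subgroup H) (T : Set Circle → Set (Circle × Circle)) (K : Set Circle) (p : Circle) (n : ℕ) :
    Prop :=
  0 < n ∧ ∃ g ∈ G, (g : H) '' K = K ∧ g p = p ∧ ∃ b, Sn K (T K) p n b (g b)

open Classical in
/-- the weight of the corners at `p` in `K`: one divided by the smallest period -/
noncomputable def al (G : Subgroup H) (T : Set Circle → Set (Circle × Circle)) (K : Set Circle) (p : Circle) :
    ℝ :=
  if h : ∃ n, Per G T K p n then 1 / (Nat.find h : ℝ) else 1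

/-- the shear of the edge `(p, q)` of `K` with the adjacent triangles `p, q, v` and `p, q, w` -/
noncomputable def zz (G : Subgroup H) (T : Set Circle → Set (Circle × Circle)) (K : Set Circle)
    (p q v w : Circle) : ℝ :=
  al G T K p + al G T K q - (al G T K v + al G T K w) / 2

/-- the theorem: for mapping classes of infinite order of a surface `𝔻 / Γ` which has an ideal triangulation,
`f` is realized by an isometry of a complete hyperbolic metric if and only if each closed geodesic `a` is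
crossed by `f ^ n (a)` only for finitely many integers `n` -/
def Stmt_Full : Prop :=
  ∀ (Γ : Subgroup H) (f : H) (T₀ : Set (Circle × Circle)), FirstKind Γ →
    (∀ γ ∈ Γ, ∀ n : ℕ, 0 < n → γ ^ n = 1 → γ = 1) → Tri T₀ → Keeps Γ T₀ → Ori f →
    (∀ γ, γ ∈ Γ ↔ f * γ * f⁻¹ ∈ Γ) → (∀ n : ℕ, 0 < n → f ^ n ∉ Γ) →
    (RealizedW (Γ ⊔ Subgroup.zpowers f) ↔ ∀ γ ∈ Γ, ∀ p q : Circle, Axis γ p q →
      {n : ℤ | ∃ κ ∈ Γ, Link ((κ * f ^ n) p) ((κ * f ^ n) q) p q}.Finite)

end Pool.SH
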