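import Pool.Agent.Work.MP_ae1ff6_sh.InterfaceT

/-!
# Block FNP: only finitely many edges separate two pairs (helper4)
-/

open Topology Filter Set
open scoped ComplexConjugate

set_option autoImplicit false

namespace Pool.SH

open Pool.CG Pool.AR

theorem FNP_dist (r s : ℝ) (h1 : s ≤ r) (h2 : r ≤ s + 2 * Real.pi) :
    dist (Circle.exp r) (Circle.exp s) = 2 * Real.sin ((r - s) / 2) := by
  have h3 : dist (Circle.exp r) (Circle.exp s) =
      ‖Complex.exp (Complex.I * ((r - s : ℝ) : ℂ)) - 1‖ := by
    have h4 : dist (Circle.exp r) (Circle.exp s) = ‖((Circle.exp r : Circle) : ℂ) - (Circle.exp s : Circle)‖ := by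
      rw [← Complex.dist_eq]
      rfl
    rw [h4, Circle.coe_exp, Circle.coe_exp]
    have h5 : Complex.exp ((r : ℂ) * Complex.I) - Complex.exp ((s : ℂ) * Complex.I) =
        Complex.exp ((s : ℂ) * Complex.I) * (Complex.exp (Complex.I * ((r - s : ℝ) : ℂ)) - 1) := by
      rw [mul_sub, ← Complex.exp_add, mul_one]
      congr 2
      push_cast
      ring
    rw [h5, norm_mul, Complex.norm_exp_ofReal_mul_I, one_mul]
  rw [h3, Complex.norm_exp_I_mul_ofReal_sub_one, Real.norm_eq_abs, abs_of_nonneg]
  have := Real.sin_nonneg_of_nonneg_of_le_pi (x := (r - s) / 2) (by linarith) (by linarith)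
  linarith

theorem FNP_minor (x y : Circle) (hxy : x ≠ y) :
    (∀ z ∈ Arc x y, dist z x ≤ dist x y) ∨ (∀ z ∈ Arc y x, dist z x ≤ dist x y) := by
  obtain ⟨-, A2, A3, -⟩ := q_ANG
  obtain ⟨s, t, hst, hts, rfl, rfl⟩ := A3 x y hxy
  have hpi := Real.pi_pos
  rcases le_total (t - s) Real.pi with h | h
  · left
    rintro z (rfl | rfl | hz)
    · rw [dist_self]
      exact dist_nonneg
    · rw [dist_comm]
    · obtain ⟨r, hr1, hr2, rfl⟩ := A2 s t z hst hts hz
      rw [FNP_dist r s hr1.le (by linarith), dist_comm, FNP_dist t s hst.le hts.le]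
      have := Real.sin_le_sin_of_le_of_le_pi_div_two (x := (r - s) / 2) (y := (t - s) / 2)
        (by linarith) (by linarith) (by linarith)
      linarith
  · right
    have hper : Circle.exp (s + 2 * Real.pi) = Circle.exp s := Circle.exp_add_two_pi s
    rintro z (rfl | rfl | hz)
    · rw [dist_comm]
    · rw [dist_self]
      exact dist_nonneg
    · rw [← hper] at hz
      obtain ⟨r, hr1, hr2, rfl⟩ := A2 t (s + 2 * Real.pi) z hts (by linarith) hz
      rw [← hper, dist_comm, FNP_dist (s + 2 * Real.pi) r hr2.le (by linarith),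
        FNP_dist (s + 2 * Real.pi) t hts.le (by linarith)]
      have := Real.sin_le_sin_of_le_of_le_pi_div_two (x := (s + 2 * Real.pi - r) / 2)
        (y := (s + 2 * Real.pi - t) / 2) (by linarith) (by linarith) (by linarith)
      linarith

theorem p_FNP : Stmt_FNP := by
  intro T hT hne a b d e hab hde
  have hpos : 0 < min (dist a b) (dist d e) / 2 :=
    half_pos (lt_min (dist_pos.2 hab) (dist_pos.2 hde))
  refine (hT _ hpos).subset ?_
  rintro ⟨x, y⟩ ⟨hl, ha, hb, hd, he⟩
  refine ⟨hl, ?_⟩
  simp only at ha hb hd he ⊢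
  rcases FNP_minor x y (hne x y hl) with h | h
  · have h1 := h a ha
    have h2 := h b hb
    have h3 := dist_triangle_right a b x
    have h4 := min_le_left (dist a b) (dist d e)
    linarith
  · have h1 := h d hd
    have h2 := h e he
    have h3 := dist_triangle_right d e x
    have h4 := min_le_right (dist a b) (dist d e)
    linarith

end Pool.SH
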