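import Pool.Agent.Work.MP_ae1ff6_sh.InterfaceZ
import Pool.Agent.Work.MP_ae1ff6_sh.B_MBG

open Topology Filter Set
open scoped ComplexConjugate

set_option autoImplicit false

namespace Pool.SH

open Pool.CG Pool.AR

theorem GLB_ne {δ : Circle → Circle} {U : Set Circle} (h : CyOn δ U) {a b c : Circle} (ha : a ∈ U)
    (hb : b ∈ U) (hc : c ∈ U) (hab : a ≠ b) (hbc : b ≠ c) (hac : a ≠ c) :
    δ a ≠ δ b ∧ δ b ≠ δ c ∧ δ a ≠ δ c := by
  rcases q_CYO.2.2.1 a b c hab hbc hac with h1 | h1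
  · exact (q_CYO.2.1 _ _ _ (h a ha b hb c hc h1)).2
  · obtain ⟨_, n1, n2, n3⟩ := q_CYO.2.1 _ _ _ (h a ha c hc b hb h1)
    exact ⟨n3, n2.symm, n1⟩

/-- a Möbius map changes the ratio of the distances by a constant -/
theorem GLB_R (hMXI : Stmt_MXI) {U : Set Circle} {δ d : Circle → Circle} {M s : H} {p q : Circle}
    {μ : ℝ} (hcy : CyOn δ U) (hM : IsMob M) (hd : ∀ x ∈ U, d x = M (δ x)) (hpq : p ≠ q)
    (hp : p ∈ U) (hq : q ∈ U) (sp : s p = p) (sq : s q = q) (hs : ∀ x ∈ U, s x ∈ U)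
    (hμ : ∀ x ∈ U, x ≠ p → x ≠ q → dist (δ (s x)) (δ p) * dist (δ x) (δ q) =
      μ * (dist (δ x) (δ p) * dist (δ (s x)) (δ q))) (y : Circle) (hy : y ∈ U) (hyp : y ≠ p)
    (hyq : y ≠ q) :
    dist (d (s y)) (d p) / dist (d (s y)) (d q) = μ * (dist (d y) (d p) / dist (d y) (d q)) := by
  have hsy := hs y hy
  have hsyp : s y ≠ p := by
    intro h
    rw [← sp] at h
    exact hyp (s.injective h)
  have hsyq : s y ≠ q := by
    intro h
    rw [← sq] at h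
    exact hyq (s.injective h)
  have n1 := (GLB_ne hcy hy hq hp hyq hpq.symm hyp).1
  have n2 := (GLB_ne hcy hsy hq hp hsyq hpq.symm hsyp).1
  have d1 : 0 < dist (δ y) (δ q) := dist_pos.2 n1
  have d2 : 0 < dist (δ (s y)) (δ q) := dist_pos.2 n2
  obtain ⟨c, _, hc⟩ := (hMXI M hM).2 (δ p) (δ q)
  rw [hd _ hsy, hd _ hy, hd _ hp, hd _ hq, hc, hc]
  have h3 := hμ y hy hyp hyq
  have h4 : dist (δ (s y)) (δ p) / dist (δ (s y)) (δ q) =
      μ * (dist (δ y) (δ p) / dist (δ y) (δ q)) := by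
    rw [div_eq_iff d2.ne']
    have h5 : μ * (dist (δ y) (δ p) / dist (δ y) (δ q)) * dist (δ (s y)) (δ q) =
        μ * (dist (δ y) (δ p) * dist (δ (s y)) (δ q)) / dist (δ y) (δ q) := by ring
    rw [h5, ← h3, mul_div_assoc, div_self d1.ne', mul_one]
  rw [h4]
  ring

theorem GLB_X (p q v w : Circle) :
    X p q v w = (dist v p / dist v q) * (dist w p / dist w q)⁻¹ := by
  unfold X
  rw [inv_div, div_mul_div_comm]

theorem GLB_at {g : H} (hg : Ori g) {K : Set Circle} {p q : Circle} (h : At K p q) :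
    At ((g : H) '' K) (g p) (g q) := by
  refine ⟨⟨p, h.1, rfl⟩, ⟨q, h.2.1, rfl⟩, ?_⟩
  rintro _ ⟨z, hz, rfl⟩
  rcases h.2.2 hz with h1 | h1 | h1
  · exact Or.inl (by rw [h1])
  · exact Or.inr (Or.inl (by rw [h1]))
  · exact Or.inr (Or.inr (hg _ _ _ h1))

theorem GLB_inv (g : H) (z : Circle) : g⁻¹ (g z) = z := g.symm_apply_apply z

theorem p_GLB (hMXI : Stmt_MXI) (hGLV : Stmt_GLV) (hGUN : Stmt_GUN) (hPC1 : Stmt_PC1)
    (hVPC : Stmt_VPC) (hDEL : Stmt_DEL) (hWIT : Stmt_WIT) : Stmt_GLB := by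
  intro G Λ ℛ T N F hV
  obtain ⟨hPV, hinj, hat⟩ := hVPC G Λ ℛ T N F
  obtain ⟨δ, hδ1, hδ2, hδ3⟩ := hDEL G Λ ℛ T N
  have hVV : ∀ K ∈ ℛ, Vt K (T K) ∈ VV ℛ T := fun K hK => ⟨K, hK, rfl⟩
  have hW0 : ∀ K ∈ ℛ, ∀ p q, ∃ x ∈ Vt K (T K), x ≠ p ∧ x ≠ q := by
    intro K hK p q
    obtain ⟨a, ha, b, hb, c, hc, habc⟩ := hPV.three _ (hVV K hK)
    obtain ⟨_, n1, n2, n3⟩ := q_CYO.2.1 _ _ _ habc
    by_contra hcon
    push Not at hcon
    have e : ∀ x ∈ Vt K (T K), x = p ∨ x = q := by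
      intro x hx
      by_cases h : x = p
      · exact Or.inl h
      · exact Or.inr (hcon x hx h)
    rcases e a ha with h1 | h1 <;> rcases e b hb with h2 | h2 <;> rcases e c hc with h3 | h3
    · exact n1 (h1.trans h2.symm)
    · exact n1 (h1.trans h2.symm)
    · exact n3 (h1.trans h3.symm)
    · exact n2 (h2.trans h3.symm)
    · exact n2 (h2.trans h3.symm)
    · exact n3 (h1.trans h3.symm)
    · exact n1 (h1.trans h2.symm)
    · exact n1 (h1.trans h2.symm)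
  obtain ⟨v, hv1, hv2⟩ := hWIT G Λ ℛ T N hW0 hV
  have hι0 : ∀ V : Set Circle, ∃ K, V ∈ VV ℛ T → K ∈ ℛ ∧ V = Vt K (T K) := by
    intro V
    by_cases h : V ∈ VV ℛ T
    · obtain ⟨K, hK, hVK⟩ := h
      exact ⟨K, fun _ => ⟨hK, hVK⟩⟩
    · exact ⟨V, fun h' => absurd h' h⟩
  choose ι hι using hι0
  have hιK : ∀ K ∈ ℛ, ι (Vt K (T K)) = K := by
    intro K hK
    obtain ⟨h1, h2⟩ := hι _ (hVV K hK)
    exact (hinj hK h1 h2).symm
  obtain ⟨m, d, hm, hd0, hcyd, hX⟩ := hGLV (VV ℛ T) Λ hPV (fun V => δ (ι V)) v (fun _ _ => 1)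
    (by
      rintro P ⟨K, hK, rfl⟩
      show CyOn (δ (ι (Vt K (T K)))) (Vt K (T K))
      rw [hιK K hK]
      exact hδ1 K hK)
    (fun p q _ => ⟨rfl, one_pos⟩)
    (by
      rintro P ⟨K, hK, rfl⟩ p q hpq hP
      exact hv1 K hK p q hpq ((hat K hK p q hpq).2 hP))
  have hd : ∀ K ∈ ℛ, ∀ x ∈ Vt K (T K), d x = m (Vt K (T K)) (δ K x) := by
    intro K hK x hx
    have h1 := hd0 _ (hVV K hK) x hx
    have h2 : d x = m (Vt K (T K)) (δ (ι (Vt K (T K))) x) := h1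
    rwa [hιK K hK] at h2
  refine ⟨d, hcyd, ?_⟩
  intro g hg
  have hne : (VV ℛ T).Nonempty := by
    obtain ⟨K, hK⟩ := N.nonempty
    exact ⟨_, hVV K hK⟩
  refine hGUN (VV ℛ T) Λ hPV hne d (fun x => d (g x)) hcyd ?_ ?_
  · rintro P ⟨K, hK, rfl⟩
    obtain ⟨n, hn, hx⟩ := hδ2 K hK g hg
    have hK1 := N.keepK g hg K hK
    refine ⟨m (Vt ((g : H) '' K) (T ((g : H) '' K))) * n * (m (Vt K (T K)))⁻¹, ?_, ?_⟩
    · exact p_MBG.2.1 _ _ (p_MBG.2.1 _ _ (hm _ (hVV _ hK1)) hn) (p_MBG.2.2 _ (hm _ (hVV _ hK)))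
    · intro x hxK
      show d (g x) = m (Vt ((g : H) '' K) (T ((g : H) '' K)))
        (n ((m (Vt K (T K)))⁻¹ (d x)))
      rw [hd _ hK1 _ (hV g hg K hK x hxK), hd _ hK _ hxK, hx x hxK, GLB_inv]
  · rintro P ⟨K, hK, rfl⟩ P' ⟨K', hK', rfl⟩ p q hpq hP hP'
    have hqp := N.pcs.symm _ _ hpq
    have hAK : At K p q := (hat K hK p q hpq).2 hP
    have hAK' : At K' q p := (hat K' hK' q p hqp).2 hP'
    obtain ⟨hv, hvp, hvq⟩ := hv1 K hK p q hpq hAK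
    obtain ⟨hw, hwq, hwp⟩ := hv1 K' hK' q p hqp hAK'
    refine ⟨v p q, hv, v q p, hw, hvp, hvq, hwp, hwq, ?_⟩
    show X (d p) (d q) (d (v p q)) (d (v q p)) =
      X (d (g p)) (d (g q)) (d (g (v p q))) (d (g (v q p)))
    have x1 : X (d p) (d q) (d (v p q)) (d (v q p)) = 1 := hX p q hpq
    have hgpq : (g p, g q) ∈ Λ := N.keepL g hg p q hpq
    have hgqp : (g q, g p) ∈ Λ := N.keepL g hg q p hqp
    have x2 : X (d (g p)) (d (g q)) (d (v (g p) (g q))) (d (v (g q) (g p))) = 1 :=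
      hX (g p) (g q) hgpq
    obtain ⟨s, hs, sp, sq, e1, e2⟩ := hv2 g hg p q hpq
    rw [e1, e2] at x2
    rw [x1, ← x2]
    have hK1 := N.keepK g hg K hK
    have hK1' := N.keepK g hg K' hK'
    have hA1 : At ((g : H) '' K) (g p) (g q) := GLB_at (N.ori g hg) hAK
    have hA1' : At ((g : H) '' K') (g q) (g p) := GLB_at (N.ori g hg) hAK'
    have hne1 : g p ≠ g q := N.pcs.ne _ _ hgpq
    have hsK : (s : H) '' ((g : H) '' K) = (g : H) '' K := by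
      have h1 := GLB_at (N.ori s hs) hA1
      rw [sp, sq] at h1
      exact (hPC1 ℛ Λ N.pcs).2.1 _ (N.keepK s hs _ hK1) _ hK1 _ _ hgpq h1 hA1
    have hsK' : (s : H) '' ((g : H) '' K') = (g : H) '' K' := by
      have h1 := GLB_at (N.ori s hs) hA1'
      rw [sp, sq] at h1
      exact (hPC1 ℛ Λ N.pcs).2.1 _ (N.keepK s hs _ hK1') _ hK1' _ _ hgqp h1 hA1'
    have hVs : ∀ x ∈ Vt ((g : H) '' K) (T ((g : H) '' K)),
        s x ∈ Vt ((g : H) '' K) (T ((g : H) '' K)) := by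
      intro x hx
      have h1 := hV s hs _ hK1 x hx
      rwa [hsK] at h1
    have hVs' : ∀ x ∈ Vt ((g : H) '' K') (T ((g : H) '' K')),
        s x ∈ Vt ((g : H) '' K') (T ((g : H) '' K')) := by
      intro x hx
      have h1 := hV s hs _ hK1' x hx
      rwa [hsK'] at h1
    obtain ⟨μ, hμ0, hμ1, hμ2⟩ := hδ3 (g p) (g q) _ _ hgpq hK1 hK1' hA1 hA1' s hs sp sq
    have hB1 := (hat _ hK1 _ _ hgpq).1 hA1
    have hB1' := (hat _ hK1' _ _ hgqp).1 hA1'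
    have gv := hV g hg K hK _ hv
    have gw := hV g hg K' hK' _ hw
    have r1 := GLB_R hMXI (hδ1 _ hK1) (hm _ (hVV _ hK1)) (hd _ hK1) hne1 hB1.1 hB1.2.1 sp sq hVs
      hμ1 (g (v p q)) gv (fun h => hvp (g.injective h)) (fun h => hvq (g.injective h))
    have r2 := GLB_R hMXI (hδ1 _ hK1') (hm _ (hVV _ hK1')) (hd _ hK1') hne1 hB1'.2.1 hB1'.1 sp sq
      hVs' hμ2 (g (v q p)) gw (fun h => hwp (g.injective h)) (fun h => hwq (g.injective h))
    rw [GLB_X, GLB_X (d (g p)) (d (g q)) (d (g (v p q)))]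
    rw [r1, r2, mul_inv]
    have hμi : μ * μ⁻¹ = 1 := mul_inv_cancel₀ hμ0.ne'
    linear_combination (dist (d (g (v p q))) (d (g p)) / dist (d (g (v p q))) (d (g q))) *
      (dist (d (g (v q p))) (d (g p)) / dist (d (g (v q p))) (d (g q)))⁻¹ * hμi

end Pool.SH
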