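import Pool.Agent.Work.MP_ae1ff6_sh.InterfaceR

/-!
# REQ: the images of regions are regions
-/

open Topology Filter Set
open scoped ComplexConjugate

set_option autoImplicit false

namespace Pool.SH

open Pool.CG Pool.AR

theorem p_REQ : Stmt_REQ := by
  intro G Λ K hkeep hK g hg hO
  obtain ⟨⟨a, ha, b, hb, c, hc, habc⟩, h2, h3⟩ := hK
  have hinv : ∀ x : Circle, g⁻¹ (g x) = x := fun x => g.symm_apply_apply x
  have hinv' : ∀ x : Circle, g (g⁻¹ x) = x := fun x => g.apply_symm_apply x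
  refine ⟨⟨g a, ⟨a, ha, rfl⟩, g b, ⟨b, hb, rfl⟩, g c, ⟨c, hc, rfl⟩, hO a b c habc⟩, ?_, ?_⟩
  · rintro _ ⟨x, hx, rfl⟩ _ ⟨y, hy, rfl⟩ l hl hL
    have h := Pool.GC.lhi g⁻¹ _ _ _ _ hL
    rw [hinv, hinv] at h
    exact h2 x hx y hy (g⁻¹ l.1, g⁻¹ l.2) (hkeep g⁻¹ (inv_mem hg) l.1 l.2 hl) h
  · intro z hz
    have hz' : g⁻¹ z ∉ K := fun h => hz ⟨g⁻¹ z, h, hinv' z⟩
    obtain ⟨x, hx, l, hl, hL⟩ := h3 _ hz'
    have h := Pool.GC.lhi g _ _ _ _ hL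
    rw [hinv'] at h
    exact ⟨g x, ⟨x, hx, rfl⟩, (g l.1, g l.2), hkeep g hg l.1 l.2 hl, h⟩

end Pool.SH
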