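import Pool.Agent.Work.MP_ae1ff6_sh.InterfaceL

open Topology Filter Set
open scoped ComplexConjugate

set_option autoImplicit false

namespace Pool.SH

open Pool.CG Pool.AR

theorem TRS_pow {f : H} (hf : Ori f) (n : ℤ) : Ori (f ^ n) := by
  obtain ⟨-, ⟨h1, h2, h3⟩, -⟩ := q_MOR
  have hn : ∀ m : ℕ, Ori (f ^ m) := by
    intro m
    induction m with
    | zero => simpa using h1
    | succ m ih => rw [pow_succ]; exact h2 _ _ ih hf
  rcases Int.eq_nat_or_neg n with ⟨m, rfl | rfl⟩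
  · rw [zpow_natCast]; exact hn m
  · rw [zpow_neg, zpow_natCast]; exact h3 _ (hn m)

theorem TRS_inv1 (f : H) (n : ℤ) (x : Circle) : (f ^ (-n)) ((f ^ n) x) = x := by
  have : (f ^ (-n)) ((f ^ n) x) = ((f ^ (-n)) * (f ^ n)) x := rfl
  rw [this, ← zpow_add, neg_add_cancel, zpow_zero]
  rfl

theorem TRS_inv2 (f : H) (n : ℤ) (x : Circle) : (f ^ n) ((f ^ (-n)) x) = x := by
  have : (f ^ n) ((f ^ (-n)) x) = ((f ^ n) * (f ^ (-n))) x := rfl
  rw [this, ← zpow_add, add_neg_cancel, zpow_zero]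
  rfl

/-- local finiteness of the image -/
theorem TRS_fin (f : H) (n : ℤ) (A : Set (Circle × Circle))
    (hA : ∀ ε : ℝ, 0 < ε → {a : Circle × Circle | a ∈ A ∧ ε ≤ dist a.1 a.2}.Finite) :
    ∀ ε : ℝ, 0 < ε → {a : Circle × Circle | a ∈ sh f n A ∧ ε ≤ dist a.1 a.2}.Finite := by
  intro ε hε
  have hu : UniformContinuous (fun x : Circle => (f ^ n) x) :=
    CompactSpace.uniformContinuous_of_continuous (f ^ n).continuous
  obtain ⟨δ, hδ, h⟩ := Metric.uniformContinuous_iff.1 hu ε hε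
  refine Set.Finite.of_finite_image (f := fun a : Circle × Circle => ((f ^ (-n)) a.1, (f ^ (-n)) a.2))
    ((hA δ hδ).subset ?_) ?_
  · rintro _ ⟨a, ⟨ha, hd⟩, rfl⟩
    refine ⟨ha, ?_⟩
    by_contra hlt
    push Not at hlt
    have := h hlt
    simp only [TRS_inv2] at this
    exact absurd hd (not_le.2 this)
  · rintro a - b - hab
    simp only [Prod.mk.injEq] at hab
    exact Prod.ext ((f ^ (-n)).injective hab.1) ((f ^ (-n)).injective hab.2)

theorem p_TRS : Stmt_TRS := by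
  intro f T hf hT n
  refine ⟨?_, ?_, ?_, ?_, ?_, ?_⟩
  · intro x y hxy
    exact hT.symm _ _ hxy
  · intro x y hxy he
    exact hT.ne _ _ hxy (by rw [he])
  · intro x y z w hxy hzw hl
    exact hT.unlinked _ _ _ _ hxy hzw (Pool.GC.lhi (f ^ (-n)) x y z w hl)
  · intro x y hxy
    obtain ⟨z, h1, h2, h3⟩ := hT.third _ _ hxy
    refine ⟨(f ^ n) z, ?_, ?_, ?_⟩
    · have := TRS_pow hf n _ _ _ h1
      simpa only [TRS_inv2] using this
    · show ((f ^ (-n)) x, (f ^ (-n)) ((f ^ n) z)) ∈ T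
      rw [TRS_inv1]; exact h2
    · show ((f ^ (-n)) ((f ^ n) z), (f ^ (-n)) y) ∈ T
      rw [TRS_inv1]; exact h3
  · exact TRS_fin f n T hT.fin
  · obtain ⟨⟨x, y⟩, hxy⟩ := hT.nonempty
    refine ⟨((f ^ n) x, (f ^ n) y), ?_⟩
    show ((f ^ (-n)) ((f ^ n) x), (f ^ (-n)) ((f ^ n) y)) ∈ T
    rw [TRS_inv1, TRS_inv1]; exact hxy

end Pool.SH
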