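import Pool.Agent.Work.MP_ae1ff6_sh.InterfaceF

/-!
# Block YFX: the stabilizer of a gap (helper86)
-/

open Topology Filter Set
open scoped ComplexConjugate

set_option autoImplicit false

namespace Pool.SH

open Pool.CG Pool.AR

theorem p_YFX (hYGQ : Stmt_YGQ) : Stmt_YFX := by
  intro G Λ ℛ T hN K hK p q hgap
  obtain ⟨_, _, y3, y4⟩ := hYGQ G Λ ℛ T hN
  have hgap' := hgap
  obtain ⟨hp, hq, hne, hg⟩ := hgap
  have hpq : (p, q) ∈ Λ := hN.gap K hK p q hgap'
  have hqp : (q, p) ∈ Λ := hN.pcs.symm p q hpq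
  have hside : ∀ b ∈ K, b ≠ p → b ≠ q → Ccw q b p := by
    intro b hb hbp hbq
    rcases q_CYO.2.2.1 p b q hbp.symm hbq hne with h | h
    · exact absurd h (hg b hb)
    · exact q_CYO.1 _ _ _ h
  have hat : At K q p := by
    refine ⟨hq, hp, fun b hb => ?_⟩
    by_cases h1 : b = q
    · exact Or.inl h1
    by_cases h2 : b = p
    · exact Or.inr (Or.inl h2)
    exact Or.inr (Or.inr (hside b hb h2 h1))
  refine ⟨fun g hgG hgp hgq => y3 g hgG K hK q p hqp hat hgq hgp, ?_, ?_, hside⟩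
  · intro g hgG hgp hgK
    have h1 := ((y4 g hgG K hK).2.1 p q).1 hgap'
    rw [hgK, hgp] at h1
    obtain ⟨_, hgq, hne', hg'⟩ := h1
    by_contra hqq
    rcases q_CYO.2.2.1 p q (g q) hne (Ne.symm hqq) hne' with h | h
    · exact hg' q hq h
    · exact hg (g q) hgq h
  · intro g hgG hgp hgq x hxp hxq hgx
    exact q_FXT G g p q x hN.conv hgG (hN.ori g hgG) hne (Ne.symm hxq) (Ne.symm hxp) hgp hgq hgx

end Pool.SH
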