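import Pool.Agent.Work.MP_ae1ff6_sh.InterfaceF

/-!
# Block YGQ: the action of the group on the regions (helper4)
-/

open Topology Filter Set
open scoped ComplexConjugate

set_option autoImplicit false

namespace Pool.SH

open Pool.CG Pool.AR

theorem YGQ_inv (g : H) (K : Set Circle) : (g⁻¹ : H) '' ((g : H) '' K) = K := by
  rw [Set.image_image]
  have : (fun x => (g⁻¹ : H) (g x)) = id := by
    funext x
    exact g.symm_apply_apply x
  rw [this, Set.image_id]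

theorem YGQ_ia (g : H) (x : Circle) : (g⁻¹ : H) (g x) = x := g.symm_apply_apply x

theorem YGQ_ai (g : H) (x : Circle) : g ((g⁻¹ : H) x) = x := g.apply_symm_apply x

theorem YGQ_tri (g : H) (p q v : Circle) :
    (g : H) '' ({p, q, v} : Set Circle) = {g p, g q, g v} := by
  rw [Set.image_insert_eq, Set.image_insert_eq, Set.image_singleton]

/-- both directions of TEQ -/
theorem YGQ_both (h4 : Stmt_TEQ) {G : Subgroup H} {Λ : Set (Circle × Circle)} {ℛ : Set (Set Circle)}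
    {T : Set Circle → Set (Circle × Circle)} (hN : Net G Λ ℛ T) {g : H} (hg : g ∈ G)
    {K : Set Circle} (hK : K ∈ ℛ) :
    (∀ P, P ∈ TT K (T K) ↔ (g : H) '' P ∈ TT ((g : H) '' K) (T ((g : H) '' K))) ∧
    (∀ p q, (p, q) ∈ TL K (T K) ↔ (g p, g q) ∈ TL ((g : H) '' K) (T ((g : H) '' K))) ∧
    (∀ p q, Gap K p q ↔ Gap ((g : H) '' K) (g p) (g q)) ∧
    (∀ x, x ∈ Vt K (T K) ↔ g x ∈ Vt ((g : H) '' K) (T ((g : H) '' K))) ∧
    ∀ p b c, Nx K (T K) p b c ↔ Nx ((g : H) '' K) (T ((g : H) '' K)) (g p) (g b) (g c) := by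
  obtain ⟨a1, a2, a3, a4, a5⟩ := h4 K (T K) (T ((g : H) '' K)) g (hN.ori g hg)
    (hN.keepT g hg K hK)
  have hg' : g⁻¹ ∈ G := G.inv_mem hg
  have hK' : (g : H) '' K ∈ ℛ := hN.keepK g hg K hK
  obtain ⟨b1, b2, b3, b4, b5⟩ := h4 ((g : H) '' K) (T ((g : H) '' K))
    (T ((g⁻¹ : H) '' ((g : H) '' K))) g⁻¹ (hN.ori _ hg') (hN.keepT _ hg' _ hK')
  rw [YGQ_inv] at b1 b2 b3 b4 b5
  refine ⟨fun P => ⟨a1 P, fun h => ?_⟩, fun p q => ⟨a2 p q, fun h => ?_⟩,
    fun p q => ⟨a3 p q, fun h => ?_⟩, fun x => ⟨a4 x, fun h => ?_⟩, fun p b c => ⟨a5 p b c, fun h => ?_⟩⟩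
  · have := b1 _ h
    rwa [YGQ_inv] at this
  · have := b2 _ _ h
    rwa [YGQ_ia, YGQ_ia] at this
  · have := b3 _ _ h
    rwa [YGQ_ia, YGQ_ia] at this
  · have := b4 _ h
    rwa [YGQ_ia] at this
  · have := b5 _ _ _ h
    rwa [YGQ_ia, YGQ_ia, YGQ_ia] at this

theorem p_YGQ (h1 : Stmt_ARX) (h2 : Stmt_PC1) (h3 : Stmt_TFN) (h4 : Stmt_TEQ) : Stmt_YGQ := by
  intro G Λ ℛ T hN
  refine ⟨?_, ?_, ?_, ?_⟩
  · intro K hK
    exact h3 K (T K) (hN.tri K hK) (hN.closed K hK) (hN.pcs.three K hK)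
  · intro K hK p q hpq hat
    obtain ⟨hp, hq, hsub⟩ := hat
    refine ⟨hq, hp, (hN.pcs.ne p q hpq).symm, ?_⟩
    intro k hk hc
    have hd := (q_CYO.2.1 _ _ _ hc).2
    rcases h1.2.1 p q k (hsub hk) (Or.inr (Or.inr hc)) with h | h
    · exact hd.2.1 h
    · exact hd.1 h.symm
  · intro g hg K hK p q hpq hat hgp hgq
    refine (h2 ℛ Λ hN.pcs).2.1 _ (hN.keepK g hg K hK) K hK p q hpq ?_ hat
    obtain ⟨hp, hq, hsub⟩ := hat
    refine ⟨⟨p, hp, hgp⟩, ⟨q, hq, hgq⟩, ?_⟩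
    rintro _ ⟨k, hk, rfl⟩
    rcases hsub hk with h | h | h
    · left
      rw [h, hgp]
    · right
      left
      rw [h, hgq]
    · right
      right
      have := hN.ori g hg _ _ _ h
      rwa [hgp, hgq] at this
  · intro g hg K hK
    obtain ⟨c1, c2, c3, c4, c5⟩ := YGQ_both h4 hN hg hK
    refine ⟨?_, c3, c4, ?_, c2, c5, ?_⟩
    · intro x
      constructor
      · rintro ⟨P, hP, hx⟩
        exact ⟨(g : H) '' P, (c1 P).1 hP, x, hx, rfl⟩
      · rintro ⟨P', hP', hx⟩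
        refine ⟨(g⁻¹ : H) '' P', ?_, g x, hx, YGQ_ia g x⟩
        rw [c1]
        have e : (g : H) '' ((g⁻¹ : H) '' P') = P' := by
          have := YGQ_inv g⁻¹ P'
          rwa [inv_inv] at this
        rw [e]
        exact hP'
    · intro p q v
      rw [c1, YGQ_tri]
    · intro p n
      induction n with
      | zero =>
        intro b c
        exact ⟨fun h => congrArg g h, fun h => g.injective h⟩
      | succ n ih =>
        intro b c
        constructor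
        · rintro ⟨b', hb', hs⟩
          exact ⟨g b', (c5 p b b').1 hb', (ih b' c).1 hs⟩
        · rintro ⟨b', hb', hs⟩
          rw [← YGQ_ai g b'] at hb' hs
          exact ⟨(g⁻¹ : H) b', (c5 p b _).2 hb', (ih _ c).2 hs⟩

end Pool.SH
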