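import Pool.Agent.Work.MP_ae1ff6_sh.InterfaceF

open Topology Filter Set
open scoped ComplexConjugate

set_option autoImplicit false

namespace Pool.SH

open Pool.CG Pool.AR

theorem YMF_inj (δ : Circle → Circle) (V : Set Circle) (hcy : CyOn δ V)
    (h3 : ∃ a ∈ V, ∃ b ∈ V, ∃ c ∈ V, Ccw a b c) :
    ∀ x ∈ V, ∀ y ∈ V, x ≠ y → δ x ≠ δ y := by
  obtain ⟨o1, o2, o3, o4⟩ := q_CYO
  intro x hx y hy hxy
  have key : ∀ z ∈ V, z ≠ x → z ≠ y → δ x ≠ δ y := by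
    intro z hz hzx hzy
    rcases o3 x y z hxy (Ne.symm hzy) (Ne.symm hzx) with h | h
    · exact (o2 _ _ _ (hcy x hx y hy z hz h)).2.1
    · exact (o2 _ _ _ (hcy x hx z hz y hy h)).2.2.2
  obtain ⟨a, ha, b, hb, c, hc, habc⟩ := h3
  obtain ⟨_, hab, hbc, hac⟩ := o2 _ _ _ habc
  by_cases h1 : a ≠ x ∧ a ≠ y
  · exact key a ha h1.1 h1.2
  by_cases h2 : b ≠ x ∧ b ≠ y
  · exact key b hb h2.1 h2.2
  have h3 : c ≠ x ∧ c ≠ y := by
    constructor
    · rintro rfl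
      have : a = y := by
        by_contra h
        exact h1 ⟨hac, h⟩
      have : b = y := by
        by_contra h
        exact h2 ⟨hbc, h⟩
      exact hab (by simp_all)
    · rintro rfl
      have : a = x := by
        by_contra h
        exact h1 ⟨h, hac⟩
      have : b = x := by
        by_contra h
        exact h2 ⟨h, hbc⟩
      exact hab (by simp_all)
  exact key c hc h3.1 h3.2

theorem YMF_three (K : Set Circle) (T : Set (Circle × Circle)) (hF : Fans K T) :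
    ∃ a ∈ Vt K T, ∃ b ∈ Vt K T, ∃ c ∈ Vt K T, Ccw a b c := by
  obtain ⟨P, hP⟩ := hF.nonempty
  obtain ⟨a, b, c, habc, hPe⟩ := hF.trs P hP
  refine ⟨a, Or.inl ⟨P, hP, ?_⟩, b, Or.inl ⟨P, hP, ?_⟩, c, Or.inl ⟨P, hP, ?_⟩, habc⟩ <;>
    simp [hPe]

theorem YMF_side (hYOR : Stmt_YOR) (hYGQ : Stmt_YGQ) (hYFX : Stmt_YFX)
    (hYMU : Stmt_YMU) (hYMP : Stmt_YMP)
    (G : Subgroup H) (Λ : Set (Circle × Circle)) (ℛ : Set (Set Circle))
    (T : Set Circle → Set (Circle × Circle)) (hN : Net G Λ ℛ T) (K : Set Circle) (hK : K ∈ ℛ)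
    (p q : Circle) (hgap : Gap K p q) (hq : q ∉ Vx K (T K)) (δ : Circle → Circle)
    (hδ : Dvl K (T K) (al G T K) δ) (h : H) (hh : h ∈ G) (N : ℕ) (hNp : 0 < N)
    (hal : al G T K p = 1 / (N : ℝ)) (hp : h p = p) (hq' : h q = q)
    (hb : ∃ b c, Nx K (T K) p b c ∧ Sn K (T K) p N b (h b)) :
    ∀ (r : ℕ), ∀ x ∈ Vt K (T K), x ≠ p → x ≠ q →
      dist (δ ((h ^ r) x)) (δ p) * dist (δ x) (δ q) =
      (Real.exp 1) ^ r * (dist (δ x) (δ p) * dist (δ ((h ^ r) x)) (δ q)) := by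
  have hF : Fans K (T K) := (hYGQ G Λ ℛ T hN).1 K hK
  have hKK : (h : H) '' K = K := (hYFX G Λ ℛ T hN K hK p q hgap).1 h hh hp hq'
  have hVt : ∀ x ∈ Vt K (T K), h x ∈ Vt K (T K) := by
    intro x hx
    have := (((hYGQ G Λ ℛ T hN).2.2.2 h hh K hK).2.2.1 x).1 hx
    rwa [hKK] at this
  have hinj := YMF_inj δ (Vt K (T K)) (hYOR K (T K) hF _ δ hδ) (YMF_three K (T K) hF)
  have hqV : q ∈ Vt K (T K) := Or.inr ⟨p, hgap⟩
  refine hYMP (Vt K (T K)) δ h p q (Real.exp 1) hp hq' hVt ?_ ?_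
  · intro x hx hxq
    exact hinj x hx q hqV hxq
  · exact hYMU G Λ ℛ T hN K hK p q hgap hq δ hδ h hh N hNp hal hp hq' hb

theorem YMF_tf (G : Subgroup H) (htf : ∀ g ∈ G, ∀ n : ℕ, 0 < n → g ^ n = 1 → g = 1)
    (k : H) (hk : k ∈ G) (hk1 : k ≠ 1) (a b : ℕ) (hab : k ^ a = k ^ b) : a = b := by
  rcases lt_trichotomy a b with h | h | h
  · exfalso
    apply hk1
    apply htf k hk (b - a) (by omega)
    have : k ^ b = k ^ a * k ^ (b - a) := by
      rw [← pow_add]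
      congr 1
      omega
    rw [← hab] at this
    exact (mul_eq_left.1 this.symm)
  · exact h
  · exfalso
    apply hk1
    apply htf k hk (a - b) (by omega)
    have : k ^ a = k ^ b * k ^ (a - b) := by
      rw [← pow_add]
      congr 1
      omega
    rw [hab] at this
    exact (mul_eq_left.1 this.symm)

theorem p_YMF (hYOR : Stmt_YOR) (hYGQ : Stmt_YGQ) (hYFX : Stmt_YFX) (hYG1 : Stmt_YG1)
    (hYG3 : Stmt_YG3) (hYDI : Stmt_YDI) (hYMU : Stmt_YMU) (hYMP : Stmt_YMP) (hDIR : Stmt_DIR) :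
    Stmt_YMF := by
  intro G Λ ℛ T hN δ hδ p q K K' hpq hK hK' hAt hAt' g hg hgp hgq
  obtain ⟨o1, o2, o3, o4⟩ := q_CYO
  have hne : p ≠ q := hN.pcs.ne p q hpq
  have hGK : Gap K q p := (hYGQ G Λ ℛ T hN).2.1 K hK p q hpq hAt
  have hGK' : Gap K' p q := (hYGQ G Λ ℛ T hN).2.1 K' hK' q p (hN.pcs.symm p q hpq) hAt'
  by_cases hg1 : g = 1
  · subst hg1
    refine ⟨1, one_pos, ?_, ?_⟩
    · intro x _ _ _
      show dist (δ K x) (δ K p) * dist (δ K x) (δ K q) = _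
      rw [one_mul]
      rfl
    · intro x _ _ _
      show dist (δ K' x) (δ K' p) * dist (δ K' x) (δ K' q) = _
      rw [one_mul]
      rfl
  have hex' : ∃ g ∈ G, g ≠ 1 ∧ g p = p ∧ g q = q := ⟨g, hg, hg1, hgp, hgq⟩
  have hex : ∃ g ∈ G, g ≠ 1 ∧ g q = q ∧ g p = p := ⟨g, hg, hg1, hgq, hgp⟩
  have hqV : q ∉ Vx K' (T K') := hYG1 G Λ ℛ T hN K' hK' p q hGK' hex'
  have hpV : p ∉ Vx K (T K) := hYG1 G Λ ℛ T hN K hK q p hGK hex
  obtain ⟨h', hh', N', hN', hal', hp', hq', hD', hb', hgen'⟩ :=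
    hYG3 G Λ ℛ T hN K' hK' p q hGK' hex'
  obtain ⟨h, hh, N, hNp, hal, hhq, hhp, hD, hb, hgen⟩ := hYG3 G Λ ℛ T hN K hK q p hGK hex
  have hinvfix : ∀ (k : H) (x : Circle), k x = x → k⁻¹ x = x := by
    intro k x hx
    calc k⁻¹ x = k⁻¹ (k x) := by rw [hx]
      _ = x := k.symm_apply_apply x
  -- `h' ≠ 1`
  have hh'1 : h' ≠ 1 := by
    rintro rfl
    obtain ⟨b, c, hbc, _⟩ := hb'
    have hbV : b ∈ Vx K' (T K') := ⟨_, hbc.2, by simp⟩
    have hbK : b ∈ K' := ((hYGQ G Λ ℛ T hN).1 K' hK').sub _ hbc.2 (by simp)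
    have hbp : b ≠ p := Ne.symm (o2 _ _ _ hbc.1).2.2.2
    have hbq : b ≠ q := by
      rintro rfl
      exact hqV hbV
    have h1 := (hYFX G Λ ℛ T hN K' hK' p q hGK').2.2.2 b hbK hbp hbq
    have h2 : Ccw q b b := hD'.2 b h1
    exact (o2 _ _ _ h2).2.2.1 rfl
  -- `h = h'⁻¹`
  have hhh : h'⁻¹ = h := by
    obtain ⟨a, ha, hae⟩ := hgen h'⁻¹ (G.inv_mem hh') (hinvfix h' q hq') (hinvfix h' p hp')
      (hYDI h' p q (hN.ori h' hh') hp' hq' hD')
    obtain ⟨b, hb, hbe⟩ := hgen' h⁻¹ (G.inv_mem hh) (hinvfix h p hhp) (hinvfix h q hhq)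
      (hYDI h q p (hN.ori h hh) hhq hhp hD)
    have h1 : h = h'⁻¹ ^ b := by
      rw [inv_pow, ← hbe, inv_inv]
    have h2 : h'⁻¹ ^ 1 = h'⁻¹ ^ (b * a) := by
      rw [pow_one, pow_mul, ← h1]
      exact hae
    have hne1 : h'⁻¹ ≠ 1 := by
      intro h
      exact hh'1 (inv_eq_one.1 h)
    have h3 := YMF_tf G hN.tf h'⁻¹ (G.inv_mem hh') hne1 1 (b * a) h2
    have h4 : a = 1 := Nat.eq_one_of_mul_eq_one_left h3.symm
    rw [hae, h4, pow_one]
  have hsK' := YMF_side hYOR hYGQ hYFX hYMU hYMP G Λ ℛ T hN K' hK' p q hGK' hqV (δ K') (hδ K' hK')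
    h' hh' N' hN' hal' hp' hq' hb'
  have hsK := YMF_side hYOR hYGQ hYFX hYMU hYMP G Λ ℛ T hN K hK q p hGK hpV (δ K) (hδ K hK)
    h hh N hNp hal hhq hhp hb
  -- elements of `G` which fix `p` and `q` preserve the vertex sets
  have hVK : ∀ k ∈ G, k p = p → k q = q → ∀ x ∈ Vt K (T K), k x ∈ Vt K (T K) := by
    intro k hk hkp hkq x hx
    have h1 : (k : H) '' K = K := (hYFX G Λ ℛ T hN K hK q p hGK).1 k hk hkq hkp
    have h2 := (((hYGQ G Λ ℛ T hN).2.2.2 k hk K hK).2.2.1 x).1 hx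
    rwa [h1] at h2
  have hVK' : ∀ k ∈ G, k p = p → k q = q → ∀ x ∈ Vt K' (T K'), k x ∈ Vt K' (T K') := by
    intro k hk hkp hkq x hx
    have h1 : (k : H) '' K' = K' := (hYFX G Λ ℛ T hN K' hK' p q hGK').1 k hk hkp hkq
    have h2 := (((hYGQ G Λ ℛ T hN).2.2.2 k hk K' hK').2.2.1 x).1 hx
    rwa [h1] at h2
  have hfixne : ∀ (k : H) (x y : Circle), k y = y → x ≠ y → k x ≠ y := by
    intro k x y hy hxy h
    apply hxy
    apply k.injective
    rw [h, hy]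
  -- the case of the direction from `p` to `q`
  have main : ∀ k ∈ G, k p = p → k q = q → Dir k p q → ∃ μ : ℝ, 0 < μ ∧
        (∀ x ∈ Vt K (T K), x ≠ p → x ≠ q → dist (δ K (k x)) (δ K p) * dist (δ K x) (δ K q) =
          μ * (dist (δ K x) (δ K p) * dist (δ K (k x)) (δ K q))) ∧
        ∀ x ∈ Vt K' (T K'), x ≠ p → x ≠ q → dist (δ K' (k x)) (δ K' p) * dist (δ K' x) (δ K' q) =
          μ * (dist (δ K' x) (δ K' p) * dist (δ K' (k x)) (δ K' q)) := by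
    intro k hk hkp hkq hkD
    obtain ⟨r, hr, hkr⟩ := hgen' k hk hkp hkq hkD
    have hinv : h ^ r = k⁻¹ := by
      rw [hkr, ← hhh, inv_pow]
    refine ⟨Real.exp 1 ^ r, pow_pos (Real.exp_pos 1) r, ?_, ?_⟩
    · intro x hx hxp hxq
      have h1 := hsK r (k x) (hVK k hk hkp hkq x hx) (hfixne k x q hkq hxq)
        (hfixne k x p hkp hxp)
      rw [hinv] at h1
      have h2 : k⁻¹ (k x) = x := k.symm_apply_apply x
      rw [h2] at h1
      rw [mul_comm (dist (δ K (k x)) (δ K p)), h1]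
      ring
    · intro x hx hxp hxq
      have h1 := hsK' r x hx hxp hxq
      rw [← hkr] at h1
      exact h1
  rcases hDIR G hN.conv g hg (hN.ori g hg) hg1 p q hne hgp hgq with h1 | h2
  · exact main g hg hgp hgq h1
  · have hD2 : Dir g⁻¹ p q := hYDI g q p (hN.ori g hg) hgq hgp ⟨h2.2, h2.1⟩
    obtain ⟨μ, hμ, hm1, hm2⟩ := main g⁻¹ (G.inv_mem hg) (hinvfix g p hgp) (hinvfix g q hgq) hD2
    have hgi : ∀ x, g⁻¹ (g x) = x := fun x => g.symm_apply_apply x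
    refine ⟨μ⁻¹, inv_pos.2 hμ, ?_, ?_⟩
    · intro x hx hxp hxq
      have h3 := hm1 (g x) (hVK g hg hgp hgq x hx) (hfixne g x p hgp hxp) (hfixne g x q hgq hxq)
      rw [hgi] at h3
      rw [h3]
      field_simp
    · intro x hx hxp hxq
      have h3 := hm2 (g x) (hVK' g hg hgp hgq x hx) (hfixne g x p hgp hxp) (hfixne g x q hgq hxq)
      rw [hgi] at h3
      rw [h3]
      field_simp

end Pool.SH
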