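import Pool.Agent.Work.MP_ae1ff6_sh.AllG
import Pool.Agent.Work.MP_ae1ff6_sh.B_CNT2
import Pool.Agent.Work.MP_ae1ff6_sh.B_DIR
import Pool.Agent.Work.MP_ae1ff6_sh.B_FNP
import Pool.Agent.Work.MP_ae1ff6_sh.B_GEL
import Pool.Agent.Work.MP_ae1ff6_sh.B_NSQ
import Pool.Agent.Work.MP_ae1ff6_sh.B_NSW
import Pool.Agent.Work.MP_ae1ff6_sh.B_RAR
import Pool.Agent.Work.MP_ae1ff6_sh.B_RCH
import Pool.Agent.Work.MP_ae1ff6_sh.B_RCL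
import Pool.Agent.Work.MP_ae1ff6_sh.B_RCV
import Pool.Agent.Work.MP_ae1ff6_sh.B_REQ
import Pool.Agent.Work.MP_ae1ff6_sh.B_RFN
import Pool.Agent.Work.MP_ae1ff6_sh.B_RGA
import Pool.Agent.Work.MP_ae1ff6_sh.B_RGP
import Pool.Agent.Work.MP_ae1ff6_sh.B_RS1
import Pool.Agent.Work.MP_ae1ff6_sh.B_RSD
import Pool.Agent.Work.MP_ae1ff6_sh.B_RSP
import Pool.Agent.Work.MP_ae1ff6_sh.B_RTE
import Pool.Agent.Work.MP_ae1ff6_sh.B_RTM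
import Pool.Agent.Work.MP_ae1ff6_sh.B_RTX
import Pool.Agent.Work.MP_ae1ff6_sh.B_SHB
import Pool.Agent.Work.MP_ae1ff6_sh.B_SID
import Pool.Agent.Work.MP_ae1ff6_sh.B_TEQ
import Pool.Agent.Work.MP_ae1ff6_sh.B_TEU
import Pool.Agent.Work.MP_ae1ff6_sh.B_TRS
import Pool.Agent.Work.MP_ae1ff6_sh.B_TSD
import Pool.Agent.Work.MP_ae1ff6_sh.B_U4P
import Pool.Agent.Work.MP_ae1ff6_sh.B_UNB
import Pool.Agent.Work.MP_ae1ff6_sh.B_VPC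
import Pool.Agent.Work.MP_ae1ff6_sh.B_WIT
import Pool.Agent.Work.MP_ae1ff6_sh.B_YCH
import Pool.Agent.Work.MP_ae1ff6_sh.B_YDI
import Pool.Agent.Work.MP_ae1ff6_sh.B_YED
import Pool.Agent.Work.MP_ae1ff6_sh.B_YKA
import Pool.Agent.Work.MP_ae1ff6_sh.B_YMP
import Pool.Agent.Work.MP_ae1ff6_sh.B_YOR
import Pool.Agent.Work.MP_ae1ff6_sh.B_YPU
import Pool.Agent.Work.MP_ae1ff6_sh.B_YSU
import Pool.Agent.Work.MP_ae1ff6_sh.B_YZE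
import Pool.Agent.Work.MP_ae1ff6_sh.B_FC1
import Pool.Agent.Work.MP_ae1ff6_sh.B_FLN
import Pool.Agent.Work.MP_ae1ff6_sh.B_GP2
import Pool.Agent.Work.MP_ae1ff6_sh.B_LF1
import Pool.Agent.Work.MP_ae1ff6_sh.B_LFL
import Pool.Agent.Work.MP_ae1ff6_sh.B_LUL
import Pool.Agent.Work.MP_ae1ff6_sh.B_PCT
import Pool.Agent.Work.MP_ae1ff6_sh.B_RNT
import Pool.Agent.Work.MP_ae1ff6_sh.B_SEP
import Pool.Agent.Work.MP_ae1ff6_sh.B_SPK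
import Pool.Agent.Work.MP_ae1ff6_sh.B_TNE
import Pool.Agent.Work.MP_ae1ff6_sh.B_YDV
import Pool.Agent.Work.MP_ae1ff6_sh.B_YNX
import Pool.Agent.Work.MP_ae1ff6_sh.B_YRA
import Pool.Agent.Work.MP_ae1ff6_sh.B_YSN
import Pool.Agent.Work.MP_ae1ff6_sh.B_FAM
import Pool.Agent.Work.MP_ae1ff6_sh.B_FAN
import Pool.Agent.Work.MP_ae1ff6_sh.B_LEV
import Pool.Agent.Work.MP_ae1ff6_sh.B_LNE
import Pool.Agent.Work.MP_ae1ff6_sh.B_TFN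
import Pool.Agent.Work.MP_ae1ff6_sh.B_TKP
import Pool.Agent.Work.MP_ae1ff6_sh.B_YEX
import Pool.Agent.Work.MP_ae1ff6_sh.B_YGQ
import Pool.Agent.Work.MP_ae1ff6_sh.B_LMN
import Pool.Agent.Work.MP_ae1ff6_sh.B_YAL
import Pool.Agent.Work.MP_ae1ff6_sh.B_YDX
import Pool.Agent.Work.MP_ae1ff6_sh.B_YFX
import Pool.Agent.Work.MP_ae1ff6_sh.B_YG1
import Pool.Agent.Work.MP_ae1ff6_sh.B_YG2
import Pool.Agent.Work.MP_ae1ff6_sh.B_YG3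
import Pool.Agent.Work.MP_ae1ff6_sh.B_YTR
import Pool.Agent.Work.MP_ae1ff6_sh.B_YMU
import Pool.Agent.Work.MP_ae1ff6_sh.B_YMF
import Pool.Agent.Work.MP_ae1ff6_sh.B_DEL
import Pool.Agent.Work.MP_ae1ff6_sh.B_GLB

/-! Assembly of parts 2 to 5 of `MP_ae1ff6_sh`: every block statement as a theorem `q_X : Stmt_X`. -/

namespace Pool.SH

theorem q_CNT2 : Stmt_CNT2 := p_CNT2
theorem q_DIR : Stmt_DIR := p_DIR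
theorem q_FNP : Stmt_FNP := p_FNP
theorem q_GEL : Stmt_GEL := p_GEL
theorem q_NSQ : Stmt_NSQ := p_NSQ
theorem q_NSW : Stmt_NSW := p_NSW q_DIR
theorem q_RAR : Stmt_RAR := p_RAR
theorem q_RCH : Stmt_RCH := p_RCH
theorem q_RCL : Stmt_RCL := p_RCL
theorem q_RCV : Stmt_RCV := p_RCV
theorem q_REQ : Stmt_REQ := p_REQ
theorem q_RFN : Stmt_RFN := p_RFN q_RCH
theorem q_RGA : Stmt_RGA := p_RGA q_RCV q_RAR
theorem q_RGP : Stmt_RGP := p_RGP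
theorem q_RS1 : Stmt_RS1 := p_RS1 q_RCV
theorem q_RSD : Stmt_RSD := p_RSD q_RAR q_RS1
theorem q_RSP : Stmt_RSP := p_RSP q_RAR q_RGP q_RCL q_RGA
theorem q_RTE : Stmt_RTE := p_RTE
theorem q_RTM : Stmt_RTM := p_RTM q_ARL
theorem q_RTX : Stmt_RTX := p_RTX
theorem q_SHB : Stmt_SHB := p_SHB q_GEL
theorem q_SID : Stmt_SID := p_SID q_ARL q_RTX q_RTM q_FNP
theorem q_TEQ : Stmt_TEQ := p_TEQ q_RTE
theorem q_TEU : Stmt_TEU := p_TEU q_RTM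
theorem q_TRS : Stmt_TRS := p_TRS
theorem q_TSD : Stmt_TSD := p_TSD q_ARX
theorem q_U4P : Stmt_U4P := p_U4P
theorem q_UNB : Stmt_UNB := p_UNB
theorem q_VPC : Stmt_VPC := p_VPC q_ARX q_PC1
theorem q_WIT : Stmt_WIT := p_WIT q_NSW q_PC1
theorem q_YCH : Stmt_YCH := p_YCH q_ARX q_PC1 q_TRV
theorem q_YDI : Stmt_YDI := p_YDI
theorem q_YED : Stmt_YED := p_YED
theorem q_YKA : Stmt_YKA := p_YKA
theorem q_YMP : Stmt_YMP := p_YMP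
theorem q_YOR : Stmt_YOR := p_YOR q_ARL
theorem q_YPU : Stmt_YPU := p_YPU q_ARX q_PC1
theorem q_YSU : Stmt_YSU := p_YSU
theorem q_YZE : Stmt_YZE := p_YZE q_YPU
theorem q_FC1 : Stmt_FC1 := p_FC1 q_GEL
theorem q_FLN : Stmt_FLN := p_FLN q_SHB
theorem q_GP2 : Stmt_GP2 := p_GP2 q_RTX q_NSQ
theorem q_LF1 : Stmt_LF1 := p_LF1 q_SHB q_UNB
theorem q_LFL : Stmt_LFL := p_LFL q_SHB q_FLN q_UNB q_LF1
theorem q_LUL : Stmt_LUL := p_LUL q_GEL q_SHB q_UNB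
theorem q_PCT : Stmt_PCT := p_PCT q_ARX q_RTX q_RTM q_TSD q_FNP q_SID q_TEU
theorem q_RNT : Stmt_RNT := p_RNT q_RAR q_RCL q_RGA q_RSD q_RSP q_RFN q_REQ
theorem q_SEP : Stmt_SEP := p_SEP q_UNB q_U4P
theorem q_SPK : Stmt_SPK := p_SPK q_SEP
theorem q_TNE : Stmt_TNE := p_TNE q_RTX q_SID q_GP2
theorem q_YDV : Stmt_YDV := p_YDV q_DV1 q_DU1 q_YZE
theorem q_YNX : Stmt_YNX := p_YNX q_ARX q_PC1 q_TRV q_YPU
theorem q_YRA : Stmt_YRA := p_YRA q_YNX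
theorem q_YSN : Stmt_YSN := p_YSN q_YNX
theorem q_FAM : Stmt_FAM := p_FAM q_GEL q_FC1 q_CNT2
theorem q_FAN : Stmt_FAN := p_FAN q_SID q_TEU q_PCT q_GP2
theorem q_LEV : Stmt_LEV := p_LEV q_SHB q_FLN q_SPK
theorem q_LNE : Stmt_LNE := p_LNE q_SHB q_FLN q_SEP
theorem q_TFN : Stmt_TFN := p_TFN q_TEU q_PCT q_TNE q_FAN
theorem q_TKP : Stmt_TKP := p_TKP q_GEL q_SHB q_LEV q_TRS
theorem q_YEX : Stmt_YEX := p_YEX q_YNX q_YKA q_YSU q_YRA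
theorem q_YGQ : Stmt_YGQ := p_YGQ q_ARX q_PC1 q_TFN q_TEQ
theorem q_LMN : Stmt_LMN := p_LMN q_GEL q_LUL q_LFL q_LNE q_TKP
theorem q_YAL : Stmt_YAL := p_YAL q_YGQ
theorem q_YDX : Stmt_YDX := p_YDX q_YEX q_YDV
theorem q_YFX : Stmt_YFX := p_YFX q_YGQ
theorem q_YG1 : Stmt_YG1 := p_YG1 q_YPU q_YGQ q_YFX
theorem q_YG2 : Stmt_YG2 := p_YG2 q_YSN q_YCH q_YGQ
theorem q_YG3 : Stmt_YG3 := p_YG3 q_YSN q_YCH q_YGQ q_YFX q_YG1 q_YG2 q_YDI q_DIR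
theorem q_YTR : Stmt_YTR := p_YTR q_YED q_YDV q_YGQ q_YAL
theorem q_YMU : Stmt_YMU :=
  p_YMU q_MXI q_YKA q_YSU q_YNX q_YSN q_YRA q_YOR q_YGQ q_YAL q_YTR q_YFX q_YG2
theorem q_YMF : Stmt_YMF := p_YMF q_YOR q_YGQ q_YFX q_YG1 q_YG3 q_YDI q_YMU q_YMP q_DIR
theorem q_DEL : Stmt_DEL := p_DEL q_YGQ q_YAL q_YDX q_YOR q_YTR q_YMF
theorem q_GLB : Stmt_GLB := p_GLB q_MXI q_GLV q_GUN q_PC1 q_VPC q_DEL q_WIT

end Pool.SH
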