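import Pool.Agent.Work.MP_ae1ff6_sh.InterfaceZ

/-!
# Mapping classes of infinite order (MP_ae1ff6_gt): assembly
-/

open Topology Filter Set
open scoped ComplexConjugate

set_option autoImplicit false

namespace Pool.SH

open Pool.CG Pool.AR

/-- the conditions on a mapping class of infinite order, and the convergence property -/
theorem asm_conv (Γ : Subgroup H) (f : H) (hΓ : FirstKind Γ) (hf : ∀ γ, γ ∈ Γ ↔ f * γ * f⁻¹ ∈ Γ)
    (hinf : ∀ n : ℕ, 0 < n → f ^ n ∉ Γ) :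
    Conv (Γ ⊔ Subgroup.zpowers f) ↔ ∀ γ ∈ Γ, ∀ p q : Circle, Axis γ p q →
      {n : ℤ | ∃ κ ∈ Γ, Link ((κ * f ^ n) p) ((κ * f ^ n) q) p q}.Finite := by
  have h := (Pool.GC.gcg1 Γ f hΓ hf).1
  rw [← h]
  constructor
  · rintro (⟨n, hn, hn'⟩ | h1)
    · exact absurd hn' (hinf n hn)
    · exact h1
  · intro h1
    exact Or.inr h1

/-- the assembly of the theorem -/
theorem asm_Full (hGEL : Stmt_GEL) (hFAM : Stmt_FAM) (hLMN : Stmt_LMN)
    (hNET : ∀ (G : Subgroup H) (Λ : Set (Circle × Circle)) (T : Set Circle → Set (Circle × Circle)),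
      Lamn G Λ T → Net G Λ {K | Reg Λ K} T)
    (hFH : ∀ (G : Subgroup H) (Λ : Set (Circle × Circle)) (ℛ : Set (Set Circle))
      (T : Set Circle → Set (Circle × Circle)), Net G Λ ℛ T → FanHyp ℛ T)
    (hV : ∀ (G : Subgroup H) (Λ : Set (Circle × Circle)) (ℛ : Set (Set Circle))
      (T : Set Circle → Set (Circle × Circle)), Net G Λ ℛ T →
      ∀ g ∈ G, ∀ K ∈ ℛ, ∀ x ∈ Vt K (T K), g x ∈ Vt ((g : H) '' K) (T ((g : H) '' K)))
    (hRLN : Stmt_RLN) : Stmt_Full := by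
  intro Γ f T₀ hΓ htf hT hk hO hf hinf
  rw [← asm_conv Γ f hΓ hf hinf]
  have hn := (hGEL Γ f hf).2.2.2
  constructor
  · intro h
    exact Pool.CG.rl2 Γ _ hΓ le_sup_left hn h
  · intro h
    obtain ⟨A, hA⟩ := hFAM Γ f hΓ hf hinf h
    have hL := hLMN Γ f A T₀ hΓ htf hT hk hO hf hinf h hA
    have hN := hNET _ _ _ hL
    exact hRLN Γ _ _ _ _ hΓ le_sup_left hN (hFH _ _ _ _ hN) (hV _ _ _ _ hN)

end Pool.SH
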