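import Pool.Agent.Work.MP_ae1ff6_sh.Asm
import Pool.Agent.Work.MP_ae1ff6_sh.DefsF

/-!
# Mapping classes of infinite order (MP_ae1ff6_gt): assembly, second part
-/

open Topology Filter Set
open scoped ComplexConjugate

set_option autoImplicit false

namespace Pool.SH

open Pool.CG Pool.AR

theorem fanHyp_of (hTFN : Stmt_TFN) (G : Subgroup H) (Λ : Set (Circle × Circle)) (ℛ : Set (Set Circle))
    (T : Set Circle → Set (Circle × Circle)) (hN : Net G Λ ℛ T) : FanHyp ℛ T := by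
  intro K hK
  have h := hTFN K (T K) (hN.tri K hK) (hN.closed K hK) (hN.pcs.three K hK)
  exact ⟨h.nonempty, h.sub, h.start⟩

theorem vt_of (hTEQ : Stmt_TEQ) (G : Subgroup H) (Λ : Set (Circle × Circle)) (ℛ : Set (Set Circle))
    (T : Set Circle → Set (Circle × Circle)) (hN : Net G Λ ℛ T) :
    ∀ g ∈ G, ∀ K ∈ ℛ, ∀ x ∈ Vt K (T K), g x ∈ Vt ((g : H) '' K) (T ((g : H) '' K)) := by
  intro g hg K hK x hx
  exact (hTEQ K (T K) (T ((g : H) '' K)) g (hN.ori g hg) (hN.keepT g hg K hK)).2.2.2.1 x hx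

/-- the assembly of the theorem -/
theorem asm_Full2 (hGEL : Stmt_GEL) (hFAM : Stmt_FAM) (hLMN : Stmt_LMN)
    (hNET : ∀ (G : Subgroup H) (Λ : Set (Circle × Circle)) (T : Set Circle → Set (Circle × Circle)),
      Lamn G Λ T → Net G Λ {K | Reg Λ K} T)
    (hTFN : Stmt_TFN) (hTEQ : Stmt_TEQ) (hRLN : Stmt_RLN) : Stmt_Full :=
  asm_Full hGEL hFAM hLMN hNET (fanHyp_of hTFN) (vt_of hTEQ) hRLN

end Pool.SH
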