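import Pool.Agent.Work.MP_ae1ff6_ar.All

/-!
# Realization of big mapping classes (MP_ae1ff6_gt): pieces of the circle

Definitions for the general half (glueing theorem). `Ccw a b c` (in `Pool.AR`): the points `a`, `b`, `c`
of the circle are different and in counterclockwise order.
-/

open Topology Filter Set
open scoped ComplexConjugate

set_option autoImplicit false

namespace Pool.SH

open Pool.CG Pool.AR

/-- the closed arc from `a` to `b` (counterclockwise) -/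
def Arc (a b : Circle) : Set Circle := {z | z = a ∨ z = b ∨ Ccw a z b}

/-- `ℱ` is a set of subsets of the circle (pieces) which are separated by the lines `(p, q) ∈ L`; the
piece on the side `Arc p q` of a line `(p, q)` contains `p` and `q` -/
structure Pieces (ℱ : Set (Set Circle)) (L : Set (Circle × Circle)) : Prop where
  symm : ∀ p q, (p, q) ∈ L → (q, p) ∈ L
  ne : ∀ p q, (p, q) ∈ L → p ≠ q
  three : ∀ P ∈ ℱ, ∃ a ∈ P, ∃ b ∈ P, ∃ c ∈ P, Ccw a b c
  unl : ∀ P ∈ ℱ, ∀ p q, (p, q) ∈ L → P ⊆ Arc p q ∨ P ⊆ Arc q p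
  side : ∀ p q, (p, q) ∈ L → ∃ P ∈ ℱ, p ∈ P ∧ q ∈ P ∧ P ⊆ Arc p q
  sep : ∀ P ∈ ℱ, ∀ P' ∈ ℱ, P ≠ P' → ∃ p q, (p, q) ∈ L ∧ p ∈ P ∧ q ∈ P ∧ P ⊆ Arc p q ∧
    P' ⊆ Arc q p
  fin : ∀ P ∈ ℱ, ∀ P' ∈ ℱ,
    {a : Circle × Circle | a ∈ L ∧ P ⊆ Arc a.1 a.2 ∧ P' ⊆ Arc a.2 a.1}.Finite

/-- the (absolute) cross ratio; for `p, v, q, w` in counterclockwise order the logarithm of `X p q v w` is
the shear at the line `(p, q)` of the triangles `{p, q, v}`, `{p, q, w}` -/
noncomputable def X (p q v w : Circle) : ℝ := dist v p * dist w q / (dist v q * dist w p)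

end Pool.SH
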