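import Pool.Agent.Work.MP_ae1ff6_sh.InterfaceZ
import Pool.Agent.Work.MP_ae1ff6_sh.DefsF

/-!
# Mapping classes of infinite order (MP_ae1ff6_gt): fans, weights, developing maps (part 4, helper38)

Block `X`: file `Pool/Agent/Work/MP_ae1ff6_sh/B_X.lean`, `import Pool.Agent.Work.MP_ae1ff6_sh.InterfaceF`,
`namespace Pool.SH`, the `open` lines of this file, `theorem p_X (h1 : Stmt_Y) .. : Stmt_X` with exactly the
blocks of the column `uses`, in this order, as hypotheses; auxiliary lemmas with the prefix `X_`.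

Proved facts (not hypotheses): as in `InterfaceG.lean` and `InterfaceL.lean`, in particular `q_CYO` (cyclic
order: (1) rotation, (2) asymmetry and the three points are different, (3) totality, (4) transitivity),
`q_ANG`, `q_MOR` (Möbius maps and elements of groups preserve the orientation: `Ori`), `q_FXT` (an element of
a convergence group with three fixed points is `1`). `At P p q`: `p, q ∈ P ⊆ Arc p q`.

Picture: one region `K` (a closed set of points of the circle). Its triangles are the elements of `TT K T`, its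
edges `TL K T`; at each vertex `p` the neighbours of `p` form a chain; `Nx K T p b c`: `c` is the next neighbour
after `b` in clockwise direction (`Ccw p c b`, and `{p, c, b}` is a triangle). At a gap `(p, q)` of `K` whose end
`q` is not a vertex, the chain at `p` converges to `q`. The weights `a` are in `(0, 1]`; the shear of the edge
`(p, b)` with the neighbours `w`, `x` of `b` at `p` is `a p + a b - (a w + a x) / 2`.
-/

open Topology Filter Set
open scoped ComplexConjugate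

set_option autoImplicit false

namespace Pool.SH

open Pool.CG Pool.AR

/-- the vertices of the triangles of `K` -/
def Vx (K : Set Circle) (T : Set (Circle × Circle)) : Set Circle := ⋃₀ TT K T

/-- `d` has the shears which are given by the weights `a` -/
def Sha (K : Set Circle) (T : Set (Circle × Circle)) (a : Circle → ℝ) (d : Circle → Circle) : Prop :=
  ∀ p q v w : Circle, (p, q) ∈ TL K T → Ccw p v q → Ccw q w p → ({p, q, v} : Set Circle) ∈ TT K T →
    ({p, q, w} : Set Circle) ∈ TT K T →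
    X (d p) (d q) (d v) (d w) = Real.exp (a p + a q - (a v + a w) / 2)

/-- `y` is the last point after `d p` which is before all points `d x`, `x ∈ V`, `x ≠ p` -/
def Edge (V : Set Circle) (d : Circle → Circle) (p y : Circle) : Prop :=
  (∀ x ∈ V, x ≠ p → Ccw (d p) y (d x)) ∧
    ∀ y', (∀ x ∈ V, x ≠ p → Ccw (d p) y' (d x)) → y' = y ∨ Ccw (d p) y' y

/-- `δ` is a developing map of the region `K` with the weights `a`, extended to the ends of the gaps -/
structure Dvl (K : Set Circle) (T : Set (Circle × Circle)) (a : Circle → ℝ) (δ : Circle → Circle) :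
    Prop where
  cy : CyOn δ (Vx K T)
  sha : Sha K T a δ
  edge : ∀ p q, Gap K p q → q ∉ Vx K T → Edge (Vx K T) δ p (δ q)

/-- `h` moves all points except `p`, `q` from `p` towards `q` -/
def Dir (h : H) (p q : Circle) : Prop :=
  (∀ x, Ccw p x q → Ccw p x (h x)) ∧ ∀ x, Ccw q x p → Ccw q (h x) x

/-- the distance of `d a` and `d b` after an inversion at `d p` -/
noncomputable def Ez (d : Circle → Circle) (p a b : Circle) : ℝ :=
  dist (d a) (d b) / (dist (d a) (d p) * dist (d b) (d p))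

/-! ### Combinatorics of one region -/

/-- YPU (60 lines; uses ARX PC1): two pieces with the same pair of points on the same side. Proof. If
`P ≠ P'`, `Pieces.sep` gives `(r, s) ∈ L` with `r, s ∈ P ⊆ Arc r s`, `P' ⊆ Arc s r`. `p, q ∈ P ∩ P'` are in
`Arc r s ∩ Arc s r`, so in `{r, s}` (ARX 2); `p ≠ q`. If `p = r`, `q = s` then `P' ⊆ Arc q p` and
`P' ⊆ Arc p q`; if `p = s`, `q = r` then `P ⊆ Arc q p` and `P ⊆ Arc p q`: PC1 (a). -/
def Stmt_YPU : Prop :=
  ∀ (ℱ : Set (Set Circle)) (L : Set (Circle × Circle)), Pieces ℱ L →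
    ∀ P ∈ ℱ, ∀ P' ∈ ℱ, ∀ p q, p ≠ q → At P p q → At P' p q → P = P'

/-- YNX (150 lines; uses ARX PC1 TRV YPU): neighbours. Proof. (1) `{p, c, b}` and `{p, c', b}` satisfy `At _ p b`
(`Ccw p c b`), so they are equal (YPU for `Fans.pcs`) and `c = c'`. (2) `{p, c, b}` and `{p, c, b'}` satisfy
`At _ c p` (`Ccw c b p`): equal, `b = b'`. (3) `P = {p, c, b}` and `P' = {p, b, a}` are different: `a = c` is
impossible, because `Ccw p c b` and `Ccw p b a`. `Pieces.sep`: `(r, s) ∈ TL` with `r, s ∈ P ⊆ Arc r s`,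
`P' ⊆ Arc s r`; `p, b ∈ P ∩ P'`, so `{p, b} = {r, s}` (ARX 2), and `Pieces.symm`. (4) clear. (5)
`Pieces.side` for `(p, b)` and TRV: `P = {p, b, c}` with `Ccw p c b`, so `Nx K T p b c`; `Pieces.side` for
`(b, p)` and TRV: `P = {b, p, a}` with `Ccw b a p`, so `Ccw p b a` and `Nx K T p a b`. -/
def Stmt_YNX : Prop :=
  ∀ (K : Set Circle) (T : Set (Circle × Circle)), Fans K T → ∀ p : Circle,
    (∀ b c c', Nx K T p b c → Nx K T p b c' → c = c') ∧
    (∀ b b' c, Nx K T p b c → Nx K T p b' c → b = b') ∧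
    (∀ a b c, Nx K T p a b → Nx K T p b c → (p, b) ∈ TL K T) ∧
    (∀ b c, Nx K T p b c → p ∈ Vx K T ∧ b ∈ Vx K T ∧ c ∈ Vx K T) ∧
    ∀ b, (p, b) ∈ TL K T → (∃ c, Nx K T p b c) ∧ ∃ a, Nx K T p a b

/-- YSN (150 lines; uses YNX): `n`-th neighbours. Proofs by induction on `n` from YNX (1), (2). (1) clear. (2)
YNX 1. (7) by induction: the last step of a chain. (3) induction with (7) and YNX 2. (4) `→`: `Sn (n + 1) b c'`
by (1) (with `Sn 1 b' c'`); its first step is `Nx b x` with `x = c` (YNX 1), so `Sn n c c'`. `←`: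
`Sn (n + 1) b c'` (first step `Nx b c`); by (7) `Sn n b x`, `Nx x c'`, and `x = b'` (YNX 2). (5) `Nx b b'` gives
`Ccw p b' b`, and by induction `Ccw p c b'` (or `c = b'`): `q_CYO` (4). (6) Induction on `n`. -/
def Stmt_YSN : Prop :=
  ∀ (K : Set Circle) (T : Set (Circle × Circle)), Fans K T → ∀ p : Circle,
    (∀ n m b c d, Sn K T p n b c → Sn K T p m c d → Sn K T p (n + m) b d) ∧
    (∀ n b c c', Sn K T p n b c → Sn K T p n b c' → c = c') ∧
    (∀ n b b' c, Sn K T p n b c → Sn K T p n b' c → b = b') ∧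
    (∀ n b c b' c', Nx K T p b c → Nx K T p b' c' → (Sn K T p n b b' ↔ Sn K T p n c c')) ∧
    (∀ n b c, Sn K T p (n + 1) b c → Ccw p c b) ∧
    (∀ n m b c d, Sn K T p n b c → Sn K T p (n + m) b d → Sn K T p m c d) ∧
    ∀ n b c, Sn K T p (n + 1) b c → ∃ b', Sn K T p n b b' ∧ Nx K T p b' c

/-- YCH (150 lines; uses ARX PC1 TRV): the neighbours of `p` form one chain. Proof. Strong induction on
`dS (TL K T) P P'`, `P = {p, c, b}`, `P' = {p, c', b'}` (for all `b`, `c`; `b'`, `c'` fixed). If `b' = c` then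
`Sn 1 b b'`. Let `b' ≠ c`. `P ≠ P'`: otherwise `b' ∈ {c, b}`, and `b' ≠ b` as `Ccw p b' b`. `Pieces.sep`:
`(r, s) ∈ TL` with `r, s ∈ P ⊆ Arc r s`, `P' ⊆ Arc s r`. `p ∈ P ∩ P'`, so `p = r` or `p = s` (ARX 2). Because
`Ccw p c b` and the third point of `P` is in `Arc r s`, `(r, s)` is `(p, b)`, `(c, p)` or `(b, c)`; so it is
`(p, b)` or `(c, p)`. The first is impossible: `P' ⊆ Arc b p` and `Ccw p b' b`. So `(c, p) ∈ TL`, `At P c p`,
`P' ⊆ Arc p c`. `Pieces.side` for `(p, c)` and TRV: `P'' = {p, c, v}`, `At P'' p c`, `Ccw p v c`, so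
`Nx K T p c v`. PC1 (c): `dS P'' P' < dS P P'`. `b' ∈ Arc p c`, `b' ≠ p, c`: `Ccw p b' c`. The induction
hypothesis for `c`, `v` gives `Sn (n + 1) c b'`, so `Sn (n + 2) b b'`. -/
def Stmt_YCH : Prop :=
  ∀ (K : Set Circle) (T : Set (Circle × Circle)), Fans K T → ∀ p b c b' c' : Circle,
    Nx K T p b c → Nx K T p b' c' → Ccw p b' b → ∃ n : ℕ, Sn K T p (n + 1) b b'

/-! ### Analysis at one vertex -/

/-- YKA (150 lines): the coordinate `κ` of the real line with `p` at infinity. Proof. `p = exp s`; for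
`y = exp r`, `s < r < s + 2π` (`q_ANG`, or `q_CUT s`: `r = θ y`) let `κ y = - cot ((r - s) / 2) / 2`
(`cot x = cos x / sin x`), `κ p = 0`. (1) `Ccw p (exp r) (exp r')` iff `r < r'` (`q_ANG` 5), and `- cot` is strictly
increasing on `(0, π)`: `cot x - cot y = sin (y - x) / (sin x * sin y)`. (2) `dist (exp r) (exp r') =
2 sin ((r' - r) / 2)` for `r ≤ r' ≤ r + 2π`, so with `x = (r - s) / 2 < y = (r' - s) / 2` in `(0, π)` the claim is
`2 sin (y - x) = (cot x - cot y) / 2 * (2 sin x * 2 sin y)`. (3) `r = s + π + 2 arctan (2 t)`: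
`cot (π / 2 + arctan (2 t)) = - 2 t`. -/
def Stmt_YKA : Prop :=
  ∀ p : Circle, ∃ κ : Circle → ℝ, (∀ a b, a ≠ p → b ≠ p → (Ccw p a b ↔ κ a < κ b)) ∧
    (∀ a b, Ccw p a b → dist a b = (κ b - κ a) * (dist a p * dist b p)) ∧
    ∀ t : ℝ, ∃ y, y ≠ p ∧ κ y = t

/-- YSU (100 lines): real sequences. Proof. By induction
`D n = D 0 * exp (-(n * c + (a 1 - a 0 + a n - a (n + 1)) / 2))`. The bracket is at least `n * c - 1`, because
all `a j ∈ (0, 1]`. So `D n ≤ D 0 * exp 1 * (exp (-c)) ^ n`, and the sum is at most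
`D 0 * exp 1 / (1 - exp (-c))` (geometric series, `exp (-c) < 1`). (2) for `n = N`: `a N = a 0` and
`a (N + 1) = a 1`. -/
def Stmt_YSU : Prop :=
  ∀ (D a : ℕ → ℝ) (c : ℝ), 0 < c → (∀ j, 0 < a j ∧ a j ≤ 1) → (∀ j, 0 < D j) →
    (∀ j, D j = D (j + 1) * Real.exp (c + a (j + 1) - (a j + a (j + 2)) / 2)) →
    (∃ C : ℝ, ∀ n : ℕ, ∑ j ∈ Finset.range n, D j ≤ C) ∧
    ∀ N : ℕ, (∀ j, a (j + N) = a j) → D N = D 0 * Real.exp (-(N * c))

/-- YRA (80 lines; uses YNX): the shear at the edge `(p, y)`. Proof. `(p, y) ∈ TL` (YNX 3). `Nx p x y`: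
`Ccw p y x`, so `Ccw y x p`, and `{p, y, x} ∈ TT`; `Nx p y w`: `Ccw p w y` and `{p, w, y} = {p, y, w} ∈ TT`. `Sha`
for `(p, y)` with `v = w` and `w = x`: `X (d p) (d y) (d w) (d x) =
dist (d w) (d p) * dist (d x) (d y) / (dist (d w) (d y) * dist (d x) (d p))` is the quotient
`Ez d p x y / Ez d p y w`. All distances are positive: `d` is injective on the three points of each of the
two triangles (`CyOn`, the triangles are contained in `Vx`). -/
def Stmt_YRA : Prop :=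
  ∀ (K : Set Circle) (T : Set (Circle × Circle)), Fans K T → ∀ (a : Circle → ℝ) (d : Circle → Circle),
    CyOn d (Vx K T) → Sha K T a d → ∀ p x y w : Circle, Nx K T p x y → Nx K T p y w →
    0 < Ez d p x y ∧ 0 < Ez d p y w ∧
      Ez d p x y = Ez d p y w * Real.exp (a p + a y - (a x + a w) / 2)

/-- YEX (200 lines; uses YNX YKA YSU YRA): the limit of a fan. Proof. `Fans.fan` for the gap `(p, q)`: the
first alternative is excluded (`q ∉ Vx`), so there is the fan `v`. `κ` from YKA for `d p`. The points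
`d (v j)` are different from `d p` and `Ccw (d p) (d (v (j + 1))) (d (v j))` (`Nx`: `Ccw p (v (j + 1)) (v j)`, the
triangle is contained in `Vx`, `CyOn`), so `κ (d (v j)) - κ (d (v (j + 1))) = Ez d p (v j) (v (j + 1)) =: D j`
(YKA 2) and `κ (d (v j))` is strictly decreasing. YRA and YSU (1) for `D`, `j ↦ a (v j)`, `c = a p`: the sums of
the `D j` are bounded, so `κ (d (v j))` is bounded from below; let `t` be the infimum, `y ≠ d p`, `κ y = t`
(YKA 3); `t < κ (d (v j))` for all `j`. (1) Let `x ∈ Vx`, `x ≠ p`. `x ∈ K` (`Fans.sub`), `x ≠ q`, so `Ccw p q x`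
(otherwise `Ccw p x q`, but `(p, q)` is a gap). The set of the `u` with `Ccw p u x` is open (`area` is
continuous) and contains `q`, so it contains some `v j`: `Ccw p (v j) x`, `κ (d (v j)) < κ (d x)`, and
`κ y < κ (d x)`: `Ccw (d p) y (d x)`. (2) Let `y'` be as in `Edge`; then `y' ≠ d p` and `κ y' < κ (d (v j))` for all
`j` (`v j ∈ Vx`, `v j ≠ p`), so `κ y' ≤ t = κ y`. If `κ y' < κ y` then `Ccw (d p) y' y`. If `κ y' = κ y` then
`y' = y`: otherwise `Ccw (d p) y' y` or `Ccw (d p) y y'` (`q_CYO` 3). -/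
def Stmt_YEX : Prop :=
  ∀ (K : Set Circle) (T : Set (Circle × Circle)), Fans K T → ∀ (a : Circle → ℝ) (d : Circle → Circle),
    (∀ x, 0 < a x ∧ a x ≤ 1) → CyOn d (Vx K T) → Sha K T a d → ∀ p q, Gap K p q → q ∉ Vx K T →
    ∃ y, Edge (Vx K T) d p y

/-- YED (80 lines): uniqueness and transport. Proof. (1) `y'` satisfies the hypothesis in the second part of
`Edge` for `y`, so `y' = y` or `Ccw (d p) y' y`, and in the same way `y = y'` or `Ccw (d p) y y'`; `q_CYO` (2). (2)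
Let `x' ∈ V'`, `x' ≠ g p`, `x = g⁻¹ x' ∈ V`, `x ≠ p`: `Ccw (d p) y (d x)`, apply `m`: `d' x' = m (d x)`,
`d' (g p) = m (d p)`. If `y''` satisfies the hypothesis for `V'`, `d'`, `g p`, then `m⁻¹ y''` satisfies it for `V`,
`d`, `p` (`Ori m⁻¹`, `q_MOR`), so `m⁻¹ y'' = y` or `Ccw (d p) (m⁻¹ y'') y`; apply `m`. -/
def Stmt_YED : Prop :=
  (∀ (V : Set Circle) (d : Circle → Circle) (p y y' : Circle), Edge V d p y → Edge V d p y' → y = y') ∧
  ∀ (V V' : Set Circle) (d d' : Circle → Circle) (g m : H) (p y : Circle), Ori m → p ∈ V →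
    (∀ x ∈ V, g x ∈ V') → (∀ x ∈ V', g⁻¹ x ∈ V) → (∀ x ∈ V, d' (g x) = m (d x)) →
    Edge V d p y → Edge V' d' (g p) (m y)

/-! ### Developing maps of one region -/

/-- YZE (120 lines; uses YPU): the shears as a symmetric function of the edge. Proof. Let
`z p q = a p + a q - (a v + a w) / 2` if there are `v`, `w` as in the claim (chosen), and `0` otherwise. `v` and
`w` are unique: `{p, q, v}` and `{p, q, v'}` satisfy `At _ p q` (`Ccw p v q`), so they are equal (YPU for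
`Fans.pcs`) and `v = v'`; `{p, q, w}` satisfies `At _ q p`. If the points `v`, `w` exist for `(p, q)` then `w`,
`v` are the points for `(q, p)` (`TL` is symmetric: `Pieces.symm`; `{q, p, w} = {p, q, w}`). -/
def Stmt_YZE : Prop :=
  ∀ (K : Set Circle) (T : Set (Circle × Circle)), Fans K T → ∀ a : Circle → ℝ,
    ∃ z : Circle → Circle → ℝ, (∀ p q, z p q = z q p) ∧ ∀ p q v w : Circle, (p, q) ∈ TL K T →
      Ccw p v q → Ccw q w p → ({p, q, v} : Set Circle) ∈ TT K T →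
      ({p, q, w} : Set Circle) ∈ TT K T → z p q = a p + a q - (a v + a w) / 2

/-- YDV (80 lines; uses DV1 DU1 YZE): developing maps with the shears of the weights. Proof. `z` from YZE; for
this `z` the properties `Shear (TT K T) (TL K T) z d` and `Sha K T a d` are the same. DV1 and DU1 for
`Fans.pcs`, `Fans.trs`, `Fans.nonempty`. -/
def Stmt_YDV : Prop :=
  ∀ (K : Set Circle) (T : Set (Circle × Circle)), Fans K T → ∀ a : Circle → ℝ,
    (∃ d, CyOn d (Vx K T) ∧ Sha K T a d) ∧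
    ∀ d d' : Circle → Circle, CyOn d (Vx K T) → CyOn d' (Vx K T) → Sha K T a d → Sha K T a d' →
      ∃ n : H, IsMob n ∧ ∀ x ∈ Vx K T, d' x = n (d x)

/-- YDX (120 lines; uses YEX YDV): existence of the developing map of a region. Proof. `d` from YDV (1). Let
`δ x = d x` for `x ∈ Vx`; for `x ∉ Vx` which is the end of a gap `(p, x)` of `K` let `δ x` be the point of YEX
(choice), and `δ x = x` otherwise. The point `p` is unique: if `(p, x)`, `(p', x)` are gaps, `p ≠ p'`, then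
`Ccw p p' x` or `Ccw p' p x` (`q_CYO`), which is excluded by the gaps. `δ = d` on `Vx` and `p ∈ Vx`
(`Fans.start`), so `CyOn`, `Sha` (its points are in `Vx`) and `Edge (Vx K T) _ p y` are the same for `δ` and
`d`. -/
def Stmt_YDX : Prop :=
  ∀ (K : Set Circle) (T : Set (Circle × Circle)), Fans K T → ∀ a : Circle → ℝ,
    (∀ x, 0 < a x ∧ a x ≤ 1) → ∃ δ, Dvl K T a δ

/-- YOR (250 lines; uses ARL): the developing map preserves the cyclic order on `Vt`. Proof. Let `V = Vx K T`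
and `o ∈ V` (`Fans.nonempty`). ARL for `z = o`: `θ`; ARL for `z = δ o`: `θ'`. `V` has three different points
(a triangle), `δ` is injective on `V` (`CyOn`). (1) If `x, y ∈ V`, `θ x < θ y` then `θ' (δ x) < θ' (δ y)`: if
`x = o`, `θ' (δ o)` is the minimum and `θ'` is injective; otherwise `θ o < θ x < θ y`, `Ccw o x y`,
`Ccw (δ o) (δ x) (δ y)`, and `θ' (δ o)` is the minimum. (2) Let `q ∈ Vt`, `q ∉ V`, so there is a gap `(p, q)`
of `K`; `p ∈ V` (`Fans.start`), `Dvl.edge`. (a) `θ p < θ q`: clear if `p = o`; otherwise, if `θ q < θ p`, then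
`Ccw p o q` (ARL), but `o ∈ K` (`Fans.sub`) and `(p, q)` is a gap. (b) `θ' (δ p) < θ' (δ q)`: if `p = o` the
minimum (`δ q ≠ δ p` by `Edge` for any `x ≠ p`); otherwise `Edge` for `x = o`: `Ccw (δ p) (δ q) (δ o)`, so
`Ccw (δ q) (δ o) (δ p)` and ARL. (c) If `x ∈ V`, `θ q < θ x` then `θ' (δ q) < θ' (δ x)`: `x ≠ p`, `Edge`:
`Ccw (δ p) (δ q) (δ x)`, and `θ' (δ p) < θ' (δ x)` by (1). (3) If `x ∈ K`, `θ x < θ q`, then `θ x ≤ θ p`:
otherwise `θ p < θ x < θ q`, `Ccw p x q`. (4) Claim: for `x, y ∈ Vt`, `θ x < θ y` implies `θ' (δ x) < θ' (δ y)`.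
Both in `V`: (1). `x ∈ V`, `y = q ∉ V`: `θ x ≤ θ p` by (3), so `x = p` or (1) for `x`, `p`; then (2 b).
`x = q ∉ V`, `y ∈ V`: (2 c). Both not in `V`: `y = q`, `θ x ≤ θ p` by (3), `x ≠ p` as `p ∈ V`; the previous case
for `x`, `p` and (2 b). (5) The description of `Ccw` in ARL for `θ` and `θ'`. -/
def Stmt_YOR : Prop :=
  ∀ (K : Set Circle) (T : Set (Circle × Circle)), Fans K T → ∀ (a : Circle → ℝ) (δ : Circle → Circle),
    Dvl K T a δ → CyOn δ (Vt K T)

/-! ### The group -/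

/-- YGQ (200 lines; uses ARX PC1 TFN TEQ): the action of `G` on the regions. Proof. (1) TFN: `Net.tri`,
`Net.closed`, `Pieces.three`. (2) `K ⊆ Arc p q`; if `k ∈ K` and `Ccw q k p` then `k ∈ Arc q p`, so `k ∈ {p, q}`
(ARX 2), a contradiction; `p ≠ q` (`Pieces.ne`). (3) `g '' K ∈ ℛ` (`keepK`) and `At (g '' K) p q` (`g` preserves
`Arc p q` as `Ori g`, `g p = p`, `g q = q`): PC1 (b). (4) TEQ for `g`, `K`, `T K`, `T (g '' K)` (`keepT`) gives one
direction of each equivalence; the other one is TEQ for `g⁻¹`, `g '' K`, where `g⁻¹ '' (g '' K) = K`. For the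
sets `{p, q, v}`: the image is `{g p, g q, g v}`. For `Vx`: a union of triangles. For `Sn`: induction on `n`
(for `←` the intermediate point is `g (g⁻¹ b')`). -/
def Stmt_YGQ : Prop :=
  ∀ (G : Subgroup H) (Λ : Set (Circle × Circle)) (ℛ : Set (Set Circle))
    (T : Set Circle → Set (Circle × Circle)), Net G Λ ℛ T →
    (∀ K ∈ ℛ, Fans K (T K)) ∧
    (∀ K ∈ ℛ, ∀ p q, (p, q) ∈ Λ → At K p q → Gap K q p) ∧
    (∀ g ∈ G, ∀ K ∈ ℛ, ∀ p q, (p, q) ∈ Λ → At K p q → g p = p → g q = q → (g : H) '' K = K) ∧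
    ∀ g ∈ G, ∀ K ∈ ℛ,
      (∀ x, x ∈ Vx K (T K) ↔ g x ∈ Vx ((g : H) '' K) (T ((g : H) '' K))) ∧
      (∀ p q, Gap K p q ↔ Gap ((g : H) '' K) (g p) (g q)) ∧
      (∀ x, x ∈ Vt K (T K) ↔ g x ∈ Vt ((g : H) '' K) (T ((g : H) '' K))) ∧
      (∀ p q v, ({p, q, v} : Set Circle) ∈ TT K (T K) ↔
        ({g p, g q, g v} : Set Circle) ∈ TT ((g : H) '' K) (T ((g : H) '' K))) ∧
      (∀ p q, (p, q) ∈ TL K (T K) ↔ (g p, g q) ∈ TL ((g : H) '' K) (T ((g : H) '' K))) ∧
      (∀ p b c, Nx K (T K) p b c ↔ Nx ((g : H) '' K) (T ((g : H) '' K)) (g p) (g b) (g c)) ∧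
      ∀ p n b c, Sn K (T K) p n b c ↔ Sn ((g : H) '' K) (T ((g : H) '' K)) (g p) n (g b) (g c)

/-- YAL (120 lines; uses YGQ): the weights are invariant. Proof. (1) `Per G T K p n` iff
`Per G T (g '' K) (g p) n`: `→`: if `h`, `b` are as in `Per` for `K`, `p` then `g * h * g⁻¹` and `g b` are so for
`g '' K`, `g p` (YGQ, `Sn`; `(g * h * g⁻¹) (g b) = g (h b)`, `(g * h * g⁻¹) '' (g '' K) = g '' (h '' K)`). `←`: the
same for `g⁻¹` and `g '' K ∈ ℛ`. So the predicates are equal (`funext`, `propext`) and `al` is the same. (2)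
`Nat.find_spec`: `0 < n`. -/
def Stmt_YAL : Prop :=
  ∀ (G : Subgroup H) (Λ : Set (Circle × Circle)) (ℛ : Set (Set Circle))
    (T : Set Circle → Set (Circle × Circle)), Net G Λ ℛ T →
    (∀ K ∈ ℛ, ∀ g ∈ G, ∀ p, al G T ((g : H) '' K) (g p) = al G T K p) ∧
    ∀ K p, 0 < al G T K p ∧ al G T K p ≤ 1

/-- YTR (150 lines; uses YED YDV YGQ YAL): transport of developing maps. Proof. YDV (2) for `K`, `T K`,
`al G T K`, `d = δ`, `d' x = δ' (g x)`: `CyOn d' (Vx K (T K))` by `Ori g`, YGQ (`Vx`), `Dvl.cy`; `Sha` for `d'` by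
`Dvl.sha` of `δ'`, YGQ (`TL`, `TT`), `Ori g` and YAL (1) (the weights of the images are the same). So there is a
Möbius map `m` with `δ' (g x) = m (δ x)` for `x ∈ Vx`. Let `x ∈ Vt`, `x ∉ Vx`: there is a gap `(p, x)` of `K`;
`p ∈ Vx` (`Fans.start`). `Edge (Vx K) δ p (δ x)` (`Dvl.edge`), so by YED (2) (`Ori m`: `q_MOR`)
`Edge (Vx (g '' K)) δ' (g p) (m (δ x))`; and `(g p, g x)` is a gap of `g '' K`, `g x ∉ Vx (g '' K)`, so
`Edge (Vx (g '' K)) δ' (g p) (δ' (g x))`. YED (1): `δ' (g x) = m (δ x)`. -/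
def Stmt_YTR : Prop :=
  ∀ (G : Subgroup H) (Λ : Set (Circle × Circle)) (ℛ : Set (Set Circle))
    (T : Set Circle → Set (Circle × Circle)), Net G Λ ℛ T → ∀ K ∈ ℛ, ∀ g ∈ G,
    ∀ δ δ' : Circle → Circle, Dvl K (T K) (al G T K) δ →
    Dvl ((g : H) '' K) (T ((g : H) '' K)) (al G T ((g : H) '' K)) δ' →
    ∃ m : H, IsMob m ∧ ∀ x ∈ Vt K (T K), δ' (g x) = m (δ x)

/-- YFX (100 lines; uses YGQ): the stabilizer of a gap. Proof. `(p, q) ∈ Λ` (`Net.gap`), `(q, p) ∈ Λ`, and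
`K ⊆ Arc q p` (for `k ∈ K`, `k ≠ p, q`: not `Ccw p k q`, so `Ccw q k p`, `q_CYO`): `At K q p`. This is (4), and
(1) is YGQ (3) for `(q, p)`. (2) `(p, g q)` is a gap of `g '' K = K` (YGQ), and `(p, q)` too; if `q ≠ g q` then
`Ccw p q (g q)` or `Ccw p (g q) q`: both are excluded by the gaps. (3) `q_FXT` (`Net.conv`, `Net.ori`). -/
def Stmt_YFX : Prop :=
  ∀ (G : Subgroup H) (Λ : Set (Circle × Circle)) (ℛ : Set (Set Circle))
    (T : Set Circle → Set (Circle × Circle)), Net G Λ ℛ T → ∀ K ∈ ℛ, ∀ p q, Gap K p q →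
    (∀ g ∈ G, g p = p → g q = q → (g : H) '' K = K) ∧
    (∀ g ∈ G, g p = p → (g : H) '' K = K → g q = q) ∧
    (∀ g ∈ G, g p = p → g q = q → ∀ x, x ≠ p → x ≠ q → g x = x → g = 1) ∧
    ∀ b ∈ K, b ≠ p → b ≠ q → Ccw q b p

/-- YG1 (80 lines; uses YPU YGQ YFX): the end of the gap of a closed leaf is not a vertex. Proof. `Fans.fan` for
the gap `(p, q)` (YGQ 1). The second alternative is the claim. In the first one `{p, q, c} ∈ TT`, `Ccw q c p`; for
`g ≠ 1` with `g p = p`, `g q = q` we have `g '' K = K` (YFX 1), so `{p, q, g c} ∈ TT` (YGQ) and `Ccw q (g c) p`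
(`Ori g`). Both sets satisfy `At _ q p`, so they are equal (YPU), `g c = c`, and `g = 1` (YFX 3). -/
def Stmt_YG1 : Prop :=
  ∀ (G : Subgroup H) (Λ : Set (Circle × Circle)) (ℛ : Set (Set Circle))
    (T : Set Circle → Set (Circle × Circle)), Net G Λ ℛ T → ∀ K ∈ ℛ, ∀ p q, Gap K p q →
    (∃ g ∈ G, g ≠ 1 ∧ g p = p ∧ g q = q) → q ∉ Vx K (T K)

/-- YG2 (150 lines; uses YSN YCH YGQ): shifts. Proof. Call `b` a neighbour if `Nx p b c` for some `c`; then `h b`
is a neighbour (YGQ, `h '' K = K`, `h p = p`). (1) Let `b`, `b'` be neighbours, `Sn n b (h b)`. If `b' = b` clear.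
If `Ccw p b' b`: YCH: `Sn (k + 1) b b'`; induction on `k` along this chain: if `Nx b b₁` then `Nx (h b) (h b₁)`,
and YSN (4) gives `Sn n b₁ (h b₁)` (all members of the chain except possibly the last one are neighbours by
definition of `Sn`, and the last one is the neighbour `b'`). If `Ccw p b b'` the chain is from `b'` to `b`, and
YSN (4) is used from right to left (or `q_CYO` 3 for the three cases). (2) Induction on `r`: `h b` is a
neighbour, so `Sn (r * n) (h b) ((h ^ r) (h b))`, and YSN (1) with `Sn n b (h b)`;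
`(h ^ r) (h b) = (h ^ (r + 1)) b`. -/
def Stmt_YG2 : Prop :=
  ∀ (G : Subgroup H) (Λ : Set (Circle × Circle)) (ℛ : Set (Set Circle))
    (T : Set Circle → Set (Circle × Circle)), Net G Λ ℛ T → ∀ K ∈ ℛ, ∀ p : Circle, ∀ h ∈ G,
    h p = p → (h : H) '' K = K → ∀ (n : ℕ) (b c : Circle), Nx K (T K) p b c →
    Sn K (T K) p n b (h b) → ∀ b' c', Nx K (T K) p b' c' →
    Sn K (T K) p n b' (h b') ∧ ∀ r : ℕ, Sn K (T K) p (r * n) b' ((h ^ r) b')

/-- YDI (40 lines): the inverse. Proof. Let `y = g⁻¹ x`. If `Ccw q x p` then `Ccw q y p` (`Ori g⁻¹`, `q_MOR`), and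
`Ccw q (g y) y` says `Ccw q x (g⁻¹ x)`; in the same way for `Ccw p x q`. -/
def Stmt_YDI : Prop :=
  ∀ (g : H) (p q : Circle), Ori g → g p = p → g q = q → Dir g p q → Dir g⁻¹ q p

/-- YG3 (250 lines; uses YSN YCH YGQ YFX YG1 YG2 YDI DIR): the generator of the stabilizer of a gap. Proof. Let
`g₀ ≠ 1` fix `p`, `q`. `q ∉ Vx` (YG1); `Fans.fan`: the fan `v`; `b = v 0`, `Nx p b (v 1)`. (1) Each element of `Vx`
different from `p` is in `K` and not `q`, so `Ccw q _ p` (YFX 4). (2) Let `g ∈ G` fix `p`, `q`, `Dir g p q`.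
`Nx p (g b) (g (v 1))` (YGQ, `g '' K = K` by YFX 1). `Ccw q b p` and `Ccw q (g b) b` give `Ccw p (g b) b`
(`q_CYO`), so YCH: `Sn n b (g b)` for some `n > 0`, hence `Per G T K p n`. (3) DIR for `g₀`: `Dir g₀ p q` or
`Dir g₀ q p`; in the second case `Dir g₀⁻¹ p q` (YDI). So by (2) there is some period; let `N` be the smallest
one (`Nat.find`), `al G T K p = 1 / N`, and `h`, `b₀` from `Per G T K p N`: `h '' K = K`, `h p = p`,
`Sn N b₀ (h b₀)`; `h q = q` (YFX 2). `N = N' + 1`, so `Nx p b₀ _` (definition of `Sn`) and `Ccw p (h b₀) b₀` (YSN 5):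
`h ≠ 1`. DIR for `h`: if `Dir h q p` then `Ccw q b₀ (h b₀)` (`Ccw q b₀ p` by (1)) and `Ccw q (h b₀) p`, so
`Ccw p b₀ (h b₀)` (`q_CYO`), a contradiction. So `Dir h p q`. (4) Let `g` be as in (2), `Sn n b (g b)`, `n > 0`. By
YG2 `Sn (r * N) b ((h ^ r) b)` for all `r`. Let `n = r * N + s`, `s < N`. YSN (6): `Sn s ((h ^ r) b) (g b)`; apply
`k = (h ^ r)⁻¹ ∈ G` (YGQ; it fixes `p` and preserves `K`): `Sn s b ((k * g) b)`. If `0 < s` then
`Per G T K p s` (with `k * g`), a contradiction to the choice of `N` (`Nat.find_min'`). So `s = 0`,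
`(k * g) b = b`, and `k * g = 1` (YFX 3), `g = h ^ r`, and `0 < r` as `0 < n`. -/
def Stmt_YG3 : Prop :=
  ∀ (G : Subgroup H) (Λ : Set (Circle × Circle)) (ℛ : Set (Set Circle))
    (T : Set Circle → Set (Circle × Circle)), Net G Λ ℛ T → ∀ K ∈ ℛ, ∀ p q, Gap K p q →
    (∃ g ∈ G, g ≠ 1 ∧ g p = p ∧ g q = q) →
    ∃ h ∈ G, ∃ N : ℕ, 0 < N ∧ al G T K p = 1 / (N : ℝ) ∧ h p = p ∧ h q = q ∧ Dir h p q ∧
      (∃ b c, Nx K (T K) p b c ∧ Sn K (T K) p N b (h b)) ∧
      ∀ g ∈ G, g p = p → g q = q → Dir g p q → ∃ r : ℕ, 0 < r ∧ g = h ^ r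

/-- YMU (250 lines; uses MXI YKA YSU YNX YSN YRA YOR YGQ YAL YTR YFX YG2): the length of a closed leaf is one.
Proof. `h '' K = K` (YFX 1). YTR for `g = h` and `δ' = δ`: a Möbius map `m` with `δ (h x) = m (δ x)` on `Vt`. Let
`P = δ p`, `Q = δ q`: `m P = P`, `m Q = Q` (`p ∈ Vx` by `Fans.start`, `q ∈ Vt`). MXI (2): `c > 0` with
`dist (m y) P / dist (m y) Q = c * (dist y P / dist y Q)` for all `y`. It is enough to show `c = exp 1` (`δ` is
injective on `Vt`, YOR). Let `v` be the fan of `Fans.fan` (`q ∉ Vx`). (1) `v j ∈ Vx`, `v j ≠ p, q`,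
`Ccw p q (v j)` (YFX 4), so `Ccw P Q (δ (v j))` (YOR). By YG2 `Sn N (v j) (h (v j))`, and `Sn N (v j) (v (j + N))`
(induction), so `v (j + N) = h (v j)` (YSN 2). (2) `κ` from YKA for `P`, `D j = Ez δ p (v j) (v (j + 1))`. YRA:
the hypotheses of YSU with `a j = al G T K (v j)`, `c = al G T K p = 1 / N`; `a (j + N) = a j` by YAL (1) for
`g = h`. YSU (2): `D N = D 0 * exp (-1)`. (3) YKA (2) (`Ccw P (δ (v 1)) (δ (v 0))`):
`D 0 = κ (δ (v 0)) - κ (δ (v 1))`, and `D N = κ (m (δ (v 0))) - κ (m (δ (v 1)))` (`v N = h (v 0)`,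
`v (N + 1) = h (v 1)`). (4) For `y` with `Ccw P Q y` YKA (2): `dist y Q / dist y P = (κ y - κ Q) * dist Q P`. For
`y = δ (v 0)` and `y = δ (v 1)` also `Ccw P Q (m y)` (`Ori m`), so `κ (m y) - κ Q = (κ y - κ Q) / c`. The
difference of the two equations: `D N = D 0 / c`, and `0 < D 0`: `c = exp 1`. -/
def Stmt_YMU : Prop :=
  ∀ (G : Subgroup H) (Λ : Set (Circle × Circle)) (ℛ : Set (Set Circle))
    (T : Set Circle → Set (Circle × Circle)), Net G Λ ℛ T → ∀ K ∈ ℛ, ∀ p q, Gap K p q →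
    q ∉ Vx K (T K) → ∀ δ : Circle → Circle, Dvl K (T K) (al G T K) δ → ∀ h ∈ G, ∀ N : ℕ, 0 < N →
    al G T K p = 1 / (N : ℝ) → h p = p → h q = q →
    (∃ b c, Nx K (T K) p b c ∧ Sn K (T K) p N b (h b)) →
    ∀ x ∈ Vt K (T K), x ≠ p → x ≠ q → dist (δ (h x)) (δ p) * dist (δ x) (δ q) =
      Real.exp 1 * (dist (δ x) (δ p) * dist (δ (h x)) (δ q))

/-- YMP (80 lines): powers. Proof. Induction on `r`. Let `A x = dist (δ x) (δ p)`, `B x = dist (δ x) (δ q)`; for
`x ∈ V`, `x ≠ p, q`, the point `x' = (h ^ r) x` is in `V` and different from `p`, `q`, so `B x' ≠ 0`.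
`A (h x') B x' = μ A x' B (h x')` and `A x' B x = μ ^ r A x B x'`; multiply the first equation by `B x` and
cancel `B x'`. (`(h ^ (r + 1)) x = h ((h ^ r) x)`.) -/
def Stmt_YMP : Prop :=
  ∀ (V : Set Circle) (δ : Circle → Circle) (h : H) (p q : Circle) (μ : ℝ), h p = p → h q = q →
    (∀ x ∈ V, h x ∈ V) → (∀ x ∈ V, x ≠ q → δ x ≠ δ q) →
    (∀ x ∈ V, x ≠ p → x ≠ q → dist (δ (h x)) (δ p) * dist (δ x) (δ q) =
      μ * (dist (δ x) (δ p) * dist (δ (h x)) (δ q))) →
    ∀ (r : ℕ), ∀ x ∈ V, x ≠ p → x ≠ q → dist (δ ((h ^ r) x)) (δ p) * dist (δ x) (δ q) =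
      μ ^ r * (dist (δ x) (δ p) * dist (δ ((h ^ r) x)) (δ q))

/-- YMF (250 lines; uses YOR YGQ YFX YG1 YG3 YDI YMU YMP DIR): the multipliers on the two sides of a leaf agree.
Proof. `Gap K q p` and `Gap K' p q` (YGQ 2 for `(p, q)`, `(q, p)`). If `g = 1` take `μ = 1`. Let `g ≠ 1`. YG3 for
`K'`, `p`, `q`: `h'`, `N'`; YG3 for `K`, `q`, `p`: `h`, `N` (`Dir h q p`). (1) `Dir h' p q`, so `Dir h'⁻¹ q p` (YDI) and
`h'⁻¹ = h ^ a`, `a > 0` (YG3 for `K`); `Dir h⁻¹ p q`, so `h⁻¹ = h' ^ b`, `b > 0`. Then `h'⁻¹ = h ^ a =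
(h'⁻¹) ^ (a b)`, so `h' ^ (a b - 1) = 1`; as `h' ≠ 1` (`Dir` and a point of `K'` different from `p`, `q`: `h'` moves
it) and `G` is torsion free (`Net.tf`), `a b = 1`, `a = b = 1`, and `h' = h⁻¹`. (2) Suppose `Dir g p q`. Then
`g = h' ^ r` and `g⁻¹ = h ^ s = (h' ^ s)⁻¹` (`Dir g⁻¹ q p`), so `h' ^ r = h' ^ s` and `r = s` (torsion free). YMU
and YMP for `K'`, `h'`: the claim for `K'` with `μ = exp 1 ^ r` (the hypothesis `q ∉ Vx K'` is YG1; `h'` maps
`Vt K'` to itself by YGQ, `h' '' K' = K'`, YFX; `δ K'` is injective on `Vt K'` by YOR). YMU and YMP for `K`, `h`,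
with `q`, `p` instead of `p`, `q`: for `y ∈ Vt K`, `y ≠ p, q`:
`dist (δ K (g⁻¹ y)) (δ K q) * dist (δ K y) (δ K p) = exp 1 ^ r * (dist (δ K y) (δ K q) * dist (δ K (g⁻¹ y)) (δ K p))`;
for `y = g x` this is the claim for `K`. (3) Otherwise `Dir g q p` (DIR) and `Dir g⁻¹ p q` (YDI): the claim
for `g⁻¹` with `μ'` by (2); for `y = g x` it gives the claim for `g` with `μ = 1 / μ'`. -/
def Stmt_YMF : Prop :=
  ∀ (G : Subgroup H) (Λ : Set (Circle × Circle)) (ℛ : Set (Set Circle))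
    (T : Set Circle → Set (Circle × Circle)), Net G Λ ℛ T → ∀ δ : Set Circle → Circle → Circle,
    (∀ K ∈ ℛ, Dvl K (T K) (al G T K) (δ K)) →
    ∀ p q K K', (p, q) ∈ Λ → K ∈ ℛ → K' ∈ ℛ → At K p q → At K' q p →
      ∀ g ∈ G, g p = p → g q = q → ∃ μ : ℝ, 0 < μ ∧
        (∀ x ∈ Vt K (T K), x ≠ p → x ≠ q → dist (δ K (g x)) (δ K p) * dist (δ K x) (δ K q) =
          μ * (dist (δ K x) (δ K p) * dist (δ K (g x)) (δ K q))) ∧
        ∀ x ∈ Vt K' (T K'), x ≠ p → x ≠ q → dist (δ K' (g x)) (δ K' p) * dist (δ K' x) (δ K' q) =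
          μ * (dist (δ K' x) (δ K' p) * dist (δ K' (g x)) (δ K' q))

/-! The last block of this part: `theorem p_DEL (h1 : Stmt_YGQ) (h2 : Stmt_YAL) (h3 : Stmt_YDX) (h4 : Stmt_YOR)
(h5 : Stmt_YTR) (h6 : Stmt_YMF) : Stmt_DEL`. Proof. For `K ∈ ℛ` let `δ K` be from YDX for `Fans K (T K)` (YGQ 1) and
the weights `al G T K` (YAL 2). The three claims are YOR, YTR (for `δ K` and `δ (g '' K)`) and YMF. -/

end Pool.SH
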