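import Pool.Agent.Work.MP_ae1ff6_sh.Defs

/-!
# Mapping classes of infinite order (MP_ae1ff6_gt): the invariant lamination (part 2)

Block `X`: file `Pool/Agent/Work/MP_ae1ff6_sh/B_X.lean`, `import Pool.Agent.Work.MP_ae1ff6_sh.InterfaceL`,
`namespace Pool.SH`, the `open` lines of this file, `theorem p_X (h1 : Stmt_Y) .. : Stmt_X` with exactly the
blocks of the column `uses`, in this order, as hypotheses; auxiliary lemmas with the prefix `X_`.

Proved facts (not hypotheses; all files are imported by `Defs`): `Pool.GC.lhi` (`Link` is preserved by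
homeomorphisms), `Pool.GC.lub`, `Pool.GC.q_SYM` (`Link a b c d` implies `Link c d a b`, `Link b a c d`,
`Link a b d c`), `Pool.GC.q_LNO` (1) (`Link` is open), `Pool.GC.q_ORB` (the pairs `(g p, g q)`, `g ∈ G`, with
distance at least `ε` are finitely many, if `Conv G` and `(p, q)` is an axis of `Γ`), `Pool.CG.dns` (the axes
of `Γ` are dense in the pairs), `Pool.CG.cyc`, `Pool.CG.rl2` (statements in
`Pool/Agent/Work/MP_ae1ff6_cg/Interface.lean`, `Interface2.lean`, `Pool/Agent/Work/MP_ae1ff6_gc/Interface.lean`;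
fundamental domain of a hyperbolic element: `Pool.CG.Stmt_HYP`, `Stmt_LOP`, `Stmt_LUB`, theorems `hyp`,
`lop`, `lub` or `blk_..` in these folders), and `Pool.AR.q_CUT`, `q_CYO`, `q_LKC`, `q_ANG`, `q_MOR`
(statements in `Pool/Agent/Work/MP_ae1ff6_ar/Interface.lean`).

Notation of the docstrings: `A n = sh f n A = fⁿ A`, `U n = Un (A n)`, `W n = Un (U n)`, `G` the group
generated by `Γ` and `f`; its elements are the `κ f ^ k`, `κ ∈ Γ` (GEL).
-/

open Topology Filter Set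
open scoped ComplexConjugate

set_option autoImplicit false

namespace Pool.SH

open Pool.CG Pool.AR

/-- GEL (100 lines): the elements of `G`. Proof. (1) The set of the `κ * f ^ n`, `κ ∈ Γ`, is a subgroup
(`f ^ n` normalises `Γ` by (2)) which contains `Γ` and `f`; compare `Pool/Agent/Work/MP_ae1ff6_cg/B_CYC.lean`
or `B_CY2.lean`, where this is proved. (2) Induction on `n ≥ 0` and for the inverse. (3) Let
`g = κ * f ^ k`; by (2) `g ^ n = κ' * f ^ (k n)` with `κ' ∈ Γ`; if this is `1`, then `f ^ (k n) ∈ Γ`, and so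
`f ^ |k n| ∈ Γ` and `k n = 0`, `k = 0`, `g = κ ∈ Γ`. (4) for `g = κ * f ^ k` by (2). -/
def Stmt_GEL : Prop :=
  ∀ (Γ : Subgroup H) (f : H), (∀ γ, γ ∈ Γ ↔ f * γ * f⁻¹ ∈ Γ) →
    (∀ g, g ∈ Γ ⊔ Subgroup.zpowers f ↔ ∃ κ ∈ Γ, ∃ n : ℤ, g = κ * f ^ n) ∧
    (∀ (n : ℤ), ∀ γ ∈ Γ, f ^ n * γ * (f ^ n)⁻¹ ∈ Γ) ∧
    ((∀ γ ∈ Γ, ∀ n : ℕ, 0 < n → γ ^ n = 1 → γ = 1) → (∀ n : ℕ, 0 < n → f ^ n ∉ Γ) →
      ∀ g ∈ Γ ⊔ Subgroup.zpowers f, ∀ n : ℕ, 0 < n → g ^ n = 1 → g = 1) ∧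
    ∀ g ∈ Γ ⊔ Subgroup.zpowers f, ∀ γ ∈ Γ, g * γ * g⁻¹ ∈ Γ

/-- FC1 (100 lines; uses GEL): the images of a closed geodesic become short. Proof. By `Pool.GC.q_ORB` the set
`S` of the pairs `(g p, g q)`, `g ∈ G`, with `ε ≤ dist (g p) (g q)` is finite. Each `(x, y) ∈ S`,
`x = g p`, `y = g q`, is an axis: `Axis (g * γ * g⁻¹) x y`, and `g * γ * g⁻¹ ∈ Γ` (GEL 4). By `Pool.CG.cyc`
(`Conv G`; the first alternative `f ^ n ∈ Γ` is excluded) for each `(x, y) ∈ S` the set of the `n : ℤ` with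
`Meets (κ * f ^ n) p q x y` for some `κ ∈ Γ` is finite. If `ε ≤ dist ((κ * f ^ n) p) ((κ * f ^ n) q)`, then the
pair `(x, y) = ((κ * f ^ n) p, (κ * f ^ n) q)` is in `S` and `Meets (κ * f ^ n) p q x y` (the second
alternative of `Meets`), so `n` is in a finite union of finite sets; `N` = one plus the maximum of the `|n|`. -/
def Stmt_FC1 : Prop :=
  ∀ (Γ : Subgroup H) (f : H), FirstKind Γ → (∀ γ, γ ∈ Γ ↔ f * γ * f⁻¹ ∈ Γ) →
    (∀ n : ℕ, 0 < n → f ^ n ∉ Γ) → Conv (Γ ⊔ Subgroup.zpowers f) →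
    ∀ γ ∈ Γ, ∀ p q, Axis γ p q → ∀ ε : ℝ, 0 < ε → ∃ N : ℤ, ∀ n : ℤ, (N ≤ n ∨ n ≤ -N) →
      ∀ κ ∈ Γ, dist ((κ * f ^ n) p) ((κ * f ^ n) q) < ε

/-- CNT2 (60 lines): the axes are countably many, and there is one. Proof. `Conv G` for the subgroup `Γ` (it is
contained in `G`), so `Γ` is the union of the finite sets `{γ ∈ Γ | Mv (1 / (n + 1)) γ}` (each `γ` maps three
different points to three different points), hence countable. For each `γ ∈ Γ` the pairs `(p, q)` with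
`Axis γ p q` are at most two (`{p, q}` is the set of the fixed points). `Pool.CG.dns` with `U = V = univ`
gives an axis. -/
def Stmt_CNT2 : Prop :=
  ∀ (Γ G : Subgroup H), FirstKind Γ → Γ ≤ G → Conv G →
    {a : Circle × Circle | ∃ γ ∈ Γ, Axis γ a.1 a.2}.Countable ∧
    {a : Circle × Circle | ∃ γ ∈ Γ, Axis γ a.1 a.2}.Nonempty

/-- FAM (250 lines; uses GEL FC1 CNT2): the family `A`. Proof. Let `𝒞` be the set of the axes (CNT2) and
`c : ℕ → Circle × Circle` a map with range `𝒞` (`Set.Countable.exists_eq_range`). For `a ∈ 𝒞` and `i : ℕ` write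
`R i m a` (`m : ℤ`) if there is `κ ∈ Γ` such that `a = (κ f ^ m) (c i)` or `a` is this pair in the reversed
order; let `I a` be the smallest `i` such that `R i m a` for some `m`. Facts: (a) if `R i m a` and
`g = κ' f ^ k` then `R i (m + k) (g a)` (GEL 2), so `I (g a) = I a` (the relation `∃ m, R i m a` is invariant
under `G`); the same for the reversed pair. (b) `m` is unique: if `R i m a` and `R i m' a`, `m ≠ m'`, there is
`h = κ f ^ j`, `j = m - m' ≠ 0` (or the inverse), which maps `c i = (p, q)` to `(p, q)` or `(q, p)`; then all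
powers `h ^ k = κ_k f ^ (j k)` map `{p, q}` to itself, so `dist (h ^ k p) (h ^ k q) = dist p q` for all `k`,
a contradiction to FC1 with `ε = dist p q` for large `k`. Let `N i` be from FC1 for `c i` and
`ε = 1 / (i + 1)`, and `A = {a | a ∈ 𝒞 ∧ ∃ m, N (I a) ≤ m ∧ R (I a) m a}`. `symm`, `keep`, `axis`, `push` (with
`m + 1`): clear by (a) (`Axis (g γ g⁻¹) (g p) (g q)`). `fin`: if `a ∈ A` and `ε ≤ dist a.1 a.2`, then with
`i = I a` we have `ε ≤ dist a.1 a.2 < 1 / (i + 1)`, so `i < 1 / ε`; and `a` or its reversal is one of the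
finitely many pairs `(g (c i).1, g (c i).2)`, `g ∈ G`, with distance at least `ε` (`Pool.GC.q_ORB`).
`swallow`: let `a = (p, q)`, `i = I a`, `R i m a`; then `R i (m + n) (f ^ n a)`, so `f ^ n a ∈ A` for
`n ≥ N i - m`. `leave`: if `f ^ n a ∈ A` then by (b) `N i ≤ m + n`; so it is not in `A` for
`n ≤ N i - m - 1`. -/
def Stmt_FAM : Prop :=
  ∀ (Γ : Subgroup H) (f : H), FirstKind Γ → (∀ γ, γ ∈ Γ ↔ f * γ * f⁻¹ ∈ Γ) →
    (∀ n : ℕ, 0 < n → f ^ n ∉ Γ) → Conv (Γ ⊔ Subgroup.zpowers f) → ∃ A, Fam Γ f A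

/-- SHB (150 lines; uses GEL): the families `A n`. Proof. `a ∈ A n` iff `f ^ (-n) a ∈ A`. (1) Induction on
`n - m` with `push`. (2), (3) clear (`Axis (f ^ n * γ * (f ^ n)⁻¹) x y`, GEL 2). (4) Let `0 < ε`; `f ^ n` is
uniformly continuous (compactness), so there is `δ > 0` such that `dist x y < δ` implies
`dist ((f ^ n) x) ((f ^ n) y) < ε`; `Prod.map (f ^ (-n)) (f ^ (-n))` is injective and maps
`{a ∈ A n | ε ≤ dist a.1 a.2}` into the finite set `{a ∈ A | δ ≤ dist a.1 a.2}`. (5)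
`f ^ (-(n + k)) * (κ * f ^ k) = κ' * f ^ (-n)` with `κ' = f ^ (-(n + k)) κ f ^ (n + k) ∈ Γ`, and `Γ` preserves
`A`. (6) `swallow` (`M = -N`). -/
def Stmt_SHB : Prop :=
  ∀ (Γ : Subgroup H) (f : H) (A : Set (Circle × Circle)), (∀ γ, γ ∈ Γ ↔ f * γ * f⁻¹ ∈ Γ) → Fam Γ f A →
    (∀ m n : ℤ, m ≤ n → sh f n A ⊆ sh f m A) ∧
    (∀ (n : ℤ) x y, (x, y) ∈ sh f n A → (y, x) ∈ sh f n A) ∧
    (∀ (n : ℤ) x y, (x, y) ∈ sh f n A → ∃ γ ∈ Γ, Axis γ x y) ∧
    (∀ n : ℤ, LocFin (sh f n A)) ∧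
    (∀ κ ∈ Γ, ∀ k n : ℤ, ∀ x y, (x, y) ∈ sh f n A →
      ((κ * f ^ k) x, (κ * f ^ k) y) ∈ sh f (n + k) A) ∧
    ∀ γ ∈ Γ, ∀ p q, Axis γ p q → ∃ M : ℤ, ∀ n : ℤ, n ≤ M → (p, q) ∈ sh f n A

/-- FLN (150 lines; uses SHB): a closed geodesic crosses no line of `A n`, for large `n`. Proof. Let `ρ` be
from `hyp` (`Pool.CG.Stmt_HYP`) for `γ`, `p`, `q` and `ε` from `lub` (`Pool.CG.Stmt_LUB`) for `p`, `q`, `ρ`. The
set `S = {a ∈ A | ε ≤ dist a.1 a.2}` is finite, its elements are axes, so by `leave` there is `N₀` such that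
`f ^ m a ∉ A` for all `a ∈ S` and `m ≤ N₀`. Let `N = max 0 (-N₀)`, `n ≥ N`, and suppose `a ∈ A n`,
`Link a.1 a.2 p q`. Then `a.1 ≠ p, q`; there is `k : ℤ` such that `(γ ^ k) a.1` has distance at least `ρ` from
`p` and `q`. `a' = γ ^ k a ∈ A n` (SHB 5), `Link a'.1 a'.2 p q` (`lhi`, `γ ^ k` fixes `p`, `q`), so
`ε ≤ dist a'.1 a'.2`; `a' ∈ A n ⊆ A 0 = A` (SHB 1, `0 ≤ n`), so `a' ∈ S`; but `a' ∈ A n` says
`f ^ (-n) a' ∈ A` and `-n ≤ N₀`: a contradiction. -/
def Stmt_FLN : Prop :=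
  ∀ (Γ : Subgroup H) (f : H) (A : Set (Circle × Circle)), FirstKind Γ →
    (∀ γ, γ ∈ Γ ↔ f * γ * f⁻¹ ∈ Γ) → Fam Γ f A →
    ∀ γ ∈ Γ, ∀ p q, Axis γ p q → ∃ N : ℤ, ∀ n : ℤ, N ≤ n → (p, q) ∈ Un (sh f n A)

/-- UNB (80 lines): the polar families. Proof. (1) clear. (2), (3) `q_SYM`. (4) The complement is the union of
the sets `{u | Link a.1 a.2 u.1 u.2}`, `a ∈ B`, which are open (`q_LNO` 1). (5) If `b ∈ B'` is linked with
`(g x, g y)` then `g⁻¹ b ∈ B` is linked with `(x, y)` (`lhi`). -/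
def Stmt_UNB : Prop :=
  (∀ B B' : Set (Circle × Circle), B ⊆ B' → Un B' ⊆ Un B) ∧
  (∀ B : Set (Circle × Circle), (∀ x y, (x, y) ∈ B → x ≠ y) → B ⊆ Un (Un B)) ∧
  (∀ (B : Set (Circle × Circle)) x y, (x, y) ∈ Un B → (y, x) ∈ Un B) ∧
  (∀ B : Set (Circle × Circle), IsClosed {u : Circle × Circle | ∀ a ∈ B, ¬ Link a.1 a.2 u.1 u.2}) ∧
  ∀ (B B' : Set (Circle × Circle)) (g : H), (∀ x y, (x, y) ∈ B' → (g⁻¹ x, g⁻¹ y) ∈ B) →
    ∀ x y, (x, y) ∈ Un B → (g x, g y) ∈ Un B'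

/-- U4P (120 lines): four points. Proof. It is enough to show `(x, z) ∈ Un B`: the hypotheses are symmetric
(`q_SYM`, UNB 3 is easy: prove it again or exchange the points in `Link`). `x ≠ z` (from `Link`). Suppose
`a = (p, q) ∈ B` and `Link p q x z`. Claim: `Link p q x y` or `Link p q z w`, a contradiction. The cyclic order
of the four points is `x, z, y, w` or `x, w, y, z` (`q_LKC`). Take the first case (the second one is its
mirror image). `q_LKC`: one of `p`, `q` is in the open arc from `x` to `z` and the other one in the open arc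
from `z` to `x`; say `Ccw x p z` and `Ccw z q x`. The point `q` is in one of: the open arc from `z` to `y`: then
`Link p q z w` (`z` is between `p` and `q`, `w` is not); `q = y`: `Link p y z w`; the open arc from `y` to `w`:
`Link p q z w`; `q = w`: `Link p w x y`; the open arc from `w` to `x`: `Link p q x y`. With coordinates
(`q_CUT` cut at `x`) everything is a statement about real numbers. -/
def Stmt_U4P : Prop :=
  ∀ (B : Set (Circle × Circle)) (x y z w : Circle), (x, y) ∈ Un B → (z, w) ∈ Un B → Link x y z w →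
    (x, z) ∈ Un B ∧ (x, w) ∈ Un B ∧ (y, z) ∈ Un B ∧ (y, w) ∈ Un B

/-- SEP (200 lines; uses UNB U4P): a line which crosses a line of `B` and a line of `Un B` crosses a line of
`Un B ∩ Un (Un B)`. Proof. Let `a = (a₁, a₂)`, `u = (u₁, u₂)`. By symmetry of `B` and of `Un B` (UNB 3) and
exchanging `s` and `t` if necessary we have `Ccw s a₁ t`, `Ccw s u₁ t`, `Ccw t a₂ s`, `Ccw t u₂ s` (`q_LKC`). Cut
the circle at `s` (`q_CUT` with `s = exp σ`): `θ s = σ` is minimal, `θ a₁, θ u₁ ∈ (σ, θ t)`,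
`θ a₂, θ u₂ ∈ (θ t, σ + 2π)`. `a` and `u` are not linked, so `θ u₁ ≤ θ a₁` and `θ a₂ ≤ θ u₂` (case 1) or
`θ a₁ ≤ θ u₁` and `θ u₂ ≤ θ a₂` (case 2). Case 2 becomes case 1 if `s` and `t` are exchanged (and then `a₁`
with `a₂`, `u₁` with `u₂`). Case 1: the set `M` of the pairs of real numbers `(α, β)` with
`θ u₁ ≤ α ≤ θ a₁`, `θ a₂ ≤ β ≤ θ u₂` such that no `b ∈ B` is linked with `(exp α, exp β)` is compact (UNB 4,
`Circle.exp` is continuous) and contains `(θ u₁, θ u₂)`. Let `(α, β)` be a point of `M` at which `α - β` is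
maximal, `x = exp α`, `y = exp β`. `x ≠ y` (`α < θ t < β < σ + 2π`), so `(x, y) ∈ Un B`, and `Link x y s t`
(`q_ANG` or `q_LKC`). Claim `(x, y) ∈ Un (Un B)`: suppose `(z, w) ∈ Un B`, `Link z w x y`; choose the names such
that `α < θ z < β` and `w` is in the other arc (`θ w < α` or `β < θ w`; `z, w ≠ x, y`). By U4P `(z, y)` and
`(x, z)` are in `Un B` (UNB 3). If `θ z ≤ θ a₁` then `(θ z, β) ∈ M`, a contradiction to maximality. If
`θ a₂ ≤ θ z` then `(α, θ z) ∈ M`: a contradiction. Otherwise `θ a₁ < θ z < θ a₂`, and `θ w < α ≤ θ a₁` or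
`θ a₂ ≤ β < θ w`; so `Link a₁ a₂ z w` (`q_LKC`), a contradiction to `(z, w) ∈ Un B`. -/
def Stmt_SEP : Prop :=
  ∀ (B : Set (Circle × Circle)), (∀ x y, (x, y) ∈ B → (y, x) ∈ B) →
    ∀ (s t : Circle), ∀ a ∈ B, Link a.1 a.2 s t → ∀ u ∈ Un B, Link u.1 u.2 s t →
      ∃ l, l ∈ Un B ∧ l ∈ Un (Un B) ∧ Link l.1 l.2 s t

/-- SPK (120 lines; uses SEP): the same for sets. Proof. Suppose `Link u.1 u.2 s' t'`. `a` and `u` are not
linked (`u ∈ Un B`). Claim: there are `x ∈ {s, t}` and `y ∈ {s', t'}` such that both `a` and `u` separate `x`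
and `y`; then SEP gives a line `l` which separates `x, y ∈ K`: a contradiction. Proof of the claim: the ends
of `a` are in one closed side of `u`; let `y` be the one of `s'`, `t'` on the other open side `J` of `u`. `J` is
connected and does not contain the ends of `a`, so it is contained in one open side of `a`; let `x` be the
one of `s`, `t` on the other open side `I` of `a`. So `a` separates `x` and `y`. `I` is disjoint from `J` and
from the ends of `u` (which are in the closure of `J`, so not in the open set `I`), so `I` is in the other open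
side of `u`: `u` separates `x` and `y`. (With coordinates, `q_CUT` cut at `u.1`: `θ u.1 < θ u.2`, and the two
coordinates of `a` are both in `[θ u.1, θ u.2]` or both in `[θ u.2, θ u.1 + 2π]`.) -/
def Stmt_SPK : Prop :=
  ∀ (B : Set (Circle × Circle)) (K : Set Circle), (∀ x y, (x, y) ∈ B → (y, x) ∈ B) →
    (∀ x ∈ K, ∀ y ∈ K, ∀ l, l ∈ Un B → l ∈ Un (Un B) → ¬ Link l.1 l.2 x y) →
    ∀ a ∈ B, ∀ s ∈ K, ∀ t ∈ K, Link a.1 a.2 s t → ∀ u ∈ Un B, ∀ s' ∈ K, ∀ t' ∈ K,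
      ¬ Link u.1 u.2 s' t'

/-- LUL (100 lines; uses GEL SHB UNB): the lamination is unlinked and invariant. Proof. (1) UNB 3. (2)
definition of `Un`. (3) Let `l ∈ U m ∩ W m` and `l' ∈ U n ∩ W n`. If `m ≤ n` then `A n ⊆ A m` (SHB 1), so
`U m ⊆ U n` (UNB 1) and `l ∈ U n`, `l' ∈ W n = Un (U n)`: not `Link l l'`. If `n ≤ m` exchange `l` and `l'`
(`q_SYM`). (4) For `g = κ * f ^ k` (GEL 1): `g` maps `A n` into `A (n + k)` and `g⁻¹` maps `A (n + k)` into `A n`
(`g⁻¹ = κ' * f ^ (-k)`, SHB 5); so `g` maps `U n` into `U (n + k)`, `g⁻¹` maps `U (n + k)` into `U n`, and `g`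
maps `W n` into `W (n + k)` (UNB 5 twice). -/
def Stmt_LUL : Prop :=
  ∀ (Γ : Subgroup H) (f : H) (A : Set (Circle × Circle)), (∀ γ, γ ∈ Γ ↔ f * γ * f⁻¹ ∈ Γ) → Fam Γ f A →
    (∀ p q, (p, q) ∈ Lam f A → (q, p) ∈ Lam f A) ∧ (∀ p q, (p, q) ∈ Lam f A → p ≠ q) ∧
    (∀ x y z w, (x, y) ∈ Lam f A → (z, w) ∈ Lam f A → ¬ Link x y z w) ∧
    Keeps (Γ ⊔ Subgroup.zpowers f) (Lam f A)

/-- LF1 (200 lines; uses SHB UNB): local finiteness of one `Λ n = U n ∩ W n` (`B = A n`). Proof. Suppose that the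
set `S` of the `l ∈ Un B ∩ Un (Un B)` with `ε ≤ dist l.1 l.2` is infinite. By compactness it has an
accumulation point `(u, v)`: `ε ≤ dist u v`, each neighbourhood of `(u, v)` contains infinitely many `l ∈ S`.
Let `F` be the finite set of the `a ∈ B` with `ε / 2 ≤ dist a.1 a.2`. With `u = exp μ`, `v = exp ν`, choose
`δ > 0` so small that for `I = exp '' Ioo (μ - δ) (μ + δ)` and `J = exp '' Ioo (ν - δ) (ν + δ)`: `I` and `J` are
disjoint, `x ∈ I`, `y ∈ J` implies `ε / 2 ≤ dist x y`, and each `a ∈ F` with `a.1 ∈ I`, `a.2 ∈ J` is equal to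
`(u, v)` (for the finitely many other `a` make `δ` smaller such that `a.1 ∉ I` if `a.1 ≠ u`, and `a.2 ∉ J` if
`a.2 ≠ v`). So (*): `a ∈ B`, `a.1 ∈ I`, `a.2 ∈ J` implies `a = (u, v)`. Infinitely many `l ∈ S` are in `I × J`,
so infinitely many first or infinitely many second coordinates occur. `S` and `B` are symmetric, so we may
assume (exchange `u` and `v`) that there are infinitely many first coordinates; so there are three
`l_i = (x_i, y_i) ∈ S ∩ (I × J)`, `x_i = exp ξ_i`, `μ - δ < ξ₁ < ξ₂ < ξ₃ < μ + δ`, with `ξ₁ ≥ μ` or `ξ₃ ≤ μ`.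
Claim: `(x₁, x₃) ∈ Un B`. Let `a ∈ B` be linked with `(x₁, x₃)`, `a = (c, e)`, `c = exp γ`, `ξ₁ < γ < ξ₃`, `e`
outside of `exp '' Icc ξ₁ ξ₃` (`B` is symmetric). The lines `l₁`, `l₃` are not linked with each other (both
are in `Un B ∩ Un (Un B)`), so the cyclic order is `x₁, x₃, y₃, y₁` (`y₃ = y₁` is possible). `a` is not linked
with `l₁` and `l₃` (in `Un B`), so `e` is in the closed arc from `y₃` to `y₁`, which is contained in `J`
(`y₁, y₃ ∈ J`; the other arc contains `x₁`). So `a = (u, v)` by (*), `c = u`, `ξ₁ < μ < ξ₃`: a contradiction.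
So `(x₁, x₃) ∈ Un B`; but it is linked with `l₂ = (x₂, y₂)` (`ξ₁ < ξ₂ < ξ₃`, `y₂ ∈ J`), and
`l₂ ∈ Un (Un B)`: a contradiction. -/
def Stmt_LF1 : Prop :=
  ∀ B : Set (Circle × Circle), (∀ x y, (x, y) ∈ B → (y, x) ∈ B) → LocFin B →
    LocFin {l : Circle × Circle | l ∈ Un B ∧ l ∈ Un (Un B)}

/-- LFL (150 lines; uses SHB FLN UNB LF1): local finiteness of the lamination. Proof. Let `0 < ε`. For each
`(u, v)` with `ε ≤ dist u v` there is an axis `(p, q)` of `Γ` with `Link p q u v` (`Pool.CG.Stmt_LOP` for `u`, `v`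
gives open sets `U`, `V`; `Pool.CG.dns`), so `Link p q x y` for all `(x, y)` in an open neighbourhood of `(u, v)`
(`q_LNO` 1). By compactness of `{x | ε ≤ dist x.1 x.2}` finitely many axes `(p_i, q_i)` suffice. Let `N` be
larger than the `N` of FLN for these axes, and `M` smaller than the `M` of SHB 6. If
`l ∈ U n ∩ W n`, `ε ≤ dist l.1 l.2`, then `Link p_i q_i l.1 l.2` for some `i`. `n ≥ N` is impossible
(`(p_i, q_i) ∈ U n`, `l ∈ W n`); `n ≤ M` is impossible (`(p_i, q_i) ∈ A n`, `l ∈ U n`). So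
`{l ∈ Lam f A | ε ≤ dist l.1 l.2}` is contained in the union of the finite sets
`{l ∈ U n ∩ W n | ε ≤ dist l.1 l.2}` with `M < n < N` (LF1 for `B = A n`, SHB 2, 4). -/
def Stmt_LFL : Prop :=
  ∀ (Γ : Subgroup H) (f : H) (A : Set (Circle × Circle)), FirstKind Γ →
    (∀ γ, γ ∈ Γ ↔ f * γ * f⁻¹ ∈ Γ) → Fam Γ f A → LocFin (Lam f A)

/-- LNE (120 lines; uses SHB FLN SEP): the lamination is not empty. Proof. Let `b = (p, q)` be an axis
(`Pool.CG.dns`), `n` such that `b ∈ U n` (FLN). `A n` is not empty: `f ^ (n + k) b ∈ A n` for large `k`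
(`swallow`: `f ^ k b ∈ A`). Let `a ∈ A n`. `a` and `b` are not linked, so both ends of `b` are in
one closed arc between the ends of `a`; exchanging the ends of `a` and of `b` if necessary (SHB 2, `Un` is
symmetric) the cyclic order is `a₁, b₁, b₂, a₂` (`a₁ = b₁` and `b₂ = a₂` are possible): with `a₁ = exp 0'`
(coordinate cut at `a₁`) `θ a₁ ≤ θ b₁ < θ b₂ ≤ θ a₂`. Choose `t` with `θ b₁ < θ t < θ b₂` and `s` with
`θ a₂ < θ s < θ a₁ + 2π`. Then `Link a₁ a₂ s t` and `Link b₁ b₂ s t` (`q_LKC` / `q_ANG`). SEP for `B = A n`. -/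
def Stmt_LNE : Prop :=
  ∀ (Γ : Subgroup H) (f : H) (A : Set (Circle × Circle)), FirstKind Γ →
    (∀ γ, γ ∈ Γ ↔ f * γ * f⁻¹ ∈ Γ) → Fam Γ f A → (Lam f A).Nonempty

/-- LEV (120 lines; uses SHB FLN SPK): each region has a level. Proof. Uniqueness: if `Lev n`, `Lev m`, `n < m`,
the first part of `Lev m` contradicts the second part of `Lev n`. Existence: let `x ≠ y` be in `K`. There is
an axis `(p, q)` with `Link p q x y` (as in LFL). It is in `A n` for `n ≤ M` (SHB 6), so the set `S` of the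
integers `n` such that some `a ∈ A n` separates two points of `K` is not empty. For `n ≥ N` (FLN)
`(p, q) ∈ U n`: SPK for `B = A n` (its hypothesis: the lines of `U n ∩ W n` are in `Lam f A`, so they separate
no two points of `K`) with `u = (p, q)` shows `n ∉ S`. So `S` has a largest element (`Int.exists_greatest_of_bdd`
or so); it is the level. -/
def Stmt_LEV : Prop :=
  ∀ (Γ : Subgroup H) (f : H) (A : Set (Circle × Circle)), FirstKind Γ →
    (∀ γ, γ ∈ Γ ↔ f * γ * f⁻¹ ∈ Γ) → Fam Γ f A →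
    (∀ K, Reg (Lam f A) K → ∃ n, Lev f A K n) ∧ ∀ K n m, Lev f A K n → Lev f A K m → n = m

/-- TRS (100 lines): the image of an ideal triangulation. Proof. `(x, y) ∈ sh f n T` iff
`(f ^ (-n) x, f ^ (-n) y) ∈ T`. `Ori (f ^ n)`, `Ori (f ^ (-n))` (`q_MOR`, induction). `symm`, `ne`, `nonempty`
(`(f ^ n x, f ^ n y)`): clear. `unlinked`: `lhi`. `third`: apply `third` to the image under `f ^ (-n)` and map the
point back with `f ^ n`. `fin`: as SHB 4 (uniform continuity). -/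
def Stmt_TRS : Prop :=
  ∀ (f : H) (T : Set (Circle × Circle)), Ori f → Tri T → ∀ n : ℤ, Tri (sh f n T)

/-- TKP (150 lines; uses GEL SHB LEV TRS): the triangulations of the regions. Proof. If `Lev f A K n` then
`TK f A T₀ K = sh f n T₀` (uniqueness, LEV), so `Tri` by TRS. Let `g = κ * f ^ k` (GEL 1). (a)
`Lev f A K n` implies `Lev f A (g '' K) (n + k)`: `g` maps `A m` into `A (m + k)` and `g⁻¹ = κ' f ^ (-k)` maps
`A (m + k)` into `A m`, for all `m` (SHB 5); use `lhi`. (b) `(x, y) ∈ sh f n T₀` implies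
`(g x, g y) ∈ sh f (n + k) T₀`: `f ^ (-(n + k)) κ f ^ k = κ'' f ^ (-n)` with `κ'' ∈ Γ` (GEL 2), and `Γ` preserves
`T₀`. -/
def Stmt_TKP : Prop :=
  ∀ (Γ : Subgroup H) (f : H) (A T₀ : Set (Circle × Circle)), FirstKind Γ →
    (∀ γ, γ ∈ Γ ↔ f * γ * f⁻¹ ∈ Γ) → Fam Γ f A → Ori f → Tri T₀ → Keeps Γ T₀ →
    (∀ K, Reg (Lam f A) K → Tri (TK f A T₀ K)) ∧
    ∀ g ∈ Γ ⊔ Subgroup.zpowers f, ∀ K, Reg (Lam f A) K → ∀ x y, (x, y) ∈ TK f A T₀ K →
      (g x, g y) ∈ TK f A T₀ ((g : H) '' K)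

/-- LMN (60 lines; uses GEL LUL LFL LNE TKP): the lamination. Proof. `conv`: hypothesis; `ori`: `q_MOR` (3);
`tf`: GEL 3; the other fields: LUL, LFL, LNE, TKP. -/
def Stmt_LMN : Prop :=
  ∀ (Γ : Subgroup H) (f : H) (A T₀ : Set (Circle × Circle)), FirstKind Γ →
    (∀ γ ∈ Γ, ∀ n : ℕ, 0 < n → γ ^ n = 1 → γ = 1) → Tri T₀ → Keeps Γ T₀ → Ori f →
    (∀ γ, γ ∈ Γ ↔ f * γ * f⁻¹ ∈ Γ) → (∀ n : ℕ, 0 < n → f ^ n ∉ Γ) →
    Conv (Γ ⊔ Subgroup.zpowers f) → Fam Γ f A →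
    Lamn (Γ ⊔ Subgroup.zpowers f) (Lam f A) (TK f A T₀)

end Pool.SH
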