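import Pool.Agent.Work.MP_ae1ff6_sh.Defs

/-!
# Realization of big mapping classes (MP_ae1ff6_gt): interface, part 2, regions (helper57)

Block `X`: file `Pool/Agent/Work/MP_ae1ff6_sh/B_X.lean`,
`import Pool.Agent.Work.MP_ae1ff6_sh.InterfaceR`, `namespace Pool.SH`, the `open` lines of this file,
`theorem p_X (h1 : Stmt_Y) .. : Stmt_X` with exactly the blocks of the column `uses`, in this order, as
hypotheses; auxiliary lemmas with the prefix `X_`.

Proved facts (not hypotheses), statements in `Pool/Agent/Work/MP_ae1ff6_ar/Interface.lean`: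
`Pool.AR.q_CUT` (coordinate `θ` on the circle cut at `exp s`), `q_CYO` (cyclic order), `q_LKC` (`Link` in
terms of `Ccw`), `q_ANG` (real coordinates), `q_MOR`, the lemma `Pool.AR.NST_eps`; in
`Pool/Agent/Work/MP_ae1ff6_gc/Interface.lean`: `Pool.GC.q_SYM` (`Link a b c d` implies `Link c d a b`,
`Link b a c d`, `Link a b d c`), `Pool.GC.q_TWO` (two sides), `Pool.GC.q_LNO` (1) (`Link` is open),
`Pool.GC.lhi` (`Link a b c d` implies `Link (g a) (g b) (g c) (g d)`).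
`Link a b c d`: the points `a`, `b` separate `c`, `d` (all different). `Ccw a b c`: different points in
counterclockwise order. `Arc a b`: the closed arc from `a` to `b` (`DefsG.lean`).

Picture: `Λ` is a locally finite set of lines which do not cross; `K` is the set of the ideal points of a
component of the complement of the lines. The block RNT proves that these regions form `Pieces`.
-/

open Topology Filter Set
open scoped ComplexConjugate

set_option autoImplicit false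

namespace Pool.SH

open Pool.CG Pool.AR

/-- `Λ` is a locally finite symmetric set of lines which do not cross -/
structure Lmt (Λ : Set (Circle × Circle)) : Prop where
  symm : ∀ p q, (p, q) ∈ Λ → (q, p) ∈ Λ
  ne : ∀ p q, (p, q) ∈ Λ → p ≠ q
  unlinked : ∀ x y z w, (x, y) ∈ Λ → (z, w) ∈ Λ → ¬ Link x y z w
  fin : LocFin Λ

/-- RCV (80 lines): if an arc is covered by open arcs which are cut off by lines of `Λ`, then it is one of
them. Proof. Let `(a, b) ∈ M` cover the midpoint of `(s, t)`. The set `N` of the `m ∈ M` with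
`m.1 ≤ a`, `b ≤ m.2` contains `(a, b)` and is finite: `NST_eps s t a b` gives a lower bound `ε` for
`dist (exp m.1) (exp m.2)`, `LocFin Λ`, and `m ↦ (exp m.1, exp m.2)` is injective on `N` (all numbers are in
`[s, t]`, `t < s + 2π`; copy `hPf` in the file `MP_ae1ff6_ar/B_NST.lean`). Let `m ∈ N` have maximal
`m.2 - m.1`. Suppose `s < m.1`. Then `m.1 < t`, so there is `m' ∈ M` with `m'.1 < m.1 < m'.2`. If
`m'.2 < m.2`, then `m'.1 < m.1 < m'.2 < m.2 < m'.1 + 2π` and `q_ANG` (4) gives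
`Link (exp m'.1) (exp m'.2) (exp m.1) (exp m.2)`, against `hu`. So `m.2 ≤ m'.2`, `m' ∈ N` and
`m'.2 - m'.1 > m.2 - m.1`: a contradiction. In the same way `m.2 = t` (if `m.2 < t`, an `m' ∈ M` with
`m'.1 < m.2 < m'.2` has `m'.1 ≤ m.1`: otherwise `Link (exp m.1) (exp m.2) (exp m'.1) (exp m'.2)`). So
`m = (s, t)`. -/
def Stmt_RCV : Prop :=
  ∀ (Λ : Set (Circle × Circle)) (M : Set (ℝ × ℝ)) (s t : ℝ), LocFin Λ →
    (∀ x y z w, (x, y) ∈ Λ → (z, w) ∈ Λ → ¬ Link x y z w) → s < t → t < s + 2 * Real.pi →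
    (∀ m ∈ M, s ≤ m.1 ∧ m.1 < m.2 ∧ m.2 ≤ t ∧ (Circle.exp m.1, Circle.exp m.2) ∈ Λ) →
    (∀ x, s < x → x < t → ∃ m ∈ M, m.1 < x ∧ x < m.2) → (s, t) ∈ M

/-- RCH (80 lines): one of the two arcs of a line has no longer chords than the line. Proof. If `a = b` then
`x = y = a` (`Ccw a x a` is impossible by `q_CYO`), so the minimum is `0`. Otherwise (`q_ANG` 3) `a = exp s`,
`b = exp t`, `s < t < s + 2π`, and `dist a b = 2 sin ((t - s) / 2)`. If `t - s ≤ π`: `x = exp u`,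
`y = exp v` with `u, v ∈ [s, t]` (`q_ANG` 2, or `x = a`, `x = b`), so
`dist x y = 2 |sin ((u - v) / 2)| ≤ 2 sin ((t - s) / 2)` (`|u - v| / 2 ≤ (t - s) / 2 ≤ π / 2`). If
`π ≤ t - s`: `x' = exp u`, `y' = exp v` with `u, v ∈ [t, s + 2π]` (`q_ANG` 2 for `t < s + 2π < t + 2π` and
`exp (s + 2π) = a`: `Pool.AR.ANG_per`), and `dist x' y' ≤ 2 sin ((s + 2π - t) / 2) = dist a b`. -/
def Stmt_RCH : Prop :=
  ∀ a b x y x' y' : Circle, x ∈ Arc a b → y ∈ Arc a b → x' ∈ Arc b a → y' ∈ Arc b a →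
    min (dist x y) (dist x' y') ≤ dist a b

/-- RAR (80 lines): lines and sets. Proofs. (1) If `z = p` or `z = q` both sides are true (`q_CYO` 2: the
points of `Ccw` are different). Otherwise `Ccw p z q` or `Ccw p q z` (`q_CYO` 3), the latter is equivalent to
`Ccw q z p` (rotation), and they exclude each other (`q_CYO` 2). (2) Otherwise there are `a, b ∈ K` with
`a ∉ Arc p q`, `b ∉ Arc q p`; by (1) `Ccw q a p` and `Ccw p b q`, so `Link p q b a` (`q_LKC`). (3) By `q_LKC`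
`Link p q x y` implies `Ccw q y p` or `Ccw q x p`, and `p ≠ q` (`q_CYO` 2), against (1) for `y`, `x`. (4) `q_TWO` for `a, b, c, d, r`: if neither `Link a b c r` nor `Link a b d r` then
`Link a b c r ↔ Link a b d r`, so not `Link a b c d`. -/
def Stmt_RAR : Prop :=
  (∀ p q z : Circle, p ≠ q → (z ∈ Arc p q ↔ ¬ Ccw q z p)) ∧
  (∀ (K : Set Circle) (p q : Circle), p ≠ q → (∀ a ∈ K, ∀ b ∈ K, ¬ Link p q a b) →
    K ⊆ Arc p q ∨ K ⊆ Arc q p) ∧
  (∀ p q x y : Circle, x ∈ Arc p q → y ∈ Arc p q → ¬ Link p q x y) ∧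
  ∀ a b c d r : Circle, Link a b c d → r ≠ a → r ≠ b → Link a b c r ∨ Link a b d r

/-- RGP (100 lines): the gap around a point outside of a closed set. Proof. Let `z = exp ζ`. The set
`C = {t | ζ ≤ t ∧ t ≤ ζ + 2π ∧ exp t ∈ K}` is compact (closed in `[ζ, ζ + 2π]`, `exp` is continuous) and
contains coordinates of `x` and `y` (`q_CUT` for `ζ`). Let `t₀` be its minimum and `t₁` its maximum.
`ζ < t₀`, `t₁ < ζ + 2π` as `exp ζ = exp (ζ + 2π) = z ∉ K`, and `t₀ < t₁` as `x ≠ y`. Let `q = exp t₀`,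
`p = exp t₁ = exp (t₁ - 2π)`. `p ≠ q` and `Ccw p z q`: `q_ANG` (1) for `t₁ - 2π < ζ < t₀`. If `k ∈ K`,
`Ccw p k q`, then by `q_ANG` (2) `k = exp r`, `t₁ - 2π < r < t₀`. If `ζ ≤ r` then `r ∈ C`, `r < t₀`; if
`r < ζ` then `r + 2π ∈ C`, `t₁ < r + 2π`: a contradiction in both cases. -/
def Stmt_RGP : Prop :=
  ∀ K : Set Circle, IsClosed K → ∀ x ∈ K, ∀ y ∈ K, x ≠ y → ∀ z, z ∉ K →
    ∃ p q, Gap K p q ∧ Ccw p z q

/-- RCL (40 lines): regions are closed. Proof. Let `z ∉ K`. There are `x ∈ K` and `l ∈ Λ` with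
`Link l.1 l.2 z x` (third condition of `Reg`). The set `{z' | Link l.1 l.2 z' x}` is open (`q_LNO` 1,
preimage under the continuous map `z' ↦ ((l.1, l.2), (z', x))`), contains `z` and no point of `K` (second
condition of `Reg`). -/
def Stmt_RCL : Prop :=
  ∀ (Λ : Set (Circle × Circle)) (K : Set Circle), Reg Λ K → IsClosed K

/-- RGA (120 lines; uses RCV RAR): the sides of a region are lines of `Λ`. Proof. `p = exp s`, `q = exp t`,
`s < t < s + 2π` (`q_ANG` 3). Let `M` be the set of the pairs `(a, b)` with `s ≤ a < b ≤ t`,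
`(exp a, exp b) ∈ Λ`. By RCV it is enough that each `x ∈ (s, t)` is covered. Let `z = exp x`: `Ccw p z q`
(`q_ANG` 1), so `z ∉ K` (`Gap`), and `Reg` gives `y ∈ K`, `l ∈ Λ` with `Link l.1 l.2 z y`. By `q_LKC`, and
replacing `l` by `(l.2, l.1)` if necessary (`Lmt.symm`), `Ccw l.1 z l.2` and `Ccw l.2 y l.1`. No `k ∈ K`
satisfies `Ccw l.1 k l.2` (otherwise `Link l.1 l.2 k y`, against the second condition of `Reg`); this
holds for `k = p` and `k = q`. Let `θ` be from `q_CUT` for `s`: `θ p = s` is the minimum, `θ q = t`,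
`θ z = x`; `a = θ l.1`, `b = θ l.2`. Not `Ccw l.1 p l.2`: so not `s < b < a`. Not `Ccw l.1 q l.2`: so
neither `a < t < b` nor `b < a < t`. `Ccw l.1 z l.2`: `a < x < b` or `x < b < a` or `b < a < x`. The second
case is excluded (`s < x < b < a`), the third too (`b < a < x < t`). So `a < x < b`, and `b ≤ t`. So
`(a, b) ∈ M` (`exp (θ l.1) = l.1`). -/
def Stmt_RGA : Prop :=
  ∀ (Λ : Set (Circle × Circle)) (K : Set Circle), Lmt Λ → Reg Λ K → ∀ p q, Gap K p q → (p, q) ∈ Λ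

/-- RS1 (120 lines; uses RCV): the third point of the region on the right side of a line. Proof.
`p = exp s`, `q = exp t`, `s < t < s + 2π` (`q_ANG` 3). Let `M` be the set of the pairs `(a, b) ≠ (s, t)`
with `s ≤ a < b ≤ t`, `(exp a, exp b) ∈ Λ`. As `(s, t) ∉ M`, RCV gives `x ∈ (s, t)` which is in no `(a, b)`,
`(a, b) ∈ M`. Let `z = exp x`: `Ccw p z q`. Let `l ∈ Λ` and suppose `Link l.1 l.2 z p` or `Link l.1 l.2 z q`.
Let `θ` be from `q_CUT` for `s` (`θ p = s` minimal, `θ z = x`, `θ q = t`), `a = θ l.1`, `b = θ l.2`; by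
`Lmt.symm` and `q_LKC` we may assume `Ccw l.1 z l.2`, and `Ccw l.2 p l.1` or `Ccw l.2 q l.1`. First case:
`Ccw l.2 p l.1` says `s < a < b`, so `a < x < b`. If `b ≤ t` then `(a, b) ∈ M` covers `x`. If `t < b` then
`s < a < t < b < s + 2π` and `Link p q l.1 l.2` (`q_ANG` 4), against `Lmt.unlinked`. Second case:
`Ccw l.2 q l.1` says `b < t < a` or `t < a < b` or `a < b < t`; `Ccw l.1 z l.2` says `a < x < b` or
`x < b < a` or `b < a < x`. If `b < t < a`: then `x < b`, so `s < b < t < a < s + 2π` and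
`Link p q l.2 l.1`. If `t < a < b`: impossible. If `a < b < t`: then `a < x < b` and `(a, b) ∈ M` covers
`x`. -/
def Stmt_RS1 : Prop :=
  ∀ Λ : Set (Circle × Circle), Lmt Λ → ∀ p q, (p, q) ∈ Λ →
    ∃ z, Ccw p z q ∧ ∀ l ∈ Λ, ¬ Link l.1 l.2 z p ∧ ¬ Link l.1 l.2 z q

/-- RSD (100 lines; uses RAR RS1): the region on the right side of a line. Proof. Let
`K = {x | x ∈ Arc p q ∧ ∀ l ∈ Λ, ¬ Link l.1 l.2 x p ∧ ¬ Link l.1 l.2 x q}`. `p ∈ K`: `Link l.1 l.2 p p` is
false (the connected set `{p}`; or `q_LKC`, `q_CYO`), and `Link l.1 l.2 p q` would imply `Link p q l.1 l.2`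
(`q_SYM`), against `Lmt.unlinked`; the same for `q`. `z ∈ K` for the point `z` of RS1 (`Ccw p z q`): the
first condition of `Reg` for `p, z, q`. Second condition: let `x, y ∈ K`, `l ∈ Λ`, `Link l.1 l.2 x y`. If
`p ≠ l.1` and `p ≠ l.2` then RAR (4) gives `Link l.1 l.2 x p` or `Link l.1 l.2 y p`: excluded. So
`p ∈ {l.1, l.2}`, in the same way `q ∈ {l.1, l.2}`, so `l = (p, q)` or `l = (q, p)`, and
`Link p q x y` (`q_SYM`), against RAR (3). Third condition: let `x ∉ K`. If `x ∈ Arc p q` there is `l ∈ Λ`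
with `Link l.1 l.2 x p` or `Link l.1 l.2 x q`, and `p, q ∈ K`. If `x ∉ Arc p q` then `Ccw q x p` (RAR 1)
and `Link p q x z` (`q_LKC`: `Ccw p z q`), `z ∈ K`. -/
def Stmt_RSD : Prop :=
  ∀ Λ : Set (Circle × Circle), Lmt Λ → ∀ p q, (p, q) ∈ Λ →
    ∃ K, Reg Λ K ∧ p ∈ K ∧ q ∈ K ∧ K ⊆ Arc p q

/-- RSP (80 lines; uses RAR RGP RCL RGA): different regions are separated by a side. Proof. There is
`z ∈ K'`, `z ∉ K`: otherwise `K' ⊆ K`, and for `w ∈ K`, `w ∉ K'` (`K ≠ K'`) `Reg Λ K'` gives `x ∈ K'`, `l ∈ Λ`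
with `Link l.1 l.2 w x`, against `Reg Λ K` (`w, x ∈ K`). RCL and RGP (`K` has two different points) give
`p', q'` with `Gap K p' q'` and `Ccw p' z q'`; `(p', q') ∈ Λ` by RGA. Let `p = q'`, `q = p'`:
`(p, q) ∈ Λ` (`Lmt.symm`), `p, q ∈ K`. `K ⊆ Arc p q`: by RAR (1) and `Gap` (no `k ∈ K` with `Ccw q k p`).
`K' ⊆ Arc q p`: RAR (2) for `K'` (second condition of `Reg`) and `z ∉ Arc p q` (RAR 1: `Ccw q z p`). -/
def Stmt_RSP : Prop :=
  ∀ (Λ : Set (Circle × Circle)) (K K' : Set Circle), Lmt Λ → Reg Λ K → Reg Λ K' → K ≠ K' →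
    ∃ p q, (p, q) ∈ Λ ∧ p ∈ K ∧ q ∈ K ∧ K ⊆ Arc p q ∧ K' ⊆ Arc q p

/-- RFN (30 lines; uses RCH): finitely many lines separate two sets. Proof. RCH: all these lines `a` satisfy
`min (dist x y) (dist x' y') ≤ dist a.1 a.2`, and the minimum is positive. -/
def Stmt_RFN : Prop :=
  ∀ (Λ : Set (Circle × Circle)) (K K' : Set Circle), LocFin Λ → (∃ x ∈ K, ∃ y ∈ K, x ≠ y) →
    (∃ x ∈ K', ∃ y ∈ K', x ≠ y) →
    {a : Circle × Circle | a ∈ Λ ∧ K ⊆ Arc a.1 a.2 ∧ K' ⊆ Arc a.2 a.1}.Finite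

/-- REQ (50 lines): the images of regions are regions. Proof. `Ori g` for the first condition. Second
condition: if `Link l.1 l.2 (g a) (g b)` then (`Pool.GC.lhi` for `g⁻¹`) `Link (g⁻¹ l.1) (g⁻¹ l.2) a b`, and
`(g⁻¹ l.1, g⁻¹ l.2) ∈ Λ` (`Keeps G Λ`, `g⁻¹ ∈ G`). Third condition: `z ∉ g '' K` means `g⁻¹ z ∉ K`;
`Reg Λ K` gives `x ∈ K`, `l ∈ Λ` with `Link l.1 l.2 (g⁻¹ z) x`, so `Link (g l.1) (g l.2) z (g x)`. -/
def Stmt_REQ : Prop :=
  ∀ (G : Subgroup H) (Λ : Set (Circle × Circle)) (K : Set Circle), Keeps G Λ → Reg Λ K →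
    ∀ g ∈ G, Ori g → Reg Λ ((g : H) '' K)

/-- RNT (80 lines; uses RAR RCL RGA RSD RSP RFN REQ): the net of a lamination. Proof. `Lmt Λ` from the
fields of `Lamn`. `Pieces.unl`: RAR (2) and the second condition of `Reg` (`Pieces.ne`). `side`: RSD.
`sep`: RSP. `fin`: RFN (the points of a `Ccw` triple are different, `q_CYO`). `nonempty`: RSD for an
element of `Λ`. `closed`: RCL. `gap`: RGA. `keepK`: REQ. The other fields are fields of `Lamn`. -/
def Stmt_RNT : Prop :=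
  ∀ (G : Subgroup H) (Λ : Set (Circle × Circle)) (T : Set Circle → Set (Circle × Circle)),
    Lamn G Λ T → Net G Λ {K | Reg Λ K} T

end Pool.SH
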