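import Pool.Agent.Work.MP_ae1ff6_sh.Defs
import Pool.Agent.Work.MP_ae1ff6_sh.InterfaceG

/-!
# Realization of big mapping classes (MP_ae1ff6_gt): interface, part L3 (helper80)

The triangulation of one region: `K` is a closed set with at least three points, `T` an ideal triangulation
of the disc, `Ret K` the retraction of the circle to `K` (last point of `K` at or before `u`).

Block `X`: file `Pool/Agent/Work/MP_ae1ff6_sh/B_X.lean`,
`import Pool.Agent.Work.MP_ae1ff6_sh.InterfaceT`, `namespace Pool.SH`, the `open` lines of this file,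
`theorem p_X (h1 : Stmt_Y) .. : Stmt_X` with exactly the blocks of the column `uses`, in this order, as
hypotheses (the statements of ARL, ARX are in `InterfaceG.lean`); auxiliary lemmas with the prefix `X_`.

Proved facts (not hypotheses), statements in `Pool/Agent/Work/MP_ae1ff6_ar/Interface.lean`:
`Pool.AR.q_CUT`, `q_CYO` (cyclic order), `q_LKC` (`Link` in terms of `Ccw`), `q_ANG` (real coordinates),
`q_NST` (nested edges), `q_MOR`. Definitions `Ret TE TT TL Gap Vt Nx Sn`: `Defs.lean`. For `u ∈ K` the only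
`w` with `Ret K u w` is `w = u`. `TE`: image edges, `TT`: image triangles (as sets of three points), `TL`:
image edges which have points of `K` on both sides.
-/

open Topology Filter Set
open scoped ComplexConjugate

set_option autoImplicit false

namespace Pool.SH

open Pool.CG Pool.AR

/-- `K` is closed and has at least three points -/
def Big (K : Set Circle) : Prop := IsClosed K ∧ ∃ a ∈ K, ∃ b ∈ K, ∃ c ∈ K, Ccw a b c

/-- RTX (150 lines): the retraction. Proofs. (1) If `u ∈ K` take `w = u`. Otherwise `u = exp s`, the set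
`{t ∈ [s - 2π, s] | exp t ∈ K}` is compact and not empty; let `t` be its maximum and `w = exp t`,
`s - 2π < t < s`. Let `x ∈ K`, `x ≠ w`. `x ≠ u` since `u ∉ K`, and `Ccw w x u` would give `x = exp r` with
`t < r < s` (`q_ANG` 2). (2) Let `w ≠ w'`. By definition `w' ≠ u`, `¬ Ccw w w' u` and `w ≠ u`,
`¬ Ccw w' w u`; but by `q_CYO` (3) `Ccw w w' u` or `Ccw w u w'`, and the second is `Ccw w' w u`. (3) Clear
(`Ccw u x u` is false). (4) With `s`, `t` as in (1) (by (2) `w = exp t`) let `t'` be the minimum of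
`{t ∈ [s, s + 2π] | exp t ∈ K}` and `q = exp t'`. `K` has a point `x ≠ w`, `x = exp r`, `r ∈ (s, s + 2π)`,
`t' ≤ r < t + 2π`: so `t' < t + 2π` and `q ≠ w`. `Ccw w u q` (`q_ANG` 1 for `t < s < t' < t + 2π`). If
`k ∈ K` and `Ccw w k q` then `k = exp r`, `t < r < t'` (`q_ANG` 2), `r ≠ s`: a contradiction to the choice
of `t` or `t'`. (5) Let `x ∈ K`, `x ≠ p`. `x = u` would give `Ccw p x q`; `Ccw p x u` and `Ccw p u q` give
`Ccw p x q` (`q_CYO` 4). -/
def Stmt_RTX : Prop :=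
  (∀ K : Set Circle, Big K → ∀ u, ∃ w, Ret K u w) ∧
  (∀ (K : Set Circle) (u w w' : Circle), Ret K u w → Ret K u w' → w = w') ∧
  (∀ (K : Set Circle), ∀ u ∈ K, Ret K u u) ∧
  (∀ K : Set Circle, Big K → ∀ u w, Ret K u w → u ∉ K → ∃ q, Gap K w q ∧ Ccw w u q) ∧
  ∀ (K : Set Circle) (p q u : Circle), Gap K p q → Ccw p u q → Ret K u p

/-- RTM (150 lines; uses ARL): the retraction is monotone. Proofs. (1) ARL for the point `x`: `θ x` is
the minimum and `θ y < θ z`. (i) If `a ≠ x` then `a` is the maximum of `θ` on `K`: for `k ∈ K`, `k ≠ a`: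
`k ≠ x`, `¬ Ccw a k x`, and `θ a < θ k` would give `Ccw a k x` (`θ x < θ a < θ k`). (ii) `θ b ≤ θ y`:
otherwise `θ y < θ b`; as `a ∈ K`, `a ≠ b`: `¬ Ccw b a y`. But if `a = x` then `θ a < θ y < θ b`, and if
`a ≠ x` then `θ y < θ b < θ a`; in both cases `Ccw b a y`. In the same way `θ c ≤ θ z`. (iii)
`θ b < θ c`: otherwise `θ c < θ b ≤ θ y < θ z`, so `Ccw c b z`, but `b ∈ K`, `b ≠ c` excludes this. So
`θ a < θ b < θ c` (if `a = x`) or `θ b < θ c < θ a`. (2) If `z = x` or `z = y` then `c = a` or `c = b`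
(uniqueness as in RTX 2, two lines). Otherwise `Ccw x z y`; if `c ≠ a, b` then `Ccw a c b` by (1). -/
def Stmt_RTM : Prop :=
  (∀ (K : Set Circle) (x y z a b c : Circle), Ret K x a → Ret K y b → Ret K z c → a ≠ b → b ≠ c →
    a ≠ c → Ccw x y z → Ccw a b c) ∧
  ∀ (K : Set Circle) (x y z a b c : Circle), Ret K x a → Ret K y b → Ret K z c → a ≠ b →
    z ∈ Arc x y → c ∈ Arc a b

/-- RTE (120 lines): equivariance. `g` maps `T` to `T'` and preserves the orientation (also `g⁻¹`: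
`q_MOR`). Everything follows from `Ccw a b c ↔ Ccw (g a) (g b) (g c)` and `x ∈ K ↔ g x ∈ g '' K`, by
unfolding the definitions; for `TT` use `g '' {a, b, c} = {g a, g b, g c}`. -/
def Stmt_RTE : Prop :=
  ∀ (K : Set Circle) (T T' : Set (Circle × Circle)) (g : H), Ori g →
    (∀ x y, (x, y) ∈ T ↔ (g x, g y) ∈ T') →
    (Big K → Big ((g : H) '' K)) ∧
    (∀ u w, Ret K u w ↔ Ret ((g : H) '' K) (g u) (g w)) ∧
    (∀ p q, Gap K p q ↔ Gap ((g : H) '' K) (g p) (g q)) ∧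
    (∀ p q, (p, q) ∈ TE K T ↔ (g p, g q) ∈ TE ((g : H) '' K) T') ∧
    (∀ p q, (p, q) ∈ TL K T ↔ (g p, g q) ∈ TL ((g : H) '' K) T') ∧
    (∀ P : Set Circle, P ∈ TT K T ↔ (g : H) '' P ∈ TT ((g : H) '' K) T') ∧
    (∀ x, x ∈ Vt K T ↔ g x ∈ Vt ((g : H) '' K) T') ∧
    ∀ p b c, Nx K T p b c ↔ Nx ((g : H) '' K) T' (g p) (g b) (g c)

/-- TSD (120 lines; uses ARX): sides of triangles. Proofs. (1) If the claim is false then one of `a, b, c`
is not in `Arc x y` and one is not in `Arc y x`, that is (ARX 1, 2) one is strictly in the open arc from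
`y` to `x` and one strictly in the open arc from `x` to `y`; these two are different and joined by an
edge which links `(x, y)` (`q_LKC`): a contradiction to `Tri.unlinked`. (2) (1) for the triangle
`d, e, f` and the edges `(a, b)`, `(b, c)`, `(c, a)`: if the claim is false then `d, e, f` are in
`Arc b a ∩ Arc c b ∩ Arc a c`. This intersection is `{a, b, c}`: a point `z ≠ a, b, c` satisfies
`Ccw a z b`, `Ccw b z c` or `Ccw c z a` (`q_CYO` 3, 4, or `q_CUT`), so it is not in `Arc b a`, `Arc c b`,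
or `Arc a c`. So `{d, e, f} ⊆ {a, b, c}`, both have three elements: equal. -/
def Stmt_TSD : Prop :=
  ∀ T : Set (Circle × Circle), Tri T → ∀ a b c : Circle, Ccw a b c → (a, b) ∈ T → (b, c) ∈ T →
    (c, a) ∈ T →
    (∀ x y, (x, y) ∈ T → (a ∈ Arc x y ∧ b ∈ Arc x y ∧ c ∈ Arc x y) ∨
      (a ∈ Arc y x ∧ b ∈ Arc y x ∧ c ∈ Arc y x)) ∧
    ∀ d e f : Circle, Ccw d e f → (d, e) ∈ T → (e, f) ∈ T → (f, d) ∈ T →
      ({d, e, f} : Set Circle) ≠ {a, b, c} →
      (d ∈ Arc a b ∧ e ∈ Arc a b ∧ f ∈ Arc a b) ∨ (d ∈ Arc b c ∧ e ∈ Arc b c ∧ f ∈ Arc b c) ∨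
      (d ∈ Arc c a ∧ e ∈ Arc c a ∧ f ∈ Arc c a)

/-- FNP (120 lines): only finitely many edges separate two pairs. Proof. First the minor arc: for
`x ≠ y`, all points `z` of `Arc x y` satisfy `dist z x ≤ dist x y`, or all points of `Arc y x` do. (Let
`x = exp s`, `y = exp t`, `s < t < s + 2π` (`q_ANG` 3); the points of `Arc x y` are `exp r`, `s ≤ r ≤ t`,
`dist (exp r) (exp s) = 2 sin ((r - s) / 2)`. If `t - s ≤ π` then this is at most
`2 sin ((t - s) / 2)`. If `π ≤ t - s`, the points of `Arc y x` are `exp r`, `t ≤ r ≤ s + 2π`, and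
`dist (exp r) (exp (s + 2π)) = 2 sin ((s + 2π - r) / 2) ≤ 2 sin ((s + 2π - t) / 2)`.) So if
`a, b ∈ Arc x y` and `d, e ∈ Arc y x` then `dist a b ≤ 2 dist x y` or `dist d e ≤ 2 dist x y`; the set is
contained in the set of the edges of size at least `min (dist a b) (dist d e) / 2 > 0`. -/
def Stmt_FNP : Prop :=
  ∀ T : Set (Circle × Circle), LocFin T → (∀ x y, (x, y) ∈ T → x ≠ y) → ∀ a b d e : Circle,
    a ≠ b → d ≠ e →
    {l : Circle × Circle | l ∈ T ∧ a ∈ Arc l.1 l.2 ∧ b ∈ Arc l.1 l.2 ∧ d ∈ Arc l.2 l.1 ∧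
      e ∈ Arc l.2 l.1}.Finite

/-- SID (200 lines; uses ARL RTX RTM FNP): the triangle on a side of an image edge. Proof. Let `k ∈ K`,
`Ccw p k q`, `(x₀, y₀) ∈ T`, `Ret K x₀ p`, `Ret K y₀ q`. ARL for the point `k`: `θ k` is the minimum,
`θ q < θ p` (`Ccw p k q`), and for `w, w' ≠ k`: `Ccw w k w' ↔ θ w' < θ w`. (A) Let `Ret K x p`,
`Ret K y q`. Then `θ q ≤ θ y < θ p ≤ θ x` and `x, y ≠ k`: since `k ∈ K`, `k ≠ p, q` we have
`k ≠ x`, `¬ Ccw p k x`, so `θ p ≤ θ x`, and `k ≠ y`, `¬ Ccw q k y`, so `θ q ≤ θ y`; since `p ∈ K`,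
`p ≠ q`: `p ≠ y`, `¬ Ccw q p y`, and `θ p < θ y` would give `θ q < θ p < θ y`, so `θ y < θ p`. (B) Let
`E = {(x, y) ∈ T | Ret K x p, Ret K y q, θ x₀ ≤ θ x, θ y ≤ θ y₀}`. For `(x, y) ∈ E`: `Ccw x k y`, and
`q ∈ Arc x y` (`θ q ≤ θ y`; ARL last part for `θ y < θ x`), `x₀, y₀ ∈ Arc y x`
(`θ y ≤ θ y₀ < θ x₀ ≤ θ x`). So `E` is finite by FNP for `k, q` and `x₀, y₀` (`Tri.fin`, `Tri.ne`). It
contains `(x₀, y₀)`; let `(x, y) ∈ E` be an element with maximal `θ x - θ y`. (C) `Tri.third`: `z` with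
`Ccw x z y`, `(x, z), (z, y) ∈ T`; so `z = k` or `θ x < θ z` or `θ z < θ y`. RTX 1: `Ret K z v`. If `v = p`:
by (A) `θ p ≤ θ z`, so `θ x < θ z`, and `(z, y) ∈ E` contradicts the choice. If `v = q`: by (A)
`θ q ≤ θ z < θ p`, so `θ z < θ y` (`z ≠ k` by (A)), and `(x, z) ∈ E` contradicts the choice. So
`v ≠ p, q`, `Ccw p v q` by RTM, and `{p, v, q} ∈ TT K T` (the triangle `x, z, y`; `(y, x) ∈ T` by
symmetry). -/
def Stmt_SID : Prop :=
  ∀ (K : Set Circle) (T : Set (Circle × Circle)), Big K → Tri T → ∀ p q : Circle,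
    (p, q) ∈ TE K T → (∃ k ∈ K, Ccw p k q) → ∃ v, Nx K T p q v

/-- TEU (120 lines; uses RTM): image edges. Proofs. (1) `Tri.symm`. (2) by definition (`T` is
symmetric); `a ∈ K` since `Ret K x a` includes it. (3) Let `(a, b)`, `(c, d)` be the images of
`(x, y)`, `(z, w) ∈ T` and suppose `Link a b c d`. By `q_LKC` (exchange `(z, c)` and `(w, d)` if
necessary) `Ccw a c b` and `Ccw b d a`. `z ∈ Arc y x` would give `c ∈ Arc b a` (RTM 2), impossible; so
`Ccw x z y` (`z ∉ Arc y x`: then `z ≠ x, y` and `q_CYO` 3). In the same way `Ccw y w x`. So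
`Link x y z w` by `q_LKC`: a contradiction to `Tri.unlinked`. (4) If `c ≠ c'`: `c, c'` are in the open arc
from `p` to `b`; say `Ccw p c c'` (the other case is the same). Then `(p, c')` and `(c, b)` are image edges
by (2) and `Link p c' c b` (`q_LKC`: `Ccw p c c'`, `Ccw c' b p`): a contradiction to (3). (5)
`{p, b, v} = {p, v, b}`, so `Nx K T p b v` and `v = c` by (4); `{p, b, w} = {b, w, p}`. -/
def Stmt_TEU : Prop :=
  ∀ (K : Set Circle) (T : Set (Circle × Circle)), Tri T →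
    (∀ p q, (p, q) ∈ TE K T → (q, p) ∈ TE K T) ∧
    (∀ P ∈ TT K T, ∀ a ∈ P, a ∈ K ∧ ∀ b ∈ P, a ≠ b → (a, b) ∈ TE K T) ∧
    (∀ a b c d, (a, b) ∈ TE K T → (c, d) ∈ TE K T → ¬ Link a b c d) ∧
    (∀ p b c c', Nx K T p b c → Nx K T p b c' → c = c') ∧
    ∀ p b c v w, Nx K T p b c → ({p, b, v} : Set Circle) ∈ TT K T → Ccw p v b →
      ({p, b, w} : Set Circle) ∈ TT K T → Ccw b w p → v = c ∧ Nx K T b p w

/-- PCT (200 lines; uses ARX RTX RTM TSD FNP SID TEU): the image triangles are pieces. Proofs. `symm`: TEU 1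
and the definition of `TL`. `ne`: definition of `TE`. `three`: `{a, b, c}`, `Ccw a b c`. `unl`: let
`P = {a, b, c}` be the image of the triangle `x, y, z` and `(p, q)` the image of `(u, v) ∈ T`, `p ≠ q`.
TSD (1): `x, y, z ∈ Arc u v`, so `a, b, c ∈ Arc p q` by RTM (2); or `x, y, z ∈ Arc v u`, so
`a, b, c ∈ Arc q p`. `side`: SID for `(p, q)`: `{p, v, q} ∈ TT`, `Ccw p v q`. `sep`: let `P = {a, b, c}`,
`P' = {a', b', c'}` be the images of the triangles `x, y, z` and `x', y', z'`. If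
`{x, y, z} = {x', y', z'}` then `P = P'` (RTX 2). Otherwise by TSD (2) and cyclic symmetry we may assume
`x', y', z' ∈ Arc x y`, so `P' ⊆ Arc a b` (RTM 2). The edge `(b, a)`: it is in `TE`; `P ⊆ Arc b a`
(`Ccw b c a`); `c ∈ K` is strictly between `b` and `a`, and one of the three different points
of `P'` is strictly between `a` and `b`, so `(b, a) ∈ TL`. `fin`: let `P`, `P'` be as before and
`(p, q) ∈ TL` the image of `(u, v) ∈ T` with `P ⊆ Arc p q`, `P' ⊆ Arc q p`. By TSD (1)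
`x, y, z ∈ Arc u v`, because `x, y, z ∈ Arc v u` would give `P ⊆ Arc q p` (RTM 2), so `P ⊆ {p, q}` (ARX 2),
impossible. In the same way `x', y', z' ∈ Arc v u`. By FNP for `x, y` and `x', y'` there are only
finitely many such `(u, v)`, and `(p, q)` is determined by `(u, v)` (RTX 2). The last claim is clear. -/
def Stmt_PCT : Prop :=
  ∀ (K : Set Circle) (T : Set (Circle × Circle)), Big K → Tri T →
    Pieces (TT K T) (TL K T) ∧ Trs (TT K T)

/-- NSQ (150 lines): nested edges at a point. Proof. Let `(x₀, y₀) ∈ T`. Exchange `x₀` and `y₀` if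
necessary such that `q = exp v`, `x₀ = exp s₀`, `y₀ = exp t₀` with `s₀ < v ≤ t₀ < s₀ + 2π`: (`x₀ ≠ y₀`;
`q_ANG` 3; if `q = x₀` or if `q` is strictly between `y₀` and `x₀`, use the edge `(y₀, x₀)` with the real
numbers `t₀` and `s₀ + 2π`). Let `p = exp ϖ`, `v - 2π < ϖ < v`, and `k = exp κ` with `v < κ < ϖ + 2π`
(`q_ANG` 2, from `Ccw p q k`), `u₀ = max s₀ ϖ < v`. The edges `(exp r, exp t) ∈ T` with
`u₀ ≤ r < v`, `max v κ ≤ t ≤ t₀` have size `2 sin ((t - r) / 2)` with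
`0 < κ - v ≤ t - r ≤ t₀ - s₀ < 2π`, which is at least `min (2 sin ((κ - v) / 2)) (2 sin ((t₀ - s₀) / 2)) > 0`
(if `κ ≤ t₀`; otherwise there are no such edges): by `Tri.fin` there are only finitely many (`exp` is
injective on `[s₀, s₀ + 2π)`), so there is `u₁` with `u₀ < u₁ < v` such that there is no such edge with
`u₁ < r < v`. `q_NST` for `E = T` (`Splits T` is `Tri.third`) and `u₁ < v`:
`s ≤ u₁ < r < v ≤ t ≤ t₀` with `(exp r, exp t) ∈ T`. So `t < κ`. Take `x = exp r`, `y = exp t`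
(`q_ANG` 1). -/
def Stmt_NSQ : Prop :=
  ∀ T : Set (Circle × Circle), Tri T → ∀ p q k : Circle, Ccw p q k →
    ∃ x y, (x, y) ∈ T ∧ Ccw p x q ∧ (y = q ∨ Ccw q y k)

/-- GP2 (80 lines; uses RTX NSQ): image edges at a gap. Proof. NSQ: `(x, y) ∈ T`, `Ccw p x q`, and `y = q`
or `Ccw q y k`. `Ret K x p` by RTX (5). If `y = q`: `Ret K q q` (RTX 3), so `(p, q) ∈ TE K T`. Let
`Ccw q y k`, and `Ret K y v` (RTX 1). If `v = q` the same. If `v = y` we are done: `Ccw q v k`. Otherwise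
`q ∈ K`, `q ≠ v`, so `¬ Ccw v q y`, so `Ccw v y q` (`q_CYO` 3), that is `Ccw q v y`, and with `Ccw q y k`:
`Ccw q v k` (`q_CYO` 4). `v ≠ p` since `Ccw p q k`, `Ccw q v k`. -/
def Stmt_GP2 : Prop :=
  ∀ (K : Set Circle) (T : Set (Circle × Circle)), Big K → Tri T → ∀ p q k : Circle, Gap K p q →
    Ccw p q k → ∃ v, (p, v) ∈ TE K T ∧ (v = q ∨ Ccw q v k)

/-- TNE (80 lines; uses RTX SID GP2): there are image triangles. Proof. If `K` has a gap `(p, q)`: `K` has
three points, so there is `k ∈ K`, `k ≠ p, q`, `Ccw p q k` (`k` is not strictly between `p` and `q`). GP2: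
`(p, v) ∈ TE`. `K` has a third point `k' ≠ p, v`: `Ccw p k' v` or `Ccw v k' p`; SID for `(p, v)` or for
`(v, p)` (`TE` is symmetric because `T` is). If `K` has no gap then `K` is the whole circle (RTX 1, 4), so
`TE K T ⊇ T` (RTX 3), and SID for any `(x, y) ∈ T` (there is a point between `x` and `y`). -/
def Stmt_TNE : Prop :=
  ∀ (K : Set Circle) (T : Set (Circle × Circle)), Big K → Tri T → (TT K T).Nonempty

/-- FAN (200 lines; uses SID TEU PCT GP2): the vertices near a gap. Proof. Let `k₀ ∈ K`, `k₀ ≠ p, q`, so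
`Ccw p q k₀` and `Ccw q k₀ p`. (A) If `(p, q) ∈ TE`, then `(q, p) ∈ TE` and SID for `(q, p)` and `k₀`
gives `{q, v, p} ∈ TT`. (B) Suppose `(p, q) ∉ TE`. GP2 for `k₀`: `(p, v₀) ∈ TE`, `v₀ ≠ q`, so
`Ccw q v₀ k₀`, so `Ccw p q v₀`. If `(p, v) ∈ TE` and `Ccw p q v` then SID for `(p, v)` and `q ∈ K` gives
`v'` with `Nx K T p v v'`; `(p, v') ∈ TE` (TEU 2), `v' ∈ K`, `Ccw p v' v`, `v' ≠ q` (as
`(p, q) ∉ TE`), and not `Ccw p v' q` (gap), so `Ccw p q v'`. So by recursion there is the sequence `v j`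
with `Nx K T p (v j) (v (j + 1))`, `(p, v j) ∈ TE`, `Ccw p q (v j)`. (C) `q` is not in a triangle: let
`q ∈ P ∈ TT`, and `a ∈ P`, `a ≠ q, p` (`P` has three points), `Ccw p q a` (`a ∈ K`). GP2 for `a`:
`(p, v) ∈ TE` with `Ccw q v a` (`v ≠ q`). `(q, a) ∈ TE` (TEU 2) and `Link p v q a` (`q_LKC`: `Ccw p q v`,
`Ccw v a p`): a contradiction to TEU (3). (D) Exhaustion: let `Ccw p q k`. GP2 for `k`: `(p, u) ∈ TE`,
`Ccw q u k`. Suppose `Ccw q u (v j)` for all `j`. SID for `(p, u)` and `q`: `P' = {p, u', u} ∈ TT` with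
`P' ⊆ Arc p u ⊆ Arc p (v j)`; and `P = {p, v 1, v 0} ⊆ Arc (v j) p` for `j ≥ 1`. `(p, v j) ∈ TL` for
`j ≥ 1` (`q` on one side, `v 0` on the other), and the `v j` are different: a contradiction to
`Pieces.fin` (PCT). So some `j` does not satisfy `Ccw q u (v j)`: `v j = u` or `Ccw q (v j) u`, so
`Ccw q (v j) k`. (E) Let `(p, u) ∈ TE`, `Ccw q u (v 0)`. By (D) for `k = u` there is a smallest `j` with
`v j = u` or `Ccw q (v j) u`; `j > 0`. If `v j ≠ u` then `v j`, `u`, `v (j - 1)` are in this order, and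
`(v j, v (j - 1)) ∈ TE` is linked with `(p, u)`: a contradiction to TEU (3). -/
def Stmt_FAN : Prop :=
  ∀ (K : Set Circle) (T : Set (Circle × Circle)), Big K → Tri T → ∀ p q : Circle, Gap K p q →
    (∃ P ∈ TT K T, p ∈ P) ∧
    (((p, q) ∈ TE K T ∧ ∃ v, Nx K T q p v) ∨
      ((p, q) ∉ TE K T ∧ (∀ P ∈ TT K T, q ∉ P) ∧ ∃ v : ℕ → Circle,
        (∀ j, Nx K T p (v j) (v (j + 1)) ∧ Ccw p q (v j) ∧ (p, v j) ∈ TE K T) ∧
        (∀ k, Ccw p q k → ∃ j, Ccw q (v j) k) ∧
        ∀ u, (p, u) ∈ TE K T → Ccw q u (v 0) → ∃ j, u = v j))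

end Pool.SH
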