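import Pool.Agent.Work.MP_ae1ff6_sh.InterfaceL
import Pool.Agent.Work.MP_ae1ff6_sh.InterfaceG

/-!
# Mapping classes of infinite order (MP_ae1ff6_gt): the global developing map and the theorem (part 5)

Block `X`: file `Pool/Agent/Work/MP_ae1ff6_sh/B_X.lean`, `import Pool.Agent.Work.MP_ae1ff6_sh.InterfaceZ`,
`namespace Pool.SH`, the `open` lines of this file, `theorem p_X (h1 : Stmt_Y) .. : Stmt_X` with exactly the
blocks of the column `uses`, in this order, as hypotheses; auxiliary lemmas with the prefix `X_`. Proved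
facts: as in `InterfaceL.lean` and `InterfaceG.lean`.
-/

open Topology Filter Set
open scoped ComplexConjugate

set_option autoImplicit false

namespace Pool.SH

open Pool.CG Pool.AR

/-- the vertex sets of the regions -/
def VV (ℛ : Set (Set Circle)) (T : Set Circle → Set (Circle × Circle)) : Set (Set Circle) :=
  {V | ∃ K ∈ ℛ, V = Vt K (T K)}

/-- what is used about the triangles of the regions -/
def FanHyp (ℛ : Set (Set Circle)) (T : Set Circle → Set (Circle × Circle)) : Prop :=
  ∀ K ∈ ℛ, (TT K (T K)).Nonempty ∧ (∀ P ∈ TT K (T K), P ⊆ K) ∧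
    ∀ p q, Gap K p q → ∃ P ∈ TT K (T K), p ∈ P

/-- VPC (150 lines; uses ARX PC1): the vertex sets are pieces. Proof. (0) `Vt K ⊆ K`, and `Vt K` contains three
points in counterclockwise order (a triangle of `TT`). (1) If `(p, q) ∈ Λ` and `At K p q`, then `Gap K q p`
(a point `k ∈ K ⊆ Arc p q` with `Ccw q k p` is impossible by ARX 2, or `q_CYO`), so `p ∈ Vt K` (end of a gap)
and `q ∈ Vt K` (`FanHyp`: the beginning of a gap is a vertex of a triangle): `At (Vt K) p q`. Conversely, if
`At (Vt K) p q` then `p, q ∈ K`, and `K ⊆ Arc p q` or `K ⊆ Arc q p` (`unl`); the second case is impossible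
(`Vt K` would be contained in `Arc p q ∩ Arc q p`, ARX 2, but it has three points). (2) Injectivity: if
`K ≠ K'` then `Pieces.sep` gives `(p, q)` with `K ⊆ Arc p q`, `K' ⊆ Arc q p`, so `Vt K ∩ Vt K' ⊆ {p, q}`, and
`Vt K = Vt K'` would have at most two points. (3) The fields of `Pieces`: `symm`, `ne`: the same `Λ`.
`three`: (0). `unl`: `Vt K ⊆ K`. `side`: the side `K` of `(p, q)` and (1). `sep`: `Pieces.sep` for `K`, `K'`
and (1), `Vt K' ⊆ K'`. `fin`: if `Vt K ⊆ Arc a.1 a.2` and `Vt K' ⊆ Arc a.2 a.1`, then `K ⊆ Arc a.1 a.2` and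
`K' ⊆ Arc a.2 a.1` (as in (1): the other alternative of `unl` contradicts three points), so the set is
contained in the finite set for `K`, `K'`. -/
def Stmt_VPC : Prop :=
  ∀ (G : Subgroup H) (Λ : Set (Circle × Circle)) (ℛ : Set (Set Circle))
    (T : Set Circle → Set (Circle × Circle)), Net G Λ ℛ T → FanHyp ℛ T →
    Pieces (VV ℛ T) Λ ∧ Set.InjOn (fun K => Vt K (T K)) ℛ ∧
    ∀ K ∈ ℛ, ∀ p q, (p, q) ∈ Λ → (At K p q ↔ At (Vt K (T K)) p q)

/-- The output of part 4: developing maps of the regions. -/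
def Stmt_DEL : Prop :=
  ∀ (G : Subgroup H) (Λ : Set (Circle × Circle)) (ℛ : Set (Set Circle))
    (T : Set Circle → Set (Circle × Circle)), Net G Λ ℛ T → ∃ δ : Set Circle → Circle → Circle,
    (∀ K ∈ ℛ, CyOn (δ K) (Vt K (T K))) ∧
    (∀ K ∈ ℛ, ∀ g ∈ G, ∃ m : H, IsMob m ∧
      ∀ x ∈ Vt K (T K), δ ((g : H) '' K) (g x) = m (δ K x)) ∧
    ∀ p q K K', (p, q) ∈ Λ → K ∈ ℛ → K' ∈ ℛ → At K p q → At K' q p →
      ∀ g ∈ G, g p = p → g q = q → ∃ μ : ℝ, 0 < μ ∧
        (∀ x ∈ Vt K (T K), x ≠ p → x ≠ q → dist (δ K (g x)) (δ K p) * dist (δ K x) (δ K q) =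
          μ * (dist (δ K x) (δ K p) * dist (δ K (g x)) (δ K q))) ∧
        ∀ x ∈ Vt K' (T K'), x ≠ p → x ≠ q → dist (δ K' (g x)) (δ K' p) * dist (δ K' x) (δ K' q) =
          μ * (dist (δ K' x) (δ K' p) * dist (δ K' (g x)) (δ K' q))

/-- DIR (200 lines): an element of a convergence group with two fixed points `p`, `q` moves all other points
from `p` to `q` or all from `q` to `p`. Proof. `h` has no third fixed point: `Pool.AR.q_FXT`
(`Pool.AR.Stmt_FXT`; three different fixed points of `h ∈ G` imply `h = 1`). So on the open arc from `p` to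
`q` (coordinates `q_CUT` cut at `p`; `h` preserves the arc and the order of the coordinates, as `Ori h`,
`h p = p`, `h q = q`) the continuous function `area p x (h x)` does not vanish, so it has a constant sign
(the arc is connected): all `x` satisfy `Ccw p x (h x)` (direction `+`, towards `q`) or all satisfy
`Ccw p (h x) x` (direction `-`). In the same way on the open arc from `q` to `p`: all `Ccw q x (h x)`
(direction `+`, towards `p`) or all `Ccw q (h x) x` (direction `-`, towards `q`). Claim: the directions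
are not both `+` and not both `-` (replace `h` by `h⁻¹`: both `+`). Let `x` be in the first arc, `y` in the
second. The points `h ^ (-n) x` are decreasing in the first arc, so they converge, and the limit is a fixed
point: it is `p`; in the same way `h ^ n x → q` and `h ^ (-n) y → q`. The triple
`(h ^ (-n) x, h ^ (-n) y, x)` converges to `(p, q, x)` and its image `(x, y, h ^ n x)` under `h ^ n` to
`(x, y, q)`. So there is `ε > 0` such that `Mv ε (h ^ n)` for all large `n`; the `h ^ n ∈ G` are different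
(`h ^ n x` is strictly monotone): a contradiction to `Conv G`. -/
def Stmt_DIR : Prop :=
  ∀ G : Subgroup H, Conv G → ∀ h ∈ G, Ori h → h ≠ 1 → ∀ p q : Circle, p ≠ q → h p = p → h q = q →
    ((∀ x, Ccw p x q → Ccw p x (h x)) ∧ ∀ x, Ccw q x p → Ccw q (h x) x) ∨
    ((∀ x, Ccw p x q → Ccw p (h x) x) ∧ ∀ x, Ccw q x p → Ccw q x (h x))

/-- NSW (60 lines; uses DIR): no element of `G` exchanges two points. Proof. Let `g p = q`, `g q = p`,
`h = g * g`: it fixes `p` and `q`. If `h = 1` then `g ^ 2 = 1`, so `g = 1`, `p = q`. Otherwise DIR for `h`,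
say the first case (the second one is the same). Let `Ccw p x q` (there is such a point: the midpoint of
the arc). Then `Ccw p x (h x)`; apply `g` (`Ori g`): `Ccw q (g x) (g (h x))`, and `g (h x) = h (g x)`, and
`Ccw q (g x) p`; but DIR says `Ccw q (h (g x)) (g x)`: a contradiction (`q_CYO`). -/
def Stmt_NSW : Prop :=
  ∀ G : Subgroup H, Conv G → (∀ g ∈ G, Ori g) → (∀ g ∈ G, ∀ n : ℕ, 0 < n → g ^ n = 1 → g = 1) →
    ∀ p q : Circle, p ≠ q → ∀ g ∈ G, g p = q → g q = p → False

/-- WIT (200 lines; uses NSW PC1): witnesses on the two sides of each line, compatible with `G`. Proof. Call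
`e = (p, q)` and `e' = (p', q')` in `Λ` equivalent if some `g ∈ G` maps `e` to `e'` or to `(q', p')`. Let `r e` be
a representative of the class (`Quotient.out` for the setoid on `Λ`). For a representative `r = (r₁, r₂)` choose
`K, K' ∈ ℛ` with `At K r₁ r₂`, `At K' r₂ r₁` (`Pieces.side`) and points `a r ∈ Vt K`, `b r ∈ Vt K'`, different
from `r₁`, `r₂` (`Vt` has three points: the hypothesis `h3`). For `e = (p, q) ∈ Λ` let `h e ∈ G` be an element
which maps `r e` to `(p, q)` (case A) or to `(q, p)` (case B), chosen such that `h (q, p) = h (p, q)` (choose it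
for the one of the pairs `(p, q)`, `(q, p)` with the smaller first coordinate; for example with the
coordinate `θ` of `q_CUT`; the two pairs have the same representative). Let `v p q = h e (a (r e))` in case A
and `v p q = h e (b (r e))` in case B; outside of `Λ` let `v p q = p`. `h e` maps `K` to a region `h e '' K`
(`keepK`), and `Vt` is preserved: the hypothesis `hV`. In case A it satisfies `At _ p q` (`Ori`: the image of
`Arc r₁ r₂` is `Arc p q`), in case B `h e '' K'` satisfies `At _ p q`. The region with `At _ p q` is unique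
(PC1 b), so `v p q` is in `Vt` of it. For `g ∈ G`, `e = (p, q)`, `e'' = (g p, g q)`: the representatives are
equal; `s = h e'' * (h e)⁻¹ * g⁻¹ ∈ G` maps the set `{g p, g q}` to itself, so by NSW it fixes `g p` and `g q`,
and so the cases for `e` and `e''` are the same; `v (g p) (g q) = h e'' a = s (g (h e a)) = s (g (v p q))`
(or the same with `b`), and for the reversed pairs, with the same `s` (as `h (q, p) = h (p, q)`),
`v (g q) (g p) = s (g (v q p))`. -/
def Stmt_WIT : Prop :=
  ∀ (G : Subgroup H) (Λ : Set (Circle × Circle)) (ℛ : Set (Set Circle))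
    (T : Set Circle → Set (Circle × Circle)), Net G Λ ℛ T →
    (∀ K ∈ ℛ, ∀ p q, ∃ x ∈ Vt K (T K), x ≠ p ∧ x ≠ q) →
    (∀ g ∈ G, ∀ K ∈ ℛ, ∀ x ∈ Vt K (T K), g x ∈ Vt ((g : H) '' K) (T ((g : H) '' K))) →
    ∃ v : Circle → Circle → Circle,
      (∀ K ∈ ℛ, ∀ p q, (p, q) ∈ Λ → At K p q → v p q ∈ Vt K (T K) ∧ v p q ≠ p ∧ v p q ≠ q) ∧
      ∀ g ∈ G, ∀ p q, (p, q) ∈ Λ → ∃ s ∈ G, s (g p) = g p ∧ s (g q) = g q ∧
        v (g p) (g q) = s (g (v p q)) ∧ v (g q) (g p) = s (g (v q p))

/-- GLB (250 lines; uses MXI GLV GUN PC1 VPC DEL WIT): the global developing map. Proof. `δ` from DEL, `v` from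
WIT. (0) The first hypothesis of WIT: `Vt K` has three points (`Pieces.three`, VPC). Let `ι V` be the region
`K ∈ ℛ` with `Vt K (T K) = V` (unique by VPC) and `δ' V = δ (ι V)`. GLV for `VV ℛ T`, `Λ`, `δ'`, `v`, `t = 1`: its
hypotheses follow from DEL, WIT and VPC (3). It gives `m`, `d` with `d x = m V (δ K x)` for `V = Vt K`,
`x ∈ V`, `CyOn d`, and `X (d p) (d q) (d (v p q)) (d (v q p)) = 1`. (1) Let `g ∈ G`. GUN for `d` and
`d' x = d (g x)` on `VV ℛ T`. On `V = Vt K` let `V'' = Vt (g '' K)` (`hV`: `g x ∈ V''`) and `n` the Möbius map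
of DEL: `d (g x) = m V'' (δ (g '' K) (g x)) = m V'' (n (δ K x)) = (m V'' * n * (m V)⁻¹) (d x)`. Let `(p, q) ∈ Λ`,
`At V p q`, `At V' q p`, `V = Vt K`, `V' = Vt K'`, `v = v p q ∈ V`, `w = v q p ∈ V'`, `s` from WIT. We know
`X (d p) (d q) (d v) (d w) = 1` and `X (d (g p)) (d (g q)) (d (s (g v))) (d (s (g w))) = 1` (the line
`(g p, g q) ∈ Λ`, WIT). (2) Claim: `X (d (g p)) (d (g q)) (d (s (g v))) (d (s (g w))) =
X (d (g p)) (d (g q)) (d (g v)) (d (g w))`. Let `K₁ = g '' K`, `K₁' = g '' K'` (`At K₁ (g p) (g q)`,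
`At K₁' (g q) (g p)`), `p₁ = g p`, `q₁ = g q`; DEL (3) for `s`: `μ`. With `R y = dist (d y) (d p₁) / dist (d y) (d q₁)`
we have `X (d p₁) (d q₁) (d y) (d y') = R y / R y'`. For `y = g v ∈ Vt K₁`: `d = m _ ∘ δ K₁` on `Vt K₁`, and
`MXI` (2): a Möbius map multiplies `dist y p / dist y q` by a constant; so DEL (3) gives
`R (s y) = μ * R y` (`s y ∈ Vt K₁` because `s '' K₁ = K₁`: both are the region with `At _ p₁ q₁`, PC1 b; `hV`);
in the same way `R (s y') = μ * R y'` for `y' = g w ∈ Vt K₁'`. The factors `μ` cancel. So the `X` condition of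
GUN holds, and GUN gives the Möbius map for `g`. -/
def Stmt_GLB : Prop :=
  ∀ (G : Subgroup H) (Λ : Set (Circle × Circle)) (ℛ : Set (Set Circle))
    (T : Set Circle → Set (Circle × Circle)), Net G Λ ℛ T → FanHyp ℛ T →
    (∀ g ∈ G, ∀ K ∈ ℛ, ∀ x ∈ Vt K (T K), g x ∈ Vt ((g : H) '' K) (T ((g : H) '' K))) →
    ∃ d : Circle → Circle, CyOn d (⋃₀ VV ℛ T) ∧
      ∀ g ∈ G, ∃ m : H, IsMob m ∧ ∀ x ∈ ⋃₀ VV ℛ T, d (g x) = m (d x)

/-- RLN (60 lines; uses GLB PIC): `G` is realized. Proof. `V = ⋃₀ VV ℛ T` is not empty, and invariant under `G`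
(`keepK`, `hV`), and `Γ ≤ G`; it contains a `Γ`-orbit, so it is dense (`FirstKind.dense`). PIC. -/
def Stmt_RLN : Prop :=
  ∀ (Γ G : Subgroup H) (Λ : Set (Circle × Circle)) (ℛ : Set (Set Circle))
    (T : Set Circle → Set (Circle × Circle)), FirstKind Γ → Γ ≤ G → Net G Λ ℛ T → FanHyp ℛ T →
    (∀ g ∈ G, ∀ K ∈ ℛ, ∀ x ∈ Vt K (T K), g x ∈ Vt ((g : H) '' K) (T ((g : H) '' K))) →
    RealizedW G

end Pool.SH
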